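import Pool.Agent.KS6_30.VA.Alg

set_option autoImplicit false
set_option linter.unusedSectionVars false

namespace Pool.Agent.KS6_30.VA

open Finset
open Tern

variable [Tern]

section

variable {R : Type*} [CommRing R]

/-- which minor -/
def qq (p : Fin 5 × Fin 5) (i : Fin 5) : Fin 5 × Fin 5 :=
  (![![![(0, 0), (0, 0), (0, 0), (0, 0), (0, 0)], ![(0, 0), (0, 0), (3, 4), (4, 2), (2, 3)], ![(0, 0), (4, 3), (0, 0), (1, 4), (3, 1)], ![(0, 0), (2, 4), (4, 1), (0, 0), (1, 2)], ![(0, 0), (3, 2), (1, 3), (2, 1), (0, 0)]],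
  ![![(0, 0), (0, 0), (4, 3), (2, 4), (3, 2)], ![(0, 0), (0, 0), (0, 0), (0, 0), (0, 0)], ![(3, 4), (0, 0), (0, 0), (4, 0), (0, 3)], ![(4, 2), (0, 0), (0, 4), (0, 0), (2, 0)], ![(2, 3), (0, 0), (3, 0), (0, 2), (0, 0)]],
  ![![(0, 0), (3, 4), (0, 0), (4, 1), (1, 3)], ![(4, 3), (0, 0), (0, 0), (0, 4), (3, 0)], ![(0, 0), (0, 0), (0, 0), (0, 0), (0, 0)], ![(1, 4), (4, 0), (0, 0), (0, 0), (0, 1)], ![(3, 1), (0, 3), (0, 0), (1, 0), (0, 0)]],
  ![![(0, 0), (4, 2), (1, 4), (0, 0), (2, 1)], ![(2, 4), (0, 0), (4, 0), (0, 0), (0, 2)], ![(4, 1), (0, 4), (0, 0), (0, 0), (1, 0)], ![(0, 0), (0, 0), (0, 0), (0, 0), (0, 0)], ![(1, 2), (2, 0), (0, 1), (0, 0), (0, 0)]],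
  ![![(0, 0), (2, 3), (3, 1), (1, 2), (0, 0)], ![(3, 2), (0, 0), (0, 3), (2, 0), (0, 0)], ![(1, 3), (3, 0), (0, 0), (0, 1), (0, 0)], ![(2, 1), (0, 2), (1, 0), (0, 0), (0, 0)], ![(0, 0), (0, 0), (0, 0), (0, 0), (0, 0)]]] : Fin 5 → Fin 5 → Fin 5 → Fin 5 × Fin 5) p.1 p.2 i

set_option maxHeartbeats 8000000 in
theorem ml_mu (x : Fin 5 → R) (p : Fin 5 × Fin 5) (i : Fin 5) :
    ml (mu x p) x i = mm x (qq p i) := by
  obtain ⟨j, k⟩ := p
  fin_cases j <;> fin_cases k <;> fin_cases i <;>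
    simp [ml, mu, mm, wedge, hes, cross, av, qq] <;> ring

/-- the ideal of the minors of order 2 -/
def mI (x : Fin 5 → R) : Ideal R :=
  Ideal.span (Set.range fun q : (Fin 5 × Fin 5) × Fin 3 => mu x q.1 q.2)

theorem prod_mem (x : Fin 5 → R) (i j : Fin 5) : x i * x j ∈ mI x := by
  have hq : ∀ p i, Ideal.Quotient.mk (mI x) (mu x p i) = 0 := fun p i =>
    Ideal.Quotient.eq_zero_iff_mem.2 (Ideal.subset_span ⟨(p, i), rfl⟩)
  rw [← Ideal.Quotient.eq_zero_iff_mem, map_mul]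
  have h010 := hq (0, 1) 0
  have h011 := hq (0, 1) 1
  have h012 := hq (0, 1) 2
  have h020 := hq (0, 2) 0
  have h021 := hq (0, 2) 1
  have h022 := hq (0, 2) 2
  have h030 := hq (0, 3) 0
  have h031 := hq (0, 3) 1
  have h040 := hq (0, 4) 0
  have h042 := hq (0, 4) 2
  have h120 := hq (1, 2) 0
  have h131 := hq (1, 3) 1
  have h132 := hq (1, 3) 2
  have h141 := hq (1, 4) 1
  have h142 := hq (1, 4) 2
  have h232 := hq (2, 3) 2
  have h241 := hq (2, 4) 1
  have h340 := hq (3, 4) 0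
  simp only [mu, cross, av, Matrix.cons_val, Matrix.cons_val_zero, Matrix.cons_val_one, map_sub, map_mul,
    map_neg, map_zero, map_intCast, map_add] at h010 h011 h012 h020 h021 h022 h030 h031 h040 h042 h120 h131 h132 h141 h142 h232 h241 h340
  set X : Fin 5 → R ⧸ mI x := fun i => Ideal.Quotient.mk (mI x) (x i) with hX
  have e : ∀ i, Ideal.Quotient.mk (mI x) (x i) = X i := fun i => rfl
  rw [e, e]
  simp only [e] at h010 h011 h012 h020 h021 h022 h030 h031 h040 h042 h120 h131 h132 h141 h142 h232 h241 h340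
  obtain ⟨u1, v1, k1⟩ := ab
  obtain ⟨u2, v2, k2⟩ := bc
  obtain ⟨u3, v3, k3⟩ := ca
  have k1' : (u1 : R ⧸ mI x) * fa + v1 * fb = 1 := by exact_mod_cast congrArg (Int.cast : ℤ → R ⧸ mI x) k1
  have k2' : (u2 : R ⧸ mI x) * fb + v2 * fc = 1 := by exact_mod_cast congrArg (Int.cast : ℤ → R ⧸ mI x) k2
  have k3' : (u3 : R ⧸ mI x) * fc + v3 * fa = 1 := by exact_mod_cast congrArg (Int.cast : ℤ → R ⧸ mI x) k3
  have p34 : X 3 * X 4 = 0 := by linear_combination -h010
  have p24 : X 2 * X 4 = 0 := by linear_combination h011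
  have p23 : X 2 * X 3 = 0 := by linear_combination -h012
  have p14 : X 1 * X 4 = 0 := by linear_combination -h021
  have p13 : X 1 * X 3 = 0 := by linear_combination h022
  have c33 : (fc : R ⧸ mI x) * (X 3 * X 3) = 0 := by linear_combination -h120
  have a33 : (fa : R ⧸ mI x) * (X 3 * X 3) = 0 := by linear_combination -h042
  have p33 : X 3 * X 3 = 0 := by linear_combination -(X 3 * X 3) * k3' + u3 * c33 + v3 * a33
  have a44 : (fa : R ⧸ mI x) * (X 4 * X 4) = 0 := by linear_combination -h031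
  have b44 : (fb : R ⧸ mI x) * (X 4 * X 4) = 0 := by linear_combination h020 + c33
  have p44 : X 4 * X 4 = 0 := by linear_combination -(X 4 * X 4) * k1' + u1 * a44 + v1 * b44
  have c22 : (fc : R ⧸ mI x) * (X 2 * X 2) = 0 := by linear_combination -h131
  have b22 : (fb : R ⧸ mI x) * (X 2 * X 2) = 0 := by linear_combination h142 + a33
  have p22 : X 2 * X 2 = 0 := by linear_combination -(X 2 * X 2) * k2' + u2 * b22 + v2 * c22
  have p04 : X 0 * X 4 = 0 := by linear_combination h030 - (fc : R ⧸ mI x) * p23 - p14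
  have p03 : X 0 * X 3 = 0 := by linear_combination -h040 - (fb : R ⧸ mI x) * p24
  have p02 : X 0 * X 2 = 0 := by linear_combination h141
  have p12 : X 1 * X 2 = 0 := by linear_combination -h132 + (fa : R ⧸ mI x) * p34 - p02
  have p01 : X 0 * X 1 = 0 := by linear_combination -h241 - (fc : R ⧸ mI x) * a33
  have p11 : X 1 * X 1 = 0 := by linear_combination h232 + (fb : R ⧸ mI x) * a44 - p01
  have p00 : X 0 * X 0 = 0 := by linear_combination h340 + (fb : R ⧸ mI x) * c22 - p01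
  fin_cases i <;> fin_cases j <;> simp only [Fin.zero_eta, Fin.mk_one, Fin.reduceFinMk] <;>
    first
    | assumption
    | (rw [mul_comm]; assumption)

/-- unimodularity of `mu` -/
theorem mu_unimod {x : Fin 5 → R} (h : Unimod x) :
    ∃ e : Fin 5 × Fin 5 → Fin 3 → R, ∑ p, ∑ i, e p i * mu x p i = 1 := by
  obtain ⟨a, ha⟩ := h
  have h1 : (1 : R) ∈ mI x := by
    have : (1 : R) = ∑ i, ∑ j, (a i * a j) * (x i * x j) := by
      calc (1 : R) = (∑ i, a i * x i) * (∑ j, a j * x j) := by rw [ha, one_mul]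
        _ = _ := by
          rw [Finset.sum_mul_sum]
          exact Finset.sum_congr rfl fun i _ => Finset.sum_congr rfl fun j _ => by ring
    rw [this]
    exact Ideal.sum_mem _ fun i _ => Ideal.sum_mem _ fun j _ => Ideal.mul_mem_left _ _ (prod_mem x i j)
  obtain ⟨f, hf⟩ := Ideal.mem_span_range_iff_exists_fun.1 h1
  refine ⟨fun p i => f (p, i), ?_⟩
  rw [← hf, Fintype.sum_prod_type (f := fun q : (Fin 5 × Fin 5) × Fin 3 => f q * mu x q.1 q.2)]

end

end Pool.Agent.KS6_30.VA
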