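import Pool.Agent.KS6_30.VA.Cnt2

set_option autoImplicit false
set_option linter.unusedSectionVars false
set_option linter.style.haveILetI false

namespace Pool.Agent.KS6_30.VA

open Finset
open Tern

variable [Tern]

theorem finite_box {ι : Type*} [Finite ι] (a : ι → ℝ) (L : ℝ) :
    {x : ι → ℤ | ∀ i, |(x i : ℝ) - a i| ≤ L}.Finite := by
  refine (Set.Finite.pi' fun i : ι => Set.finite_Icc (⌈a i - L⌉) (⌊a i + L⌋)).subset ?_
  intro x hx i
  have h := abs_le.1 (hx i)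
  exact ⟨Int.ceil_le.2 (by linarith), Int.le_floor.2 (by linarith)⟩

theorem box : S_BOX := by
  obtain ⟨C0, hC0, hcq⟩ := cq1
  refine ⟨C0, by exact_mod_cast hC0, ?_⟩
  intro q hq a L hL
  haveI : NeZero q := ⟨hq.ne'⟩
  have hfin : {x : Fin 5 → ℤ | (∀ i, |(x i : ℝ) - a i| ≤ L) ∧ red q x ∈ CC q}.Finite :=
    (finite_box a L).subset fun x hx => hx.1
  refine ⟨hfin, ?_⟩
  set N : ℕ := ⌊2 * L / q⌋₊ with hN
  have hq' : (0 : ℝ) < q := by exact_mod_cast hq
  let m : Fin 5 → ℤ := fun i => ⌈a i - L⌉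
  have hdiv : ∀ x : Fin 5 → ℤ, (∀ i, |(x i : ℝ) - a i| ≤ L) → ∀ i,
      0 ≤ (x i - m i) / (q : ℤ) ∧ ((x i - m i) / (q : ℤ)).toNat < N + 1 := by
    intro x hx i
    have h := abs_le.1 (hx i)
    have h1 : m i ≤ x i := Int.ceil_le.2 (by linarith)
    have h2 : ((m i : ℤ) : ℝ) ≥ a i - L := Int.le_ceil _
    have h3 : 0 ≤ (x i - m i) / (q : ℤ) := Int.ediv_nonneg (by omega) (by positivity)
    refine ⟨h3, Nat.lt_succ_of_le (Nat.le_floor ?_)⟩
    have h4 : (((x i - m i) / (q : ℤ)).toNat : ℝ) = (((x i - m i) / (q : ℤ) : ℤ) : ℝ) := by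
      rw [← Int.cast_natCast, Int.toNat_of_nonneg h3]
    rw [h4, le_div_iff₀ hq']
    have h5 : (x i - m i) / (q : ℤ) * q ≤ x i - m i := Int.ediv_mul_le _ (by positivity)
    have h6 : (((x i - m i) / (q : ℤ) : ℤ) : ℝ) * q ≤ ((x i - m i : ℤ) : ℝ) := by
      exact_mod_cast h5
    push_cast at h6 ⊢
    linarith
  have hcard : {x : Fin 5 → ℤ | (∀ i, |(x i : ℝ) - a i| ≤ L) ∧ red q x ∈ CC q}.ncard ≤
      ((Set.univ : Set (Fin 5 → Fin (N + 1))) ×ˢ CC q).ncard := by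
    refine Set.ncard_le_ncard_of_injOn
      (fun x => ((fun i => if h : ((x i - m i) / (q : ℤ)).toNat < N + 1 then
        (⟨((x i - m i) / (q : ℤ)).toNat, h⟩ : Fin (N + 1)) else 0), red q x)) ?_ ?_ ?_
    · intro x hx
      exact ⟨Set.mem_univ _, hx.2⟩
    · intro x hx y hy hxy
      have h1 := (Prod.ext_iff.1 hxy).1
      have h2 := (Prod.ext_iff.1 hxy).2
      funext i
      have h3 := congrFun h1 i
      simp only [(hdiv x hx.1 i).2, (hdiv y hy.1 i).2, dite_true, Fin.mk.injEq] at h3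
      have h4 : (x i - m i) / (q : ℤ) = (y i - m i) / (q : ℤ) := by
        have e1 := (hdiv x hx.1 i).1
        have e2 := (hdiv y hy.1 i).1
        omega
      have h5 : (x i - m i) % (q : ℤ) = (y i - m i) % (q : ℤ) := by
        have h6 := congrFun h2 i
        simp only [red] at h6
        have h7 := (ZMod.intCast_eq_intCast_iff' _ _ _).1 h6
        exact Int.ModEq.sub_right (m i) h7
      have h8 := Int.mul_ediv_add_emod (x i - m i) q
      have h9 := Int.mul_ediv_add_emod (y i - m i) q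
      rw [h4, h5] at h8
      linarith
    · exact Set.toFinite _
  have h1 : ((Set.univ : Set (Fin 5 → Fin (N + 1))) ×ˢ CC q).ncard = (N + 1) ^ 5 * cq q := by
    rw [Set.ncard_prod, Set.ncard_univ, Nat.card_eq_fintype_card, Fintype.card_fun,
      Fintype.card_fin, Fintype.card_fin, cq]
  have h2 : (N : ℝ) ≤ 2 * L / q := Nat.floor_le (by positivity)
  calc ({x : Fin 5 → ℤ | (∀ i, |(x i : ℝ) - a i| ≤ L) ∧ red q x ∈ CC q}.ncard : ℝ)
      ≤ (((N + 1) ^ 5 * cq q : ℕ) : ℝ) := by exact_mod_cast hcard.trans h1.le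
    _ ≤ C0 * ((2 * L / q + 2) ^ 5 * (q : ℝ) ^ 3) := by
      push_cast
      have h3 : (cq q : ℝ) ≤ C0 * (q : ℝ) ^ 3 := by exact_mod_cast hcq q hq
      calc ((N : ℝ) + 1) ^ 5 * (cq q : ℝ) ≤ (2 * L / q + 2) ^ 5 * (C0 * (q : ℝ) ^ 3) :=
            mul_le_mul (pow_le_pow_left₀ (by positivity) (by linarith) 5) h3 (by positivity)
              (by positivity)
        _ = _ := by ring

end Pool.Agent.KS6_30.VA
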