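import Pool.Agent.KS6_30.VA.Par

set_option autoImplicit false
set_option linter.unusedSectionVars false
set_option linter.style.haveILetI false

namespace Pool.Agent.KS6_30.VA

open Finset
open Tern

variable [Tern]

theorem zmod_local (p k : ℕ) (hp : p.Prime) (hk : 0 < k) : IsLocalRing (ZMod (p ^ k)) := by
  haveI : Fact (1 < p ^ k) := ⟨Nat.one_lt_pow hk.ne' hp.one_lt⟩
  haveI : Nontrivial (ZMod (p ^ k)) := ZMod.nontrivial _
  have key : ∀ a : ZMod (p ^ k), ¬ IsUnit a → (p : ZMod (p ^ k)) ∣ a := by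
    intro a ha
    haveI : NeZero (p ^ k) := ⟨(pow_pos hp.pos k).ne'⟩
    have h1 : ((a.val : ℕ) : ZMod (p ^ k)) = a := ZMod.natCast_zmod_val a
    rw [← h1, ZMod.isUnit_iff_coprime] at ha
    have h2 : p ∣ a.val := by
      by_contra hc
      exact ha (Nat.Coprime.pow_right k ((Nat.Prime.coprime_iff_not_dvd hp).2 hc).symm)
    rw [← h1]
    exact Nat.cast_dvd_cast h2
  refine IsLocalRing.of_nonunits_add fun a b ha hb => ?_
  intro hu
  have h1 : (p : ZMod (p ^ k)) ∣ a + b := dvd_add (key a ha) (key b hb)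
  have h2 : IsUnit (p : ZMod (p ^ k)) := isUnit_of_dvd_unit h1 hu
  rw [ZMod.isUnit_iff_coprime] at h2
  have h3 : p ∣ p ^ k := dvd_pow_self p hk.ne'
  have := Nat.Coprime.eq_one_of_dvd h2 h3
  exact hp.one_lt.ne' this

theorem ker_zmod (q : ℕ) (hq : 0 < q) : Ker (ZMod q) := by
  induction q using Nat.recOnPosPrimePosCoprime with
  | prime_pow p n hp hn =>
    haveI := zmod_local p n hp hn
    exact ker_of_local
  | zero => exact absurd hq (lt_irrefl _)
  | one =>
    intro x hx hm
    exact ⟨fun _ => 0, ⟨fun _ => 0, Subsingleton.elim _ _⟩, Subsingleton.elim _ _⟩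
  | coprime a b ha hb hab iha ihb =>
    exact ker_of_equiv (ZMod.chineseRemainder hab) (ker_prod (iha (by omega)) (ihb (by omega)))

theorem unit_DD {q : ℕ} (hq : Nat.Coprime q AA) : IsUnit ((DD : ℤ) : ZMod q) := by
  have h1 : IsUnit ((AA : ℕ) : ZMod q) := (ZMod.isUnit_iff_coprime _ _).2 hq.symm
  have h2 : ((DD : ℤ) : ZMod q) = ((AA : ℕ) : ZMod q) ∨ ((DD : ℤ) : ZMod q) = -((AA : ℕ) : ZMod q) := by
    rcases Int.natAbs_eq DD with h | h
    · left
      rw [h, DD_abs]
      simp
    · right
      rw [h, DD_abs]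
      simp
  rcases h2 with h2 | h2
  · rw [h2]; exact h1
  · rw [h2]; exact h1.neg

theorem par_zmod (q : ℕ) (hq : 0 < q) (hqA : Nat.Coprime q AA) : Par (ZMod q) :=
  par_of_ker (unit_DD hqA) (ker_zmod q hq)

theorem par : S_PAR := fun q hq hqA x hx => par_zmod q hq hqA x hx.1 hx.2

section

variable {R : Type*} [CommRing R]

theorem unimod_smul {ι : Type*} [Fintype ι] {x : ι → R} {c : R} (hc : IsUnit c)
    (h : Unimod x) : Unimod (c • x) := by
  obtain ⟨u, rfl⟩ := hc
  obtain ⟨a, ha⟩ := h
  refine ⟨fun i => ↑u⁻¹ * a i, ?_⟩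
  rw [← ha]
  refine Finset.sum_congr rfl fun i _ => ?_
  rw [Pi.smul_apply, smul_eq_mul]
  linear_combination (a i * x i) * Units.inv_mul u

theorem ml_add_left (l l' : Fin 3 → R) (x : Fin 5 → R) : ml (l + l') x = ml l x + ml l' x := by
  funext i
  fin_cases i <;> simp [ml] <;> ring

theorem ml_smul_right (c : R) (l : Fin 3 → R) (x : Fin 5 → R) : ml l (c • x) = c • ml l x := by
  funext i
  fin_cases i <;> simp [ml] <;> ring

theorem cross_cross_zero {a b l : Fin 3 → R} (ha : ∑ j, l j * a j = 0) (hb : ∑ j, l j * b j = 0) :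
    cross (cross a b) l = 0 := by
  rw [Fin.sum_univ_three] at ha hb
  funext i
  fin_cases i <;> simp [cross]
  · linear_combination b 0 * ha - a 0 * hb
  · linear_combination b 1 * ha - a 1 * hb
  · linear_combination b 2 * ha - a 2 * hb

theorem parallel_of_cross {a l e : Fin 3 → R} (he : ∑ i, e i * l i = 1) (h : cross a l = 0) :
    a = (∑ i, e i * a i) • l := by
  have h0 := congrFun h 0
  have h1 := congrFun h 1
  have h2 := congrFun h 2
  simp only [cross, Pi.zero_apply, Matrix.cons_val] at h0 h1 h2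
  rw [Fin.sum_univ_three] at he
  rw [Fin.sum_univ_three]
  funext i
  fin_cases i
  · simp only [Fin.zero_eta, Pi.smul_apply, smul_eq_mul]
    linear_combination -a 0 * he + e 1 * h2 - e 2 * h1
  · simp only [Fin.mk_one, Pi.smul_apply, smul_eq_mul]
    linear_combination -a 1 * he - e 0 * h2 + e 2 * h0
  · simp only [Fin.reduceFinMk, Pi.smul_apply, smul_eq_mul]
    linear_combination -a 2 * he + e 0 * h1 - e 1 * h0

/-- the representation `c • pf l` is unique up to units -/
theorem fib_unique (hD : IsUnit ((DD : ℤ) : R)) {c c' : R} {l l' : Fin 3 → R} (hc : IsUnit c) (hc' : IsUnit c')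
    (hl : Unimod l) (hl' : Unimod l') (h : c • pf l = c' • pf l') :
    ∃ v : R, IsUnit v ∧ l' = v • l ∧ c = c' * v ^ 2 := by
  have h1 : ml l' (pf l) = 0 := by
    have h2 : c • ml l' (pf l) = 0 := by
      rw [← ml_smul_right, h, ml_smul_right, ml_pf, smul_zero]
    obtain ⟨u, rfl⟩ := hc
    have := congrArg (fun z => (↑u⁻¹ : R) • z) h2
    simpa [smul_smul] using this
  have h0 : ml l (pf l) = 0 := ml_pf l
  have hl0 := hl
  obtain ⟨e, he⟩ := hl0
  obtain ⟨f, hf⟩ := mu_unimod (pf_unimod hD hl)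
  have hmu : ∀ p, mu (pf l) p = (∑ i, e i * mu (pf l) p i) • l := by
    intro p
    refine parallel_of_cross he (cross_cross_zero ?_ ?_)
    · rw [← ml_eq, h0]; rfl
    · rw [← ml_eq, h0]; rfl
  have hmu' : ∀ p, cross (mu (pf l) p) l' = 0 := by
    intro p
    refine cross_cross_zero ?_ ?_
    · rw [← ml_eq, h1]; rfl
    · rw [← ml_eq, h1]; rfl
  have hcr : cross l l' = 0 := by
    have e1 : ∀ p, (∑ i, e i * mu (pf l) p i) • cross l l' = 0 := by
      intro p
      rw [← hmu' p]
      conv_rhs => rw [hmu p]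
      funext i
      fin_cases i <;> simp [cross] <;> ring
    have e2 : cross l l' = (∑ p, (∑ i, f p i * l i) * (∑ i, e i * mu (pf l) p i)) • cross l l' := by
      conv_lhs => rw [← one_smul R (cross l l'), ← hf]
      congr 1
      refine Finset.sum_congr rfl fun p _ => ?_
      rw [Finset.sum_mul]
      refine Finset.sum_congr rfl fun i _ => ?_
      conv_lhs => rw [hmu p]
      rw [Pi.smul_apply, smul_eq_mul]
      ring
    rw [e2, Finset.sum_smul]
    refine Finset.sum_eq_zero fun p _ => ?_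
    rw [mul_smul, e1, smul_zero]
  have hcr' : cross l' l = 0 := by
    funext i
    have := congrFun hcr i
    fin_cases i <;> simp [cross] at this ⊢ <;> linear_combination -this
  have hv := parallel_of_cross he hcr'
  refine ⟨_, ?_, hv, ?_⟩
  · obtain ⟨e', he'⟩ := hl'
    rw [hv] at he'
    refine IsUnit.of_mul_eq_one (∑ i, e' i * l i) ?_
    rw [← he', Finset.mul_sum]
    refine Finset.sum_congr rfl fun i _ => ?_
    rw [Pi.smul_apply, smul_eq_mul]
    ring
  · obtain ⟨a, ha⟩ := pf_unimod hD hl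
    rw [hv, pf_smul, smul_smul] at h
    have h3 : ∀ i, c * pf l i = (c' * (∑ i, e i * l' i) ^ 2) * pf l i := fun i => congrFun h i
    have key : ∀ t : R, t = ∑ i, a i * (t * pf l i) := by
      intro t
      have : t = t * ∑ i, a i * pf l i := by rw [ha, mul_one]
      conv_lhs => rw [this, Finset.mul_sum]
      refine Finset.sum_congr rfl fun i _ => ?_
      ring
    rw [key c, key (c' * (∑ i, e i * l' i) ^ 2)]
    refine Finset.sum_congr rfl fun i _ => ?_
    rw [h3 i]

end

section count

variable {q : ℕ} [NeZero q]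

open Classical in
/-- the sum over the points of the cone, in terms of the parametrisation -/
theorem sum_param (hqA : Nat.Coprime q AA) (g : (Fin 5 → ZMod q) → ℂ) :
    ∑ u : (ZMod q)ˣ, ∑ l ∈ (univ.filter fun l : Fin 3 → ZMod q => Unimod l),
      g ((u : ZMod q) • pf l) =
    (Nat.totient q : ℂ) * ∑ x ∈ (univ.filter fun x : Fin 5 → ZMod q => x ∈ CC q), g x := by
  rw [← Finset.sum_product' (s := (univ : Finset (ZMod q)ˣ))
    (t := univ.filter fun l : Fin 3 → ZMod q => Unimod l)
    (f := fun u l => g ((u : ZMod q) • pf l))]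
  have hmap : ∀ z ∈ (univ : Finset (ZMod q)ˣ) ×ˢ
      (univ.filter fun l : Fin 3 → ZMod q => Unimod l),
      ((z.1 : ZMod q) • pf z.2) ∈ (univ.filter fun x : Fin 5 → ZMod q => x ∈ CC q) := by
    intro z hz
    simp only [mem_product, mem_univ, mem_filter, true_and] at hz ⊢
    refine ⟨unimod_smul z.1.isUnit (pf_unimod (unit_DD hqA) hz), ?_⟩
    rw [mm_smul, mm_pf, smul_zero]
  rw [← Finset.sum_fiberwise_of_maps_to hmap, Finset.mul_sum]
  refine Finset.sum_congr rfl fun x hx => ?_
  simp only [mem_filter, mem_univ, true_and] at hx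
  obtain ⟨c, l, ⟨u, rfl⟩, hl, hxe⟩ := par q (NeZero.pos q) hqA x hx
  rw [Finset.sum_congr rfl (g := fun _ => g x)]
  · rw [Finset.sum_const, nsmul_eq_mul]
    congr 2
    rw [← ZMod.card_units_eq_totient q, ← Finset.card_univ]
    symm
    refine Finset.card_bij (fun v _ => (u * v⁻¹ ^ 2, (v : ZMod q) • l)) ?_ ?_ ?_
    · intro v _
      simp only [mem_filter, mem_product, mem_univ, true_and]
      refine ⟨unimod_smul v.isUnit hl, ?_⟩
      rw [pf_smul, smul_smul, hxe]
      congr 1
      rw [Units.val_mul, Units.val_pow_eq_pow_val, mul_assoc, ← mul_pow, Units.inv_mul, one_pow,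
        mul_one]
    · intro v _ v' _ h
      have h2 : (v : ZMod q) • l = (v' : ZMod q) • l := (Prod.ext_iff.1 h).2
      obtain ⟨a, ha⟩ := hl
      refine Units.ext ?_
      have h3 : ∀ i, (v : ZMod q) * l i = v' * l i := fun i => congrFun h2 i
      have key : ∀ t : ZMod q, t = ∑ i, a i * (t * l i) := by
        intro t
        have : t = t * ∑ i, a i * l i := by rw [ha, mul_one]
        conv_lhs => rw [this, Finset.mul_sum]
        refine Finset.sum_congr rfl fun i _ => ?_
        ring
      rw [key v, key v']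
      refine Finset.sum_congr rfl fun i _ => ?_
      rw [h3 i]
    · intro z hz
      simp only [mem_filter, mem_product, mem_univ, true_and] at hz
      obtain ⟨v, ⟨v, rfl⟩, h1, h2⟩ := fib_unique (unit_DD hqA) u.isUnit z.1.isUnit hl hz.1
        (hxe.symm.trans hz.2.symm)
      refine ⟨v, mem_univ _, Prod.ext (Units.ext ?_) h1.symm⟩
      rw [Units.val_mul, h2, Units.val_pow_eq_pow_val, mul_assoc, ← mul_pow, Units.mul_inv, one_pow,
        mul_one]
  · intro z hz
    simp only [mem_filter] at hz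
    rw [hz.2]

end count

end Pool.Agent.KS6_30.VA
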