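import Pool.Agent.KS6_30.VA.Cnt

set_option autoImplicit false
set_option linter.unusedSectionVars false
set_option linter.style.haveILetI false

namespace Pool.Agent.KS6_30.VA

open Finset
open Tern

variable [Tern]

section

variable {ι : Type*} [Fintype ι]

theorem exists_comb_of_no_prime (x : ι → ℤ) (q : ℤ)
    (h : ∀ p : ℕ, p.Prime → (p : ℤ) ∣ q → ∃ i, ¬ (p : ℤ) ∣ x i) :
    ∃ (a : ι → ℤ) (b : ℤ), ∑ i, a i * x i + b * q = 1 := by
  have htop : Ideal.span (Set.range x) ⊔ Ideal.span {q} = ⊤ := by
    set I := Ideal.span (Set.range x) ⊔ Ideal.span {q} with hI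
    obtain ⟨d, hd⟩ := (IsPrincipalIdealRing.principal I).principal
    change I = Ideal.span {d} at hd
    have hdx : ∀ i, d ∣ x i := fun i => by
      rw [← Ideal.mem_span_singleton, ← hd]
      exact Ideal.mem_sup_left (Ideal.subset_span ⟨i, rfl⟩)
    have hdq : d ∣ q := by
      rw [← Ideal.mem_span_singleton, ← hd]
      exact Ideal.mem_sup_right (Ideal.mem_span_singleton_self q)
    by_contra hne
    have hd1 : d.natAbs ≠ 1 := by
      intro hd1
      apply hne
      rw [hd, Ideal.span_singleton_eq_top]
      exact Int.isUnit_iff_natAbs_eq.2 hd1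
    obtain ⟨p, hp, hpd⟩ := Nat.exists_prime_and_dvd hd1
    have hpd' : (p : ℤ) ∣ d := Int.natCast_dvd.2 hpd
    obtain ⟨i, hi⟩ := h p hp (hpd'.trans hdq)
    exact hi (hpd'.trans (hdx i))
  have h1 : (1 : ℤ) ∈ Ideal.span (Set.range x) ⊔ Ideal.span {q} := by rw [htop]; trivial
  obtain ⟨s, hs, t, ht, hst⟩ := Submodule.mem_sup.1 h1
  obtain ⟨a, ha⟩ := (Ideal.mem_span_range_iff_exists_fun).1 hs
  obtain ⟨b, hb⟩ := Ideal.mem_span_singleton'.1 ht
  exact ⟨a, b, by rw [ha, hb, hst]⟩

theorem unimod_int_iff (x : ι → ℤ) :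
    Unimod x ↔ ∀ p : ℕ, p.Prime → ∃ i, ¬ (p : ℤ) ∣ x i := by
  constructor
  · rintro ⟨a, ha⟩ p hp
    by_contra hc
    push Not at hc
    have : (p : ℤ) ∣ 1 := by
      rw [← ha]
      exact Finset.dvd_sum fun i _ => Dvd.dvd.mul_left (hc i) _
    have h2 := Int.natCast_dvd_natCast.1 (by simpa using this : (p : ℤ) ∣ ((1 : ℕ) : ℤ))
    exact hp.one_lt.ne' (Nat.dvd_one.1 h2)
  · intro h
    obtain ⟨a, b, hab⟩ := exists_comb_of_no_prime x 0 fun p hp _ => h p hp
    exact ⟨a, by simpa using hab⟩

theorem red_unimod_iff {q : ℕ} (x : ι → ℤ) :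
    Unimod (red q x) ↔ ∀ p : ℕ, p.Prime → p ∣ q → ∃ i, ¬ (p : ℤ) ∣ x i := by
  constructor
  · rintro ⟨a, ha⟩ p hp hpq
    by_contra hc
    push Not at hc
    have h1 : (ZMod.castHom hpq (ZMod p)) 1 = 0 := by
      rw [← ha, map_sum]
      refine Finset.sum_eq_zero fun i _ => ?_
      rw [map_mul, red, map_intCast, (ZMod.intCast_zmod_eq_zero_iff_dvd _ _).2 (hc i), mul_zero]
    rw [map_one] at h1
    haveI : Fact p.Prime := ⟨hp⟩
    exact one_ne_zero h1
  · intro h
    obtain ⟨a, b, hab⟩ := exists_comb_of_no_prime x q fun p hp hpq =>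
      h p hp (Int.natCast_dvd_natCast.1 hpq)
    refine ⟨fun i => (a i : ZMod q), ?_⟩
    have := congrArg (fun z : ℤ => (z : ZMod q)) hab
    simpa [red] using this

theorem red_unimod {q : ℕ} {x : ι → ℤ} (h : Unimod x) : Unimod (red q x) := by
  obtain ⟨a, ha⟩ := h
  refine ⟨fun i => (a i : ZMod q), ?_⟩
  have := congrArg (fun z : ℤ => (z : ZMod q)) ha
  simpa [red] using this

end

section

variable {q : ℕ} [NeZero q]

open Classical in
theorem cq_eq (hqA : Nat.Coprime q AA) : cq q = (univ.filter fun l : Fin 3 → ZMod q => Unimod l).card := by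
  have h := sum_param (q := q) hqA (fun _ => 1)
  have h1 : (univ.filter fun x : Fin 5 → ZMod q => x ∈ CC q).card = cq q := by
    rw [cq, Set.ncard_eq_toFinset_card']
    congr 1
    ext x
    simp
  rw [Finset.sum_const, Finset.sum_const, Finset.sum_const, Finset.card_univ,
    ZMod.card_units_eq_totient, h1] at h
  simp only [nsmul_eq_mul, mul_one] at h
  have h2 : (Nat.totient q : ℂ) ≠ 0 := by
    exact_mod_cast (Nat.totient_pos.2 (NeZero.pos q)).ne'
  have h3 := mul_left_cancel₀ h2 h
  exact_mod_cast h3.symm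

theorem cq_le (hqA : Nat.Coprime q AA) : cq q ≤ q ^ 3 := by
  classical
  rw [cq_eq hqA]
  refine (Finset.card_filter_le _ _).trans ?_
  rw [Finset.card_univ, Fintype.card_fun, ZMod.card, Fintype.card_fin]

theorem cq_ge (hqA : Nat.Coprime q AA) : (q : ℝ) ^ 3 * (1 - ∑ p ∈ q.primeFactors, 1 / (p : ℝ) ^ 3) ≤ cq q := by
  classical
  rw [cq_eq hqA]
  have hq : 0 < q := NeZero.pos q
  have h1 : (univ.filter fun l : Fin 3 → ZMod q => ¬ Unimod l) ⊆
      q.primeFactors.biUnion fun p => univ.filter fun l : Fin 3 → ZMod q =>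
        ∀ i, (l i).val % p = 0 := by
    intro l hl
    simp only [mem_filter, mem_univ, true_and] at hl
    have e1 : l = red q (fun i => ((l i).val : ℤ)) := by
      funext i
      simp [red]
    rw [e1, red_unimod_iff] at hl
    push Not at hl
    obtain ⟨p, hp, hpq, h⟩ := hl
    simp only [mem_biUnion, mem_filter, mem_univ, true_and]
    refine ⟨p, Nat.mem_primeFactors.2 ⟨hp, hpq, hq.ne'⟩, fun i => ?_⟩
    exact Nat.dvd_iff_mod_eq_zero.1 (Int.natCast_dvd_natCast.1 (h i))
  have h2 : ∀ p ∈ q.primeFactors, (univ.filter fun l : Fin 3 → ZMod q =>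
      ∀ i, (l i).val % p = 0).card ≤ (q / p) ^ 3 := by
    intro p hp
    have hpq := Nat.dvd_of_mem_primeFactors hp
    have hp0 := (Nat.prime_of_mem_primeFactors hp).pos
    have : (q / p) ^ 3 = (univ : Finset (Fin 3 → Fin (q / p))).card := by
      rw [Finset.card_univ, Fintype.card_fun, Fintype.card_fin, Fintype.card_fin]
    rw [this]
    refine Finset.card_le_card_of_injOn (fun l i => ⟨(l i).val / p, ?_⟩) (fun _ _ => mem_univ _) ?_
    · exact Nat.div_lt_div_of_lt_of_dvd hpq (ZMod.val_lt _)
    · intro l hl l' hl' h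
      simp only [coe_filter, mem_univ, true_and, Set.mem_ofPred_eq] at hl hl'
      funext i
      have h3 := congrFun h i
      simp only [Fin.mk.injEq] at h3
      apply ZMod.val_injective
      rw [← Nat.div_add_mod (l i).val p, ← Nat.div_add_mod (l' i).val p, h3, hl i, hl' i]
  have h3 : (univ.filter fun l : Fin 3 → ZMod q => Unimod l).card +
      (univ.filter fun l : Fin 3 → ZMod q => ¬ Unimod l).card = q ^ 3 := by
    rw [Finset.card_filter_add_card_filter_not, Finset.card_univ, Fintype.card_fun, ZMod.card,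
      Fintype.card_fin]
  have h4 : ((univ.filter fun l : Fin 3 → ZMod q => ¬ Unimod l).card : ℝ) ≤
      ∑ p ∈ q.primeFactors, (q : ℝ) ^ 3 * (1 / (p : ℝ) ^ 3) := by
    calc ((univ.filter fun l : Fin 3 → ZMod q => ¬ Unimod l).card : ℝ)
        ≤ ((q.primeFactors.biUnion fun p => univ.filter fun l : Fin 3 → ZMod q =>
          ∀ i, (l i).val % p = 0).card : ℝ) := by exact_mod_cast Finset.card_le_card h1
      _ ≤ ((∑ p ∈ q.primeFactors, (univ.filter fun l : Fin 3 → ZMod q =>
          ∀ i, (l i).val % p = 0).card : ℕ) : ℝ) := by exact_mod_cast Finset.card_biUnion_le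
      _ ≤ ((∑ p ∈ q.primeFactors, (q / p) ^ 3 : ℕ) : ℝ) := by
          exact_mod_cast Finset.sum_le_sum h2
      _ = ∑ p ∈ q.primeFactors, (q : ℝ) ^ 3 * (1 / (p : ℝ) ^ 3) := by
          push_cast
          refine Finset.sum_congr rfl fun p hp => ?_
          have hpq := Nat.dvd_of_mem_primeFactors hp
          have hp0 := (Nat.prime_of_mem_primeFactors hp).pos
          rw [Nat.cast_div hpq (by exact_mod_cast hp0.ne')]
          rw [div_pow]
          ring
  have h5 : ((univ.filter fun l : Fin 3 → ZMod q => Unimod l).card : ℝ) +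
      ((univ.filter fun l : Fin 3 → ZMod q => ¬ Unimod l).card : ℝ) = (q : ℝ) ^ 3 := by
    exact_mod_cast h3
  rw [mul_sub, mul_one, Finset.mul_sum]
  linarith

end

section general

variable (q : ℕ) [NeZero q]

open Classical in
theorem ann_card : ((univ.filter fun y : ZMod q => ((DD : ℤ) : ZMod q) * y = 0).card) ≤ AA := by
  have hq : 0 < q := NeZero.pos q
  have key : ∀ y : ZMod q, ((DD : ℤ) : ZMod q) * y = 0 → ∃ k, k < AA ∧ AA * y.val = q * k := by
    intro y hy
    have h1 : ((AA : ℕ) : ZMod q) * y = 0 := by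
      rcases Int.natAbs_eq DD with h | h
      · rw [h, DD_abs] at hy
        simpa using hy
      · rw [h, DD_abs] at hy
        simpa using hy
    have h2 : q ∣ AA * y.val := by
      rw [← ZMod.natCast_eq_zero_iff, Nat.cast_mul, ZMod.natCast_zmod_val]
      exact h1
    obtain ⟨k, hk⟩ := h2
    refine ⟨k, ?_, hk⟩
    have h3 := ZMod.val_lt y
    have h4 : q * k < q * AA := by
      rw [← hk, mul_comm q AA]
      exact Nat.mul_lt_mul_of_pos_left h3 AA_pos
    exact lt_of_mul_lt_mul_left h4 (Nat.zero_le _)
  have h1 : (univ.filter fun y : ZMod q => ((DD : ℤ) : ZMod q) * y = 0).card ≤ (Finset.range AA).card := by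
    refine Finset.card_le_card_of_injOn (fun y => AA * y.val / q) ?_ ?_
    · intro y hy
      simp only [coe_filter, mem_univ, true_and, Set.mem_ofPred_eq] at hy
      obtain ⟨k, hk, hk2⟩ := key y hy
      simp only [coe_range, Set.mem_Iio]
      rw [hk2, Nat.mul_div_cancel_left _ hq]
      exact hk
    · intro y hy y' hy' h
      simp only [coe_filter, mem_univ, true_and, Set.mem_ofPred_eq] at hy hy'
      obtain ⟨k, hk, hk2⟩ := key y hy
      obtain ⟨k', hk', hk2'⟩ := key y' hy'
      simp only at h
      rw [hk2, hk2', Nat.mul_div_cancel_left _ hq, Nat.mul_div_cancel_left _ hq] at h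
      rw [← h, ← hk2] at hk2'
      apply ZMod.val_injective
      exact (Nat.eq_of_mul_eq_mul_left AA_pos hk2').symm
  rwa [Finset.card_range] at h1

open Classical in
theorem dvd_card : ((univ.filter fun s : ZMod q => s ∣ ((DD : ℤ) : ZMod q)).card) ≤ AA * Nat.totient q := by
  have hq : 0 < q := NeZero.pos q
  have hsub : (univ.filter fun s : ZMod q => s ∣ ((DD : ℤ) : ZMod q)).card ≤
      ((Finset.Icc 1 AA).biUnion fun g => if g ∣ q then (Finset.range q).filter (fun k => q.gcd k = g) else ∅).card := by
    refine Finset.card_le_card_of_injOn (fun s => s.val) ?_ (fun s _ s' _ h => ZMod.val_injective q h)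
    intro s hs
    simp only [coe_filter, mem_univ, true_and, Set.mem_ofPred_eq] at hs
    have h0 : s ∣ ((AA : ℕ) : ZMod q) := by
      rcases Int.natAbs_eq DD with h | h
      · rw [h, DD_abs] at hs
        simpa using hs
      · rw [h, DD_abs] at hs
        simpa using hs
    have h1 : q.gcd s.val ∣ AA := by
      obtain ⟨t, ht⟩ := h0
      have h2 : (((q.gcd s.val : ℕ) : ℤ)) ∣ ((AA : ℕ) : ℤ) - (s.val : ℤ) * (t.val : ℤ) := by
        have h3 : ((q : ℕ) : ℤ) ∣ ((AA : ℕ) : ℤ) - (s.val : ℤ) * (t.val : ℤ) := by
          rw [← ZMod.intCast_zmod_eq_zero_iff_dvd]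
          push_cast
          rw [ZMod.natCast_zmod_val, ZMod.natCast_zmod_val, ht, sub_self]
        exact (Int.natCast_dvd_natCast.2 (Nat.gcd_dvd_left _ _)).trans h3
      have h4 : (((q.gcd s.val : ℕ) : ℤ)) ∣ (s.val : ℤ) * (t.val : ℤ) :=
        Dvd.dvd.mul_right (Int.natCast_dvd_natCast.2 (Nat.gcd_dvd_right _ _)) _
      exact Int.natCast_dvd_natCast.1 ((dvd_sub_left h4).1 h2)
    have hg0 : 0 < q.gcd s.val := Nat.gcd_pos_of_pos_left _ hq
    simp only [coe_biUnion, Set.mem_iUnion, coe_Icc]
    refine ⟨q.gcd s.val, ⟨hg0, Nat.le_of_dvd AA_pos h1⟩, ?_⟩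
    rw [if_pos (Nat.gcd_dvd_left _ _)]
    simp [ZMod.val_lt]
  refine hsub.trans (Finset.card_biUnion_le.trans ?_)
  calc ∑ g ∈ Finset.Icc 1 AA, (if g ∣ q then (Finset.range q).filter (fun k => q.gcd k = g) else ∅).card
      ≤ ∑ g ∈ Finset.Icc 1 AA, Nat.totient q := by
        refine Finset.sum_le_sum fun g _ => ?_
        split_ifs with hg
        · rw [← Nat.totient_div_of_dvd hg]
          exact Nat.le_of_dvd (Nat.totient_pos.2 hq) (Nat.totient_dvd_of_dvd (Nat.div_dvd_of_dvd hg))
        · simp
    _ = AA * Nat.totient q := by simp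

open Classical in
theorem cq_bound : cq q ≤ (AA * AA ^ 5) * q ^ 3 := by
  have hq : 0 < q := NeZero.pos q
  set S : Finset (Fin 5 → ZMod q) := univ.filter fun x => x ∈ CC q with hS
  set Lm : Finset (Fin 3 → ZMod q) := univ.filter fun l => Unimod l with hLm
  have hcS : S.card = cq q := by
    rw [cq, Set.ncard_eq_toFinset_card']
    congr 1
    ext x
    simp [hS]
  have hdc := Finset.sum_card_bipartiteAbove_eq_sum_card_bipartiteBelow (s := S) (t := Lm)
    (fun x l => ml l x = 0)
  have hlow : S.card * Nat.totient q ≤ ∑ x ∈ S, (Finset.bipartiteAbove (fun x l => ml l x = 0) Lm x).card := by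
    rw [← smul_eq_mul, ← Finset.sum_const]
    refine Finset.sum_le_sum fun x hx => ?_
    rw [hS, mem_filter] at hx
    obtain ⟨l, hl, h0⟩ := ker_zmod q hq x hx.2.1 hx.2.2
    rw [← ZMod.card_units_eq_totient q, ← Finset.card_univ]
    refine Finset.card_le_card_of_injOn (fun u : (ZMod q)ˣ => (u : ZMod q) • l) ?_ ?_
    · intro u _
      simp only [Finset.bipartiteAbove, coe_filter, Set.mem_ofPred_eq, hLm, mem_filter, mem_univ, true_and]
      refine ⟨unimod_smul u.isUnit hl, ?_⟩
      have : ml ((u : ZMod q) • l) x = (u : ZMod q) • ml l x := by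
        funext i
        fin_cases i <;> simp [ml] <;> ring
      rw [this, h0, smul_zero]
    · intro u _ v _ h
      simp only at h
      obtain ⟨a, ha⟩ := hl
      refine Units.ext ?_
      have h3 : ∀ i, (u : ZMod q) * l i = v * l i := fun i => congrFun h i
      have key : ∀ t : ZMod q, t = ∑ i, a i * (t * l i) := by
        intro t
        have : t = t * ∑ i, a i * l i := by rw [ha, mul_one]
        conv_lhs => rw [this, Finset.mul_sum]
        refine Finset.sum_congr rfl fun i _ => ?_
        ring
      rw [key u, key v]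
      refine Finset.sum_congr rfl fun i _ => ?_
      rw [h3 i]
  have hup : ∑ l ∈ Lm, (Finset.bipartiteBelow (fun x l => ml l x = 0) S l).card ≤
      q ^ 3 * (AA ^ 5 * (AA * Nat.totient q)) := by
    calc ∑ l ∈ Lm, (Finset.bipartiteBelow (fun x l => ml l x = 0) S l).card
        ≤ ∑ l ∈ Lm, AA ^ 5 * (AA * Nat.totient q) := by
          refine Finset.sum_le_sum fun l hl => ?_
          rw [hLm, mem_filter] at hl
          obtain ⟨e, he⟩ := pf_gen hl.2
          set T := Finset.bipartiteBelow (fun x l => ml l x = 0) S l with hT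
          have hTm : ∀ x ∈ T, (∀ j, ((DD : ℤ) : ZMod q) * x j = (∑ i, e i * x i) * pf l j) ∧ Unimod x := by
            intro x hx
            rw [hT, Finset.mem_bipartiteBelow] at hx
            obtain ⟨hxS, h0⟩ := hx
            rw [hS, mem_filter] at hxS
            refine ⟨fun j => ?_, hxS.2.1⟩
            have hw : wedge (pf l) x = 0 := by rw [wedge_pf, h0, LL_zero]
            rw [← he, Finset.sum_mul, Finset.sum_mul]
            refine Finset.sum_congr rfl fun i _ => ?_
            have := congrFun hw (i, j)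
            simp only [wedge, Pi.zero_apply] at this
            linear_combination e i * this
          have h1 := Finset.card_le_mul_card_image_of_maps_to (s := T) (f := fun x => ∑ i, e i * x i)
            (t := univ.filter fun s : ZMod q => s ∣ ((DD : ℤ) : ZMod q)) (fun x hx => by
              obtain ⟨h2, a, ha⟩ := hTm x hx
              rw [mem_filter]
              refine ⟨mem_univ _, ∑ j, a j * pf l j, ?_⟩
              calc ((DD : ℤ) : ZMod q) = ((DD : ℤ) : ZMod q) * ∑ j, a j * x j := by rw [ha, mul_one]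
                _ = ∑ j, a j * (((DD : ℤ) : ZMod q) * x j) := by
                  rw [Finset.mul_sum]
                  exact Finset.sum_congr rfl fun j _ => by ring
                _ = ∑ j, a j * ((∑ i, e i * x i) * pf l j) := by simp only [h2]
                _ = _ := by
                  rw [Finset.mul_sum]
                  exact Finset.sum_congr rfl fun j _ => by ring) (AA ^ 5) (fun s _ => by
              rcases (T.filter fun x => ∑ i, e i * x i = s).eq_empty_or_nonempty with h0 | ⟨x0, hx0⟩
              · rw [h0]; simp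
              · rw [mem_filter] at hx0
                have h3 : (T.filter fun x => ∑ i, e i * x i = s).card ≤
                    (Fintype.piFinset fun _ : Fin 5 =>
                      (univ.filter fun y : ZMod q => ((DD : ℤ) : ZMod q) * y = 0)).card := by
                  refine Finset.card_le_card_of_injOn (fun x j => x j - x0 j) ?_ ?_
                  · intro x hx
                    rw [mem_coe, mem_filter] at hx
                    rw [mem_coe, Fintype.mem_piFinset]
                    intro j
                    rw [mem_filter]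
                    refine ⟨mem_univ _, ?_⟩
                    have e1 := (hTm x hx.1).1 j
                    have e2 := (hTm x0 hx0.1).1 j
                    rw [hx.2] at e1
                    rw [hx0.2] at e2
                    simp only
                    linear_combination e1 - e2
                  · intro x _ x' _ h
                    funext j
                    have := congrFun h j
                    simpa using this
                refine h3.trans ?_
                rw [Fintype.card_piFinset, Finset.prod_const, Finset.card_univ, Fintype.card_fin]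
                exact Nat.pow_le_pow_left (ann_card q) 5)
          exact h1.trans (Nat.mul_le_mul_left _ (dvd_card q))
      _ = Lm.card * (AA ^ 5 * (AA * Nat.totient q)) := by rw [Finset.sum_const, smul_eq_mul]
      _ ≤ _ := by
        refine Nat.mul_le_mul_right _ ?_
        refine (Finset.card_filter_le _ _).trans ?_
        rw [Finset.card_univ, Fintype.card_fun, ZMod.card, Fintype.card_fin]
  have h5 : cq q * Nat.totient q ≤ (AA * AA ^ 5 * q ^ 3) * Nat.totient q := by
    rw [← hcS]
    calc S.card * Nat.totient q ≤ _ := hlow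
      _ = _ := hdc
      _ ≤ _ := hup
      _ = _ := by ring
  exact Nat.le_of_mul_le_mul_right h5 (Nat.totient_pos.2 hq)

end general

theorem cq1 : S_CQ1 := ⟨AA * AA ^ 5, Nat.mul_pos AA_pos (Nat.pow_pos AA_pos), fun q hq => by
  haveI : NeZero q := ⟨hq.ne'⟩
  exact cq_bound q⟩

theorem cq2 : S_CQ2 := fun q hq hqA => by
  haveI : NeZero q := ⟨hq.ne'⟩
  exact cq_ge hqA

end Pool.Agent.KS6_30.VA
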