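import Pool.Agent.KS6_30.VA.Pln

/-!
# The content of the binary cubic form of a plane
-/

set_option autoImplicit false
set_option linter.unusedSectionVars false
set_option linter.style.haveILetI false

namespace Pool.Agent.KS6_30.VA

open Finset Filter Topology
open Tern

variable [Tern]

/-- the binary cubic form -/
def cf {R : Type*} [CommRing R] (c : Fin 4 → R) (a b : R) : R :=
  c 0 * a ^ 3 + c 1 * a ^ 2 * b + c 2 * a * b ^ 2 + c 3 * b ^ 3

section ring

variable {R : Type*} [CommRing R]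

theorem iso_map {S : Type*} [CommRing S] (f : R →+* S) {x y : Fin 5 → R} (h : Iso x y) :
    Iso (fun i => f (x i)) (fun i => f (y i)) := by
  obtain ⟨h0, h1, h2⟩ := h
  refine ⟨?_, ?_, ?_⟩
  · have := congrArg f h0
    simpa [b0] using this
  · have := congrArg f h1
    simpa [b1] using this
  · have := congrArg f h2
    simpa [b2] using this

theorem wedge_unimod_comm {x y : Fin 5 → R} (hw : Unimod (wedge x y)) : Unimod (wedge y x) := by
  rw [wedge_comm]
  obtain ⟨c, hc⟩ := hw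
  exact ⟨fun p => -c p, by simpa using hc⟩

theorem cubic_ring {x y : Fin 5 → R} (hi : Iso x y) (hw : Unimod (wedge x y)) :
    ∃ (c : Fin 4 → R) (a1 b1 a2 b2 a3 b3 : R), hes x = a1 • x + b1 • y ∧ hes y = a2 • x + b2 • y ∧
      hh x y = a3 • x + b3 • y ∧ c 0 = b1 ∧ c 1 = b3 - a1 ∧ c 2 = b2 - a3 ∧ c 3 = -a2 ∧
      ∀ a b : R, mm (a • x + b • y) = cf c a b • wedge x y := by
  obtain ⟨a1, b1, h1⟩ := hes_in hi hw
  obtain ⟨b2, a2, h2⟩ := hes_in (iso_comm hi) (wedge_unimod_comm hw)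
  obtain ⟨a3, b3, h3⟩ := hh_in hi hw
  refine ⟨![b1, b3 - a1, b2 - a3, -a2], a1, b1, a2, b2, a3, b3, h1, ?_, h3, rfl, rfl, rfl, rfl, ?_⟩
  · rw [h2, add_comm]
  · intro a b
    have e1 : hes (a • x + b • y) = (a ^ 2 * a1 + a * b * a3 + b ^ 2 * a2) • x +
        (a ^ 2 * b1 + a * b * b3 + b ^ 2 * b2) • y := by
      rw [hes_comb, h1, h2, h3]
      funext i
      simp only [Pi.add_apply, Pi.smul_apply, smul_eq_mul]
      ring
    rw [mm, e1, wedge_comb]
    congr 1
    simp [cf]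
    ring

end ring

/-- over a field a plane of the cone is zero -/
theorem cubic_field {F : Type*} [Field F] (hD : ((DD : ℤ) : F) ≠ 0) {x y : Fin 5 → F} (hi : Iso x y)
    (hw : Unimod (wedge x y)) {c : Fin 4 → F} {a1 b1 a2 b2 a3 b3 : F} (h1 : hes x = a1 • x + b1 • y)
    (h2 : hes y = a2 • x + b2 • y) (h3 : hh x y = a3 • x + b3 • y) (k0 : c 0 = b1) (k1 : c 1 = b3 - a1)
    (k2 : c 2 = b2 - a3) (k3 : c 3 = -a2) (hc : ∀ i, c i = 0) : False := by
  rw [hc] at k0 k1 k2 k3
  have e1 : b1 = 0 := k0.symm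
  have e2 : a2 = 0 := by linear_combination k3
  have e3 : b3 = a1 := by linear_combination -k1
  have e4 : a3 = b2 := by linear_combination k2
  rw [e1, zero_smul, add_zero] at h1
  rw [e2, zero_smul, zero_add] at h2
  rw [e3, e4, add_comm] at h3
  have := no_plane hD h1 h3 h2
  obtain ⟨e, he⟩ := hw
  rw [this] at he
  simp at he

section norm

variable {L : Type*} [NormedField L]

/-- the normalized bases -/
def KI (L : Type*) [NormedField L] : Set ((Fin 5 → L) × (Fin 5 → L)) :=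
  {z | ‖z.1‖ ≤ 1 ∧ ‖z.2‖ ≤ 1 ∧ ‖wedge z.1 z.2‖ = 1 ∧ Iso z.1 z.2}

theorem wedge_cts : Continuous fun z : (Fin 5 → L) × (Fin 5 → L) => wedge z.1 z.2 := by
  refine continuous_pi fun p => ?_
  simp only [wedge]
  fun_prop

theorem hes_cts : Continuous fun x : Fin 5 → L => hes x := by
  refine continuous_pi fun i => ?_
  fin_cases i <;> simp only [hes, Fin.zero_eta, Fin.mk_one, Fin.reduceFinMk, Matrix.cons_val] <;>
    fun_prop

theorem mm_cts : Continuous fun x : Fin 5 → L => mm x :=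
  wedge_cts.comp (continuous_id.prodMk hes_cts)

theorem KI_compact [ProperSpace L] : IsCompact (KI L) := by
  refine Metric.isCompact_of_isClosed_isBounded ?_ ?_
  · refine IsClosed.inter (isClosed_le continuous_fst.norm continuous_const) (IsClosed.inter
      (isClosed_le continuous_snd.norm continuous_const)
      (IsClosed.inter (isClosed_eq wedge_cts.norm continuous_const) ?_))
    refine IsClosed.inter (isClosed_eq ?_ continuous_const) (IsClosed.inter
      (isClosed_eq ?_ continuous_const) (isClosed_eq ?_ continuous_const))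
    · simp only [b0]
      fun_prop
    · simp only [b1]
      fun_prop
    · simp only [b2]
      fun_prop
  · refine (Metric.isBounded_closedBall (x := 0) (r := 1)).subset ?_
    rintro ⟨p, q⟩ ⟨h1, h2, -⟩
    rw [mem_closedBall_zero_iff, Prod.norm_def]
    exact max_le h1 h2

theorem unimod_of_ne {ι : Type*} [Fintype ι] {w : ι → L} (h : w ≠ 0) : Unimod w := by
  classical
  obtain ⟨p, hp⟩ := Function.ne_iff.1 h
  refine ⟨Pi.single p (w p)⁻¹, ?_⟩
  rw [Finset.sum_eq_single p]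
  · simp only [Pi.single_eq_same]
    exact inv_mul_cancel₀ hp
  · intro q _ hq
    simp [hq]
  · simp

/-- the four values -/
noncomputable def Ph (z : (Fin 5 → L) × (Fin 5 → L)) : ℝ :=
  ‖mm z.1‖ + ‖mm z.2‖ + ‖mm (z.1 + z.2)‖ + ‖mm (z.1 - z.2)‖

theorem Ph_lower [ProperSpace L] [CharZero L] : ∃ δ : ℝ, 0 < δ ∧ ∀ z ∈ KI L, δ ≤ Ph z := by
  have hcts : ContinuousOn (Ph (L := L)) (KI L) := by
    apply Continuous.continuousOn
    unfold Ph
    exact (((mm_cts.comp continuous_fst).norm.add (mm_cts.comp continuous_snd).norm).add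
      (mm_cts.comp (continuous_fst.add continuous_snd)).norm).add
      (mm_cts.comp (continuous_fst.sub continuous_snd)).norm
  have hD : ((DD : ℤ) : L) ≠ 0 := by exact_mod_cast DD_ne
  have hpos : ∀ z ∈ KI L, 0 < Ph z := by
    rintro ⟨x, y⟩ ⟨-, -, h3, h4⟩
    simp only at h3 h4
    have hne : wedge x y ≠ 0 := by
      intro h0
      rw [h0, norm_zero] at h3
      exact zero_ne_one h3
    have hu := unimod_of_ne hne
    obtain ⟨c, a1, b1, a2, b2, a3, b3, e1, e2, e3, k0, k1, k2, k3, hc⟩ := cubic_ring h4 hu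
    have hnn : 0 ≤ Ph (x, y) := by
      unfold Ph
      positivity
    refine lt_of_le_of_ne hnn fun h0 => ?_
    unfold Ph at h0
    simp only at h0
    have m1 := norm_nonneg (mm x)
    have m2 := norm_nonneg (mm y)
    have m3 := norm_nonneg (mm (x + y))
    have m4 := norm_nonneg (mm (x - y))
    have z1 : ‖mm x‖ = 0 := by linarith
    have z2 : ‖mm y‖ = 0 := by linarith
    have z3 : ‖mm (x + y)‖ = 0 := by linarith
    have z4 : ‖mm (x - y)‖ = 0 := by linarith
    rw [norm_eq_zero] at z1 z2 z3 z4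
    have c10 := hc 1 0
    have c01 := hc 0 1
    have c11 := hc 1 1
    have c1m := hc 1 (-1)
    simp only [one_smul, zero_smul, add_zero, zero_add, neg_smul, ← sub_eq_add_neg] at c10 c01 c11 c1m
    rw [z1] at c10
    rw [z2] at c01
    rw [z3] at c11
    rw [z4] at c1m
    have g : ∀ t : L, (0 : Fin 5 × Fin 5 → L) = t • wedge x y → t = 0 := by
      intro t ht
      exact (smul_eq_zero.1 ht.symm).resolve_right hne
    have f1 := g _ c10
    have f2 := g _ c01
    have f3 := g _ c11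
    have f4 := g _ c1m
    simp only [cf] at f1 f2 f3 f4
    have j0 : c 0 = 0 := by linear_combination f1
    have j3 : c 3 = 0 := by linear_combination f2
    have h2 : (2 : L) ≠ 0 := two_ne_zero
    have j2 : c 2 = 0 := by
      apply mul_left_cancel₀ h2
      linear_combination f3 + f4 - 2 * j0
    have j1 : c 1 = 0 := by linear_combination f3 - j0 - j3 - j2
    exact cubic_field hD h4 hu e1 e2 e3 k0 k1 k2 k3 (fun i => by fin_cases i <;> assumption)
  rcases (KI L).eq_empty_or_nonempty with hE | hE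
  · exact ⟨1, one_pos, fun z hz => by rw [hE] at hz; exact absurd hz (Set.notMem_empty z)⟩
  · obtain ⟨z0, hz0, hmin⟩ := (KI_compact (L := L)).exists_isMinOn hE hcts
    exact ⟨Ph z0, hpos z0 hz0, fun z hz => hmin hz⟩

end norm

section padic

local instance instFactPrimes (p : Nat.Primes) : Fact (p : ℕ).Prime := ⟨p.2⟩

/-- the `p`-adic vector -/
noncomputable def pv (p : Nat.Primes) {ι : Type*} (w : ι → ℤ) : ι → ℚ_[p] := fun q => ((w q : ℤ) : ℚ_[p])

theorem pv_wedge (p : Nat.Primes) (x y : Fin 5 → ℤ) : pv p (wedge x y) = wedge (pv p x) (pv p y) := by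
  funext q
  simp [pv, wedge]

theorem pv_hes (p : Nat.Primes) (x : Fin 5 → ℤ) : pv p (hes x) = hes (pv p x) :=
  (map_hes (Int.castRingHom ℚ_[p]) x).symm

theorem pv_mm (p : Nat.Primes) (x : Fin 5 → ℤ) : pv p (mm x) = mm (pv p x) := by
  rw [mm, pv_wedge, pv_hes, mm]

theorem pv_ne {p : Nat.Primes} {ι : Type*} {w : ι → ℤ} (h : w ≠ 0) : pv p w ≠ 0 := by
  intro h0
  apply h
  funext q
  have := congrFun h0 q
  simp only [pv, Pi.zero_apply] at this ⊢
  exact_mod_cast this

theorem pv_smul (p : Nat.Primes) {ι : Type*} (c : ℤ) (w : ι → ℤ) :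
    pv p (c • w) = (c : ℚ_[p]) • pv p w := by
  funext q
  simp [pv]

theorem pv_add (p : Nat.Primes) {ι : Type*} (w w' : ι → ℤ) : pv p (w + w') = pv p w + pv p w' := by
  funext q
  simp [pv]

theorem pv_sub (p : Nat.Primes) {ι : Type*} (w w' : ι → ℤ) : pv p (w - w') = pv p w - pv p w' := by
  funext q
  simp [pv]

theorem iso_pv (p : Nat.Primes) {x y : Fin 5 → ℤ} (h : Iso x y) : Iso (pv p x) (pv p y) :=
  iso_map (Int.castRingHom ℚ_[p]) h

theorem pv_norm_le (p : Nat.Primes) {ι : Type*} [Fintype ι] (w : ι → ℤ) : ‖pv p w‖ ≤ 1 := by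
  rw [pi_norm_le_iff_of_nonneg zero_le_one]
  intro i
  exact Padic.norm_int_le_one _

theorem pv_norm_one (p : Nat.Primes) {ι : Type*} [Fintype ι] {w : ι → ℤ} (hw : Unimod w) :
    ‖pv p w‖ = 1 := by
  apply le_antisymm (pv_norm_le p w)
  by_contra hcon
  push Not at hcon
  obtain ⟨e, he⟩ := hw
  have h1 : ∀ q, (p : ℤ) ∣ w q := by
    intro q
    have h2 : ‖((w q : ℤ) : ℚ_[p])‖ < 1 := lt_of_le_of_lt (norm_le_pi_norm (pv p w) q) hcon
    exact (Padic.norm_intCast_lt_one_iff (k := w q)).mp h2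
  have h3 : (p : ℤ) ∣ 1 := by
    rw [← he]
    exact Finset.dvd_sum fun q _ => Dvd.dvd.mul_left (h1 q) _
  have h7 := Int.natCast_dvd_natCast.1 (by simpa using h3 : ((p : ℕ) : ℤ) ∣ ((1 : ℕ) : ℤ))
  exact p.2.one_lt.ne' (Nat.dvd_one.1 h7)

theorem pv_KI (p : Nat.Primes) {x y : Fin 5 → ℤ} (hi : Iso x y) (hw : Unimod (wedge x y)) :
    (pv p x, pv p y) ∈ KI ℚ_[p] := by
  refine ⟨pv_norm_le p x, pv_norm_le p y, ?_, iso_pv p hi⟩
  simp only
  rw [← pv_wedge]
  exact pv_norm_one p hw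

/-- the power of a bad prime -/
theorem bad_prime (p : Nat.Primes) : ∃ K : ℕ, ∀ x y : Fin 5 → ℤ, Iso x y → Unimod (wedge x y) →
    ∀ c : Fin 4 → ℤ, (∀ a b : ℤ, mm (a • x + b • y) = cf c a b • wedge x y) →
      ∃ i, ¬ ((p : ℤ) ^ K ∣ c i) := by
  obtain ⟨δ, hδ, hlow⟩ := Ph_lower (L := ℚ_[p])
  have hp1 : (1 : ℝ) < (p : ℕ) := by exact_mod_cast p.2.one_lt
  obtain ⟨K, hK⟩ : ∃ m : ℕ, ((p : ℕ) : ℝ) ^ (-(m : ℤ)) < δ / 4 := by
    obtain ⟨m, hm⟩ := exists_pow_lt_of_lt_one (show (0 : ℝ) < δ / 4 by positivity)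
      (inv_lt_one_of_one_lt₀ hp1)
    exact ⟨m, by rwa [zpow_neg, zpow_natCast, ← inv_pow]⟩
  refine ⟨K, fun x y hi hw c hc => ?_⟩
  by_contra hcon
  push Not at hcon
  have h1 := hlow _ (pv_KI p hi hw)
  have key : ∀ a b : ℤ, ‖mm (pv p (a • x + b • y))‖ < δ / 4 := by
    intro a b
    rw [← pv_mm, hc a b, pv_smul, norm_smul, pv_norm_one p hw, mul_one]
    refine lt_of_le_of_lt ?_ hK
    rw [Padic.norm_int_le_pow_iff_dvd]
    have hd : ∀ i, (p : ℤ) ^ K ∣ c i := hcon
    have : ((p : ℤ) ^ K) ∣ cf c a b := by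
      unfold cf
      exact dvd_add (dvd_add (dvd_add ((hd 0).mul_right _) (((hd 1).mul_right _).mul_right _))
        (((hd 2).mul_right _).mul_right _)) ((hd 3).mul_right _)
    exact_mod_cast this
  have k1 := key 1 0
  have k2 := key 0 1
  have k3 := key 1 1
  have k4 := key 1 (-1)
  simp only [one_smul, zero_smul, add_zero, zero_add, neg_smul, ← sub_eq_add_neg, pv_add, pv_sub] at k1 k2 k3 k4
  unfold Ph at h1
  simp only at h1
  linarith

end padic

/-- **The content of the cubic form** -/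
theorem cubic_form : ∃ N0 : ℕ, 0 < N0 ∧ ∀ {x y : Fin 5 → ℤ}, Iso x y → Unimod (wedge x y) →
    ∃ c : Fin 4 → ℤ, (∃ e : Fin 4 → ℤ, ∑ i, e i * c i = N0) ∧
      ∀ a b : ℤ, mm (a • x + b • y) = cf c a b • wedge x y := by
  classical
  have hex : ∀ p : ℕ, ∃ K : ℕ, p.Prime → ∀ x y : Fin 5 → ℤ, Iso x y → Unimod (wedge x y) →
      ∀ c : Fin 4 → ℤ, (∀ a b : ℤ, mm (a • x + b • y) = cf c a b • wedge x y) →
        ∃ i, ¬ ((p : ℤ) ^ K ∣ c i) := by
    intro p
    by_cases hp : p.Prime
    · obtain ⟨K, hK⟩ := bad_prime ⟨p, hp⟩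
      exact ⟨K, fun _ => hK⟩
    · exact ⟨0, fun h => absurd h hp⟩
  choose K hK using hex
  set N0 : ℕ := ∏ p ∈ AA.primeFactors, p ^ K p with hN0
  have hN0pos : 0 < N0 := Finset.prod_pos fun p hp => pow_pos (Nat.prime_of_mem_primeFactors hp).pos _
  refine ⟨N0, hN0pos, ?_⟩
  intro x y hi hw
  obtain ⟨c, a1, b1, a2, b2, a3, b3, h1, h2, h3, k0, k1, k2, k3, hc⟩ := cubic_ring hi hw
  refine ⟨c, ?_, hc⟩
  -- the ideal of the coefficients
  obtain ⟨d, hd⟩ := (IsPrincipalIdealRing.principal (Ideal.span (Set.range c))).principal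
  change Ideal.span (Set.range c) = Ideal.span {d} at hd
  have hdc : ∀ i, d ∣ c i := fun i => by
    rw [← Ideal.mem_span_singleton, ← hd]
    exact Ideal.subset_span ⟨i, rfl⟩
  suffices hdN : d ∣ (N0 : ℤ) by
    have h4 : (N0 : ℤ) ∈ Ideal.span (Set.range c) := by
      rw [hd, Ideal.mem_span_singleton]
      exact hdN
    exact Ideal.mem_span_range_iff_exists_fun.1 h4
  -- good primes
  have hgood : ∀ p : ℕ, p.Prime → ¬ p ∣ AA → ∃ i, ¬ (p : ℤ) ∣ c i := by
    intro p hp hpA
    by_contra hcon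
    push Not at hcon
    haveI : Fact p.Prime := ⟨hp⟩
    have hD : ((DD : ℤ) : ZMod p) ≠ 0 := by
      intro h0
      rw [ZMod.intCast_zmod_eq_zero_iff_dvd] at h0
      exact hpA (Int.natCast_dvd.1 h0)
    have hr : ∀ z : Fin 5 → ℤ, hes (red p z) = red p (hes z) := fun z => map_hes (Int.castRingHom (ZMod p)) z
    have hrh : hh (red p x) (red p y) = red p (hh x y) := map_hh (Int.castRingHom (ZMod p)) x y
    have hred : ∀ (s t : ℤ) (u v : Fin 5 → ℤ), red p (s • u + t • v) =
        (s : ZMod p) • red p u + (t : ZMod p) • red p v := by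
      intro s t u v
      funext i
      simp [red]
    have hwr : wedge (red p x) (red p y) = red p (wedge x y) := by
      funext q
      simp [wedge, red]
    have hiso : Iso (red p x) (red p y) := iso_map (Int.castRingHom (ZMod p)) hi
    refine cubic_field (F := ZMod p) hD (x := red p x) (y := red p y) hiso (by rw [hwr]; exact red_unimod hw)
      (c := fun i => ((c i : ℤ) : ZMod p)) (a1 := a1) (b1 := b1) (a2 := a2) (b2 := b2) (a3 := a3) (b3 := b3)
      ?_ ?_ ?_ ?_ ?_ ?_ ?_ ?_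
    · rw [hr, h1, hred]
    · rw [hr, h2, hred]
    · rw [hrh, h3, hred]
    · simp only [k0]
    · simp only [k1]; push_cast; ring
    · simp only [k2]; push_cast; ring
    · simp only [k3]; push_cast; ring
    · intro i
      exact (ZMod.intCast_zmod_eq_zero_iff_dvd _ _).2 (hcon i)
  have hd0 : d ≠ 0 := by
    rintro rfl
    obtain ⟨i, hi'⟩ := hK 2 Nat.prime_two x y hi hw c hc
    apply hi'
    rw [zero_dvd_iff.1 (hdc i)]
    exact dvd_zero _
  rw [← Int.natAbs_dvd]
  apply Int.natCast_dvd_natCast.2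
  have hdn : d.natAbs ≠ 0 := Int.natAbs_ne_zero.2 hd0
  rw [← Nat.factorization_le_iff_dvd hdn hN0pos.ne', Finsupp.le_def]
  intro p
  by_cases hp : p.Prime
  · by_cases hpA : p ∣ AA
    · have hmem : p ∈ AA.primeFactors := Nat.mem_primeFactors.2 ⟨hp, hpA, AA_pos.ne'⟩
      have h5 : d.natAbs.factorization p ≤ K p := by
        by_contra hcon
        push Not at hcon
        obtain ⟨i, hi'⟩ := hK p hp x y hi hw c hc
        apply hi'
        have h6 : p ^ K p ∣ d.natAbs := (Nat.Prime.pow_dvd_iff_le_factorization hp hdn).2 hcon.le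
        have h7 : ((p ^ K p : ℕ) : ℤ) ∣ d := Int.natCast_dvd.2 h6
        have h8 : (p : ℤ) ^ K p ∣ d := by exact_mod_cast h7
        exact h8.trans (hdc i)
      have h9 : p ^ K p ∣ N0 := Finset.dvd_prod_of_mem (fun p => p ^ K p) hmem
      exact h5.trans ((Nat.Prime.pow_dvd_iff_le_factorization hp hN0pos.ne').1 h9)
    · have h5 : ¬ p ∣ d.natAbs := by
        intro hpd
        obtain ⟨i, hi'⟩ := hgood p hp hpA
        exact hi' ((Int.natCast_dvd.2 hpd).trans (hdc i))
      rw [Nat.factorization_eq_zero_of_not_dvd h5]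
      exact Nat.zero_le _
  · rw [Nat.factorization_eq_zero_of_not_prime _ hp]
    exact Nat.zero_le _

end Pool.Agent.KS6_30.VA
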