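import Pool.Agent.KS6_30.VA.Nrm2

set_option autoImplicit false
set_option linter.unusedSectionVars false
set_option linter.style.haveILetI false

namespace Pool.Agent.KS6_30.VA

open Finset
open Tern

variable [Tern]

/-- dyadic summation -/
theorem dyadic (g : ℝ → ℝ) (A s X0 : ℝ) (hA : 0 ≤ A) (hs : 0 < s) (h0 : ∀ X < 1, g X ≤ 0)
    (h : ∀ X, 1 ≤ X → X ≤ X0 → g X ≤ g (X / 2) + A * X ^ s) (X : ℝ) (hX : 0 < X) (hX0 : X ≤ X0) :
    g X ≤ A / (1 - 2 ^ (-s)) * X ^ s := by
  have h2 : (2 : ℝ) ^ (-s) < 1 := Real.rpow_lt_one_of_one_lt_of_neg (by norm_num) (by linarith)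
  have h2' : 0 < 1 - (2 : ℝ) ^ (-s) := by linarith
  set K := A / (1 - 2 ^ (-s)) with hK
  have hK0 : 0 ≤ K := div_nonneg hA h2'.le
  have hKA : K * 2 ^ (-s) + A = K := by
    rw [hK]
    field_simp
    ring
  have key : ∀ n : ℕ, ∀ X : ℝ, 0 < X → X ≤ X0 → X < 2 ^ n → g X ≤ K * X ^ s := by
    intro n
    induction n with
    | zero =>
      intro X hX _ hX1
      rw [pow_zero] at hX1
      exact (h0 X hX1).trans (by positivity)
    | succ n ih =>
      intro X hX hXX hXn
      by_cases hX1 : X < 1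
      · exact (h0 X hX1).trans (by positivity)
      · have e1 := h X (not_lt.1 hX1) hXX
        have e2 := ih (X / 2) (by positivity) (by linarith) (by
          rw [pow_succ] at hXn
          linarith)
        have e3 : (X / 2) ^ s = 2 ^ (-s) * X ^ s := by
          rw [Real.div_rpow hX.le (by norm_num), Real.rpow_neg (by norm_num)]
          ring
        rw [e3] at e2
        calc g X ≤ K * (2 ^ (-s) * X ^ s) + A * X ^ s := by linarith
          _ = (K * 2 ^ (-s) + A) * X ^ s := by ring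
          _ = K * X ^ s := by rw [hKA]
  obtain ⟨n, hn⟩ := pow_unbounded_of_one_lt X (by norm_num : (1 : ℝ) < 2)
  exact key n X hX hX0 hn

section norms

variable {ι : Type*} [Fintype ι]

theorem abs_le_norm (u : ι → ℝ) (i : ι) : |u i| ≤ ‖u‖ := by
  have := norm_le_pi_norm u i
  rwa [Real.norm_eq_abs] at this

theorem norm_le_of {u : ι → ℝ} {c : ℝ} (hc : 0 ≤ c) (h : ∀ i, |u i| ≤ c) : ‖u‖ ≤ c := by
  rw [pi_norm_le_iff_of_nonneg hc]
  exact h

theorem exists_norm [Nonempty ι] (x : ι → ℝ) : ∃ i, ‖x‖ = |x i| := by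
  obtain ⟨i, hi⟩ := Finite.exists_max fun i => |x i|
  exact ⟨i, le_antisymm (norm_le_of (abs_nonneg _) hi) (abs_le_norm x i)⟩

end norms

theorem abs_mul_le {a b A B : ℝ} (ha : |a| ≤ A) (hb : |b| ≤ B) : |a * b| ≤ A * B := by
  rw [abs_mul]
  exact mul_le_mul ha hb (abs_nonneg _) ((abs_nonneg _).trans ha)

theorem norm_wedge_le (x y : Fin 5 → ℝ) : ‖wedge x y‖ ≤ 2 * ‖x‖ * ‖y‖ := by
  refine norm_le_of (by positivity) fun p => ?_
  have h1 := abs_mul_le (abs_le_norm x p.1) (abs_le_norm y p.2)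
  have h2 := abs_mul_le (abs_le_norm x p.2) (abs_le_norm y p.1)
  calc |x p.1 * y p.2 - x p.2 * y p.1| ≤ |x p.1 * y p.2| + |x p.2 * y p.1| := abs_sub _ _
    _ ≤ _ := by linarith

/-- Lojasiewicz: the distance to the cone -/
theorem near_cone (u : Fin 5 → ℝ) (hu : u ≠ 0) :
    ∃ (ν : Fin 3 → ℝ) (s : ℝ), (s = 1 ∨ s = -1) ∧ ‖ν‖ ^ 2 ≤ KK * ‖u‖ ∧
      ‖u - s • pf ν‖ ≤ KK ^ 3 * ‖mm u‖ / ‖u‖ ^ 2 := by
  have K0 := KK_pos
  obtain ⟨p, hp⟩ := exists_mu u
  have hu0 : 0 < ‖u‖ := norm_pos_iff.2 hu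
  set l := mu u p with hl
  have hl0 : 0 < ‖l‖ := by
    have h1 : 0 < ‖u‖ ^ 2 := by positivity
    exact pos_of_mul_pos_right (lt_of_lt_of_le h1 hp) K0.le
  have h1 : ‖ml l u‖ ≤ ‖mm u‖ := by
    refine norm_le_of (norm_nonneg _) fun i => ?_
    rw [hl, ml_mu]
    exact abs_le_norm _ _
  have h2 : ‖wedge (pf l) u‖ ≤ KK * ‖l‖ * ‖mm u‖ := by
    rw [wedge_pf]
    exact (norm_LL_le _ _).trans (mul_le_mul_of_nonneg_left h1 (by positivity))
  have h3 := norm_pf_ge l
  obtain ⟨k, hk⟩ := exists_norm (pf l)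
  have hP0 : 0 < ‖pf l‖ := by
    have h1 : 0 < ‖l‖ ^ 2 := by positivity
    exact pos_of_mul_pos_right (lt_of_lt_of_le h1 h3) K0.le
  have hk0 : pf l k ≠ 0 := by
    intro h
    rw [h, abs_zero] at hk
    linarith
  set t := u k / pf l k with ht
  have htP : |t| * ‖pf l‖ ≤ ‖u‖ := by
    rw [ht, abs_div, hk, div_mul_cancel₀ _ (by rw [← hk]; exact hP0.ne')]
    exact abs_le_norm u k
  have h4 : ‖u - t • pf l‖ ≤ KK ^ 3 * ‖mm u‖ / ‖u‖ ^ 2 := by
    refine norm_le_of (by positivity) fun j => ?_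
    have e1 : (u - t • pf l) j = wedge (pf l) u (k, j) / pf l k := by
      simp only [Pi.sub_apply, Pi.smul_apply, smul_eq_mul, wedge, ht]
      field_simp
    rw [e1, abs_div, ← hk]
    have e2 := abs_le_norm (wedge (pf l) u) (k, j)
    calc |wedge (pf l) u (k, j)| / ‖pf l‖ ≤ (KK * ‖l‖ * ‖mm u‖) / (‖l‖ ^ 2 / KK) := by
          refine div_le_div₀ (by positivity) (e2.trans h2) (by positivity) ?_
          rw [div_le_iff₀ K0, mul_comm]
          exact h3
      _ = KK ^ 2 * ‖mm u‖ / ‖l‖ := by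
          field_simp
      _ ≤ KK ^ 2 * ‖mm u‖ / (‖u‖ ^ 2 / KK) := by
          refine div_le_div_of_nonneg_left (by positivity) (by positivity) ?_
          rw [div_le_iff₀ K0, mul_comm]
          exact hp
      _ = _ := by
          field_simp
  refine ⟨Real.sqrt |t| • l, if 0 ≤ t then 1 else -1, ?_, ?_, ?_⟩
  · split_ifs <;> simp
  · rw [norm_smul, Real.norm_eq_abs, abs_of_nonneg (Real.sqrt_nonneg _), mul_pow,
      Real.sq_sqrt (abs_nonneg _)]
    calc |t| * ‖l‖ ^ 2 ≤ |t| * (KK * ‖pf l‖) := mul_le_mul_of_nonneg_left h3 (abs_nonneg _)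
      _ = KK * (|t| * ‖pf l‖) := by ring
      _ ≤ _ := mul_le_mul_of_nonneg_left htP K0.le
  · rw [pf_smul, Real.sq_sqrt (abs_nonneg _)]
    have : (if 0 ≤ t then (1 : ℝ) else -1) • |t| • pf l = t • pf l := by
      rw [smul_smul]
      congr 1
      split_ifs with h
      · rw [abs_of_nonneg h, one_mul]
      · rw [abs_of_neg (not_le.1 h)]
        ring
    rw [this]
    exact h4

/-- the cover -/
theorem cover (K : ℝ) (hK : 1 ≤ K) : ∃ C : ℝ, 1 ≤ C ∧ ∀ X R : ℝ, 0 < X → 0 < R → R ≤ K * X →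
    ∃ B : Finset (Fin 5 → ℝ), (B.card : ℝ) ≤ C * (X / R) ^ 3 ∧
      ∀ u : Fin 5 → ℝ, X / 2 ≤ ‖u‖ → ‖u‖ ≤ X → ‖mm u‖ ≤ R * X ^ 2 →
        ∃ a ∈ B, ‖u - a‖ ≤ C * R := by
  classical
  have K1 := KK_one
  have K0 := KK_pos
  have hK3 : 1 ≤ K ^ 3 := one_le_pow₀ hK
  have hKK3 : 1 ≤ KK ^ 3 := one_le_pow₀ K1
  have hKK2 : KK ^ 2 ≤ KK ^ 3 := pow_le_pow_right₀ K1 (by norm_num)
  have hC : KK ^ 3 * 1 ≤ KK ^ 3 * K ^ 3 := mul_le_mul_of_nonneg_left hK3 (by positivity)
  have hC' : 1 * K ^ 3 ≤ KK ^ 3 * K ^ 3 := mul_le_mul_of_nonneg_right hKK3 (by positivity)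
  refine ⟨250 * (KK ^ 3 * K ^ 3), by linarith, ?_⟩
  intro X R hX hR hRX
  by_cases hRX' : X < R
  · refine ⟨{0}, ?_, ?_⟩
    · rw [Finset.card_singleton, Nat.cast_one]
      have h1 : 1 ≤ K * (X / R) := by
        rw [← mul_div_assoc, le_div_iff₀ hR]
        linarith
      have h2 := one_le_pow₀ h1 (n := 3)
      rw [mul_pow] at h2
      have h3 : 0 ≤ (X / R) ^ 3 := by positivity
      nlinarith [mul_le_mul_of_nonneg_right hC' h3]
    · intro u _ hu _
      refine ⟨0, by simp, ?_⟩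
      rw [sub_zero]
      nlinarith [mul_le_mul_of_nonneg_right hC' hR.le, mul_le_mul_of_nonneg_right hK3 hR.le]
  · have hRX1 : R ≤ X := not_lt.1 hRX'
    set h : ℝ := R / Real.sqrt X with hh
    have hsX : 0 < Real.sqrt X := Real.sqrt_pos.2 hX
    have hh0 : 0 < h := by positivity
    have hsq : Real.sqrt X ^ 2 = X := Real.sq_sqrt hX.le
    have hhX : h ≤ Real.sqrt X := by
      rw [hh, div_le_iff₀ hsX, ← sq, hsq]
      exact hRX1
    set N : ℤ := ⌊KK * X / R⌋ + 1 with hN
    have hN0 : 0 ≤ N := by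
      have : 0 ≤ ⌊KK * X / R⌋ := Int.floor_nonneg.2 (by positivity)
      omega
    have hXR : 1 ≤ X / R := (one_le_div hR).2 hRX1
    have hN1 : (N : ℝ) ≤ 2 * KK * (X / R) := by
      have := Int.floor_le (KK * X / R)
      push_cast [hN]
      have e : KK * X / R = KK * (X / R) := by ring
      rw [e] at this ⊢
      have h1 : 1 * (X / R) ≤ KK * (X / R) := mul_le_mul_of_nonneg_right K1 (by positivity)
      linarith
    let B₀ : Finset (Fin 3 → ℤ) := Fintype.piFinset (fun _ => Finset.Icc (-N) N)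
    let f : (Fin 3 → ℤ) × Bool → (Fin 5 → ℝ) := fun z =>
      (if z.2 then (1 : ℝ) else -1) • pf (fun i => h * z.1 i)
    refine ⟨(B₀ ×ˢ (univ : Finset Bool)).image f, ?_, ?_⟩
    · have c1 : ((B₀ ×ˢ (univ : Finset Bool)).image f).card ≤ (2 * N + 1).toNat ^ 3 * 2 := by
        refine Finset.card_image_le.trans ?_
        rw [Finset.card_product, Fintype.card_piFinset, Finset.prod_const, Int.card_Icc,
          Finset.card_univ, Finset.card_univ, Fintype.card_fin, Fintype.card_bool]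
        refine le_of_eq ?_
        congr 3
        ring
      have c2 : (((2 * N + 1).toNat : ℕ) : ℝ) ≤ 5 * KK * (X / R) := by
        rw [← Int.cast_natCast, Int.toNat_of_nonneg (by omega)]
        push_cast
        have h1 : 1 * (X / R) ≤ KK * (X / R) := mul_le_mul_of_nonneg_right K1 (by positivity)
        linarith
      calc ((((B₀ ×ˢ (univ : Finset Bool)).image f).card : ℕ) : ℝ)
          ≤ (((2 * N + 1).toNat ^ 3 * 2 : ℕ) : ℝ) := by exact_mod_cast c1
        _ = (((2 * N + 1).toNat : ℕ) : ℝ) ^ 3 * 2 := by push_cast; ring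
        _ ≤ (5 * KK * (X / R)) ^ 3 * 2 := by
            refine mul_le_mul_of_nonneg_right (pow_le_pow_left₀ (by positivity) c2 3) (by norm_num)
        _ = 250 * (KK ^ 3 * 1) * (X / R) ^ 3 := by ring
        _ ≤ 250 * (KK ^ 3 * K ^ 3) * (X / R) ^ 3 := by
            refine mul_le_mul_of_nonneg_right (by linarith) (by positivity)
    · intro u hu1 hu2 hmu
      have hu0 : 0 < ‖u‖ := by linarith
      obtain ⟨ν, s, hs, hν, hd⟩ := near_cone u (norm_pos_iff.1 hu0)
      have hν2 : ‖ν‖ ≤ KK * Real.sqrt X := by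
        have : ‖ν‖ ^ 2 ≤ (KK * Real.sqrt X) ^ 2 := by
          rw [mul_pow, hsq]
          have e1 : KK * ‖u‖ ≤ KK * X := mul_le_mul_of_nonneg_left hu2 K0.le
          have e2 : 1 * (KK * X) ≤ KK * (KK * X) := mul_le_mul_of_nonneg_right K1 (by positivity)
          calc _ ≤ _ := hν
            _ ≤ _ := e1
            _ ≤ KK * (KK * X) := by linarith
            _ = _ := by ring
        exact le_of_sq_le_sq this (by positivity)
      set m : Fin 3 → ℤ := fun i => ⌊ν i / h⌋ with hm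
      have hm1 : ∀ i, |ν i - h * m i| ≤ h := by
        intro i
        have e1 := Int.floor_le (ν i / h)
        have e2 := (Int.lt_floor_add_one (ν i / h)).le
        rw [le_div_iff₀ hh0] at e1
        rw [div_le_iff₀ hh0] at e2
        rw [abs_le]
        simp only [hm]
        constructor <;> nlinarith
      have hd2 : ‖ν - fun i => h * (m i : ℝ)‖ ≤ h := norm_le_of hh0.le hm1
      have hν3 : ‖fun i => h * (m i : ℝ)‖ ≤ 2 * KK * Real.sqrt X := by
        have e1 : (fun i => h * (m i : ℝ)) = ν - (ν - fun i => h * (m i : ℝ)) := by abel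
        rw [e1]
        refine (norm_sub_le _ _).trans ?_
        have h1 : 1 * Real.sqrt X ≤ KK * Real.sqrt X := mul_le_mul_of_nonneg_right K1 hsX.le
        linarith
      refine ⟨s • pf (fun i => h * (m i : ℝ)), ?_, ?_⟩
      · rw [Finset.mem_image]
        refine ⟨(m, decide (s = 1)), ?_, ?_⟩
        · rw [Finset.mem_product]
          refine ⟨?_, Finset.mem_univ _⟩
          rw [Fintype.mem_piFinset]
          intro i
          have e0 : |ν i / h| ≤ KK * X / R := by
            rw [abs_div, abs_of_pos hh0, div_le_iff₀ hh0]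
            calc |ν i| ≤ ‖ν‖ := abs_le_norm ν i
              _ ≤ KK * Real.sqrt X := hν2
              _ = KK * X / R * h := by
                rw [hh]
                field_simp
                rw [hsq]
          have e1 := abs_le.1 e0
          rw [Finset.mem_Icc]
          constructor
          · have : -(⌊KK * X / R⌋ : ℤ) - 1 ≤ ⌊ν i / h⌋ := by
              rw [Int.le_floor]
              push_cast
              have := (Int.lt_floor_add_one (KK * X / R)).le
              linarith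
            simp only [hm, hN]
            omega
          · have : ⌊ν i / h⌋ ≤ ⌊KK * X / R⌋ := Int.floor_le_floor e1.2
            simp only [hm, hN]
            omega
        · rcases hs with rfl | rfl
          · simp [f]
          · simp only [f]
            have : ¬ ((-1 : ℝ) = 1) := by norm_num
            simp [this]
      · have e1 : u - s • pf (fun i => h * (m i : ℝ)) =
            (u - s • pf ν) + s • (pf ν - pf (fun i => h * (m i : ℝ))) := by
          rw [smul_sub]
          abel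
        have e2 : ‖s • (pf ν - pf (fun i => h * (m i : ℝ)))‖ ≤ 3 * KK ^ 2 * R := by
          have hs1 : ‖s‖ = 1 := by rcases hs with rfl | rfl <;> simp
          rw [norm_smul, hs1, one_mul]
          calc _ ≤ KK * (‖ν‖ + ‖fun i => h * (m i : ℝ)‖) * ‖ν - fun i => h * (m i : ℝ)‖ := pf_lip _ _
            _ ≤ KK * (KK * Real.sqrt X + 2 * KK * Real.sqrt X) * h := by
                refine mul_le_mul (mul_le_mul_of_nonneg_left (by linarith) K0.le) hd2
                  (norm_nonneg _) (by positivity)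
            _ = 3 * KK ^ 2 * R := by
                rw [hh]
                field_simp
                ring
        have e3 : KK ^ 3 * ‖mm u‖ / ‖u‖ ^ 2 ≤ 4 * KK ^ 3 * R := by
          rw [div_le_iff₀ (by positivity)]
          have h1 : X ^ 2 / 4 ≤ ‖u‖ ^ 2 := by nlinarith
          calc KK ^ 3 * ‖mm u‖ ≤ KK ^ 3 * (R * X ^ 2) := mul_le_mul_of_nonneg_left hmu (by positivity)
            _ = 4 * KK ^ 3 * R * (X ^ 2 / 4) := by ring
            _ ≤ _ := mul_le_mul_of_nonneg_left h1 (by positivity)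
        rw [e1]
        refine (norm_add_le _ _).trans ?_
        have h5 : 3 * KK ^ 2 * R ≤ 3 * KK ^ 3 * R := by
          refine mul_le_mul_of_nonneg_right (by linarith) hR.le
        have h6 : 7 * KK ^ 3 * R ≤ 250 * (KK ^ 3 * K ^ 3) * R := by
          refine mul_le_mul_of_nonneg_right (by linarith) hR.le
        linarith

end Pool.Agent.KS6_30.VA
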