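import Pool.Agent.KS6_30.VA.Cont

set_option autoImplicit false
set_option linter.unusedSectionVars false
set_option linter.style.haveILetI false

namespace Pool.Agent.KS6_30.VA

open Finset
open Tern

variable [Tern]

theorem gg_dvd (x : Fin 5 → ℤ) (p : Fin 5 × Fin 5) : (gg x : ℤ) ∣ mm x p :=
  Int.natCast_dvd.2 (Finset.gcd_dvd (mem_univ p))

theorem dvd_gg {x : Fin 5 → ℤ} {n : ℕ} (h : ∀ p, (n : ℤ) ∣ mm x p) : n ∣ gg x :=
  Finset.dvd_gcd fun p _ => Int.natCast_dvd.1 (h p)

theorem gg_eq_zero_iff (x : Fin 5 → ℤ) : gg x = 0 ↔ mm x = 0 := by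
  rw [gg, Finset.gcd_eq_zero_iff]
  constructor
  · intro h
    funext p
    exact Int.natAbs_eq_zero.1 (h p (mem_univ p))
  · intro h p _
    rw [h]
    rfl

theorem gg_pos {x : Fin 5 → ℤ} (h : mm x ≠ 0) : 0 < gg x :=
  Nat.pos_of_ne_zero fun h' => h ((gg_eq_zero_iff x).1 h')

theorem gg_of_eq {x : Fin 5 → ℤ} {w : Fin 5 × Fin 5 → ℤ} (hw : Unimod w) {c : ℤ}
    (h : mm x = c • w) : gg x = c.natAbs := by
  obtain ⟨e, he⟩ := hw
  apply Nat.dvd_antisymm
  · rw [← Int.natCast_dvd]
    have : c = ∑ p, e p * mm x p := by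
      rw [h]
      calc c = c * ∑ p, e p * w p := by rw [he, mul_one]
        _ = _ := by
          rw [Finset.mul_sum]
          refine Finset.sum_congr rfl fun p _ => ?_
          simp only [Pi.smul_apply, smul_eq_mul]
          ring
    rw [this]
    exact Finset.dvd_sum fun p _ => Dvd.dvd.mul_left (gg_dvd x p) _
  · refine dvd_gg fun p => ?_
    rw [h, Int.natAbs_dvd]
    exact dvd_mul_right _ _

/-- the second basis vector -/
theorem exists_basis {w : Fin 5 × Fin 5 → ℤ} {x : Fin 5 → ℤ} (hx : Unimod x) (hin : In w x)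
    (h0 : w (1, 2) + fa * w (4, 3) = 0) (h1 : w (0, 3) + w (1, 3) + fb * w (4, 2) = 0)
    (h2 : w (0, 4) + fc * w (3, 2) = 0) :
    ∃ y : Fin 5 → ℤ, Iso x y ∧ w = wedge x y := by
  obtain ⟨e, he⟩ := hx
  have hw : w = wedge x (fun j => ∑ i, e i * w (i, j)) := by
    funext ⟨i, j⟩
    have h3 : ∀ k, x k * w (i, j) = x i * w (k, j) - x j * w (k, i) := fun k => by
      have := hin k i j
      linear_combination this
    calc w (i, j) = (∑ k, e k * x k) * w (i, j) := by rw [he, one_mul]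
      _ = ∑ k, e k * (x k * w (i, j)) := by
        rw [Finset.sum_mul]
        exact Finset.sum_congr rfl fun k _ => by ring
      _ = ∑ k, e k * (x i * w (k, j) - x j * w (k, i)) := by simp only [h3]
      _ = _ := by
        simp only [wedge, Finset.mul_sum, ← Finset.sum_sub_distrib]
        exact Finset.sum_congr rfl fun k _ => by ring
  refine ⟨_, ⟨?_, ?_, ?_⟩, hw⟩
  · rw [hw] at h0
    simp only [wedge, b0, Int.cast_id] at h0 ⊢
    linear_combination h0
  · rw [hw] at h1
    simp only [wedge, b1, Int.cast_id] at h1 ⊢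
    linear_combination h1
  · rw [hw] at h2
    simp only [wedge, b2, Int.cast_id] at h2 ⊢
    linear_combination h2

theorem iso_wedge_iff {R : Type*} [CommRing R] {x y : Fin 5 → R} : Iso x y ↔
    (wedge x y (1, 2) + fa * wedge x y (4, 3) = 0 ∧
      wedge x y (0, 3) + wedge x y (1, 3) + fb * wedge x y (4, 2) = 0 ∧
      wedge x y (0, 4) + fc * wedge x y (3, 2) = 0) := by
  simp only [Iso, b0, b1, b2, wedge]
  constructor
  · rintro ⟨h0, h1, h2⟩
    exact ⟨by linear_combination h0, by linear_combination h1, by linear_combination h2⟩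
  · rintro ⟨h0, h1, h2⟩
    exact ⟨by linear_combination h0, by linear_combination h1, by linear_combination h2⟩

theorem VV_basis {w : Fin 5 × Fin 5 → ℤ} (hw : w ∈ VV) {x : Fin 5 → ℤ} (hx : Unimod x)
    (hin : In w x) : ∃ y : Fin 5 → ℤ, Iso x y ∧ w = wedge x y := by
  obtain ⟨hu, x0, y0, hi, rfl⟩ := hw
  obtain ⟨h0, h1, h2⟩ := iso_wedge_iff.1 hi
  simp only [Int.cast_id] at h0 h1 h2
  exact exists_basis hx hin h0 h1 h2

/-- the plane of a vector -/
theorem exists_plane {x : Fin 5 → ℤ} (hx : Unimod x) (hm : mm x ≠ 0) :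
    ∃ w ∈ VV, mm x = (gg x : ℤ) • w ∧ In w x := by
  have hg := gg_pos hm
  have hg' : (gg x : ℤ) ≠ 0 := by exact_mod_cast hg.ne'
  choose w hw using gg_dvd x
  have hmw : mm x = (gg x : ℤ) • w := by
    funext p
    rw [Pi.smul_apply, smul_eq_mul, ← hw]
  have hin : In w x := by
    intro i j k
    have h1 : (gg x : ℤ) * (x i * w (j, k) - x j * w (i, k) + x k * w (i, j)) = 0 := by
      have e1 := hw (j, k)
      have e2 := hw (i, k)
      have e3 := hw (i, j)
      have : x i * mm x (j, k) - x j * mm x (i, k) + x k * mm x (i, j) = 0 := by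
        simp only [mm, wedge]
        ring
      rw [e1, e2, e3] at this
      linear_combination this
    exact (mul_eq_zero.1 h1).resolve_left hg'
  have hlin : ∀ p q (t : ℤ), mm x p + t * mm x q = 0 → w p + t * w q = 0 := by
    intro p q t h
    rw [hw p, hw q] at h
    have h' : (gg x : ℤ) * (w p + t * w q) = 0 := by linear_combination h
    exact (mul_eq_zero.1 h').resolve_left hg'
  have hlin' : ∀ p r q (t : ℤ), mm x p + mm x r + t * mm x q = 0 → w p + w r + t * w q = 0 := by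
    intro p r q t h
    rw [hw p, hw q, hw r] at h
    have h' : (gg x : ℤ) * (w p + w r + t * w q) = 0 := by linear_combination h
    exact (mul_eq_zero.1 h').resolve_left hg'
  obtain ⟨h0, h1, h2⟩ := iso_wedge_iff.1 (iso_hes x)
  simp only [Int.cast_id] at h0 h1 h2
  obtain ⟨y, hiso, hwy⟩ := exists_basis hx hin (hlin _ _ _ h0) (hlin' _ _ _ _ h1) (hlin _ _ _ h2)
  have hu : Unimod w := by
    rw [unimod_int_iff]
    intro p hp
    by_contra hc
    push Not at hc
    have h3 : gg x * p ∣ gg x := dvd_gg fun q => by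
      rw [hw q]
      push_cast
      exact mul_dvd_mul_left _ (hc q)
    have h4 := Nat.le_of_dvd hg h3
    have := hp.two_le
    nlinarith
  exact ⟨w, ⟨hu, x, y, hiso, hwy⟩, hmw, hin⟩

/-- the vectors of a plane -/
theorem mm_of_in {w : Fin 5 × Fin 5 → ℤ} (hw : w ∈ VV) {x : Fin 5 → ℤ} (hin : In w x) :
    ∃ c : ℤ, mm x = c • w ∧ gg x = c.natAbs := by
  obtain ⟨hu, x0, y0, hi, rfl⟩ := hw
  obtain ⟨N0, -, hcf⟩ := cubic_form
  obtain ⟨c, -, hc⟩ := hcf hi hu
  obtain ⟨a, b, rfl⟩ := (in_wedge_iff hu).1 hin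
  exact ⟨cf c a b, hc a b, gg_of_eq hu (hc a b)⟩

theorem nz_smul {ι : Type*} [Fintype ι] (c : ℤ) (x : ι → ℤ) : nz (c • x) = |(c : ℝ)| * nz x := by
  have : rv (c • x) = (c : ℝ) • rv x := by
    funext i
    simp [rv]
  rw [nz, this, norm_smul, Real.norm_eq_abs, nz]

theorem nz_mm {w : Fin 5 × Fin 5 → ℤ} (hw : w ∈ VV) {x : Fin 5 → ℤ} (hin : In w x) :
    nz (mm x) = gg x * nz w := by
  obtain ⟨c, hc, hg⟩ := mm_of_in hw hin
  rw [hc, nz_smul, hg]
  congr 1
  rw [Nat.cast_natAbs, Int.cast_abs]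

end Pool.Agent.KS6_30.VA
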