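import Mathlib

/-!
# Quintic del Pezzo threefolds: definitions and the statements of the modules

For nonzero integers `fa`, `fb`, `fc`, pairwise coprime, `V` is the variety of the planes `⟨x, y⟩` in a
5-dimensional space on which the three alternating forms

`x1 ∧ x2 + fa x4 ∧ x3`, `(x0 + x1) ∧ x3 + fb x4 ∧ x2`, `x0 ∧ x4 + fc x3 ∧ x2`

vanish (the planes of commuting traceless 3 × 3 matrices which are self-adjoint with respect to the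
quadratic form with the coefficients `fa`, `fb`, `fc`).

* `mm x = wedge x (hes x)`: for a vector `x` the Pluecker vector of the plane `W_x` of `V` through `x`
  (a cubic map); it vanishes exactly on the cone over the projected Veronese surface `pf`.
* `gg x`: the content of `mm x`, so that `mm x = gg x • w`, `w` primitive.
* `VV`: the primitive integral Pluecker vectors of the planes of `V` over `ℚ` (each plane counted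
  twice, `w` and `-w`).
* `In w x`: the vector `x` is in the plane `w`.
* `UU w`: the plane `w` contains no (rational) point of the cone over the Veronese surface, that is, it
  is on no rational line of `V`.
* `nz x`: sup norm of an integral vector.
-/

set_option autoImplicit false

namespace Pool.Agent.KS6_30.VA

open Finset Filter Topology MeasureTheory

/-- the coefficients -/
class Tern where
  fa : ℤ
  fb : ℤ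
  fc : ℤ
  ha : fa ≠ 0
  hb : fb ≠ 0
  hc : fc ≠ 0
  ab : IsCoprime fa fb
  bc : IsCoprime fb fc
  ca : IsCoprime fc fa

open Tern

variable [Tern]

/-- the bad modulus -/
def AA : ℕ := (fa * fb * fc).natAbs

theorem AA_pos : 0 < AA := Int.natAbs_pos.2 (mul_ne_zero (mul_ne_zero ha hb) hc)

section alg

variable {R : Type*} [CommRing R]

def hes (x : Fin 5 → R) : Fin 5 → R :=
  ![(fc : R) * (fb * x 2 ^ 2 - fa * x 3 ^ 2), x 1 * (x 0 + x 1) + fa * (fc * x 3 ^ 2 - fb * x 4 ^ 2),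
    (x 0 + x 1) * x 2 - fa * (x 3 * x 4), x 1 * x 3 - fb * (x 2 * x 4), -(fc * (x 2 * x 3))]

omit [Tern] in
def wedge (x y : Fin 5 → R) : Fin 5 × Fin 5 → R := fun p => x p.1 * y p.2 - x p.2 * y p.1

def mm (x : Fin 5 → R) : Fin 5 × Fin 5 → R := wedge x (hes x)

def b0 (x y : Fin 5 → R) : R := x 1 * y 2 - x 2 * y 1 + fa * (x 4 * y 3 - x 3 * y 4)
def b1 (x y : Fin 5 → R) : R := (x 0 + x 1) * y 3 - x 3 * (y 0 + y 1) + fb * (x 4 * y 2 - x 2 * y 4)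
def b2 (x y : Fin 5 → R) : R := x 0 * y 4 - x 4 * y 0 + fc * (x 3 * y 2 - x 2 * y 3)

/-- the plane of `x` and `y` is isotropic, i.e. in `V` -/
def Iso (x y : Fin 5 → R) : Prop := b0 x y = 0 ∧ b1 x y = 0 ∧ b2 x y = 0

/-- the projected Veronese surface: `ml l (pf l) = 0` -/
def pf (l : Fin 3 → R) : Fin 5 → R :=
  ![fb * l 1 ^ 2 - fa * l 0 ^ 2, fc * l 2 ^ 2 - fb * l 1 ^ 2, l 1 * l 2, -(l 0 * l 2), l 0 * l 1]

/-- the linear form `y ↦ l 0 * b0 x y + l 1 * b1 x y + l 2 * b2 x y`, as a vector -/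
def ml (l : Fin 3 → R) (x : Fin 5 → R) : Fin 5 → R :=
  ![-(l 1 * x 3) - l 2 * x 4, -(l 0 * x 2) - l 1 * x 3,
    fb * (l 1 * x 4) + fc * (l 2 * x 3) + l 0 * x 1,
    fa * (l 0 * x 4) - fc * (l 2 * x 2) + l 1 * (x 0 + x 1),
    -(fa * (l 0 * x 3)) - fb * (l 1 * x 2) + l 2 * x 0]

omit [Tern] in
/-- the vector is in the plane -/
def In (w : Fin 5 × Fin 5 → R) (x : Fin 5 → R) : Prop :=
  ∀ i j k, x i * w (j, k) - x j * w (i, k) + x k * w (i, j) = 0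

omit [Tern] in
/-- unimodular (over `ℤ`: primitive) -/
def Unimod {ι : Type*} [Fintype ι] (x : ι → R) : Prop := ∃ a : ι → R, ∑ i, a i * x i = 1

end alg

omit [Tern] in
/-- reduction modulo `q` -/
def red (q : ℕ) {ι : Type*} (x : ι → ℤ) : ι → ZMod q := fun i => (x i : ZMod q)

omit [Tern] in
/-- the real vector of an integral vector -/
def rv {ι : Type*} (x : ι → ℤ) : ι → ℝ := fun i => (x i : ℝ)

omit [Tern] in
/-- the sup norm of an integral vector -/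
noncomputable def nz {ι : Type*} [Fintype ι] (x : ι → ℤ) : ℝ := ‖rv x‖

/-- the content of `mm x` -/
def gg (x : Fin 5 → ℤ) : ℕ := Finset.univ.gcd fun p => (mm x p).natAbs

/-- the points of the cone over the Veronese surface modulo `q` -/
def CC (q : ℕ) : Set (Fin 5 → ZMod q) := {x | Unimod x ∧ mm x = 0}

noncomputable def cq (q : ℕ) : ℕ := (CC q).ncard

/-- the primitive Pluecker vectors of the planes of `V` -/
def VV : Set (Fin 5 × Fin 5 → ℤ) := {w | Unimod w ∧ ∃ x y : Fin 5 → ℤ, Iso x y ∧ w = wedge x y}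

/-- the plane is on no rational line -/
def UU (w : Fin 5 × Fin 5 → ℤ) : Prop := ∀ x : Fin 5 → ℤ, Unimod x → In w x → mm x ≠ 0

/-! ### the modules -/

/-- points of the cone modulo `q` -/
def S_PAR : Prop := ∀ q : ℕ, 0 < q → Nat.Coprime q AA → ∀ x ∈ CC q,
  ∃ (c : ZMod q) (l : Fin 3 → ZMod q), IsUnit c ∧ Unimod l ∧ x = c • pf l

/-- their number, upper bound -/
def S_CQ1 : Prop := ∃ C : ℕ, 0 < C ∧ ∀ q : ℕ, 0 < q → cq q ≤ C * q ^ 3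

/-- their number, lower bound -/
def S_CQ2 : Prop := ∀ q : ℕ, 0 < q → Nat.Coprime q AA →
  (q : ℝ) ^ 3 * (1 - ∑ p ∈ q.primeFactors, 1 / (p : ℝ) ^ 3) ≤ cq q

/-- **Equidistribution modulo `q`** -/
def S_EQ : Prop := ∀ (Q : ℕ), 0 < Q → AA ∣ Q → ∀ (ρ : Fin 5 → ℤ) (F : (Fin 5 → ℝ) → ℝ), Continuous F →
  HasCompactSupport F → ∀ ε : ℝ, 0 < ε → ∃ q₀ : ℕ, ∀ q : ℕ, q₀ ≤ q → Nat.Coprime q Q →
    |(∑ᶠ x ∈ {x : Fin 5 → ℤ | (∀ i, (Q : ℤ) ∣ x i - ρ i) ∧ red q x ∈ CC q},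
        F (fun i => (x i : ℝ) / q)) - (cq q : ℝ) / (Q : ℝ) ^ 5 * ∫ u, F u| ≤ ε * (q : ℝ) ^ 3

/-- vectors on the cone modulo `q` in a box -/
def S_BOX : Prop := ∃ C : ℝ, 0 < C ∧ ∀ (q : ℕ), 0 < q → ∀ (a : Fin 5 → ℝ) (L : ℝ), 0 ≤ L →
  {x : Fin 5 → ℤ | (∀ i, |(x i : ℝ) - a i| ≤ L) ∧ red q x ∈ CC q}.Finite ∧
  ({x : Fin 5 → ℤ | (∀ i, |(x i : ℝ) - a i| ≤ L) ∧ red q x ∈ CC q}.ncard : ℝ) ≤
    C * ((2 * L / q + 2) ^ 5 * (q : ℝ) ^ 3)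

/-- all planes -/
def S_UB : Prop := ∃ C : ℝ, 0 < C ∧ ∀ T : ℝ, 1 ≤ T → {w ∈ VV | nz w ≤ T}.Finite ∧
  ({w ∈ VV | nz w ≤ T}.ncard : ℝ) ≤ C * T ^ 2

/-- planes with a short vector -/
def S_SK : Prop := ∃ C : ℝ, 0 < C ∧ ∀ T ξ : ℝ, 1 ≤ T → 0 < ξ →
  ({w ∈ VV | nz w ≤ T ∧ UU w ∧ ∃ x, Unimod x ∧ In w x ∧ nz x ≤ ξ * √T}.ncard : ℝ) ≤
    C * ξ ^ 2 * T ^ 2

/-- planes on rational lines -/
def S_LN : Prop := ∀ A ε : ℝ, 0 < A → 0 < ε → ∃ T₀ : ℝ, ∀ T : ℝ, T₀ ≤ T →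
  ({w ∈ VV | nz w ≤ T ∧ ¬ UU w ∧ ∃ x, Unimod x ∧ In w x ∧ mm x ≠ 0 ∧ nz x ^ 2 ≤ A * nz w}.ncard : ℝ) ≤
    ε * T ^ 2

/-- the primitive vectors of a plane -/
def S_PL : Prop := ∀ w ∈ VV, ∀ X : ℝ, 0 ≤ X → {x | Unimod x ∧ In w x ∧ nz x ≤ X}.Finite ∧
  ({x | Unimod x ∧ In w x ∧ nz x ≤ X}.ncard : ℝ) ≤ 8 * X ^ 2 / nz w + 8

/-- four points -/
def S_FP : Prop := ∃ C : ℝ, 0 < C ∧ ∀ w ∈ VV, ∀ (N : ℕ) (X : ℝ), 1 ≤ N → 0 ≤ X →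
  ({x | Unimod x ∧ In w x ∧ nz x ≤ X ∧ mm x ≠ 0 ∧ N ∣ gg x}.ncard : ℝ) ≤
    C * (X ^ 2 / (nz w * (N : ℝ) ^ (1 / 6 : ℝ)) + 1)

/-- tails -/
def S_TL : Prop := ∃ C : ℝ, 0 < C ∧ ∀ (X G : ℝ) (n : ℕ), 0 < X → 0 < G → 1 ≤ n →
  {z : ℕ × (Fin 5 → ℤ) | G ≤ z.1 ∧ Unimod z.2 ∧ mm z.2 ≠ 0 ∧ nz z.2 ≤ X ∧ z.1 * n ∣ gg z.2}.Finite ∧
  ({z : ℕ × (Fin 5 → ℤ) | G ≤ z.1 ∧ Unimod z.2 ∧ mm z.2 ≠ 0 ∧ nz z.2 ≤ X ∧
      z.1 * n ∣ gg z.2}.ncard : ℝ) ≤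
    C * (X ^ 5 / (G * (n : ℝ) ^ (7 / 6 : ℝ)) + X ^ 6 / (G ^ 2 * (n : ℝ) ^ 2))

omit [Tern] in
/-- primitive lattice points in the plane -/
def S_LA : Prop := ∃ κ : ℝ, 0 < κ ∧ ∀ χ : ℝ × ℝ → ℝ, Continuous χ → HasCompactSupport χ →
  Tendsto (fun r : ℝ => (∑ᶠ z ∈ {z : ℤ × ℤ | IsCoprime z.1 z.2}, χ (z.1 / r, z.2 / r)) / r ^ 2)
    atTop (𝓝 (κ * ∫ z, χ z))

omit [Tern] in
/-- the integral of `χ` over the plane of `p` and `q` -/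
noncomputable def area (χ : (Fin 5 → ℝ) → ℝ) (p q : Fin 5 → ℝ) : ℝ :=
  ∫ z : ℝ × ℝ, χ (z.1 • p + z.2 • q)

/-- the vectors of a plane without very short vectors -/
def S_KL : Prop := ∃ κ : ℝ, 0 < κ ∧ ∀ χ : (Fin 5 → ℝ) → ℝ, Continuous χ → HasCompactSupport χ →
  ∀ ξ ε : ℝ, 0 < ξ → 0 < ε → ∃ K₀ : ℝ, 1 ≤ K₀ ∧ ∀ K : ℝ, K₀ ≤ K → ∀ w ∈ VV,
    (∀ x, Unimod x → In w x → ξ * √(nz w) ≤ nz x) → ∀ b c : Fin 5 → ℤ, Iso b c → w = wedge b c →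
      |(∑ᶠ x ∈ {x : Fin 5 → ℤ | Unimod x ∧ In w x}, χ ((K * √(nz w))⁻¹ • rv x)) / K ^ 2 -
        κ * area χ ((√(nz w))⁻¹ • rv b) ((√(nz w))⁻¹ • rv c)| ≤ ε

/-- Test functions at the primes of `P`: continuous functions of the `p`-adic vectors off the cone over
the Veronese surface. -/
def Adm (P : Finset ℕ) (θ : (Fin 5 → ℤ) → ℝ) : Prop :=
  ∀ (k : ℕ) (ε : ℝ), 0 < ε → ∃ Q : ℕ, 0 < Q ∧ ∀ x x' : Fin 5 → ℤ, Unimod x → Unimod x' →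
    (∀ i, (Q : ℤ) ∣ x i - x' i) → (∀ p ∈ P, ¬ p ^ k ∣ gg x) → |θ x - θ x'| ≤ ε

/-- real test functions -/
structure Tst (G : (Fin 5 → ℝ) × ℝ × ℝ → ℝ) : Prop where
  cts : Continuous G
  supp : ∃ δ A : ℝ, 0 < δ ∧ ∀ z, G z ≠ 0 → ‖z.1‖ ≤ A ∧ δ ≤ ‖mm z.1‖ ∧ δ ≤ z.2.1 ∧ z.2.1 ≤ A

/-- the sum over the primitive vectors off the cone -/
noncomputable def BS (G : (Fin 5 → ℝ) × ℝ × ℝ → ℝ) (θ : (Fin 5 → ℤ) → ℝ) (T : ℝ) : ℝ :=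
  ∑ᶠ x ∈ {x : Fin 5 → ℤ | Unimod x ∧ mm x ≠ 0},
    G (fun i => (x i : ℝ) / gg x, (gg x : ℝ) / √T, θ x)

/-- **Main limit** -/
def S_BL : Prop := ∀ (P : Finset ℕ), (∀ p ∈ P, p.Prime) → ∀ θ : (Fin 5 → ℤ) → ℝ, Adm P θ →
  ∀ a b : ℝ, 0 < a → (∀ x, θ x ∈ Set.Icc a b) → ∀ G, Tst G →
    ∃ L : ℝ, Tendsto (fun T => BS G θ T / T ^ 2) atTop (𝓝 L) ∧
      ((∀ z, 0 ≤ G z) → (∃ u s, ∀ τ ∈ Set.Icc a b, 0 < G (u, s, τ)) → 0 < L)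

end Pool.Agent.KS6_30.VA
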