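import Pool.Agent.KS6_30.VA.Riem
import Pool.Agent.KS6_30.VA.Weyl

set_option autoImplicit false
set_option linter.unusedSectionVars false
set_option linter.style.haveILetI false

namespace Pool.Agent.KS6_30.VA

open Finset Filter Topology MeasureTheory
open Tern

variable [Tern]

/-- the point of the torus -/
noncomputable def tq (q : ℕ) [NeZero q] (x : Fin 5 → ZMod q) : UnitAddTorus (Fin 5) :=
  fun i => ZMod.toAddCircle (x i)

theorem tq_tpr (q : ℕ) [NeZero q] (x : Fin 5 → ZMod q) :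
    tq q x = tpr (fun i => ((x i).val : ℝ) / q) := by
  funext i
  exact ZMod.toAddCircle_apply (x i)

theorem fourier_toAddCircle (q : ℕ) [NeZero q] (h : ℤ) (x : ZMod q) :
    fourier h (ZMod.toAddCircle x) = (ZMod.stdAddChar ((h : ZMod q) * x) : ℂ) := by
  rw [fourier_apply, ZMod.stdAddChar_apply, ← map_zsmul, zsmul_eq_mul]
  rfl

theorem mFourier_tq (q : ℕ) [NeZero q] (h : Fin 5 → ℤ) (x : Fin 5 → ZMod q) :
    UnitAddTorus.mFourier h (tq q x) = (ZMod.stdAddChar (∑ i, (h i : ZMod q) * x i) : ℂ) := by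
  simp only [UnitAddTorus.mFourier, ContinuousMap.coe_mk, tq, fourier_toAddCircle]
  rw [Fin.prod_univ_five, Fin.sum_univ_five]
  simp only [AddChar.map_add_eq_mul]

theorem sum_univ_zero (q : ℕ) [NeZero q] (h : Fin 5 → ℤ) (i : Fin 5) (hi : ((h i : ℤ) : ZMod q) ≠ 0) :
    ∑ x : Fin 5 → ZMod q, (ZMod.stdAddChar (∑ i, (h i : ZMod q) * x i) : ℂ) = 0 := by
  classical
  set S := ∑ x : Fin 5 → ZMod q, (ZMod.stdAddChar (∑ i, (h i : ZMod q) * x i) : ℂ) with hS
  have h1 : S = (ZMod.stdAddChar ((h i : ℤ) : ZMod q) : ℂ) * S := by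
    conv_lhs => rw [hS, ← Equiv.sum_comp (Equiv.addRight (Pi.single i (1 : ZMod q)))]
    rw [hS, Finset.mul_sum]
    refine Finset.sum_congr rfl fun x _ => ?_
    rw [← AddChar.map_add_eq_mul]
    congr 1
    simp only [Equiv.coe_addRight, Pi.add_apply, mul_add, Finset.sum_add_distrib]
    rw [add_comm]
    congr 1
    rw [Finset.sum_eq_single i]
    · simp
    · intro j _ hj
      simp [Pi.single_eq_of_ne hj]
    · simp
  have h2 : (ZMod.stdAddChar ((h i : ℤ) : ZMod q) : ℂ) ≠ 1 := by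
    intro h3
    rw [← (ZMod.stdAddChar (N := q)).map_zero_eq_one] at h3
    exact hi (ZMod.injective_stdAddChar h3)
  have h3 : (1 - (ZMod.stdAddChar ((h i : ℤ) : ZMod q) : ℂ)) * S = 0 := by
    rw [sub_mul, one_mul, ← h1, sub_self]
  rcases mul_eq_zero.1 h3 with h4 | h4
  · exact absurd (sub_eq_zero.1 h4).symm h2
  · exact h4

open Classical in
/-- the difference of the two sums -/
noncomputable def DE (q : ℕ) [NeZero q] (g : C(UnitAddTorus (Fin 5), ℂ)) : ℂ :=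
  ∑ x ∈ (univ.filter fun x : Fin 5 → ZMod q => x ∈ CC q), g (tq q x) -
    (cq q : ℂ) / (q : ℂ) ^ 5 * ∑ x : Fin 5 → ZMod q, g (tq q x)

theorem DE_add (q : ℕ) [NeZero q] (g g' : C(UnitAddTorus (Fin 5), ℂ)) :
    DE q (g + g') = DE q g + DE q g' := by
  simp only [DE, ContinuousMap.add_apply, Finset.sum_add_distrib]
  ring

theorem DE_smul (q : ℕ) [NeZero q] (c : ℂ) (g : C(UnitAddTorus (Fin 5), ℂ)) :
    DE q (c • g) = c * DE q g := by
  simp only [DE, ContinuousMap.smul_apply, smul_eq_mul, ← Finset.mul_sum]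
  ring

theorem card_CC (q : ℕ) [NeZero q] [DecidablePred fun x : Fin 5 → ZMod q => x ∈ CC q] :
    (univ.filter fun x : Fin 5 → ZMod q => x ∈ CC q).card = cq q := by
  rw [cq, Set.ncard_eq_toFinset_card']
  congr 1
  ext x
  simp

theorem DE_le (q : ℕ) [NeZero q] (hqA : Nat.Coprime q AA) (g : C(UnitAddTorus (Fin 5), ℂ)) :
    ‖DE q g‖ ≤ 2 * ‖g‖ * (q : ℝ) ^ 3 := by
  classical
  have hq : (0 : ℝ) < q := by exact_mod_cast NeZero.pos q
  have hcq : (cq q : ℝ) ≤ (q : ℝ) ^ 3 := by exact_mod_cast cq_le hqA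
  have hg : ∀ t, ‖g t‖ ≤ ‖g‖ := g.norm_coe_le_norm
  have h1 : ‖∑ x ∈ (univ.filter fun x : Fin 5 → ZMod q => x ∈ CC q), g (tq q x)‖ ≤
      ‖g‖ * (q : ℝ) ^ 3 := by
    calc _ ≤ (univ.filter fun x : Fin 5 → ZMod q => x ∈ CC q).card • ‖g‖ :=
          (norm_sum_le_of_le _ fun x _ => hg _).trans (by simp)
      _ = cq q * ‖g‖ := by rw [card_CC, nsmul_eq_mul]
      _ ≤ _ := by rw [mul_comm]; exact mul_le_mul_of_nonneg_left hcq (norm_nonneg _)
  have h2 : ‖∑ x : Fin 5 → ZMod q, g (tq q x)‖ ≤ (q : ℝ) ^ 5 * ‖g‖ := by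
    calc _ ≤ (univ : Finset (Fin 5 → ZMod q)).card • ‖g‖ :=
          (norm_sum_le_of_le _ fun x _ => hg _).trans (by simp)
      _ = _ := by
        rw [Finset.card_univ, Fintype.card_fun, ZMod.card, Fintype.card_fin, nsmul_eq_mul]
        push_cast
        rfl
  have h3 : ‖(cq q : ℂ) / (q : ℂ) ^ 5 * ∑ x : Fin 5 → ZMod q, g (tq q x)‖ ≤ ‖g‖ * (q : ℝ) ^ 3 := by
    rw [norm_mul, norm_div, norm_pow, Complex.norm_natCast, Complex.norm_natCast]
    calc _ ≤ (cq q : ℝ) / (q : ℝ) ^ 5 * ((q : ℝ) ^ 5 * ‖g‖) :=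
          mul_le_mul_of_nonneg_left h2 (by positivity)
      _ = cq q * ‖g‖ := by field_simp
      _ ≤ _ := by rw [mul_comm]; exact mul_le_mul_of_nonneg_left hcq (norm_nonneg _)
  calc ‖DE q g‖ ≤ _ := norm_sub_le _ _
    _ ≤ ‖g‖ * (q : ℝ) ^ 3 + ‖g‖ * (q : ℝ) ^ 3 := add_le_add h1 h3
    _ = _ := by ring

/-- Weyl's criterion -/
theorem DE_tendsto (g : C(UnitAddTorus (Fin 5), ℂ)) (ε : ℝ) (hε : 0 < ε) :
    ∃ q₀ : ℕ, ∀ (q : ℕ) [NeZero q], Nat.Coprime q AA → q₀ ≤ q → ‖DE q g‖ ≤ ε * (q : ℝ) ^ 3 := by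
  classical
  -- the monomials
  have hmon : ∀ h : Fin 5 → ℤ, ∀ ε : ℝ, 0 < ε → ∃ q₀ : ℕ, ∀ (q : ℕ) [NeZero q], Nat.Coprime q AA → q₀ ≤ q →
      ‖DE q (UnitAddTorus.mFourier h)‖ ≤ ε * (q : ℝ) ^ 3 := by
    intro h ε hε
    by_cases hh : h = 0
    · refine ⟨0, fun q _ _ _ => ?_⟩
      have hq : (0 : ℝ) < q := by exact_mod_cast NeZero.pos q
      have hq' : (q : ℂ) ≠ 0 := by exact_mod_cast hq.ne'
      have : DE q (UnitAddTorus.mFourier h) = 0 := by
        rw [DE, hh, UnitAddTorus.mFourier_zero]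
        simp only [ContinuousMap.one_apply, Finset.sum_const, nsmul_eq_mul, mul_one, card_CC]
        rw [Finset.card_univ, Fintype.card_fun, ZMod.card, Fintype.card_fin]
        push_cast
        field_simp
        simp
      rw [this, norm_zero]
      positivity
    · obtain ⟨C, hC, hW⟩ := WS_le h hh
      obtain ⟨i, hi⟩ : ∃ i, h i ≠ 0 := by
        by_contra hc
        push Not at hc
        exact hh (funext hc)
      have hlim : Tendsto (fun q : ℕ => C * (q : ℝ) ^ (-(1 / 21) : ℝ)) atTop (𝓝 (C * 0)) :=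
        ((tendsto_rpow_neg_atTop (by norm_num : (0 : ℝ) < 1 / 21)).comp
          tendsto_natCast_atTop_atTop).const_mul C
      rw [mul_zero] at hlim
      obtain ⟨q₁, hq₁⟩ := (Filter.eventually_atTop.1 (hlim.eventually (gt_mem_nhds hε)))
      refine ⟨max q₁ ((h i).natAbs + 1), fun q _ hqA hq => ?_⟩
      have hq0 : (0 : ℝ) < q := by exact_mod_cast NeZero.pos q
      have h1 : ((h i : ℤ) : ZMod q) ≠ 0 := by
        rw [Ne, ZMod.intCast_zmod_eq_zero_iff_dvd]
        intro hd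
        have h2 := Nat.le_of_dvd (Int.natAbs_pos.2 hi) (Int.natCast_dvd.1 hd)
        have h3 := (le_max_right q₁ ((h i).natAbs + 1)).trans hq
        omega
      have h2 : DE q (UnitAddTorus.mFourier h) = WS q h := by
        rw [DE, WS]
        simp only [mFourier_tq]
        rw [sum_univ_zero q h i h1, mul_zero, sub_zero]
      rw [h2]
      refine (hW q hqA).trans ?_
      have h3 := (hq₁ q ((le_max_left _ _).trans hq)).le
      have h4 : (q : ℝ) ^ (3 - 1 / 21 : ℝ) = (q : ℝ) ^ (-(1 / 21) : ℝ) * (q : ℝ) ^ 3 := by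
        rw [← Real.rpow_natCast (q : ℝ) 3, ← Real.rpow_add hq0]
        norm_num
      rw [h4, ← mul_assoc]
      exact mul_le_mul_of_nonneg_right h3 (by positivity)
  -- the span
  have hspan : ∀ g ∈ Submodule.span ℂ (Set.range (UnitAddTorus.mFourier (d := Fin 5))),
      ∀ ε : ℝ, 0 < ε → ∃ q₀ : ℕ, ∀ (q : ℕ) [NeZero q], Nat.Coprime q AA → q₀ ≤ q → ‖DE q g‖ ≤ ε * (q : ℝ) ^ 3 := by
    intro g hg
    induction hg using Submodule.span_induction with
    | mem g hg =>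
      obtain ⟨h, rfl⟩ := hg
      exact hmon h
    | zero =>
      intro ε hε
      refine ⟨0, fun q _ _ _ => ?_⟩
      have : DE q 0 = 0 := by simp [DE]
      rw [this, norm_zero]
      positivity
    | add g g' _ _ h h' =>
      intro ε hε
      obtain ⟨q₁, hq₁⟩ := h (ε / 2) (by positivity)
      obtain ⟨q₂, hq₂⟩ := h' (ε / 2) (by positivity)
      refine ⟨max q₁ q₂, fun q _ hqA hq => ?_⟩
      rw [DE_add]
      calc _ ≤ ‖DE q g‖ + ‖DE q g'‖ := norm_add_le _ _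
        _ ≤ ε / 2 * (q : ℝ) ^ 3 + ε / 2 * (q : ℝ) ^ 3 :=
          add_le_add (hq₁ q hqA ((le_max_left _ _).trans hq)) (hq₂ q hqA ((le_max_right _ _).trans hq))
        _ = _ := by ring
    | smul c g _ h =>
      intro ε hε
      obtain ⟨q₁, hq₁⟩ := h (ε / (‖c‖ + 1)) (by positivity)
      refine ⟨q₁, fun q _ hqA hq => ?_⟩
      rw [DE_smul, norm_mul]
      calc ‖c‖ * ‖DE q g‖ ≤ (‖c‖ + 1) * (ε / (‖c‖ + 1) * (q : ℝ) ^ 3) :=
            mul_le_mul (by linarith) (hq₁ q hqA hq) (norm_nonneg _) (by positivity)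
        _ = _ := by field_simp
  -- density
  have hg : g ∈ closure ((Submodule.span ℂ (Set.range (UnitAddTorus.mFourier (d := Fin 5))) :
      Submodule ℂ C(UnitAddTorus (Fin 5), ℂ)) : Set C(UnitAddTorus (Fin 5), ℂ)) := by
    rw [← Submodule.topologicalClosure_coe, UnitAddTorus.span_mFourier_closure_eq_top]
    trivial
  obtain ⟨g', hg', hgg'⟩ := Metric.mem_closure_iff.1 hg (ε / 4) (by positivity)
  obtain ⟨q₀, hq₀⟩ := hspan g' hg' (ε / 2) (by positivity)
  refine ⟨q₀, fun q _ hqA hq => ?_⟩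
  have e1 : g = g' + (g - g') := by abel
  rw [e1, DE_add]
  rw [dist_eq_norm] at hgg'
  calc _ ≤ ‖DE q g'‖ + ‖DE q (g - g')‖ := norm_add_le _ _
    _ ≤ ε / 2 * (q : ℝ) ^ 3 + 2 * ‖g - g'‖ * (q : ℝ) ^ 3 := add_le_add (hq₀ q hqA hq) (DE_le q hqA _)
    _ ≤ ε / 2 * (q : ℝ) ^ 3 + 2 * (ε / 4) * (q : ℝ) ^ 3 := by
      have : (0 : ℝ) ≤ (q : ℝ) ^ 3 := by positivity
      nlinarith
    _ = _ := by ring

/-- equidistribution modulo `q` -/
theorem eq_one (F : (Fin 5 → ℝ) → ℝ) (hc : Continuous F) (hF : HasCompactSupport F) (ε : ℝ)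
    (hε : 0 < ε) : ∃ q₀ : ℕ, ∀ q : ℕ, Nat.Coprime q AA → q₀ ≤ q →
    |(∑ᶠ x ∈ {x : Fin 5 → ℤ | red q x ∈ CC q}, F (fun i => (x i : ℝ) / q)) -
      (cq q : ℝ) * ∫ u, F u| ≤ ε * (q : ℝ) ^ 3 := by
  classical
  obtain ⟨g, hg⟩ := exists_tor hc hF
  obtain ⟨q₁, hq₁⟩ := DE_tendsto g (ε / 2) (by positivity)
  have hR := (riemann hc hF).comp tendsto_natCast_atTop_atTop
  rw [Metric.tendsto_atTop] at hR
  obtain ⟨q₂, hq₂⟩ := hR (ε / 2) (by positivity)
  refine ⟨max (max q₁ q₂) 1, fun q hqA hq => ?_⟩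
  have hq1 : 0 < q := (le_max_right _ _).trans hq
  haveI : NeZero q := ⟨hq1.ne'⟩
  have hq0 : (0 : ℝ) < q := by exact_mod_cast hq1
  have h1 := hq₁ q hqA ((le_max_left _ _).trans ((le_max_left _ _).trans hq))
  have h2 := hq₂ q ((le_max_right _ _).trans ((le_max_left _ _).trans hq))
  have e1 := fib_sum hF q (CC q)
  have e2 := fib_sum hF q (Set.univ : Set (Fin 5 → ZMod q))
  have hgt : ∀ x : Fin 5 → ZMod q, g (tq q x) = perz F (fun i => ((x i).val : ℝ) / q) := fun x => by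
    rw [tq_tpr, hg]
  have e3 : DE q g = ((∑ᶠ x ∈ {x : Fin 5 → ℤ | red q x ∈ CC q}, F (fun i => (x i : ℝ) / q)) -
      (cq q : ℝ) * ((∑ᶠ x : Fin 5 → ℤ, F (fun i => (x i : ℝ) / q)) / (q : ℝ) ^ 5) : ℝ) := by
    have e4 : (∑ᶠ x : Fin 5 → ℤ, F (fun i => (x i : ℝ) / q)) =
        ∑ x : Fin 5 → ZMod q, perz F (fun i => ((x i).val : ℝ) / q) := by
      have : {x : Fin 5 → ℤ | red q x ∈ (Set.univ : Set (Fin 5 → ZMod q))} = Set.univ := by
        ext; simp
      rw [this, finsum_mem_univ] at e2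
      rw [e2]
      refine Finset.sum_congr ?_ fun _ _ => rfl
      ext x
      simp
    rw [e1, e4, DE]
    simp only [hgt]
    push_cast
    rw [div_mul_eq_mul_div, mul_div_assoc]
    refine congrArg₂ (· - ·) (Finset.sum_congr ?_ fun _ _ => rfl) ?_
    · ext x
      simp only [Finset.mem_filter, Finset.mem_univ, true_and]
    · refine congrArg (fun t : ℂ => (cq q : ℂ) * (t / (q : ℂ) ^ 5)) (Finset.sum_congr ?_ fun _ _ => rfl)
      ext x
      simp only [Finset.mem_univ]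
  rw [e3, Complex.norm_real, Real.norm_eq_abs] at h1
  simp only [Function.comp, Fintype.card_fin, Real.dist_eq] at h2
  have hcq : (cq q : ℝ) ≤ (q : ℝ) ^ 3 := by exact_mod_cast cq_le hqA
  have hcq0 : (0 : ℝ) ≤ cq q := by positivity
  set R := (∑ᶠ x : Fin 5 → ℤ, F (fun i => (x i : ℝ) / q)) / (q : ℝ) ^ 5
  set S := ∑ᶠ x ∈ {x : Fin 5 → ℤ | red q x ∈ CC q}, F (fun i => (x i : ℝ) / q)
  set J := ∫ u, F u
  calc |S - cq q * J| = |(S - cq q * R) + cq q * (R - J)| := by congr 1; ring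
    _ ≤ |S - cq q * R| + |cq q * (R - J)| := abs_add_le _ _
    _ ≤ ε / 2 * (q : ℝ) ^ 3 + (q : ℝ) ^ 3 * (ε / 2) := by
      rw [abs_mul, abs_of_nonneg hcq0]
      exact add_le_add h1 (mul_le_mul hcq h2.le (abs_nonneg _) (by positivity))
    _ = _ := by ring

theorem eqd : S_EQ := by
  intro Q hQ hAQ ρ F hc hF ε hε
  have hQ' : (0 : ℝ) < Q := by exact_mod_cast hQ
  -- the shifted functions
  let G : ℕ → (Fin 5 → ℝ) → ℝ := fun j u => F (fun i => (Q : ℝ) * u i + (ρ i : ℝ) * j)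
  have hGeq : ∀ j, G j = F ∘ ((Homeomorph.smulOfNeZero (Q : ℝ) hQ'.ne').trans
      (Homeomorph.addRight (fun i => (ρ i : ℝ) * j))) := by
    intro j
    funext u
    simp only [G, Function.comp]
    congr 1
  have hGc : ∀ j, Continuous (G j) := fun j => hc.comp (by fun_prop)
  have hGs : ∀ j, HasCompactSupport (G j) := fun j => by
    rw [hGeq j]
    exact hF.comp_homeomorph _
  have hGint : ∀ j, ∫ u, G j u = (∫ u, F u) / (Q : ℝ) ^ 5 := by
    intro j
    have e1 : ∀ u, G j u = (fun v => F (v + fun i => (ρ i : ℝ) * j)) ((Q : ℝ) • u) := by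
      intro u
      simp only [G]
      congr 1
    have e2 := Measure.integral_comp_smul_of_nonneg (volume : Measure (Fin 5 → ℝ))
      (fun v => F (v + fun i => (ρ i : ℝ) * j)) (Q : ℝ) (hR := hQ'.le)
    rw [integral_congr_ae (Filter.Eventually.of_forall e1), e2,
      integral_add_right_eq_self (fun v => F v), Module.finrank_pi, Fintype.card_fin, smul_eq_mul]
    ring
  choose q₀ hq₀ using fun j : ℕ => eq_one (G j) (hGc j) (hGs j) ε hε
  refine ⟨max ((Finset.range Q).sup q₀) 1, fun q hq hcop => ?_⟩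
  have hq1 : 0 < q := (le_max_right _ _).trans hq
  have hq0 : (0 : ℝ) < q := by exact_mod_cast hq1
  -- the inverse of `q` modulo `Q`
  obtain ⟨j, hjQ, hj⟩ : ∃ j : ℕ, j < Q ∧ (Q : ℤ) ∣ q * j - 1 := by
    haveI : NeZero Q := ⟨hQ.ne'⟩
    refine ⟨((q : ZMod Q)⁻¹).val, ZMod.val_lt _, ?_⟩
    rw [← ZMod.intCast_zmod_eq_zero_iff_dvd]
    push_cast
    rw [ZMod.natCast_zmod_val, ZMod.coe_mul_inv_eq_one _ hcop, sub_self]
  have hqA : Nat.Coprime q AA := Nat.Coprime.coprime_dvd_right hAQ hcop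
  have h1 := hq₀ j q hqA ((Finset.le_sup (f := q₀) (Finset.mem_range.2 hjQ)).trans
    ((le_max_left _ _).trans hq))
  have hunit : IsUnit ((Q : ℕ) : ZMod q) := by
    rw [ZMod.isUnit_iff_coprime]
    exact hcop.symm
  have hmem : ∀ y : Fin 5 → ℤ, red q (fun i => ρ i * (q * j) + Q * y i) ∈ CC q ↔ red q y ∈ CC q := by
    intro y
    have e1 : red q (fun i => ρ i * (q * j) + Q * y i) = ((Q : ℕ) : ZMod q) • red q y := by
      funext i
      simp [red]
    rw [e1]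
    constructor
    · rintro ⟨h2, h3⟩
      obtain ⟨u, hu⟩ := hunit
      rw [← hu] at h2 h3
      have e2 : red q y = (↑u⁻¹ : ZMod q) • ((u : ZMod q) • red q y) := by
        rw [smul_smul, Units.inv_mul, one_smul]
      rw [e2]
      exact ⟨unimod_smul u⁻¹.isUnit h2, by rw [mm_smul, h3, smul_zero]⟩
    · rintro ⟨h2, h3⟩
      exact ⟨unimod_smul hunit h2, by rw [mm_smul, h3, smul_zero]⟩
  have hbij : ∑ᶠ x ∈ {x : Fin 5 → ℤ | (∀ i, (Q : ℤ) ∣ x i - ρ i) ∧ red q x ∈ CC q},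
      F (fun i => (x i : ℝ) / q) =
      ∑ᶠ y ∈ {y : Fin 5 → ℤ | red q y ∈ CC q}, G j (fun i => (y i : ℝ) / q) := by
    symm
    refine finsum_mem_eq_of_bijOn (fun y i => ρ i * (q * j) + Q * y i) ⟨?_, ?_, ?_⟩ ?_
    · intro y hy
      refine ⟨fun i => ?_, (hmem y).2 hy⟩
      have e1 : ρ i * (q * j) + Q * y i - ρ i = ρ i * (q * j - 1) + Q * y i := by ring
      rw [e1]
      exact dvd_add (Dvd.dvd.mul_left hj _) (dvd_mul_right _ _)
    · intro y _ y' _ h
      funext i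
      have h2 := congrFun h i
      simp only at h2
      have hQz : (Q : ℤ) ≠ 0 := by exact_mod_cast hQ.ne'
      exact mul_left_cancel₀ hQz (add_left_cancel h2)
    · rintro x ⟨hx1, hx2⟩
      have h2 : ∀ i, ∃ y : ℤ, x i = ρ i * (q * j) + Q * y := by
        intro i
        obtain ⟨a, ha⟩ := hx1 i
        obtain ⟨b, hb⟩ := hj
        refine ⟨a - ρ i * b, ?_⟩
        have : x i = ρ i + Q * a := by linarith
        rw [this]
        have hb' : (q : ℤ) * j = 1 + Q * b := by linarith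
        rw [hb']
        ring
      choose y hy using h2
      refine ⟨y, ?_, ?_⟩
      · rw [Set.mem_ofPred_eq, ← hmem y]
        rw [show (fun i => ρ i * (q * j) + Q * y i) = x from (funext hy).symm]
        exact hx2
      · exact (funext hy).symm
    · intro y _
      simp only [G]
      congr 1
      funext i
      push_cast
      field_simp
      ring
  rw [hbij]
  rw [hGint j] at h1
  have e5 : (cq q : ℝ) / (Q : ℝ) ^ 5 * ∫ u, F u = (cq q : ℝ) * ((∫ u, F u) / (Q : ℝ) ^ 5) := by ring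
  rw [e5]
  exact h1

end Pool.Agent.KS6_30.VA
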