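import Pool.Agent.KS6_30.VA.Shell

set_option autoImplicit false
set_option linter.unusedSectionVars false
set_option linter.style.haveILetI false

namespace Pool.Agent.KS6_30.VA

open Finset
open Tern

variable [Tern]

/-- the primitive vector of a direction -/
theorem exists_prim {ι : Type*} [Fintype ι] {x : ι → ℤ} (hx : x ≠ 0) :
    ∃ (g : ℤ) (v : ι → ℤ), 0 < g ∧ Unimod v ∧ x = g • v := by
  classical
  set G : ℕ := Finset.univ.gcd fun i => (x i).natAbs with hG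
  have hdvd : ∀ i, (G : ℤ) ∣ x i := fun i => Int.natCast_dvd.2 (Finset.gcd_dvd (mem_univ i))
  have hG0 : G ≠ 0 := by
    intro h
    rw [hG, Finset.gcd_eq_zero_iff] at h
    exact hx (funext fun i => Int.natAbs_eq_zero.1 (h i (mem_univ i)))
  choose v hv using hdvd
  refine ⟨G, v, by exact_mod_cast Nat.pos_of_ne_zero hG0, ?_, ?_⟩
  · rw [unimod_int_iff]
    intro p hp
    by_contra hc
    push Not at hc
    have h3 : G * p ∣ G := by
      conv_rhs => rw [hG]
      refine Finset.dvd_gcd fun i _ => Int.natCast_dvd.1 ?_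
      rw [hv i]
      push_cast
      exact mul_dvd_mul_left _ (hc i)
    have h4 := Nat.le_of_dvd (Nat.pos_of_ne_zero hG0) h3
    have := hp.two_le
    have := Nat.pos_of_ne_zero hG0
    nlinarith
  · funext i
    rw [Pi.smul_apply, smul_eq_mul]
    exact hv i

/-- primitive vectors, up to scalars -/
theorem prim_of_smul {ι : Type*} [Fintype ι] {x y : ι → ℤ} (hx : Unimod x) {g k : ℤ} (hk : k ≠ 0)
    (h : g • x = k • y) : ∃ m : ℤ, y = m • x ∧ g = k * m := by
  obtain ⟨e, he⟩ := hx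
  have h1 : g = k * ∑ i, e i * y i := by
    calc g = g * ∑ i, e i * x i := by rw [he, mul_one]
      _ = ∑ i, e i * (g • x) i := by
        rw [Finset.mul_sum]
        exact Finset.sum_congr rfl fun i _ => by simp only [Pi.smul_apply, smul_eq_mul]; ring
      _ = ∑ i, e i * (k • y) i := by rw [h]
      _ = _ := by
        rw [Finset.mul_sum]
        exact Finset.sum_congr rfl fun i _ => by simp only [Pi.smul_apply, smul_eq_mul]; ring
  refine ⟨∑ i, e i * y i, ?_, h1⟩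
  funext i
  have h2 := congrFun h i
  simp only [Pi.smul_apply, smul_eq_mul] at h2 ⊢
  apply mul_left_cancel₀ hk
  rw [← h2, h1]
  ring

/-- the content of `pf v` -/
theorem pf_content {v : Fin 3 → ℤ} (hv : Unimod v) :
    ∃ (g : ℤ) (p : Fin 5 → ℤ), 0 < g ∧ g ∣ DD ∧ Unimod p ∧ pf v = g • p := by
  obtain ⟨e, he⟩ := pf_gen hv
  have h0 : pf v ≠ 0 := by
    intro h
    rw [h] at he
    simp only [Pi.zero_apply, mul_zero, Finset.sum_const_zero, Int.cast_id] at he
    exact DD_ne he.symm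
  obtain ⟨g, p, hg, hp, hgp⟩ := exists_prim h0
  refine ⟨g, p, hg, ?_, hp, hgp⟩
  rw [Int.cast_id] at he
  rw [← he, hgp]
  exact Finset.dvd_sum fun i _ => ⟨e i * p i, by simp only [Pi.smul_apply, smul_eq_mul]; ring⟩

/-- the integral primitive vectors of the cone -/
theorem cone_pf {x : Fin 5 → ℤ} (hx : Unimod x) (hm : mm x = 0) :
    ∃ v : Fin 3 → ℤ, Unimod v ∧ ∃ k : ℤ, k ≠ 0 ∧ k ∣ DD ∧ pf v = k • x := by
  obtain ⟨e, he⟩ := mu_unimod hx
  have h1 : ∃ p, mu x p ≠ 0 := by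
    by_contra hc
    push Not at hc
    simp [hc] at he
  obtain ⟨p, hp⟩ := h1
  obtain ⟨g, v, hg, hv, hgv⟩ := exists_prim hp
  have h2 : ml v x = 0 := by
    have h3 : g • ml v x = 0 := by
      rw [← ml_smul_left, ← hgv]
      funext i
      rw [ml_mu, hm]
      rfl
    funext i
    have := congrFun h3 i
    rw [Pi.smul_apply, smul_eq_mul, Pi.zero_apply] at this
    exact (mul_eq_zero.1 this).resolve_left hg.ne'
  have h3 : wedge (pf v) x = 0 := by rw [wedge_pf, h2, LL_zero]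
  obtain ⟨k, q, hk, hkD, hq, hkq⟩ := pf_content hv
  have h4 : wedge q x = 0 := by
    funext p
    have h5 := congrFun h3 p
    rw [hkq] at h5
    simp only [wedge, Pi.smul_apply, smul_eq_mul, Pi.zero_apply] at h5 ⊢
    have h6 : k * (q p.1 * x p.2 - q p.2 * x p.1) = 0 := by linear_combination h5
    exact (mul_eq_zero.1 h6).resolve_left hk.ne'
  refine ⟨v, hv, ?_⟩
  rcases prim_parallel hq hx h4 with h5 | h5
  · exact ⟨k, hk.ne', hkD, by rw [hkq, h5]⟩
  · refine ⟨-k, neg_ne_zero.2 hk.ne', (neg_dvd).2 hkD, ?_⟩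
    rw [hkq, h5]
    simp

section

variable {R : Type*} [CommRing R]

/-- tangent vectors of the cone -/
def tg (l : Fin 3 → R) : Fin 3 → Fin 5 → R :=
  ![![-(2 * fa * l 0), 0, 0, -l 2, l 1], ![2 * fb * l 1, -(2 * fb * l 1), l 2, 0, l 0],
    ![0, 2 * fc * l 2, l 1, -l 0, 0]]

theorem ml_tg {v : Fin 3 → R} {y : Fin 5 → R} (h : Iso (pf v) y) (k : Fin 3) :
    ∑ i, ml v y i * tg v k i = 0 := by
  obtain ⟨h0, h1, h2⟩ := h
  simp only [b0, b1, b2, pf, Matrix.cons_val] at h0 h1 h2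
  rw [Fin.sum_univ_five]
  fin_cases k <;> simp only [ml, tg, Fin.zero_eta, Fin.mk_one, Fin.reduceFinMk, Matrix.cons_val]
  · linear_combination h0
  · linear_combination h1
  · linear_combination h2

/-- the plane orthogonal to the tangent space -/
def cst (l : Fin 3 → R) : Fin 5 × Fin 5 → R := fun p =>
  (![![0, -(l 0 * l 1 * l 2), l 0 * (fc * l 2 ^ 2 - fb * l 1 ^ 2), -(l 1 * (fb * l 1 ^ 2 + fc * l 2 ^ 2)),
      -(l 2 * (fb * l 1 ^ 2 + fc * l 2 ^ 2))],
    ![l 0 * l 1 * l 2, 0, -(l 0 * (fa * l 0 ^ 2 + fb * l 1 ^ 2)), -(l 1 * (fa * l 0 ^ 2 + fb * l 1 ^ 2)),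
      l 2 * (fa * l 0 ^ 2 - fb * l 1 ^ 2)],
    ![-(l 0 * (fc * l 2 ^ 2 - fb * l 1 ^ 2)), l 0 * (fa * l 0 ^ 2 + fb * l 1 ^ 2), 0,
      2 * fc * l 2 * (fa * l 0 ^ 2 + fb * l 1 ^ 2), 2 * fb * l 1 * (fa * l 0 ^ 2 + fc * l 2 ^ 2)],
    ![l 1 * (fb * l 1 ^ 2 + fc * l 2 ^ 2), l 1 * (fa * l 0 ^ 2 + fb * l 1 ^ 2),
      -(2 * fc * l 2 * (fa * l 0 ^ 2 + fb * l 1 ^ 2)), 0, 2 * fa * l 0 * (fb * l 1 ^ 2 + fc * l 2 ^ 2)],
    ![l 2 * (fb * l 1 ^ 2 + fc * l 2 ^ 2), -(l 2 * (fa * l 0 ^ 2 - fb * l 1 ^ 2)),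
      -(2 * fb * l 1 * (fa * l 0 ^ 2 + fc * l 2 ^ 2)), -(2 * fa * l 0 * (fb * l 1 ^ 2 + fc * l 2 ^ 2)),
      0]] : Fin 5 → Fin 5 → R) p.1 p.2

theorem cst01 (l : Fin 3 → R) : cst l (0, 1) = -(l 0 * l 1 * l 2) := rfl
theorem cst02 (l : Fin 3 → R) : cst l (0, 2) = l 0 * (fc * l 2 ^ 2 - fb * l 1 ^ 2) := rfl
theorem cst03 (l : Fin 3 → R) : cst l (0, 3) = -(l 1 * (fb * l 1 ^ 2 + fc * l 2 ^ 2)) := rfl
theorem cst04 (l : Fin 3 → R) : cst l (0, 4) = -(l 2 * (fb * l 1 ^ 2 + fc * l 2 ^ 2)) := rfl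
theorem cst12 (l : Fin 3 → R) : cst l (1, 2) = -(l 0 * (fa * l 0 ^ 2 + fb * l 1 ^ 2)) := rfl
theorem cst13 (l : Fin 3 → R) : cst l (1, 3) = -(l 1 * (fa * l 0 ^ 2 + fb * l 1 ^ 2)) := rfl
theorem cst14 (l : Fin 3 → R) : cst l (1, 4) = l 2 * (fa * l 0 ^ 2 - fb * l 1 ^ 2) := rfl
theorem cst23 (l : Fin 3 → R) : cst l (2, 3) = 2 * fc * l 2 * (fa * l 0 ^ 2 + fb * l 1 ^ 2) := rfl
theorem cst24 (l : Fin 3 → R) : cst l (2, 4) = 2 * fb * l 1 * (fa * l 0 ^ 2 + fc * l 2 ^ 2) := rfl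
theorem cst34 (l : Fin 3 → R) : cst l (3, 4) = 2 * fa * l 0 * (fb * l 1 ^ 2 + fc * l 2 ^ 2) := rfl

set_option maxHeartbeats 4000000 in
theorem two_in_cst {l : Fin 3 → R} {z : Fin 5 → R} (h : ∀ k, ∑ i, z i * tg l k i = 0)
    (i j k : Fin 5) : 2 * (z i * cst l (j, k) - z j * cst l (i, k) + z k * cst l (i, j)) = 0 := by
  have h0 := h 0
  have h1 := h 1
  have h2 := h 2
  simp only [Fin.sum_univ_five, tg, Matrix.cons_val] at h0 h1 h2
  have k012 : 2 * (z 0 * cst l (1, 2) - z 1 * cst l (0, 2) + z 2 * cst l (0, 1)) = 0 := by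
    rw [cst12, cst02, cst01]
    linear_combination l 0 ^ 2 * h0 - l 0 * l 1 * h1 - l 0 * l 2 * h2
  have k013 : 2 * (z 0 * cst l (1, 3) - z 1 * cst l (0, 3) + z 3 * cst l (0, 1)) = 0 := by
    rw [cst13, cst03, cst01]
    linear_combination l 0 * l 1 * h0 - l 1 ^ 2 * h1 + l 1 * l 2 * h2
  have k014 : 2 * (z 0 * cst l (1, 4) - z 1 * cst l (0, 4) + z 4 * cst l (0, 1)) = 0 := by
    rw [cst14, cst04, cst01]
    linear_combination -(l 0 * l 2) * h0 - l 1 * l 2 * h1 + l 2 ^ 2 * h2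
  have k023 : 2 * (z 0 * cst l (2, 3) - z 2 * cst l (0, 3) + z 3 * cst l (0, 2)) = 0 := by
    rw [cst23, cst03, cst02]
    linear_combination -(2 * (fc : R) * l 0 * l 2) * h0 + 2 * (fc : R) * l 1 * l 2 * h1 + 2 * (fb : R) * l 1 ^ 2 * h2
  have k024 : 2 * (z 0 * cst l (2, 4) - z 2 * cst l (0, 4) + z 4 * cst l (0, 2)) = 0 := by
    rw [cst24, cst04, cst02]
    linear_combination -(2 * (fb : R) * l 0 * l 1) * h0 + 2 * (fc : R) * l 2 ^ 2 * h1 + 2 * (fb : R) * l 1 * l 2 * h2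
  have k034 : 2 * (z 0 * cst l (3, 4) - z 3 * cst l (0, 4) + z 4 * cst l (0, 3)) = 0 := by
    rw [cst34, cst04, cst03]
    linear_combination -(2 * (fb : R) * l 1 ^ 2 + 2 * (fc : R) * l 2 ^ 2) * h0
  have k123 : 2 * (z 1 * cst l (2, 3) - z 2 * cst l (1, 3) + z 3 * cst l (1, 2)) = 0 := by
    rw [cst23, cst13, cst12]
    linear_combination (2 * (fa : R) * l 0 ^ 2 + 2 * (fb : R) * l 1 ^ 2) * h2
  have k124 : 2 * (z 1 * cst l (2, 4) - z 2 * cst l (1, 4) + z 4 * cst l (1, 2)) = 0 := by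
    rw [cst24, cst14, cst12]
    linear_combination -(2 * (fb : R) * l 0 * l 1) * h0 - 2 * (fa : R) * l 0 ^ 2 * h1 + 2 * (fb : R) * l 1 * l 2 * h2
  have k134 : 2 * (z 1 * cst l (3, 4) - z 3 * cst l (1, 4) + z 4 * cst l (1, 3)) = 0 := by
    rw [cst34, cst14, cst13]
    linear_combination -(2 * (fb : R) * l 1 ^ 2) * h0 - 2 * (fa : R) * l 0 * l 1 * h1 + 2 * (fa : R) * l 0 * l 2 * h2
  have k234 : 2 * (z 2 * cst l (3, 4) - z 3 * cst l (2, 4) + z 4 * cst l (2, 3)) = 0 := by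
    rw [cst34, cst24, cst23]
    linear_combination 4 * (fb : R) * (fc : R) * l 1 * l 2 * h0 + 4 * (fa : R) * (fc : R) * l 0 * l 2 * h1 + 4 * (fa : R) * (fb : R) * l 0 * l 1 * h2
  clear h0 h1 h2 h
  have hd : ∀ i, cst l (i, i) = 0 := by
    intro i
    fin_cases i <;> rfl
  have a10 : cst l (1, 0) = - cst l (0, 1) := by simp [cst]
  have a20 : cst l (2, 0) = - cst l (0, 2) := by simp [cst]
  have a30 : cst l (3, 0) = - cst l (0, 3) := by simp [cst]
  have a40 : cst l (4, 0) = - cst l (0, 4) := by simp [cst]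
  have a21 : cst l (2, 1) = - cst l (1, 2) := by simp [cst]
  have a31 : cst l (3, 1) = - cst l (1, 3) := by simp [cst]
  have a41 : cst l (4, 1) = - cst l (1, 4) := by simp [cst]
  have a32 : cst l (3, 2) = - cst l (2, 3) := by simp [cst]
  have a42 : cst l (4, 2) = - cst l (2, 4) := by simp [cst]
  have a43 : cst l (4, 3) = - cst l (3, 4) := by simp [cst]
  fin_cases i <;> fin_cases j <;> fin_cases k <;>
    simp only [Fin.zero_eta, Fin.mk_one, Fin.reduceFinMk, hd, a10, a20, a30, a40, a21, a31, a41,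
      a32, a42, a43] <;>
    first
    | ring1
    | linear_combination k012
    | linear_combination k013
    | linear_combination k014
    | linear_combination k023
    | linear_combination k024
    | linear_combination k034
    | linear_combination k123
    | linear_combination k124
    | linear_combination k134
    | linear_combination k234
    | linear_combination -k012
    | linear_combination -k013
    | linear_combination -k014
    | linear_combination -k023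
    | linear_combination -k024
    | linear_combination -k034
    | linear_combination -k123
    | linear_combination -k124
    | linear_combination -k134
    | linear_combination -k234

/-- the ideal of `cst` -/
theorem cst_mem (l : Fin 3 → R) (i : Fin 3) :
    (4 * ((DD : ℤ) : R) ^ 2) * l i ^ 3 ∈ Ideal.span (Set.range (cst l)) := by
  have hm : ∀ p, cst l p ∈ Ideal.span (Set.range (cst l)) := fun p => Ideal.subset_span ⟨p, rfl⟩
  have m := fun (r : R) p => Ideal.mul_mem_left (Ideal.span (Set.range (cst l))) r (hm p)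
  fin_cases i
  · have e : (4 * ((DD : ℤ) : R) ^ 2) * l 0 ^ 3 = ((fb : R) ^ 2 * fc ^ 2 * (-4 * fa)) * cst l (1, 2) +
        (-((fb : R) ^ 2 * fc ^ 2)) * cst l (3, 4) + ((fb : R) ^ 2 * fc ^ 2 * (2 * fa)) * cst l (0, 2) := by
      rw [cst12, cst34, cst02]
      simp only [DD, Int.cast_mul]
      ring
    simp only [Fin.zero_eta]
    rw [e]
    exact Ideal.add_mem _ (Ideal.add_mem _ (m _ _) (m _ _)) (m _ _)
  · have e : (4 * ((DD : ℤ) : R) ^ 2) * l 1 ^ 3 = ((fa : R) ^ 2 * fc ^ 2 * (-2 * fb)) * cst l (1, 3) +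
        ((fa : R) ^ 2 * fc ^ 2 * (-2 * fb)) * cst l (0, 3) + (-((fa : R) ^ 2 * fc ^ 2)) * cst l (2, 4) := by
      rw [cst13, cst03, cst24]
      simp only [DD, Int.cast_mul]
      ring
    simp only [Fin.mk_one]
    rw [e]
    exact Ideal.add_mem _ (Ideal.add_mem _ (m _ _) (m _ _)) (m _ _)
  · have e : (4 * ((DD : ℤ) : R) ^ 2) * l 2 ^ 3 = ((fa : R) ^ 2 * fb ^ 2 * (-4 * fc)) * cst l (0, 4) +
        (-((fa : R) ^ 2 * fb ^ 2)) * cst l (2, 3) + ((fa : R) ^ 2 * fb ^ 2 * (2 * fc)) * cst l (1, 4) := by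
      rw [cst04, cst23, cst14]
      simp only [DD, Int.cast_mul]
      ring
    simp only [Fin.reduceFinMk]
    rw [e]
    exact Ideal.add_mem _ (Ideal.add_mem _ (m _ _) (m _ _)) (m _ _)

theorem cst_gen {l : Fin 3 → R} (h : Unimod l) :
    ∃ e : Fin 5 × Fin 5 → R, ∑ i, e i * cst l i = 4 * ((DD : ℤ) : R) ^ 2 := by
  have h1 := mem_of_pow h (Ideal.span (Set.range (cst l))) _ 3 (cst_mem l)
  exact Ideal.mem_span_range_iff_exists_fun.1 h1

end

theorem in_cst {l : Fin 3 → ℤ} {z : Fin 5 → ℤ} (h : ∀ k, ∑ i, z i * tg l k i = 0) :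
    In (cst l) z := by
  intro i j k
  have := two_in_cst h i j k
  omega

/-- the primitive vector of `cst l` -/
theorem cst_content {l : Fin 3 → ℤ} (hl : Unimod l) :
    ∃ (g : ℤ) (p : Fin 5 × Fin 5 → ℤ), 0 < g ∧ g ∣ 4 * DD ^ 2 ∧ Unimod p ∧ cst l = g • p := by
  obtain ⟨e, he⟩ := cst_gen hl
  rw [Int.cast_id] at he
  have hD := DD_ne
  have h0 : cst l ≠ 0 := by
    intro h
    rw [h] at he
    simp only [Pi.zero_apply, mul_zero, Finset.sum_const_zero] at he
    have : 4 * DD ^ 2 ≠ 0 := by positivity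
    exact this he.symm
  obtain ⟨g, p, hg, hp, hgp⟩ := exists_prim h0
  refine ⟨g, p, hg, ?_, hp, hgp⟩
  rw [← he, hgp]
  exact Finset.dvd_sum fun i _ => ⟨e i * p i, by simp only [Pi.smul_apply, smul_eq_mul]; ring⟩

theorem in_smul_left {w : Fin 5 × Fin 5 → ℤ} {x : Fin 5 → ℤ} {g : ℤ} (hg : g ≠ 0) (h : In (g • w) x) :
    In w x := by
  intro i j k
  have := h i j k
  simp only [Pi.smul_apply, smul_eq_mul] at this
  have e : g * (x i * w (j, k) - x j * w (i, k) + x k * w (i, j)) = 0 := by linear_combination this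
  exact (mul_eq_zero.1 e).resolve_left hg

theorem rv_cst (l : Fin 3 → ℤ) : rv (cst l) = cst (rv l) := by
  funext ⟨i, j⟩
  fin_cases i <;> fin_cases j <;> simp [rv, cst]

theorem exists_nz_cst_ge : ∃ K : ℝ, 1 ≤ K ∧ ∀ l : Fin 3 → ℤ, nz l ^ 3 ≤ K * nz (cst l) := by
  obtain ⟨K, hK, h⟩ := hom_lower 3 (by norm_num) (fun l : Fin 3 → ℝ => ‖cst l‖) (by
      refine Continuous.norm (continuous_pi fun p => ?_)
      obtain ⟨j, k⟩ := p
      fin_cases j <;> fin_cases k <;>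
        simp only [cst, Fin.zero_eta, Fin.mk_one, Fin.reduceFinMk, Matrix.cons_val,
          Matrix.cons_val_zero, Matrix.cons_val_one] <;>
        fun_prop)
    (fun t ht x => by
      have : cst (t • x) = t ^ 3 • cst x := by
        funext ⟨i, j⟩
        fin_cases i <;> fin_cases j <;> simp [cst] <;> ring
      rw [this, norm_smul, norm_pow, Real.norm_eq_abs, abs_of_nonneg ht])
    (fun x hx => by
      rw [norm_pos_iff]
      intro h
      obtain ⟨e, he⟩ := cst_gen (unimod_of_ne hx)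
      rw [h] at he
      simp only [Pi.zero_apply, mul_zero, Finset.sum_const_zero] at he
      have hD := DD_real
      have : 4 * ((DD : ℤ) : ℝ) ^ 2 ≠ 0 := by positivity
      exact this he.symm)
  refine ⟨K, hK, fun l => ?_⟩
  have := h (rv l)
  rw [nz, nz, rv_cst]
  exact this

end Pool.Agent.KS6_30.VA
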