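import Pool.Agent.KS6_30.VA.Cont
import Pool.Agent.KS6_30.VA.Cub
import Pool.Agent.KS6_30.VA.Win
import Pool.Agent.KS6_30.VA.STyp

/-!
# Points, local factors and heights
-/

set_option autoImplicit false
set_option linter.unusedSectionVars false

namespace Pool.Agent.KS6_30.VA

open Finset Filter Topology
open Tern

variable [Tern]

section

variable {L : Type*} [NormedField L]

/-- the cone over `V(L)` -/
def Cone (L : Type*) [NormedField L] : Set (Fin 5 × Fin 5 → L) :=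
  {q | q ≠ 0 ∧ ∃ x y : Fin 5 → L, Iso x y ∧ q = wedge x y}

/-- a positive continuous function on `V(L)` -/
structure Fac (L : Type*) [NormedField L] (ψ : (Fin 5 × Fin 5 → L) → ℝ) : Prop where
  pos : ∀ q ∈ Cone L, 0 < ψ q
  cts : ContinuousOn ψ (Cone L)
  inv : ∀ a : L, a ≠ 0 → ∀ q ∈ Cone L, ψ (a • q) = ψ q

/-- normalized basis of a plane -/
theorem norm_basis {x y : Fin 5 → L} (hi : Iso x y) (hw : wedge x y ≠ 0) :
    ∃ (z : (Fin 5 → L) × (Fin 5 → L)) (a : L), z ∈ KI L ∧ a ≠ 0 ∧ ‖a‖ = ‖wedge x y‖ ∧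
      wedge x y = a • wedge z.1 z.2 := by
  obtain ⟨p, hp⟩ : ∃ p, ‖wedge x y‖ = ‖wedge x y p‖ := by
    obtain ⟨p, hp⟩ := Finite.exists_max fun p => ‖wedge x y p‖
    refine ⟨p, le_antisymm ?_ (norm_le_pi_norm _ p)⟩
    rw [pi_norm_le_iff_of_nonneg (norm_nonneg _)]
    exact hp
  set a := wedge x y p with ha
  have hn : 0 < ‖wedge x y‖ := norm_pos_iff.2 hw
  have ha0 : a ≠ 0 := by
    intro h0
    rw [hp, h0, norm_zero] at hn
    exact lt_irrefl _ hn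
  have han : 0 < ‖a‖ := norm_pos_iff.2 ha0
  set p' : Fin 5 → L := (a⁻¹ * y p.2) • x + (-(a⁻¹ * x p.2)) • y with hp'
  set q' : Fin 5 → L := (-(a⁻¹ * y p.1)) • x + (a⁻¹ * x p.1) • y with hq'
  have e1 : ∀ k, p' k = a⁻¹ * wedge x y (k, p.2) := by
    intro k
    simp only [hp', wedge, Pi.add_apply, Pi.smul_apply, smul_eq_mul]
    ring
  have e2 : ∀ k, q' k = a⁻¹ * wedge x y (p.1, k) := by
    intro k
    simp only [hq', wedge, Pi.add_apply, Pi.smul_apply, smul_eq_mul]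
    ring
  have hbd : ∀ r, ‖a⁻¹ * wedge x y r‖ ≤ 1 := by
    intro r
    rw [norm_mul, norm_inv, inv_mul_le_iff₀ han, mul_one, ← hp]
    exact norm_le_pi_norm _ r
  have hdet : wedge p' q' = a⁻¹ • wedge x y := by
    rw [hp', hq', wedge_comb]
    congr 1
    have : a⁻¹ * y p.2 * (a⁻¹ * x p.1) - -(a⁻¹ * x p.2) * -(a⁻¹ * y p.1) = a⁻¹ * a⁻¹ * a := by
      rw [ha]
      simp only [wedge]
      ring
    rw [this]
    field_simp
  refine ⟨(p', q'), a, ⟨?_, ?_, ?_, ?_⟩, ha0, hp.symm, ?_⟩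
  · rw [pi_norm_le_iff_of_nonneg zero_le_one]
    intro k
    simp only
    rw [e1]
    exact hbd _
  · rw [pi_norm_le_iff_of_nonneg zero_le_one]
    intro k
    simp only
    rw [e2]
    exact hbd _
  · simp only
    rw [hdet, norm_smul, norm_inv, hp]
    exact inv_mul_cancel₀ han.ne'
  · exact iso_comb _ _ _ _ hi
  · simp only
    rw [hdet, smul_smul, mul_inv_cancel₀ ha0, one_smul]

theorem KI_cone {z : (Fin 5 → L) × (Fin 5 → L)} (hz : z ∈ KI L) : wedge z.1 z.2 ∈ Cone L := by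
  refine ⟨fun h0 => ?_, z.1, z.2, hz.2.2.2, rfl⟩
  have := hz.2.2.1
  rw [h0, norm_zero] at this
  exact zero_ne_one this

theorem Fac.bounds [ProperSpace L] {ψ : (Fin 5 × Fin 5 → L) → ℝ} (h : Fac L ψ) :
    ∃ a b : ℝ, 0 < a ∧ ∀ q ∈ Cone L, a ≤ ψ q ∧ ψ q ≤ b := by
  have hc : ContinuousOn (fun z : (Fin 5 → L) × (Fin 5 → L) => ψ (wedge z.1 z.2)) (KI L) :=
    h.cts.comp wedge_cts.continuousOn fun z hz => KI_cone hz
  have hval : ∀ q ∈ Cone L, ∃ z ∈ KI L, ψ q = ψ (wedge z.1 z.2) := by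
    rintro q ⟨hq, x, y, hi, rfl⟩
    obtain ⟨z, a, hz, ha, -, he⟩ := norm_basis hi hq
    refine ⟨z, hz, ?_⟩
    rw [he]
    exact h.inv a ha _ (KI_cone hz)
  rcases (KI L).eq_empty_or_nonempty with hE | hE
  · refine ⟨1, 1, one_pos, fun q hq => ?_⟩
    obtain ⟨z, hz, -⟩ := hval q hq
    rw [hE] at hz
    exact absurd hz (Set.notMem_empty z)
  · obtain ⟨z1, hz1, h1⟩ := KI_compact.exists_isMinOn hE hc
    obtain ⟨z2, hz2, h2⟩ := KI_compact.exists_isMaxOn hE hc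
    refine ⟨ψ (wedge z1.1 z1.2), ψ (wedge z2.1 z2.2), h.pos _ (KI_cone hz1), fun q hq => ?_⟩
    obtain ⟨z, hz, he⟩ := hval q hq
    rw [he]
    exact ⟨h1 hz, h2 hz⟩

theorem mm_cone {x : Fin 5 → L} (h : mm x ≠ 0) : mm x ∈ Cone L :=
  ⟨h, x, hes x, iso_hes x, rfl⟩

/-- uniform continuity of `ψ (mm u)` -/
theorem Fac.unif [ProperSpace L] {ψ : (Fin 5 × Fin 5 → L) → ℝ} (h : Fac L ψ) {c : ℝ} (hc : 0 < c)
    {ε : ℝ} (hε : 0 < ε) : ∃ δ : ℝ, 0 < δ ∧ ∀ u u' : Fin 5 → L, ‖u‖ ≤ 1 → ‖u'‖ ≤ 1 →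
      c ≤ ‖mm u‖ → c ≤ ‖mm u'‖ → ‖u - u'‖ < δ → |ψ (mm u) - ψ (mm u')| ≤ ε := by
  set K : Set (Fin 5 → L) := {u | ‖u‖ ≤ 1 ∧ c ≤ ‖mm u‖} with hK
  have hKc : IsCompact K := by
    refine Metric.isCompact_of_isClosed_isBounded ?_ ?_
    · exact IsClosed.inter (isClosed_le continuous_norm continuous_const)
        (isClosed_le continuous_const mm_cts.norm)
    · refine (Metric.isBounded_closedBall (x := 0) (r := 1)).subset ?_
      rintro u ⟨h1, -⟩
      rwa [mem_closedBall_zero_iff]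
  have hcts : ContinuousOn (fun u => ψ (mm u)) K := by
    refine h.cts.comp mm_cts.continuousOn fun u hu => mm_cone fun h0 => ?_
    have := hu.2
    rw [h0, norm_zero] at this
    linarith
  obtain ⟨δ, hδ, h2⟩ := Metric.uniformContinuousOn_iff.1
    (hKc.uniformContinuousOn_of_continuous hcts) ε hε
  refine ⟨δ, hδ, fun u u' a b c d e => ?_⟩
  have := h2 u ⟨a, c⟩ u' ⟨b, d⟩ (by rwa [dist_eq_norm])
  rw [Real.dist_eq] at this
  exact this.le

end

local instance instFactPrimesFin (p : Nat.Primes) : Fact (p : ℕ).Prime := ⟨p.2⟩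

theorem mm_congr' {Q : ℕ} {x x' : Fin 5 → ℤ} (h : ∀ i, (Q : ℤ) ∣ x i - x' i) (r : Fin 5 × Fin 5) :
    (Q : ℤ) ∣ mm x r - mm x' r := by
  have key : ∀ y : Fin 5 → ℤ, (fun i => ((mm y i : ℤ) : ZMod Q)) = mm (fun i => ((y i : ℤ) : ZMod Q)) := by
    intro y
    have h : (fun i => ((hes y i : ℤ) : ZMod Q)) = hes (fun i => ((y i : ℤ) : ZMod Q)) := by
      funext i
      fin_cases i <;> simp [hes]
    have h2 : mm (fun i => ((y i : ℤ) : ZMod Q)) =
        wedge (fun i => ((y i : ℤ) : ZMod Q)) (fun i => ((hes y i : ℤ) : ZMod Q)) := by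
      rw [h, mm]
    rw [h2]
    funext p
    simp [mm, wedge]
  have h1 : (fun i => ((x i : ℤ) : ZMod Q)) = fun i => ((x' i : ℤ) : ZMod Q) := by
    funext i
    rw [← sub_eq_zero, ← Int.cast_sub]
    exact (ZMod.intCast_zmod_eq_zero_iff_dvd _ _).mpr (h i)
  have h2 := key x
  rw [h1, ← key x'] at h2
  have h3 := congrFun h2 r
  rw [← sub_eq_zero, ← Int.cast_sub] at h3
  exact (ZMod.intCast_zmod_eq_zero_iff_dvd _ _).mp h3

theorem VV_ne {w : Fin 5 × Fin 5 → ℤ} (hw : w ∈ VV) : w ≠ 0 := by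
  rintro rfl
  obtain ⟨⟨a, ha⟩, -⟩ := hw
  simp at ha

theorem pv_cone (p : Nat.Primes) {w : Fin 5 × Fin 5 → ℤ} (hw : w ∈ VV) : pv p w ∈ Cone ℚ_[p] := by
  refine ⟨pv_ne (VV_ne hw), ?_⟩
  obtain ⟨-, x, y, hi, rfl⟩ := hw
  exact ⟨pv p x, pv p y, iso_pv p hi, pv_wedge p x y⟩

/-- the local factor of a vector -/
noncomputable def fx (p : Nat.Primes) (φ : (Fin 5 × Fin 5 → ℚ_[p]) → ℝ) (x : Fin 5 → ℤ) : ℝ := by
  classical
  exact if mm x = 0 then 1 else φ (pv p (mm x))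

theorem fx_adm {p : Nat.Primes} {φ : (Fin 5 × Fin 5 → ℚ_[p]) → ℝ} (h : Fac ℚ_[p] φ) (k : ℕ) {ε : ℝ}
    (hε : 0 < ε) : ∃ Q : ℕ, 0 < Q ∧ ∀ x x' : Fin 5 → ℤ, (∀ i, (Q : ℤ) ∣ x i - x' i) →
      ¬ (p : ℕ) ^ k ∣ gg x → |fx p φ x - fx p φ x'| ≤ ε := by
  have hp0 : (0 : ℝ) < (p : ℕ) := by exact_mod_cast p.2.pos
  have hp1 : (1 : ℝ) < (p : ℕ) := by exact_mod_cast p.2.one_lt
  have hck : (0 : ℝ) < ((p : ℕ) : ℝ) ^ (-(k : ℤ)) := zpow_pos hp0 _
  obtain ⟨δ, hδ, hu⟩ := h.unif hck hε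
  obtain ⟨m, hm⟩ : ∃ m : ℕ, ((p : ℕ) : ℝ) ^ (-(m : ℤ)) < δ := by
    obtain ⟨m, hm⟩ := exists_pow_lt_of_lt_one hδ (inv_lt_one_of_one_lt₀ hp1)
    exact ⟨m, by rwa [zpow_neg, zpow_natCast, ← inv_pow]⟩
  refine ⟨(p : ℕ) ^ (m + k), pow_pos p.2.pos _, fun x x' hd hk => ?_⟩
  have key : ∀ y : Fin 5 → ℤ, ¬ (p : ℕ) ^ k ∣ gg y → mm y ≠ 0 ∧
      ((p : ℕ) : ℝ) ^ (-(k : ℤ)) ≤ ‖mm (pv p y)‖ := by
    intro y hy
    have hex : ∃ q, ¬ (((p : ℕ) ^ k : ℕ) : ℤ) ∣ mm y q := by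
      by_contra hc
      push Not at hc
      exact hy (dvd_gg hc)
    obtain ⟨q, hq⟩ := hex
    constructor
    · intro h0
      apply hq
      rw [h0]
      exact dvd_zero _
    · rw [← pv_mm]
      refine le_trans ?_ (norm_le_pi_norm _ q)
      by_contra hc
      apply hq
      have := (Padic.norm_int_le_pow_iff_dvd (p := (p : ℕ)) (mm y q) k).1 (not_le.1 hc).le
      exact_mod_cast this
  have hk' : ¬ (p : ℕ) ^ k ∣ gg x' := by
    intro hc
    apply hk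
    refine dvd_gg fun q => ?_
    have h1 : (((p : ℕ) ^ k : ℕ) : ℤ) ∣ mm x' q := (Int.natCast_dvd_natCast.2 hc).trans (gg_dvd x' q)
    have h2 : (((p : ℕ) ^ k : ℕ) : ℤ) ∣ mm x q - mm x' q :=
      (Int.natCast_dvd_natCast.2 (pow_dvd_pow _ (Nat.le_add_left k m))).trans (mm_congr' hd q)
    have := dvd_add h1 h2
    simpa using this
  obtain ⟨n1, c1⟩ := key x hk
  obtain ⟨n2, c2⟩ := key x' hk'
  rw [fx, fx, if_neg n1, if_neg n2, pv_mm, pv_mm]
  refine hu _ _ (pv_norm_le p x) (pv_norm_le p x') c1 c2 ?_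
  refine lt_of_le_of_lt ?_ hm
  rw [pi_norm_le_iff_of_nonneg (zpow_pos hp0 _).le]
  intro i
  have h1 : (pv p x - pv p x') i = (((x i - x' i : ℤ)) : ℚ_[p]) := by
    simp [pv]
  rw [h1, Padic.norm_int_le_pow_iff_dvd]
  have h2 : (((p : ℕ) ^ m : ℕ) : ℤ) ∣ x i - x' i :=
    (Int.natCast_dvd_natCast.2 (pow_dvd_pow _ (Nat.le_add_right m k))).trans (hd i)
  exact_mod_cast h2

theorem fx_bounds {p : Nat.Primes} {φ : (Fin 5 × Fin 5 → ℚ_[p]) → ℝ} (h : Fac ℚ_[p] φ) :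
    ∃ a b : ℝ, 0 < a ∧ a ≤ 1 ∧ 1 ≤ b ∧ (∀ x, fx p φ x ∈ Set.Icc a b) ∧
      ∀ w ∈ VV, φ (pv p w) ∈ Set.Icc a b := by
  obtain ⟨a, b, ha, hab⟩ := h.bounds
  refine ⟨min a 1, max b 1, by positivity, min_le_right _ _, le_max_right _ _, fun x => ?_,
    fun w hw => ?_⟩
  · rw [fx]
    split_ifs with h0
    · exact ⟨min_le_right _ _, le_max_right _ _⟩
    · have hc : pv p (mm x) ∈ Cone ℚ_[p] := by
        rw [pv_mm]
        exact mm_cone (by rw [← pv_mm]; exact pv_ne h0)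
      obtain ⟨h1, h2⟩ := hab _ hc
      exact ⟨(min_le_left _ _).trans h1, h2.trans (le_max_left _ _)⟩
  · obtain ⟨h1, h2⟩ := hab _ (pv_cone p hw)
    exact ⟨(min_le_left _ _).trans h1, h2.trans (le_max_left _ _)⟩

/-- the finite part -/
theorem finite_part (S : Finset Nat.Primes) (φ : ∀ p : Nat.Primes, (Fin 5 × Fin 5 → ℚ_[p]) → ℝ)
    (hφ : ∀ p ∈ S, Fac ℚ_[p] (φ p)) :
    ∃ (a b : ℝ) (θ : (Fin 5 → ℤ) → ℝ), 0 < a ∧ (∀ x, θ x ∈ Set.Icc a b) ∧
      (∀ w ∈ VV, ∏ p ∈ S, φ p (pv p w) ∈ Set.Icc a b) ∧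
      (∀ w ∈ VV, ∀ x, In w x → mm x ≠ 0 → θ x = ∏ p ∈ S, φ p (pv p w)) ∧
      Adm (S.image fun p : Nat.Primes => (p : ℕ)) θ := by
  classical
  have hbd : ∀ p : Nat.Primes, ∃ a b : ℝ, 0 < a ∧ a ≤ 1 ∧ 1 ≤ b ∧ (p ∈ S → (∀ x, fx p (φ p) x ∈ Set.Icc a b) ∧
      ∀ w ∈ VV, φ p (pv p w) ∈ Set.Icc a b) := by
    intro p
    by_cases hp : p ∈ S
    · obtain ⟨a, b, h1, h2, h3, h4, h5⟩ := fx_bounds (hφ p hp)
      exact ⟨a, b, h1, h2, h3, fun _ => ⟨h4, h5⟩⟩
    · exact ⟨1, 1, one_pos, le_rfl, le_rfl, fun h => absurd h hp⟩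
  choose A B hA hA1 hB1 hAB using hbd
  refine ⟨∏ p ∈ S, A p, ∏ p ∈ S, B p, fun x => ∏ p ∈ S, fx p (φ p) x,
    Finset.prod_pos fun p _ => hA p, fun x => ⟨?_, ?_⟩, fun w hw => ⟨?_, ?_⟩, ?_, ?_⟩
  · exact Finset.prod_le_prod (fun p _ => (hA p).le) fun p hp => ((hAB p hp).1 x).1
  · exact Finset.prod_le_prod (fun p hp => (hA p).le.trans ((hAB p hp).1 x).1)
      fun p hp => ((hAB p hp).1 x).2
  · exact Finset.prod_le_prod (fun p _ => (hA p).le) fun p hp => ((hAB p hp).2 w hw).1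
  · exact Finset.prod_le_prod (fun p hp => (hA p).le.trans ((hAB p hp).2 w hw).1)
      fun p hp => ((hAB p hp).2 w hw).2
  · intro w hw x hin hm
    refine Finset.prod_congr rfl fun p hp => ?_
    rw [fx, if_neg hm]
    obtain ⟨c, hc, -⟩ := mm_of_in hw hin
    have hc0 : c ≠ 0 := by
      rintro rfl
      apply hm
      rw [hc, zero_smul]
    rw [hc, pv_smul]
    exact (hφ p hp).inv _ (by exact_mod_cast hc0) _ (pv_cone p hw)
  · -- admissibility
    have key : ∀ S' : Finset Nat.Primes, S' ⊆ S → ∀ (k : ℕ) (ε : ℝ), 0 < ε → ∃ Q : ℕ, 0 < Q ∧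
        ∀ x x' : Fin 5 → ℤ, (∀ i, (Q : ℤ) ∣ x i - x' i) → (∀ p ∈ S', ¬ (p : ℕ) ^ k ∣ gg x) →
          |∏ p ∈ S', fx p (φ p) x - ∏ p ∈ S', fx p (φ p) x'| ≤ ε := by
      intro S'
      induction S' using Finset.induction_on with
      | empty =>
        intro _ k ε hε
        exact ⟨1, one_pos, fun x x' _ _ => by simpa using hε.le⟩
      | insert p S' hp ih =>
        intro hS k ε hε
        have hpS : p ∈ S := hS (Finset.mem_insert_self _ _)
        have hS' : S' ⊆ S := fun q hq => hS (Finset.mem_insert_of_mem hq)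
        have hM : ∀ x, |∏ q ∈ S', fx q (φ q) x| ≤ ∏ q ∈ S', B q := by
          intro x
          rw [Finset.abs_prod]
          refine Finset.prod_le_prod (fun q _ => abs_nonneg _) fun q hq => ?_
          have := (hAB q (hS' hq)).1 x
          rw [abs_of_nonneg ((hA q).le.trans this.1)]
          exact this.2
        have hMp : 0 < ∏ q ∈ S', B q := Finset.prod_pos fun q _ => by linarith [hB1 q]
        set M := ∏ q ∈ S', B q with hMdef
        have hBp : 0 < B p := by linarith [hB1 p]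
        obtain ⟨Q1, hQ1, h1⟩ := fx_adm (hφ p hpS) k (ε := ε / (2 * M)) (by positivity)
        obtain ⟨Q2, hQ2, h2⟩ := ih hS' k (ε / (2 * B p)) (by positivity)
        refine ⟨Q1 * Q2, Nat.mul_pos hQ1 hQ2, fun x x' hd hk => ?_⟩
        have d1 := h1 x x' (fun i => (Int.natCast_dvd_natCast.2 (Nat.dvd_mul_right Q1 Q2)).trans (hd i))
          (hk p (Finset.mem_insert_self _ _))
        have d2 := h2 x x' (fun i => (Int.natCast_dvd_natCast.2 (Nat.dvd_mul_left Q2 Q1)).trans (hd i))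
          (fun q hq => hk q (Finset.mem_insert_of_mem hq))
        rw [Finset.prod_insert hp, Finset.prod_insert hp]
        have e : fx p (φ p) x * ∏ q ∈ S', fx q (φ q) x - fx p (φ p) x' * ∏ q ∈ S', fx q (φ q) x' =
            (fx p (φ p) x - fx p (φ p) x') * ∏ q ∈ S', fx q (φ q) x +
            fx p (φ p) x' * (∏ q ∈ S', fx q (φ q) x - ∏ q ∈ S', fx q (φ q) x') := by ring
        rw [e]
        refine (abs_add_le _ _).trans ?_
        rw [abs_mul, abs_mul]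
        have f1 : |fx p (φ p) x - fx p (φ p) x'| * |∏ q ∈ S', fx q (φ q) x| ≤ ε / (2 * M) * M :=
          mul_le_mul d1 (hM x) (abs_nonneg _) (by positivity)
        have f2 : |fx p (φ p) x'| ≤ B p := by
          have := (hAB p hpS).1 x'
          rw [abs_of_nonneg ((hA p).le.trans this.1)]
          exact this.2
        have f3 : |fx p (φ p) x'| * |∏ q ∈ S', fx q (φ q) x - ∏ q ∈ S', fx q (φ q) x'| ≤
            B p * (ε / (2 * B p)) := mul_le_mul f2 d2 (abs_nonneg _) hBp.le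
        have f4 : ε / (2 * M) * M = ε / 2 := by
          field_simp
        have f5 : B p * (ε / (2 * B p)) = ε / 2 := by
          field_simp
        linarith
    intro k ε hε
    obtain ⟨Q, hQ, h⟩ := key S (Finset.Subset.refl S) k ε hε
    refine ⟨Q, hQ, fun x x' _ _ hd hk => h x x' hd fun p hp => ?_⟩
    exact hk p (Finset.mem_image_of_mem _ hp)

abbrev PP := Projectivization ℚ (Fin 5 × Fin 5 → ℚ)

def Pt (p : PP) : Prop := ∃ x y : Fin 5 → ℚ, Iso x y ∧ p.rep = wedge x y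

/-- the rational vector -/
def cw {ι : Type*} (w : ι → ℤ) : ι → ℚ := fun q => (w q : ℚ)

def RR (w : Fin 5 × Fin 5 → ℤ) (p : PP) : Prop := ∃ c : ℚ, c ≠ 0 ∧ p.rep = c • cw w

theorem cw_wedge (x y : Fin 5 → ℤ) : cw (wedge x y) = wedge (cw x) (cw y) := by
  funext q
  simp [cw, wedge]

theorem cw_hes (x : Fin 5 → ℤ) : cw (hes x) = hes (cw x) := by
  funext i
  fin_cases i <;> simp [cw, hes]

theorem cw_mm (x : Fin 5 → ℤ) : cw (mm x) = mm (cw x) := by
  rw [mm, cw_wedge, cw_hes, mm]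

theorem cw_inj {ι : Type*} {w w' : ι → ℤ} (h : cw w = cw w') : w = w' := by
  funext q
  have := congrFun h q
  simp only [cw] at this
  exact_mod_cast this

theorem cw_zero {ι : Type*} : cw (0 : ι → ℤ) = 0 := by
  funext q
  simp [cw]

theorem cw_smul {ι : Type*} (c : ℤ) (w : ι → ℤ) : cw (c • w) = (c : ℚ) • cw w := by
  funext q
  simp [cw]

theorem iso_cw {x y : Fin 5 → ℤ} : Iso (cw x) (cw y) ↔ Iso x y := by
  simp only [Iso, b0, b1, b2, cw]
  constructor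
  · rintro ⟨h0, h1, h2⟩
    exact ⟨by exact_mod_cast h0, by exact_mod_cast h1, by exact_mod_cast h2⟩
  · rintro ⟨h0, h1, h2⟩
    exact ⟨by exact_mod_cast h0, by exact_mod_cast h1, by exact_mod_cast h2⟩

/-- primitive integral multiples -/
theorem exists_cw {ι : Type*} [Fintype ι] {v : ι → ℚ} (hv : v ≠ 0) :
    ∃ (c : ℚ) (w : ι → ℤ), c ≠ 0 ∧ Unimod w ∧ v = c • cw w := by
  classical
  obtain ⟨b, hb⟩ := IsLocalization.exist_integer_multiples (nonZeroDivisors ℤ) Finset.univ v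
  have hb0 : ((b : ℤ) : ℚ) ≠ 0 := by
    have := nonZeroDivisors.ne_zero b.2
    exact_mod_cast this
  choose f hf using fun i => hb i (Finset.mem_univ i)
  have hf' : ∀ i, ((f i : ℤ) : ℚ) = (b : ℤ) * v i := by
    intro i
    have := hf i
    simpa [Algebra.smul_def] using this
  have hf0 : f ≠ 0 := by
    intro h0
    apply hv
    funext i
    have := hf' i
    rw [h0] at this
    simp only [Pi.zero_apply, Int.cast_zero] at this ⊢
    exact (mul_eq_zero.1 this.symm).resolve_left hb0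
  obtain ⟨g, w, hg, hw, hgw⟩ := exists_prim hf0
  refine ⟨(g : ℚ) / (b : ℤ), w, div_ne_zero (by exact_mod_cast hg.ne') hb0, hw, ?_⟩
  funext i
  have h1 := hf' i
  rw [hgw] at h1
  simp only [Pi.smul_apply, smul_eq_mul, Int.cast_mul] at h1
  simp only [Pi.smul_apply, smul_eq_mul, cw]
  field_simp
  linarith

theorem in_cw {w : Fin 5 × Fin 5 → ℤ} {x : Fin 5 → ℤ} : In (cw w) (cw x) ↔ In w x := by
  constructor
  · intro h i j k
    have := h i j k
    simp only [cw] at this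
    exact_mod_cast this
  · intro h i j k
    have := h i j k
    simp only [cw]
    exact_mod_cast this

theorem in_smul' {F : Type*} [Field F] {w : Fin 5 × Fin 5 → F} {x : Fin 5 → F} {c d : F} (hc : c ≠ 0)
    (hd : d ≠ 0) (h : In (c • w) (d • x)) : In w x := by
  intro i j k
  have h1 := h i j k
  simp only [Pi.smul_apply, smul_eq_mul] at h1
  have h2 : (c * d) * (x i * w (j, k) - x j * w (i, k) + x k * w (i, j)) = 0 := by
    linear_combination h1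
  exact (mul_eq_zero.1 h2).resolve_left (mul_ne_zero hc hd)

theorem wedge_in_left {F : Type*} [CommRing F] (x y : Fin 5 → F) : In (wedge x y) x := by
  intro i j k
  simp only [wedge]
  ring

/-- the primitive vector of a point -/
theorem R1 {p : PP} (hp : Pt p) : ∃ w ∈ VV, RR w p := by
  obtain ⟨x, y, hi, he⟩ := hp
  obtain ⟨c, w, hc, hw, hcw⟩ := exists_cw p.rep_nonzero
  have hx : x ≠ 0 := by
    rintro rfl
    apply p.rep_nonzero
    rw [he]
    funext q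
    simp [wedge]
  obtain ⟨d, x0, hd, hx0, hdx⟩ := exists_cw hx
  have hin : In w x0 := by
    rw [← in_cw]
    refine in_smul' hc hd ?_
    rw [← hcw, ← hdx, he]
    exact wedge_in_left x y
  obtain ⟨h0, h1, h2⟩ := iso_wedge_iff.1 hi
  have hlin : ∀ q r (t : ℤ), wedge x y q + (t : ℚ) * wedge x y r = 0 → w q + t * w r = 0 := by
    intro q r t h
    rw [← he, hcw] at h
    simp only [Pi.smul_apply, smul_eq_mul, cw] at h
    have h' : c * ((w q : ℚ) + t * w r) = 0 := by linear_combination h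
    have := (mul_eq_zero.1 h').resolve_left hc
    exact_mod_cast this
  have hlin' : ∀ q q' r (t : ℤ), wedge x y q + wedge x y q' + (t : ℚ) * wedge x y r = 0 →
      w q + w q' + t * w r = 0 := by
    intro q q' r t h
    rw [← he, hcw] at h
    simp only [Pi.smul_apply, smul_eq_mul, cw] at h
    have h' : c * ((w q : ℚ) + w q' + t * w r) = 0 := by linear_combination h
    have := (mul_eq_zero.1 h').resolve_left hc
    exact_mod_cast this
  obtain ⟨y0, hiso, hwy⟩ := exists_basis hx0 hin (hlin _ _ _ h0) (hlin' _ _ _ _ h1) (hlin _ _ _ h2)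
  exact ⟨w, ⟨hw, x0, y0, hiso, hwy⟩, c, hc, hcw⟩

theorem R2 {w : Fin 5 × Fin 5 → ℤ} {p p' : PP} (h : RR w p) (h' : RR w p') : p = p' := by
  obtain ⟨c, hc, he⟩ := h
  obtain ⟨c', hc', he'⟩ := h'
  rw [← p.mk_rep, ← p'.mk_rep, Projectivization.mk_eq_mk_iff']
  refine ⟨c / c', ?_⟩
  rw [he, he', smul_smul, div_mul_cancel₀ _ hc']

theorem R3 {w w' : Fin 5 × Fin 5 → ℤ} (hw : w ∈ VV) (hw' : w' ∈ VV) {p : PP} (h : RR w p)
    (h' : RR w' p) : w' = w ∨ w' = -w := by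
  obtain ⟨c, hc, he⟩ := h
  obtain ⟨c', hc', he'⟩ := h'
  refine (prim_parallel' hw.1 hw'.1 ?_).imp id id
  intro i j
  have h1 : ∀ q, c * (w q : ℚ) = c' * (w' q : ℚ) := by
    intro q
    have := congrFun (he.symm.trans he') q
    simpa [cw] using this
  have h2 : (c * c') * ((w i : ℚ) * w' j - w j * w' i) = 0 := by
    linear_combination (c' * w' j) * h1 i - (c' * w' i) * h1 j
  have h3 := sub_eq_zero.1 ((mul_eq_zero.1 h2).resolve_left (mul_ne_zero hc hc'))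
  exact_mod_cast h3

theorem R4 {w : Fin 5 × Fin 5 → ℤ} (hw : w ∈ VV) : ∃ p : PP, RR w p ∧ Pt p := by
  have h0 : cw w ≠ 0 := by
    intro h
    rw [← cw_zero] at h
    exact VV_ne hw (cw_inj h)
  obtain ⟨-, x, y, hi, he⟩ := id hw
  obtain ⟨a, ha⟩ := Projectivization.exists_smul_eq_mk_rep ℚ (cw w) h0
  have hR : (Projectivization.mk ℚ (cw w) h0).rep = ((a : ℚˣ) : ℚ) • cw w := ha.symm
  refine ⟨Projectivization.mk ℚ (cw w) h0, ⟨a, a.ne_zero, hR⟩, (a : ℚ) • cw x, cw y,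
    iso_smul_left _ (iso_cw.2 hi), ?_⟩
  rw [hR, he, cw_wedge]
  funext q
  simp only [wedge, Pi.smul_apply, smul_eq_mul]
  ring

/-- the height of a vector -/
noncomputable def hgt (ψ : (Fin 5 × Fin 5 → ℝ) → ℝ) (Θ : (Fin 5 × Fin 5 → ℤ) → ℝ)
    (w : Fin 5 × Fin 5 → ℤ) : ℝ := nz w ^ 2 * ψ (rv w) * Θ w

theorem rv_cone {w : Fin 5 × Fin 5 → ℤ} (hw : w ∈ VV) : rv w ∈ Cone ℝ := by
  have h0 := VV_ne hw
  obtain ⟨-, x, y, hi, rfl⟩ := hw
  refine ⟨fun h1 => h0 ?_, rv x, rv y, ?_, ?_⟩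
  · funext q
    have := congrFun h1 q
    simp only [rv, Pi.zero_apply] at this ⊢
    exact_mod_cast this
  · exact iso_map (Int.castRingHom ℝ) hi
  · funext p
    simp [rv, wedge]

/-- the height of a point -/
noncomputable def ht (S : Finset Nat.Primes) (ψ : (Fin 5 × Fin 5 → ℝ) → ℝ)
    (φ : ∀ p : Nat.Primes, (Fin 5 × Fin 5 → ℚ_[p]) → ℝ) (p : PP) : ℝ :=
  p.mulHeight ^ 2 * (ψ (fun q => (p.rep q : ℝ)) * ∏ r ∈ S, φ r (fun q => (p.rep q : ℚ_[r])))

theorem gcd_unimod {ι : Type*} [Fintype ι] {w : ι → ℤ} (hw : Unimod w) : Finset.univ.gcd w = 1 := by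
  obtain ⟨a, ha⟩ := hw
  have h1 : Finset.univ.gcd w ∣ 1 := by
    rw [← ha]
    exact Finset.dvd_sum fun i _ => Dvd.dvd.mul_left (Finset.gcd_dvd (Finset.mem_univ i)) _
  have h2 := Finset.normalize_gcd (s := Finset.univ) (f := w)
  rw [← h2]
  exact normalize_eq_one.2 (isUnit_of_dvd_one h1)

theorem height_eq {w : Fin 5 × Fin 5 → ℤ} (hw : Unimod w) {p : PP} (h : RR w p) :
    p.mulHeight = nz w := by
  obtain ⟨c, hc, he⟩ := h
  have h1 : p.mulHeight = Height.mulHeight (cw w) := by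
    have e : p.mulHeight = Height.mulHeight p.rep := by
      conv_lhs => rw [← p.mk_rep]
      exact Projectivization.mulHeight_mk _
    rw [e, he, Height.mulHeight_smul_eq_mulHeight _ hc]
  rw [h1]
  have h2 := Rat.mulHeight_eq_max_abs_of_gcd_eq_one (gcd_unimod hw)
  have h3 : (cw w) = (((↑) : ℤ → ℚ) ∘ w) := rfl
  rw [h3, h2]
  apply le_antisymm
  · obtain ⟨i, hi⟩ := exists_eq_ciSup_of_finite (f := fun i => |w i|)
    rw [← hi, Int.cast_abs]
    exact le_nz w i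
  · obtain ⟨i, hi⟩ := exists_nz w
    rw [hi, ← Int.cast_abs]
    exact_mod_cast le_ciSup (f := fun i => |w i|) (Set.finite_range _).bddAbove i

theorem R6 {w : Fin 5 × Fin 5 → ℤ} (hw : w ∈ VV) {p : PP} (h : RR w p) (S : Finset Nat.Primes)
    {ψ : (Fin 5 × Fin 5 → ℝ) → ℝ} {φ : ∀ p : Nat.Primes, (Fin 5 × Fin 5 → ℚ_[p]) → ℝ}
    (hψ : Fac ℝ ψ) (hφ : ∀ p ∈ S, Fac ℚ_[p] (φ p)) :
    ht S ψ φ p = hgt ψ (fun w => ∏ r ∈ S, φ r (pv r w)) w := by
  obtain ⟨c, hc, he⟩ := id h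
  rw [ht, hgt, height_eq hw.1 h, mul_assoc]
  congr 1
  congr 1
  · have h1 : (fun q => ((p.rep q : ℚ) : ℝ)) = (c : ℝ) • rv w := by
      funext q
      rw [he]
      simp [cw, rv]
    rw [h1]
    exact hψ.inv _ (by exact_mod_cast hc) _ (rv_cone hw)
  · refine Finset.prod_congr rfl fun r hr => ?_
    have h1 : (fun q => ((p.rep q : ℚ) : ℚ_[r])) = (c : ℚ_[r]) • pv r w := by
      funext q
      rw [he]
      simp [cw, pv]
    rw [h1]
    exact (hφ r hr).inv _ (by exact_mod_cast hc) _ (pv_cone r hw)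

end Pool.Agent.KS6_30.VA
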