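import Mathlib

set_option autoImplicit false

namespace Pool.Agent.KS6_30.VA

open Finset

section

variable {α : Type*} {s s' t : Set α} {f g : α → ℝ} {M : ℝ}

open Classical in
theorem fs_eq (f : α → ℝ) (s : Set α) (t : Finset α) (h : ∀ x ∈ s, f x ≠ 0 → x ∈ t) :
    ∑ᶠ x ∈ s, f x = ∑ x ∈ t, if x ∈ s then f x else 0 := by
  rw [← Finset.sum_filter]
  refine finsum_mem_eq_sum_of_inter_support_eq f ?_
  ext x
  simp only [Set.mem_inter_iff, Function.mem_support, Finset.coe_filter, Set.mem_ofPred_eq]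
  constructor
  · rintro ⟨h1, h2⟩
    exact ⟨⟨h x h1 h2, h1⟩, h2⟩
  · rintro ⟨⟨-, h1⟩, h2⟩
    exact ⟨h1, h2⟩

theorem fs_norm_le (hM : ∀ x ∈ s, |f x| ≤ M) (ht : t.Finite) (h : ∀ x ∈ s, f x ≠ 0 → x ∈ t)
    (hM0 : 0 ≤ M) : |∑ᶠ x ∈ s, f x| ≤ M * t.ncard := by
  classical
  rw [fs_eq f s ht.toFinset (fun x hx hf => by simpa using h x hx hf)]
  refine (Finset.abs_sum_le_sum_abs _ _).trans ?_
  rw [Set.ncard_eq_toFinset_card _ ht]
  calc _ ≤ ∑ x ∈ ht.toFinset, M := by
        refine Finset.sum_le_sum fun x _ => ?_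
        split_ifs with hx
        · exact hM x hx
        · simpa using hM0
    _ = _ := by rw [Finset.sum_const, nsmul_eq_mul, mul_comm]

/-- difference of two sums over the same set -/
theorem fs_sub_le (hM : ∀ x ∈ s, |f x - g x| ≤ M) (ht : t.Finite) (hf : ∀ x ∈ s, f x ≠ 0 → x ∈ t)
    (hg : ∀ x ∈ s, g x ≠ 0 → x ∈ t) (hM0 : 0 ≤ M) :
    |∑ᶠ x ∈ s, f x - ∑ᶠ x ∈ s, g x| ≤ M * t.ncard := by
  classical
  rw [fs_eq f s ht.toFinset (fun x hx h => by simpa using hf x hx h),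
    fs_eq g s ht.toFinset (fun x hx h => by simpa using hg x hx h), ← Finset.sum_sub_distrib]
  refine (Finset.abs_sum_le_sum_abs _ _).trans ?_
  rw [Set.ncard_eq_toFinset_card _ ht]
  calc _ ≤ ∑ x ∈ ht.toFinset, M := by
        refine Finset.sum_le_sum fun x _ => ?_
        split_ifs with hx
        · exact hM x hx
        · simpa using hM0
    _ = _ := by rw [Finset.sum_const, nsmul_eq_mul, mul_comm]

/-- difference of the sums over two sets, for a bounded function -/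
theorem fs_set_le (hM : ∀ x, |f x| ≤ M) (ht : t.Finite) (hM0 : 0 ≤ M)
    (h1 : ∀ x ∈ s, x ∉ s' → f x ≠ 0 → x ∈ t) (h2 : ∀ x ∈ s', x ∉ s → f x ≠ 0 → x ∈ t)
    (hf : {x | (x ∈ s ∨ x ∈ s') ∧ f x ≠ 0}.Finite) :
    |∑ᶠ x ∈ s, f x - ∑ᶠ x ∈ s', f x| ≤ M * t.ncard := by
  classical
  rw [fs_eq f s hf.toFinset (fun x hx h => by simp only [Set.Finite.mem_toFinset]; exact ⟨Or.inl hx, h⟩),
    fs_eq f s' hf.toFinset (fun x hx h => by simp only [Set.Finite.mem_toFinset]; exact ⟨Or.inr hx, h⟩),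
    ← Finset.sum_sub_distrib]
  have e1 : ∑ x ∈ hf.toFinset, ((if x ∈ s then f x else 0) - if x ∈ s' then f x else 0) =
      ∑ x ∈ hf.toFinset.filter (· ∈ t), ((if x ∈ s then f x else 0) - if x ∈ s' then f x else 0) := by
    symm
    refine Finset.sum_subset (Finset.filter_subset _ _) fun x hx hxt => ?_
    rw [Set.Finite.mem_toFinset] at hx
    have hxt' : x ∉ t := fun h => hxt (Finset.mem_filter.2 ⟨by simpa using hx, h⟩)
    by_cases a : x ∈ s <;> by_cases b : x ∈ s'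
    · simp [a, b]
    · exact absurd (h1 x a b hx.2) hxt'
    · exact absurd (h2 x b a hx.2) hxt'
    · simp [a, b]
  rw [e1]
  refine (Finset.abs_sum_le_sum_abs _ _).trans ?_
  calc _ ≤ ∑ x ∈ hf.toFinset.filter (· ∈ t), M := by
        refine Finset.sum_le_sum fun x _ => ?_
        have := hM x
        by_cases a : x ∈ s <;> by_cases b : x ∈ s' <;> simp [a, b] <;> linarith [abs_nonneg (f x)]
    _ = ((hf.toFinset.filter (· ∈ t)).card : ℝ) * M := by rw [Finset.sum_const, nsmul_eq_mul]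
    _ ≤ t.ncard * M := by
        refine mul_le_mul_of_nonneg_right ?_ hM0
        rw [Set.ncard_eq_toFinset_card _ ht]
        exact_mod_cast Finset.card_le_card fun x hx => by
          rw [Finset.mem_filter] at hx
          simpa using hx.2
    _ = _ := mul_comm _ _

theorem fs_nonneg (hf : ∀ x ∈ s, 0 ≤ f x) : 0 ≤ ∑ᶠ x ∈ s, f x :=
  finsum_nonneg fun x => finsum_nonneg fun hx => hf x hx

end

end Pool.Agent.KS6_30.VA
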