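import Pool.Agent.KS6_30.VA.Ub

set_option autoImplicit false
set_option linter.unusedSectionVars false
set_option linter.style.haveILetI false

namespace Pool.Agent.KS6_30.VA

open Finset
open Tern

variable [Tern]

/-- the absolute value of the discriminant -/
noncomputable def dD : ℝ := |((DD : ℤ) : ℝ)|

theorem dD_one : 1 ≤ dD := DD_abs_one

theorem fa_le : |((fa : ℤ) : ℝ)| ≤ dD := by
  have h1 : (1 : ℝ) ≤ |((fb : ℤ) : ℝ)| := by exact_mod_cast Int.one_le_abs hb
  have h2 : (1 : ℝ) ≤ |((fc : ℤ) : ℝ)| := by exact_mod_cast Int.one_le_abs hc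
  have h0 := abs_nonneg ((fa : ℤ) : ℝ)
  have e : dD = |((fa : ℤ) : ℝ)| * |((fb : ℤ) : ℝ)| * |((fc : ℤ) : ℝ)| := by
    simp only [dD, DD, Int.cast_mul, abs_mul]
  rw [e]
  nlinarith [mul_le_mul_of_nonneg_left h1 h0, mul_le_mul_of_nonneg_left h2 (mul_nonneg h0 (abs_nonneg ((fb : ℤ) : ℝ)))]

theorem fb_le : |((fb : ℤ) : ℝ)| ≤ dD := by
  have h1 : (1 : ℝ) ≤ |((fa : ℤ) : ℝ)| := by exact_mod_cast Int.one_le_abs ha
  have h2 : (1 : ℝ) ≤ |((fc : ℤ) : ℝ)| := by exact_mod_cast Int.one_le_abs hc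
  have h0 := abs_nonneg ((fb : ℤ) : ℝ)
  have e : dD = |((fb : ℤ) : ℝ)| * |((fa : ℤ) : ℝ)| * |((fc : ℤ) : ℝ)| := by
    simp only [dD, DD, Int.cast_mul, abs_mul]
    ring
  rw [e]
  nlinarith [mul_le_mul_of_nonneg_left h1 h0, mul_le_mul_of_nonneg_left h2 (mul_nonneg h0 (abs_nonneg ((fa : ℤ) : ℝ)))]

theorem fc_le : |((fc : ℤ) : ℝ)| ≤ dD := by
  have h1 : (1 : ℝ) ≤ |((fb : ℤ) : ℝ)| := by exact_mod_cast Int.one_le_abs hb
  have h2 : (1 : ℝ) ≤ |((fa : ℤ) : ℝ)| := by exact_mod_cast Int.one_le_abs ha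
  have h0 := abs_nonneg ((fc : ℤ) : ℝ)
  have e : dD = |((fc : ℤ) : ℝ)| * |((fb : ℤ) : ℝ)| * |((fa : ℤ) : ℝ)| := by
    simp only [dD, DD, Int.cast_mul, abs_mul]
    ring
  rw [e]
  nlinarith [mul_le_mul_of_nonneg_left h1 h0, mul_le_mul_of_nonneg_left h2 (mul_nonneg h0 (abs_nonneg ((fb : ℤ) : ℝ)))]

theorem fbc_le : |((fb * fc : ℤ) : ℝ)| ≤ dD := by
  have h1 : (1 : ℝ) ≤ |((fa : ℤ) : ℝ)| := by exact_mod_cast Int.one_le_abs ha
  have h0 := abs_nonneg ((fb * fc : ℤ) : ℝ)
  have e : dD = |((fa : ℤ) : ℝ)| * |((fb * fc : ℤ) : ℝ)| := by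
    simp only [dD, DD, Int.cast_mul, abs_mul]
    ring
  rw [e]
  nlinarith

theorem fca_le : |((fc * fa : ℤ) : ℝ)| ≤ dD := by
  have h1 : (1 : ℝ) ≤ |((fb : ℤ) : ℝ)| := by exact_mod_cast Int.one_le_abs hb
  have h0 := abs_nonneg ((fc * fa : ℤ) : ℝ)
  have e : dD = |((fb : ℤ) : ℝ)| * |((fc * fa : ℤ) : ℝ)| := by
    simp only [dD, DD, Int.cast_mul, abs_mul]
    ring
  rw [e]
  nlinarith

theorem fab_le : |((fa * fb : ℤ) : ℝ)| ≤ dD := by
  have h1 : (1 : ℝ) ≤ |((fc : ℤ) : ℝ)| := by exact_mod_cast Int.one_le_abs hc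
  have h0 := abs_nonneg ((fa * fb : ℤ) : ℝ)
  have e : dD = |((fc : ℤ) : ℝ)| * |((fa * fb : ℤ) : ℝ)| := by
    simp only [dD, DD, Int.cast_mul, abs_mul]
    ring
  rw [e]
  nlinarith

/-- the matrix of `z` -/
def MM (z : Fin 5 → ℤ) : Fin 3 → Fin 3 → ℤ :=
  ![![-(2 * fa * z 0), z 4, -z 3], ![z 4, 2 * fb * (z 0 - z 1), z 2], ![-z 3, z 2, 2 * fc * z 1]]

/-- the cofactors of the matrix of `z` -/
def cof (z : Fin 5 → ℤ) : Fin 3 → Fin 3 → ℤ :=
  ![![MM z 1 1 * MM z 2 2 - MM z 1 2 * MM z 1 2, MM z 0 2 * MM z 1 2 - MM z 0 1 * MM z 2 2,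
      MM z 0 1 * MM z 1 2 - MM z 1 1 * MM z 0 2],
    ![MM z 0 2 * MM z 1 2 - MM z 0 1 * MM z 2 2, MM z 0 0 * MM z 2 2 - MM z 0 2 * MM z 0 2,
      MM z 0 1 * MM z 0 2 - MM z 0 0 * MM z 1 2],
    ![MM z 0 1 * MM z 1 2 - MM z 1 1 * MM z 0 2, MM z 0 1 * MM z 0 2 - MM z 0 0 * MM z 1 2,
      MM z 0 0 * MM z 1 1 - MM z 0 1 * MM z 0 1]]

theorem cof_symm (z : Fin 5 → ℤ) (a b : Fin 3) : cof z a b = cof z b a := by
  fin_cases a <;> fin_cases b <;> rfl

theorem MM_le (z : Fin 5 → ℤ) (a b : Fin 3) : |(MM z a b : ℝ)| ≤ 4 * dD * nz z := by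
  have h := le_nz z
  have n := nz_nonneg z
  have D1 := dD_one
  have Dn : nz z ≤ dD * nz z := by nlinarith
  have e0 : |(z 0 : ℝ) - z 1| ≤ 2 * nz z := by
    have := abs_sub (z 0 : ℝ) (z 1)
    linarith [h 0, h 1]
  have ea : |(fa : ℝ) * z 0| ≤ dD * nz z := abs_mul_le fa_le (h 0)
  have eb : |(fb : ℝ) * ((z 0 : ℝ) - z 1)| ≤ dD * (2 * nz z) := abs_mul_le fb_le e0
  have ec : |(fc : ℝ) * z 1| ≤ dD * nz z := abs_mul_le fc_le (h 1)
  have h2 := h 2
  have h3 := h 3
  have h4 := h 4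
  rw [abs_le] at ea eb ec h2 h3 h4
  rw [abs_le]
  fin_cases a <;> fin_cases b <;> simp only [MM, Fin.zero_eta, Fin.mk_one, Fin.reduceFinMk,
    Matrix.cons_val] <;> push_cast <;> constructor <;> linarith

theorem cof_le (z : Fin 5 → ℤ) (a b : Fin 3) : |(cof z a b : ℝ)| ≤ 32 * dD ^ 2 * nz z ^ 2 := by
  have h : ∀ i j k l, |(MM z i j : ℝ) * MM z k l| ≤ 4 * dD * nz z * (4 * dD * nz z) :=
    fun i j k l => abs_mul_le (MM_le z i j) (MM_le z k l)
  have g : ∀ i j k l i' j' k' l', |(MM z i j : ℝ) * MM z k l - MM z i' j' * MM z k' l'| ≤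
      32 * dD ^ 2 * nz z ^ 2 := by
    intro i j k l i' j' k' l'
    have := abs_sub ((MM z i j : ℝ) * MM z k l) (MM z i' j' * MM z k' l')
    have h1 := h i j k l
    have h2 := h i' j' k' l'
    calc _ ≤ _ := this
      _ ≤ 4 * dD * nz z * (4 * dD * nz z) + 4 * dD * nz z * (4 * dD * nz z) := add_le_add h1 h2
      _ = _ := by ring
  fin_cases a <;> fin_cases b <;> simp only [cof, Fin.zero_eta, Fin.mk_one, Fin.reduceFinMk,
    Matrix.cons_val] <;> push_cast <;> exact g _ _ _ _ _ _ _ _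

theorem cof_v {z : Fin 5 → ℤ} {v : Fin 3 → ℤ} (h : ∀ k, ∑ i, z i * tg v k i = 0) (a b c : Fin 3) :
    cof z a b * v c = cof z c b * v a := by
  have h0 := h 0
  have h1 := h 1
  have h2 := h 2
  simp only [Fin.sum_univ_five, tg, Matrix.cons_val, Int.cast_id] at h0 h1 h2
  have k001 : cof z 0 0 * v 1 = cof z 1 0 * v 0 := by
    simp only [cof, MM, Matrix.cons_val]
    linear_combination (2 * fc * z 1) * h1 + (-(z 2)) * h2
  have k002 : cof z 0 0 * v 2 = cof z 2 0 * v 0 := by
    simp only [cof, MM, Matrix.cons_val]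
    linear_combination (-(z 2)) * h1 + (2 * fb * z 0 - 2 * fb * z 1) * h2
  have k011 : cof z 0 1 * v 1 = cof z 1 1 * v 0 := by
    simp only [cof, MM, Matrix.cons_val]
    linear_combination (-(2 * fc * z 1)) * h0 + (-(z 3)) * h2
  have k012 : cof z 0 1 * v 2 = cof z 2 1 * v 0 := by
    simp only [cof, MM, Matrix.cons_val]
    linear_combination (z 2) * h0 + (-(z 4)) * h2
  have k021 : cof z 0 2 * v 1 = cof z 1 2 * v 0 := by
    simp only [cof, MM, Matrix.cons_val]
    linear_combination (z 2) * h0 + (z 3) * h1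
  have k022 : cof z 0 2 * v 2 = cof z 2 2 * v 0 := by
    simp only [cof, MM, Matrix.cons_val]
    linear_combination (-(2 * fb * z 0) + 2 * fb * z 1) * h0 + (z 4) * h1
  have k102 : cof z 1 0 * v 2 = cof z 2 0 * v 1 := by
    simp only [cof, MM, Matrix.cons_val]
    linear_combination (-(z 3)) * h1 + (-(z 4)) * h2
  have k112 : cof z 1 1 * v 2 = cof z 2 1 * v 1 := by
    simp only [cof, MM, Matrix.cons_val]
    linear_combination (z 3) * h0 + (-(2 * fa * z 0)) * h2
  have k122 : cof z 1 2 * v 2 = cof z 2 2 * v 1 := by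
    simp only [cof, MM, Matrix.cons_val]
    linear_combination (z 4) * h0 + (2 * fa * z 0) * h1
  have s10 : cof z 1 0 = cof z 0 1 := rfl
  have s20 : cof z 2 0 = cof z 0 2 := rfl
  have s21 : cof z 2 1 = cof z 1 2 := rfl
  simp only [s10, s20, s21] at k001 k002 k011 k012 k021 k022 k102 k112 k122
  clear h0 h1 h2 h
  fin_cases a <;> fin_cases b <;> fin_cases c <;>
    simp only [Fin.zero_eta, Fin.mk_one, Fin.reduceFinMk, s10, s20, s21] <;>
    first
    | ring1
    | linear_combination k001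
    | linear_combination k002
    | linear_combination k011
    | linear_combination k012
    | linear_combination k021
    | linear_combination k022
    | linear_combination k102
    | linear_combination k112
    | linear_combination k122
    | linear_combination -k001
    | linear_combination -k002
    | linear_combination -k011
    | linear_combination -k012
    | linear_combination -k021
    | linear_combination -k022
    | linear_combination -k102
    | linear_combination -k112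
    | linear_combination -k122

theorem cof_ne {z : Fin 5 → ℤ} {v : Fin 3 → ℤ} (hv : Unimod v)
    (h : ∀ k, ∑ i, z i * tg v k i = 0) (hc : cof z ≠ 0) : nz v ^ 2 ≤ 32 * dD ^ 2 * nz z ^ 2 := by
  obtain ⟨e, he⟩ := id hv
  set κ : ℤ := ∑ a, ∑ b, e a * e b * cof z a b with hκ
  have key : ∀ a b, cof z a b = κ * (v a * v b) := by
    intro a b
    have e1 : ∀ a b, cof z a b = (∑ c, e c * cof z c b) * v a := by
      intro a b
      calc cof z a b = cof z a b * ∑ c, e c * v c := by rw [he, mul_one]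
        _ = ∑ c, e c * (cof z a b * v c) := by
          rw [Finset.mul_sum]
          exact Finset.sum_congr rfl fun c _ => by ring
        _ = ∑ c, e c * (cof z c b * v a) := by simp only [cof_v h a b]
        _ = _ := by
          rw [Finset.sum_mul]
          exact Finset.sum_congr rfl fun c _ => by ring
    have e2 : ∀ c, cof z c b = (∑ d, e d * cof z d c) * v b := by
      intro c
      rw [cof_symm z c b]
      exact e1 b c
    rw [e1 a b]
    have e3 : ∑ c, e c * cof z c b = κ * v b := by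
      rw [hκ, Finset.sum_mul]
      refine Finset.sum_congr rfl fun c _ => ?_
      rw [e2 c, Finset.sum_mul, Finset.sum_mul, Finset.mul_sum]
      refine Finset.sum_congr rfl fun d _ => ?_
      rw [cof_symm z d c]
      ring
    rw [e3]
    ring
  have hκ0 : κ ≠ 0 := by
    intro h0
    apply hc
    funext a b
    rw [key, h0, zero_mul]
    rfl
  obtain ⟨i, hi⟩ := exists_nz v
  have h1 := cof_le z i i
  rw [key i i] at h1
  push_cast at h1
  rw [abs_mul, abs_mul, ← hi] at h1
  have h2 : (1 : ℝ) ≤ |(κ : ℝ)| := by exact_mod_cast Int.one_le_abs hκ0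
  have h3 : 0 ≤ nz v * nz v := mul_nonneg (nz_nonneg v) (nz_nonneg v)
  nlinarith

/-- the special vector -/
def sv (z : Fin 5 → ℤ) : Fin 5 → ℤ :=
  ![2 * (fa * fb * fc) * (2 * z 0 - z 1), 2 * (fa * fb * fc) * (2 * z 1 - z 0), fa * z 2, fb * z 3, fc * z 4]

set_option maxHeartbeats 4000000 in
theorem two_in_sv {z : Fin 5 → ℤ} {v : Fin 3 → ℤ} (h : ∀ k, ∑ i, z i * tg v k i = 0)
    (hc : cof z = 0) (i j k : Fin 5) :
    2 * (sv z i * LL v z (j, k) - sv z j * LL v z (i, k) + sv z k * LL v z (i, j)) = 0 := by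
  have h0 := h 0
  have h1 := h 1
  have h2 := h 2
  simp only [Fin.sum_univ_five, tg, Matrix.cons_val, Int.cast_id] at h0 h1 h2
  have m00 : cof z 0 0 = 0 := congrFun (congrFun hc 0) 0
  have m01 : cof z 0 1 = 0 := congrFun (congrFun hc 0) 1
  have m02 : cof z 0 2 = 0 := congrFun (congrFun hc 0) 2
  have m11 : cof z 1 1 = 0 := congrFun (congrFun hc 1) 1
  have m12 : cof z 1 2 = 0 := congrFun (congrFun hc 1) 2
  have m22 : cof z 2 2 = 0 := congrFun (congrFun hc 2) 2
  simp only [cof, MM, Matrix.cons_val] at m00 m01 m02 m11 m12 m22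
  have k012 : 2 * (sv z 0 * LL v z (1, 2) - sv z 1 * LL v z (0, 2) + sv z 2 * LL v z (0, 1)) = 0 := by
    simp only [LL, sv, Matrix.cons_val, Int.cast_id]
    linear_combination (4 * fa * fb * fc * z 0) * h0 + (2 * fa ^ 2 * v 0) * m00 + (-(2 * fa * fb * v 1)) * m01 + (-(2 * fa * fc * v 2)) * m02
  have k013 : 2 * (sv z 0 * LL v z (1, 3) - sv z 1 * LL v z (0, 3) + sv z 3 * LL v z (0, 1)) = 0 := by
    simp only [LL, sv, Matrix.cons_val, Int.cast_id]
    linear_combination (4 * fa * fb * fc * z 0 - 8 * fa * fb * fc * z 1) * h1 + (2 * fa * fb * z 2) * h2 + (2 * fa * fb * v 1) * m00 + (-(2 * fb ^ 2 * v 1)) * m11 + (2 * fb * fc * v 2) * m12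
  have k014 : 2 * (sv z 0 * LL v z (1, 4) - sv z 1 * LL v z (0, 4) + sv z 4 * LL v z (0, 1)) = 0 := by
    simp only [LL, sv, Matrix.cons_val, Int.cast_id]
    linear_combination (2 * fb * fc * z 3) * h0 + (-(2 * fa * fc * z 2)) * h1 + (-(8 * fa * fb * fc * z 1)) * h2 + (-(2 * fa * fc * v 2)) * m00 + (-(2 * fb * fc * v 2)) * m11 + (2 * fc ^ 2 * v 2) * m22
  have k023 : 2 * (sv z 0 * LL v z (2, 3) - sv z 2 * LL v z (0, 3) + sv z 3 * LL v z (0, 2)) = 0 := by
    simp only [LL, sv, Matrix.cons_val, Int.cast_id]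
    linear_combination (-(2 * fb * z 3)) * h0 + (-(2 * fa * z 2)) * h1 + (4 * fa * fb * z 0 - 2 * fa * fb * z 1) * h2 + (-(2 * fa * v 2)) * m00 + (2 * fb * v 2) * m11
  have k024 : 2 * (sv z 0 * LL v z (2, 4) - sv z 2 * LL v z (0, 4) + sv z 4 * LL v z (0, 2)) = 0 := by
    simp only [LL, sv, Matrix.cons_val, Int.cast_id]
    linear_combination (-(2 * fc * z 4)) * h0 + (-(4 * fa * fc * z 0) + 2 * fa * fc * z 1) * h1 + (-(2 * fa * z 2)) * h2 + (2 * fc * v 2) * m12
  have k034 : 2 * (sv z 0 * LL v z (3, 4) - sv z 3 * LL v z (0, 4) + sv z 4 * LL v z (0, 3)) = 0 := by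
    simp only [LL, sv, Matrix.cons_val, Int.cast_id]
    linear_combination (-(4 * fb * fc * z 0) + 2 * fb * fc * z 1) * h0 + (2 * fc * z 4) * h1 + (-(2 * fb * z 3)) * h2 + (-(2 * fc * v 2)) * m02
  have k123 : 2 * (sv z 1 * LL v z (2, 3) - sv z 2 * LL v z (1, 3) + sv z 3 * LL v z (1, 2)) = 0 := by
    simp only [LL, sv, Matrix.cons_val, Int.cast_id]
    linear_combination (2 * fb * z 3) * h0 + (-(2 * fa * fb * z 0)) * h2 + (2 * fa * v 2) * m00
  have k124 : 2 * (sv z 1 * LL v z (2, 4) - sv z 2 * LL v z (1, 4) + sv z 4 * LL v z (1, 2)) = 0 := by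
    simp only [LL, sv, Matrix.cons_val, Int.cast_id]
    linear_combination (2 * fc * z 4) * h0 + (2 * fa * fc * z 0) * h1 + (-(2 * fa * v 1)) * m00
  have k134 : 2 * (sv z 1 * LL v z (3, 4) - sv z 3 * LL v z (1, 4) + sv z 4 * LL v z (1, 3)) = 0 := by
    simp only [LL, sv, Matrix.cons_val, Int.cast_id]
    linear_combination (2 * fb * fc * z 0 - 4 * fb * fc * z 1) * h0 + (-(2 * fb * v 1)) * m01 + (2 * fc * v 2) * m02
  have k234 : 2 * (sv z 2 * LL v z (3, 4) - sv z 3 * LL v z (2, 4) + sv z 4 * LL v z (2, 3)) = 0 := by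
    simp only [LL, sv, Matrix.cons_val, Int.cast_id]
    linear_combination (-(z 2)) * h0 + (z 3) * h1 + (z 4) * h2 + (2 * v 2) * m01
  clear h0 h1 h2 h m00 m01 m02 m11 m12 m22 hc
  have hd : ∀ i, LL v z (i, i) = 0 := by
    intro i
    fin_cases i <;> simp [LL]
  have a10 : LL v z (1, 0) = - LL v z (0, 1) := by simp [LL]
  have a20 : LL v z (2, 0) = - LL v z (0, 2) := by simp [LL]
  have a30 : LL v z (3, 0) = - LL v z (0, 3) := by simp [LL]
  have a40 : LL v z (4, 0) = - LL v z (0, 4) := by simp [LL]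
  have a21 : LL v z (2, 1) = - LL v z (1, 2) := by simp [LL]
  have a31 : LL v z (3, 1) = - LL v z (1, 3) := by simp [LL]
  have a41 : LL v z (4, 1) = - LL v z (1, 4) := by simp [LL]
  have a32 : LL v z (3, 2) = - LL v z (2, 3) := by simp [LL]
  have a42 : LL v z (4, 2) = - LL v z (2, 4) := by simp [LL]
  have a43 : LL v z (4, 3) = - LL v z (3, 4) := by simp [LL]
  fin_cases i <;> fin_cases j <;> fin_cases k <;>
    simp only [Fin.zero_eta, Fin.mk_one, Fin.reduceFinMk, hd, a10, a20, a30, a40, a21, a31, a41,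
      a32, a42, a43] <;>
    first
    | ring1
    | linear_combination k012
    | linear_combination k013
    | linear_combination k014
    | linear_combination k023
    | linear_combination k024
    | linear_combination k034
    | linear_combination k123
    | linear_combination k124
    | linear_combination k134
    | linear_combination k234
    | linear_combination -k012
    | linear_combination -k013
    | linear_combination -k014
    | linear_combination -k023
    | linear_combination -k024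
    | linear_combination -k034
    | linear_combination -k123
    | linear_combination -k124
    | linear_combination -k134
    | linear_combination -k234

/-- the second vector of the cone in the plane -/
theorem cof_eq {z : Fin 5 → ℤ} {v : Fin 3 → ℤ} (h : ∀ k, ∑ i, z i * tg v k i = 0)
    (hc : cof z = 0) (hz : z ≠ 0) : ∃ u : Fin 3 → ℤ, Unimod u ∧ In (LL v z) (pf u) ∧
      nz u ≤ 4 * dD ^ 2 * nz z := by
  have hin : In (LL v z) (sv z) := by
    intro i j k
    have := two_in_sv h hc i j k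
    omega
  have m00 : cof z 0 0 = 0 := congrFun (congrFun hc 0) 0
  have m01 : cof z 0 1 = 0 := congrFun (congrFun hc 0) 1
  have m02 : cof z 0 2 = 0 := congrFun (congrFun hc 0) 2
  have m11 : cof z 1 1 = 0 := congrFun (congrFun hc 1) 1
  have m12 : cof z 1 2 = 0 := congrFun (congrFun hc 1) 2
  have m22 : cof z 2 2 = 0 := congrFun (congrFun hc 2) 2
  simp only [cof, MM, Matrix.cons_val] at m00 m01 m02 m11 m12 m22
  have hz' := nz_nonneg z
  have hDn := DD_ne
  have D1 := dD_one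
  -- the vector of a row
  have fin : ∀ i : Fin 3, MM z i i ≠ 0 →
      pf ![fb * fc * MM z i 0, fc * fa * MM z i 1, fa * fb * MM z i 2] = (DD * MM z i i) • sv z →
      ∃ u : Fin 3 → ℤ, Unimod u ∧ In (LL v z) (pf u) ∧ nz u ≤ 4 * dD ^ 2 * nz z := by
    intro i hi hu
    set u : Fin 3 → ℤ := ![fb * fc * MM z i 0, fc * fa * MM z i 1, fa * fb * MM z i 2] with hud
    have hu0 : u ≠ 0 := by
      intro h0
      have h3 := congrFun h0 i
      have hfa : (fa : ℤ) ≠ 0 := ha
      have hfb : (fb : ℤ) ≠ 0 := hb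
      have hfc : (fc : ℤ) ≠ 0 := Tern.hc
      fin_cases i
      · exact (mul_ne_zero (mul_ne_zero hfb hfc) hi) h3
      · exact (mul_ne_zero (mul_ne_zero hfc hfa) hi) h3
      · exact (mul_ne_zero (mul_ne_zero hfa hfb) hi) h3
    have hle : nz u ≤ 4 * dD ^ 2 * nz z := by
      rw [nz_le_iff (by positivity)]
      have e : 4 * dD ^ 2 * nz z = dD * (4 * dD * nz z) := by ring
      intro j
      rw [e]
      fin_cases j
      · have := abs_mul_le fbc_le (MM_le z i 0)
        simpa [hud] using this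
      · have := abs_mul_le fca_le (MM_le z i 1)
        simpa [hud] using this
      · have := abs_mul_le fab_le (MM_le z i 2)
        simpa [hud] using this
    obtain ⟨g, u', hg, hu', hgu⟩ := exists_prim hu0
    refine ⟨u', hu', ?_, ?_⟩
    · have e1 : In (LL v z) (pf u) := by
        rw [hu]
        exact (in_smul_iff (mul_ne_zero hDn hi)).2 hin
      rw [hgu, pf_smul] at e1
      exact (in_smul_iff (pow_ne_zero 2 hg.ne')).1 e1
    · refine le_trans ?_ hle
      rw [hgu, nz_smul]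
      have : (1 : ℝ) ≤ |(g : ℝ)| := by exact_mod_cast Int.one_le_abs hg.ne'
      nlinarith [nz_nonneg u']
  by_cases h00 : MM z 0 0 = 0
  · by_cases h11 : MM z 1 1 = 0
    · by_cases h22 : MM z 2 2 = 0
      · exfalso
        apply hz
        simp only [MM, Matrix.cons_val] at h00 h11 h22
        have hfa : (fa : ℤ) ≠ 0 := ha
        have hfb : (fb : ℤ) ≠ 0 := hb
        have hfc : (fc : ℤ) ≠ 0 := Tern.hc
        have z0 : z 0 = 0 := by
          have : 2 * fa * z 0 = 0 := by linear_combination -h00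
          exact (mul_eq_zero.1 this).resolve_left (mul_ne_zero two_ne_zero hfa)
        have z1 : z 1 = 0 := (mul_eq_zero.1 h22).resolve_left (mul_ne_zero two_ne_zero hfc)
        have z2 : z 2 = 0 := by
          have : z 2 * z 2 = 0 := by
            rw [z0, z1] at m00
            linear_combination -m00
          exact mul_self_eq_zero.1 this
        have z3 : z 3 = 0 := by
          have : z 3 * z 3 = 0 := by
            rw [z0, z1] at m11
            linear_combination -m11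
          exact mul_self_eq_zero.1 this
        have z4 : z 4 = 0 := by
          have : z 4 * z 4 = 0 := by
            rw [z0, z1] at m22
            linear_combination -m22
          exact mul_self_eq_zero.1 this
        funext i
        fin_cases i <;> assumption
      · refine fin 2 h22 ?_
        funext i
        fin_cases i
        · simp only [pf, sv, MM, DD, Pi.smul_apply, smul_eq_mul, Matrix.cons_val, Int.cast_id, Fin.zero_eta, Fin.mk_one, Fin.reduceFinMk]
          linear_combination (-(fa ^ 2 * fb * fc ^ 2)) * m00 + (fa * fb ^ 2 * fc ^ 2) * m11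
        · simp only [pf, sv, MM, DD, Pi.smul_apply, smul_eq_mul, Matrix.cons_val, Int.cast_id, Fin.zero_eta, Fin.mk_one, Fin.reduceFinMk]
          linear_combination (fa ^ 2 * fb * fc ^ 2) * m00
        · simp only [pf, sv, MM, DD, Pi.smul_apply, smul_eq_mul, Matrix.cons_val, Int.cast_id, Fin.zero_eta, Fin.mk_one, Fin.reduceFinMk]
          linear_combination (0 : ℤ) * m00
        · simp only [pf, sv, MM, DD, Pi.smul_apply, smul_eq_mul, Matrix.cons_val, Int.cast_id, Fin.zero_eta, Fin.mk_one, Fin.reduceFinMk]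
          linear_combination (0 : ℤ) * m00
        · simp only [pf, sv, MM, DD, Pi.smul_apply, smul_eq_mul, Matrix.cons_val, Int.cast_id, Fin.zero_eta, Fin.mk_one, Fin.reduceFinMk]
          linear_combination (fa * fb * fc ^ 2) * m01
    · refine fin 1 h11 ?_
      funext i
      fin_cases i
      · simp only [pf, sv, MM, DD, Pi.smul_apply, smul_eq_mul, Matrix.cons_val, Int.cast_id, Fin.zero_eta, Fin.mk_one, Fin.reduceFinMk]
        linear_combination (fa * fb ^ 2 * fc ^ 2) * m22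
      · simp only [pf, sv, MM, DD, Pi.smul_apply, smul_eq_mul, Matrix.cons_val, Int.cast_id, Fin.zero_eta, Fin.mk_one, Fin.reduceFinMk]
        linear_combination (-(fa ^ 2 * fb ^ 2 * fc)) * m00
      · simp only [pf, sv, MM, DD, Pi.smul_apply, smul_eq_mul, Matrix.cons_val, Int.cast_id, Fin.zero_eta, Fin.mk_one, Fin.reduceFinMk]
        linear_combination (0 : ℤ) * m00
      · simp only [pf, sv, MM, DD, Pi.smul_apply, smul_eq_mul, Matrix.cons_val, Int.cast_id, Fin.zero_eta, Fin.mk_one, Fin.reduceFinMk]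
        linear_combination (-(fa * fb ^ 2 * fc)) * m02
      · simp only [pf, sv, MM, DD, Pi.smul_apply, smul_eq_mul, Matrix.cons_val, Int.cast_id, Fin.zero_eta, Fin.mk_one, Fin.reduceFinMk]
        linear_combination (0 : ℤ) * m00
  · refine fin 0 h00 ?_
    funext i
    fin_cases i
    · simp only [pf, sv, MM, DD, Pi.smul_apply, smul_eq_mul, Matrix.cons_val, Int.cast_id, Fin.zero_eta, Fin.mk_one, Fin.reduceFinMk]
      linear_combination (-(fa ^ 2 * fb * fc ^ 2)) * m22
    · simp only [pf, sv, MM, DD, Pi.smul_apply, smul_eq_mul, Matrix.cons_val, Int.cast_id, Fin.zero_eta, Fin.mk_one, Fin.reduceFinMk]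
      linear_combination (-(fa ^ 2 * fb ^ 2 * fc)) * m11 + (fa ^ 2 * fb * fc ^ 2) * m22
    · simp only [pf, sv, MM, DD, Pi.smul_apply, smul_eq_mul, Matrix.cons_val, Int.cast_id, Fin.zero_eta, Fin.mk_one, Fin.reduceFinMk]
      linear_combination (fa ^ 2 * fb * fc) * m12
    · simp only [pf, sv, MM, DD, Pi.smul_apply, smul_eq_mul, Matrix.cons_val, Int.cast_id, Fin.zero_eta, Fin.mk_one, Fin.reduceFinMk]
      linear_combination (0 : ℤ) * m00
    · simp only [pf, sv, MM, DD, Pi.smul_apply, smul_eq_mul, Matrix.cons_val, Int.cast_id, Fin.zero_eta, Fin.mk_one, Fin.reduceFinMk]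
      linear_combination (0 : ℤ) * m00

/-- the constant of `exists_small` -/
noncomputable def KS : ℝ := 6 * (KK * dD) * dD ^ 2

theorem KS_one : 1 ≤ KS := by
  have K1 := KK_one
  have D1 := dD_one
  have h1 : 1 ≤ KK * dD := by nlinarith
  have h2 : 1 ≤ dD ^ 2 := one_le_pow₀ D1
  unfold KS
  nlinarith

/-- the planes on rational lines: a small vector -/
theorem exists_small {w : Fin 5 × Fin 5 → ℤ} (hw : w ∈ VV) (hU : ¬ UU w) :
    ∃ v : Fin 3 → ℤ, Unimod v ∧ In w (pf v) ∧ nz v ^ 2 ≤ KS * nz w := by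
  have K1 := KK_one
  have D1 := dD_one
  have S1 := KS_one
  unfold UU at hU
  push Not at hU
  obtain ⟨x, hx, hin, hm⟩ := hU
  obtain ⟨v, hv, k, hk, hkD, hxv⟩ := cone_pf hx hm
  have hinv : In w (pf v) := by
    rw [hxv]
    exact (in_smul_iff hk).2 hin
  by_cases hle : nz v ^ 2 ≤ KS * nz w
  · exact ⟨v, hv, hinv, hle⟩
  push Not at hle
  have hwpos : 1 ≤ nz w := one_le_nz' hw.1
  have hvpos : 1 ≤ nz v := one_le_nz' hv
  obtain ⟨y, hiso, hwy⟩ := VV_basis hw hx hin
  set z := ml v y with hz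
  have hwz : k • w = LL v z := by
    rw [hz, ← wedge_pf, hxv, hwy]
    funext q
    simp only [wedge, Pi.smul_apply, smul_eq_mul]
    ring
  have hiso' : Iso (pf v) y := by
    rw [hxv]
    exact iso_smul_left k hiso
  have htg := ml_tg hiso'
  rw [← hz] at htg
  have hz0 : z ≠ 0 := by
    intro h0
    rw [h0, LL_zero] at hwz
    apply unimod_ne hw.1
    funext q
    have h2 := congrFun hwz q
    simp only [Pi.smul_apply, smul_eq_mul, Pi.zero_apply] at h2
    exact (mul_eq_zero.1 h2).resolve_left hk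
  have h1 : nz v * nz z ≤ KK * dD * nz w := by
    have h1 := nz_LL_ge v z
    rw [← hwz, nz_smul] at h1
    have h2 := dvd_DD_le hkD
    calc nz v * nz z ≤ KK * (|(k : ℝ)| * nz w) := h1
      _ ≤ KK * (dD * nz w) := mul_le_mul_of_nonneg_left
        (mul_le_mul_of_nonneg_right h2 (by linarith)) (by linarith)
      _ = _ := by ring
  have hz1 : 1 ≤ nz z := one_le_nz hz0
  have hA : 0 < KK * dD := by positivity
  have e2 : nz v ^ 2 * nz z ^ 2 ≤ (KK * dD) ^ 2 * nz w ^ 2 := by
    have := mul_self_le_mul_self (by positivity) h1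
    nlinarith
  by_cases hc : cof z = 0
  · obtain ⟨u, hu, hinu, hule⟩ := cof_eq htg hc hz0
    refine ⟨u, hu, ?_, ?_⟩
    · rw [← hwz] at hinu
      exact in_smul_left hk hinu
    have e1 : nz u ^ 2 ≤ 16 * dD ^ 4 * nz z ^ 2 := by
      have h3 := nz_nonneg u
      calc nz u ^ 2 ≤ (4 * dD ^ 2 * nz z) ^ 2 := pow_le_pow_left₀ h3 hule 2
        _ = _ := by ring
    have e3 : KS * nz w * nz z ^ 2 ≤ (KK * dD) ^ 2 * nz w ^ 2 :=
      (mul_le_mul_of_nonneg_right hle.le (by positivity)).trans e2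
    have e4 : KS * nz z ^ 2 ≤ (KK * dD) ^ 2 * nz w := by
      have : nz w * (KS * nz z ^ 2) ≤ nz w * ((KK * dD) ^ 2 * nz w) := by nlinarith
      exact le_of_mul_le_mul_left this (by linarith)
    -- `KS = 6 A dD²`
    have e5 : 6 * dD ^ 2 * nz z ^ 2 ≤ (KK * dD) * nz w := by
      have : (KK * dD) * (6 * dD ^ 2 * nz z ^ 2) ≤ (KK * dD) * ((KK * dD) * nz w) := by
        unfold KS at e4
        nlinarith
      exact le_of_mul_le_mul_left this hA
    have e6 : 16 * dD ^ 4 * nz z ^ 2 ≤ 16 / 6 * dD ^ 2 * ((KK * dD) * nz w) := by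
      have h6 : 0 ≤ 16 / 6 * dD ^ 2 := by positivity
      have := mul_le_mul_of_nonneg_left e5 h6
      nlinarith
    have e7 : 16 / 6 * dD ^ 2 * ((KK * dD) * nz w) ≤ KS * nz w := by
      unfold KS
      have : 0 ≤ dD ^ 2 * ((KK * dD) * nz w) := by positivity
      nlinarith
    linarith
  · have e1 := cof_ne hv htg hc
    exfalso
    have e3 : nz v ^ 2 * nz v ^ 2 ≤ 32 * dD ^ 2 * ((KK * dD) ^ 2 * nz w ^ 2) := by
      calc nz v ^ 2 * nz v ^ 2 ≤ nz v ^ 2 * (32 * dD ^ 2 * nz z ^ 2) :=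
            mul_le_mul_of_nonneg_left e1 (by positivity)
        _ = 32 * dD ^ 2 * (nz v ^ 2 * nz z ^ 2) := by ring
        _ ≤ _ := mul_le_mul_of_nonneg_left e2 (by positivity)
    have e4 := mul_self_lt_mul_self (by positivity) hle
    have e5 : 32 * dD ^ 2 * ((KK * dD) ^ 2 * nz w ^ 2) ≤ KS * nz w * (KS * nz w) := by
      unfold KS
      have h7 : 1 ≤ dD ^ 2 := one_le_pow₀ D1
      have h8 : 0 ≤ (KK * dD) ^ 2 * nz w ^ 2 * dD ^ 2 := by positivity
      have h9 : (KK * dD) ^ 2 * nz w ^ 2 * dD ^ 2 * 1 ≤ (KK * dD) ^ 2 * nz w ^ 2 * dD ^ 2 * dD ^ 2 :=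
        mul_le_mul_of_nonneg_left h7 h8
      nlinarith
    linarith

end Pool.Agent.KS6_30.VA
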