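import Pool.Agent.KS6_30.VA.Cnt2

set_option autoImplicit false
set_option linter.unusedSectionVars false

namespace Pool.Agent.KS6_30.VA

open Finset
open Tern

variable [Tern]

section

variable {R : Type*} [CommRing R]

/-- the polarization of `hes` -/
def hh (x y : Fin 5 → R) : Fin 5 → R :=
  ![(fc : R) * (2 * (fb * (x 2 * y 2)) - 2 * (fa * (x 3 * y 3))),
    x 1 * (y 0 + y 1) + y 1 * (x 0 + x 1) + fa * (2 * (fc * (x 3 * y 3)) - 2 * (fb * (x 4 * y 4))),
    (x 0 + x 1) * y 2 + (y 0 + y 1) * x 2 - fa * (x 3 * y 4 + x 4 * y 3),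
    x 1 * y 3 + y 1 * x 3 - fb * (x 2 * y 4 + x 4 * y 2), -(fc * (x 2 * y 3 + x 3 * y 2))]

theorem hes_comb (a b : R) (x y : Fin 5 → R) :
    hes (a • x + b • y) = a ^ 2 • hes x + (a * b) • hh x y + b ^ 2 • hes y := by
  funext i
  fin_cases i <;> simp [hes, hh] <;> ring

theorem unimod_of_pair {ι : Type*} [Fintype ι] [DecidableEq ι] {z : ι → R} {i j : ι} {r s : R}
    (h : r * z i + s * z j = 1) : Unimod z := by
  refine ⟨Pi.single i r + Pi.single j s, ?_⟩
  simp only [Pi.add_apply, add_mul, Finset.sum_add_distrib]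
  rw [Finset.sum_eq_single i, Finset.sum_eq_single j]
  · simpa using h
  · intro k _ hk
    simp [hk]
  · simp
  · intro k _ hk
    simp [hk]
  · simp

theorem exists_prim_pid [IsDomain R] [IsPrincipalIdealRing R] {ι : Type*} [Fintype ι] {v : ι → R}
    (hv : v ≠ 0) : ∃ (g : R) (l : ι → R), g ≠ 0 ∧ Unimod l ∧ v = g • l := by
  obtain ⟨g, hg⟩ := (IsPrincipalIdealRing.principal (Ideal.span (Set.range v))).principal
  change Ideal.span (Set.range v) = Ideal.span {g} at hg
  have h1 : ∀ i, ∃ t, v i = g * t := by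
    intro i
    have : v i ∈ Ideal.span {g} := by
      rw [← hg]
      exact Ideal.subset_span ⟨i, rfl⟩
    exact Ideal.mem_span_singleton.1 this
  choose l hl using h1
  have hg0 : g ≠ 0 := by
    rintro rfl
    apply hv
    funext i
    rw [hl i, zero_mul]
    rfl
  have h2 : g ∈ Ideal.span (Set.range v) := by
    rw [hg]
    exact Ideal.mem_span_singleton_self g
  obtain ⟨e, he⟩ := Ideal.mem_span_range_iff_exists_fun.1 h2
  refine ⟨g, l, hg0, ⟨e, ?_⟩, funext hl⟩
  apply mul_left_cancel₀ hg0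
  rw [mul_one]
  nth_rewrite 2 [← he]
  rw [Finset.mul_sum]
  refine Finset.sum_congr rfl fun i _ => ?_
  rw [hl i]
  ring

theorem map_hes {S : Type*} [CommRing S] (f : R →+* S) (x : Fin 5 → R) :
    hes (fun i => f (x i)) = fun i => f (hes x i) := by
  funext i
  fin_cases i <;> simp [hes]

theorem map_hh {S : Type*} [CommRing S] (f : R →+* S) (x y : Fin 5 → R) :
    hh (fun i => f (x i)) (fun i => f (y i)) = fun i => f (hh x y i) := by
  funext i
  fin_cases i <;> simp [hh, map_ofNat]

theorem ml_smul_left (a : R) (l : Fin 3 → R) (x : Fin 5 → R) :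
    ml (a • l) x = a • ml l x := by
  funext i
  fin_cases i <;> simp [ml] <;> ring

end

open Polynomial in
/-- no planes on the cone over a field -/
theorem no_plane {F : Type*} [Field F] (hD : ((DD : ℤ) : F) ≠ 0) {x y : Fin 5 → F} {a b : F}
    (h1 : hes x = a • x) (h2 : hh x y = a • y + b • x) (h3 : hes y = b • y) : wedge x y = 0 := by
  classical
  by_contra hne
  obtain ⟨p, hp⟩ := Function.ne_iff.1 hne
  rw [Pi.zero_apply] at hp
  set cx : Fin 5 → F[X] := fun i => C (x i) with hcx
  set cy : Fin 5 → F[X] := fun i => C (y i) with hcy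
  set z : Fin 5 → F[X] := (1 : F[X]) • cx + (X : F[X]) • cy with hz
  have hzi : ∀ i, z i = C (x i) + X * C (y i) := by
    intro i
    simp [hz, hcx, hcy]
  have hzu : Unimod z := by
    apply unimod_of_pair (i := p.1) (j := p.2) (r := C ((wedge x y p)⁻¹ * y p.2))
      (s := -C ((wedge x y p)⁻¹ * y p.1))
    rw [hzi, hzi]
    have : (C ((wedge x y p)⁻¹ * y p.2) : F[X]) * (C (x p.1) + X * C (y p.1)) +
        -C ((wedge x y p)⁻¹ * y p.1) * (C (x p.2) + X * C (y p.2)) = C ((wedge x y p)⁻¹ * wedge x y p) := by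
      simp only [C_mul, wedge, C_sub]
      ring
    rw [this, inv_mul_cancel₀ hp, C_1]
  have hzm : mm z = 0 := by
    have e1 : hes z = (C a + X * C b) • z := by
      rw [hz, hes_comb]
      have f1 : hes cx = fun i => C (hes x i) := map_hes (C : F →+* F[X]) x
      have f2 : hh cx cy = fun i => C (hh x y i) := map_hh (C : F →+* F[X]) x y
      have f3 : hes cy = fun i => C (hes y i) := map_hes (C : F →+* F[X]) y
      rw [f1, f2, f3, h1, h2, h3]
      funext i
      simp only [Pi.add_apply, Pi.smul_apply, smul_eq_mul, hcx, hcy, C_mul, C_add]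
      ring
    rw [mm, e1]
    funext q
    simp only [wedge, Pi.smul_apply, smul_eq_mul, Pi.zero_apply]
    ring
  obtain ⟨e, he⟩ := mu_unimod hzu
  obtain ⟨q, hq⟩ : ∃ q, mu z q ≠ 0 := by
    by_contra hc
    push Not at hc
    simp [hc] at he
  obtain ⟨g, l, hg, hl, hgl⟩ := exists_prim_pid hq
  have h0 : ml l z = 0 := by
    have h4 : g • ml l z = 0 := by
      rw [← ml_smul_left, ← hgl]
      funext i
      rw [ml_mu, hzm]
      rfl
    funext i
    have := congrFun h4 i
    rw [Pi.smul_apply, smul_eq_mul, Pi.zero_apply] at this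
    exact (mul_eq_zero.1 this).resolve_left hg
  have hDC : ∀ n : ℤ, ((n : ℤ) : F[X]) = C ((n : ℤ) : F) := fun n => (map_intCast (C : F →+* F[X]) n).symm
  have hD' : IsUnit ((DD : ℤ) : F[X]) := by
    rw [hDC]
    exact (isUnit_iff_ne_zero.2 hD).map C
  have hw : wedge (pf l) z = 0 := by rw [wedge_pf, h0, LL_zero]
  obtain ⟨s, hs, hzs⟩ := prop_of_wedge (pf_unimod hD' hl) hzu hw
  obtain ⟨s0, hs0, rfl⟩ := Polynomial.isUnit_iff.1 hs
  have hs0' : s0 ≠ 0 := hs0.ne_zero
  have hzd : ∀ i, (z i).natDegree ≤ 1 := by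
    intro i
    rw [hzi]
    refine (natDegree_add_le _ _).trans (max_le (by simp) ?_)
    refine natDegree_mul_le.trans ?_
    simp
  have hpd : ∀ i, (pf l i).natDegree ≤ 1 := by
    intro i
    have h5 := hzd i
    rw [hzs, Pi.smul_apply, smul_eq_mul, natDegree_C_mul hs0'] at h5
    exact h5
  have hne' : (fa : F) ≠ 0 ∧ (fb : F) ≠ 0 ∧ (fc : F) ≠ 0 := by
    have : ((DD : ℤ) : F) = fa * fb * fc := by simp [DD]
    rw [this] at hD
    exact ⟨left_ne_zero_of_mul (left_ne_zero_of_mul hD), right_ne_zero_of_mul (left_ne_zero_of_mul hD),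
      right_ne_zero_of_mul hD⟩
  obtain ⟨ha', hb', hc'⟩ := hne'
  -- the key step
  have step : ∀ (u v : F[X]) (r t : F), t ≠ 0 → (u * v).natDegree ≤ 1 →
      (C r * u ^ 2 - C t * v ^ 2).natDegree ≤ 1 → v.natDegree = 0 := by
    intro u v r t ht huv hd
    by_contra hv
    have hv1 : 1 ≤ v.natDegree := Nat.one_le_iff_ne_zero.2 hv
    have hv0 : v ≠ 0 := by
      rintro rfl
      simp at hv
    have hu : u.natDegree = 0 := by
      by_cases hu0 : u = 0
      · rw [hu0]; simp
      · rw [natDegree_mul hu0 hv0] at huv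
        omega
    have e1 : (C r * u ^ 2).natDegree = 0 := by
      apply Nat.eq_zero_of_le_zero
      refine natDegree_mul_le.trans ?_
      rw [natDegree_C, natDegree_pow, hu]
    have e2 : (C t * v ^ 2).natDegree = 2 * v.natDegree := by
      rw [natDegree_C_mul ht, natDegree_pow]
    rw [natDegree_sub_eq_right_of_natDegree_lt (by rw [e1, e2]; omega), e2] at hd
    omega
  have p0 : pf l 0 = C (fb : F) * l 1 ^ 2 - C (fa : F) * l 0 ^ 2 := by simp [pf]
  have p1 : pf l 1 = C (fc : F) * l 2 ^ 2 - C (fb : F) * l 1 ^ 2 := by simp [pf]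
  have p2 : pf l 2 = l 1 * l 2 := by simp [pf]
  have p4 : pf l 4 = l 0 * l 1 := by simp [pf]
  have d0 : (l 0).natDegree = 0 := by
    refine step (l 1) (l 0) (fb : F) (fa : F) ha' ?_ ?_
    · rw [mul_comm, ← p4]; exact hpd 4
    · rw [← p0]; exact hpd 0
  have d1 : (l 1).natDegree = 0 := by
    refine step (l 0) (l 1) (fa : F) (fb : F) hb' ?_ ?_
    · rw [← p4]; exact hpd 4
    · have : C (fa : F) * l 0 ^ 2 - C (fb : F) * l 1 ^ 2 = -pf l 0 := by rw [p0]; ring
      rw [this, natDegree_neg]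
      exact hpd 0
  have d2 : (l 2).natDegree = 0 := by
    refine step (l 1) (l 2) (fb : F) (fc : F) hc' ?_ ?_
    · rw [← p2]; exact hpd 2
    · have : C (fb : F) * l 1 ^ 2 - C (fc : F) * l 2 ^ 2 = -pf l 1 := by rw [p1]; ring
      rw [this, natDegree_neg]
      exact hpd 1
  have hlc : ∀ i, ∃ t, l i = C t := by
    intro i
    have : (l i).natDegree = 0 := by fin_cases i <;> assumption
    exact ⟨_, eq_C_of_natDegree_eq_zero this⟩
  choose t ht using hlc
  have hy : ∀ i, y i = 0 := by
    intro i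
    have e1 := hzi i
    have e2 : pf l i = C (pf t i) := by
      have : l = fun i => C (t i) := funext ht
      rw [this]
      exact map_pf (C : F →+* F[X]) t i
    rw [hzs, Pi.smul_apply, smul_eq_mul, e2, ← C_mul] at e1
    have e3 := congrArg (fun f => coeff f 1) e1
    simpa using e3.symm
  apply hp
  simp only [wedge, hy, mul_zero, sub_self]

end Pool.Agent.KS6_30.VA
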