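import Pool.Agent.KS6_30.VA.Cont

/-!
# Constants of homogeneous maps
-/

set_option autoImplicit false
set_option linter.unusedSectionVars false
set_option linter.style.haveILetI false

namespace Pool.Agent.KS6_30.VA

open Finset Filter Topology

section gen

variable {E F : Type*} [NormedAddCommGroup E] [NormedSpace ℝ E] [FiniteDimensional ℝ E]
  [NormedAddCommGroup F] [NormedSpace ℝ F] [FiniteDimensional ℝ F]

theorem hom_upper (d : ℕ) (hd : d ≠ 0) (f : E → ℝ) (hf : Continuous f)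
    (hh : ∀ (t : ℝ), 0 ≤ t → ∀ x, f (t • x) = t ^ d * f x) : ∃ K : ℝ, 1 ≤ K ∧ ∀ x, f x ≤ K * ‖x‖ ^ d := by
  haveI : ProperSpace E := FiniteDimensional.proper_real E
  obtain ⟨M, hM⟩ := (isCompact_sphere (0 : E) 1).bddAbove_image hf.continuousOn
  refine ⟨max M 1, le_max_right _ _, fun x => ?_⟩
  by_cases hx : x = 0
  · subst hx
    have h0 := hh 0 le_rfl 0
    rw [zero_smul, zero_pow hd, zero_mul] at h0
    rw [h0, norm_zero, zero_pow hd, mul_zero]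
  · have hn : 0 < ‖x‖ := norm_pos_iff.2 hx
    have e1 : x = ‖x‖ • (‖x‖⁻¹ • x) := by rw [smul_smul, mul_inv_cancel₀ hn.ne', one_smul]
    have e2 : ‖x‖⁻¹ • x ∈ Metric.sphere (0 : E) 1 := by
      rw [mem_sphere_zero_iff_norm, norm_smul, norm_inv, norm_norm, inv_mul_cancel₀ hn.ne']
    have e3 : f (‖x‖⁻¹ • x) ≤ M := hM ⟨_, e2, rfl⟩
    have e4 : f x = ‖x‖ ^ d * f (‖x‖⁻¹ • x) := by
      conv_lhs => rw [e1]
      exact hh _ hn.le _
    rw [e4, mul_comm]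
    exact mul_le_mul_of_nonneg_right (e3.trans (le_max_left _ _)) (by positivity)

theorem hom_lower (d : ℕ) (hd : d ≠ 0) (f : E → ℝ) (hf : Continuous f)
    (hh : ∀ (t : ℝ), 0 ≤ t → ∀ x, f (t • x) = t ^ d * f x) (hp : ∀ x, x ≠ 0 → 0 < f x) :
    ∃ K : ℝ, 1 ≤ K ∧ ∀ x, ‖x‖ ^ d ≤ K * f x := by
  haveI : ProperSpace E := FiniteDimensional.proper_real E
  have h0 : f 0 = 0 := by
    have h0 := hh 0 le_rfl 0
    rwa [zero_smul, zero_pow hd, zero_mul] at h0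
  rcases (Metric.sphere (0 : E) 1).eq_empty_or_nonempty with hE | hE
  · refine ⟨1, le_rfl, fun x => ?_⟩
    have hx : x = 0 := by
      by_contra hx
      have hn : 0 < ‖x‖ := norm_pos_iff.2 hx
      have e2 : ‖x‖⁻¹ • x ∈ Metric.sphere (0 : E) 1 := by
        rw [mem_sphere_zero_iff_norm, norm_smul, norm_inv, norm_norm, inv_mul_cancel₀ hn.ne']
      rw [hE] at e2
      exact e2
    rw [hx, h0, norm_zero, zero_pow hd, mul_zero]
  · obtain ⟨x0, hx0, hmin⟩ := (isCompact_sphere (0 : E) 1).exists_isMinOn hE hf.continuousOn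
    have hx0' : x0 ≠ 0 := by
      rintro rfl
      rw [mem_sphere_zero_iff_norm, norm_zero] at hx0
      exact zero_ne_one hx0
    have hm : 0 < f x0 := hp x0 hx0'
    refine ⟨max (f x0)⁻¹ 1, le_max_right _ _, fun x => ?_⟩
    by_cases hx : x = 0
    · rw [hx, h0, norm_zero, zero_pow hd, mul_zero]
    · have hn : 0 < ‖x‖ := norm_pos_iff.2 hx
      have e1 : x = ‖x‖ • (‖x‖⁻¹ • x) := by rw [smul_smul, mul_inv_cancel₀ hn.ne', one_smul]
      have e2 : ‖x‖⁻¹ • x ∈ Metric.sphere (0 : E) 1 := by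
        rw [mem_sphere_zero_iff_norm, norm_smul, norm_inv, norm_norm, inv_mul_cancel₀ hn.ne']
      have e3 : f x0 ≤ f (‖x‖⁻¹ • x) := hmin e2
      have e4 : f x = ‖x‖ ^ d * f (‖x‖⁻¹ • x) := by
        conv_lhs => rw [e1]
        exact hh _ hn.le _
      have e5 : 1 ≤ (f x0)⁻¹ * f (‖x‖⁻¹ • x) := by
        rw [inv_mul_eq_div, one_le_div hm]
        exact e3
      have e6 : 0 ≤ f (‖x‖⁻¹ • x) := hm.le.trans e3
      calc ‖x‖ ^ d = ‖x‖ ^ d * 1 := (mul_one _).symm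
        _ ≤ ‖x‖ ^ d * ((f x0)⁻¹ * f (‖x‖⁻¹ • x)) := mul_le_mul_of_nonneg_left e5 (by positivity)
        _ ≤ ‖x‖ ^ d * (max (f x0)⁻¹ 1 * f (‖x‖⁻¹ • x)) :=
          mul_le_mul_of_nonneg_left (mul_le_mul_of_nonneg_right (le_max_left _ _) e6) (by positivity)
        _ = _ := by rw [e4]; ring

theorem bi_upper (f : E → F → ℝ) (hf : Continuous fun z : E × F => f z.1 z.2)
    (hl : ∀ (t : ℝ), 0 ≤ t → ∀ x y, f (t • x) y = t * f x y)
    (hr : ∀ (t : ℝ), 0 ≤ t → ∀ x y, f x (t • y) = t * f x y) :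
    ∃ K : ℝ, 1 ≤ K ∧ ∀ x y, f x y ≤ K * ‖x‖ * ‖y‖ := by
  haveI : ProperSpace E := FiniteDimensional.proper_real E
  haveI : ProperSpace F := FiniteDimensional.proper_real F
  obtain ⟨M, hM⟩ := ((isCompact_sphere (0 : E) 1).prod (isCompact_sphere (0 : F) 1)).bddAbove_image
    hf.continuousOn
  refine ⟨max M 1, le_max_right _ _, fun x y => ?_⟩
  have norm1 : ∀ {G : Type _} [NormedAddCommGroup G] [NormedSpace ℝ G] (x : G), x ≠ 0 →
      x = ‖x‖ • (‖x‖⁻¹ • x) ∧ ‖x‖⁻¹ • x ∈ Metric.sphere (0 : G) 1 := by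
    intro G _ _ x hx
    have hn : 0 < ‖x‖ := norm_pos_iff.2 hx
    refine ⟨by rw [smul_smul, mul_inv_cancel₀ hn.ne', one_smul], ?_⟩
    rw [mem_sphere_zero_iff_norm, norm_smul, norm_inv, norm_norm, inv_mul_cancel₀ hn.ne']
  by_cases hx : x = 0
  · subst hx
    have h0 := hl 0 le_rfl 0 y
    rw [zero_smul, zero_mul] at h0
    rw [h0, norm_zero, mul_zero, zero_mul]
  by_cases hy : y = 0
  · subst hy
    have h0 := hr 0 le_rfl x 0
    rw [zero_smul, zero_mul] at h0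
    rw [h0, norm_zero, mul_zero]
  obtain ⟨a1, a2⟩ := norm1 x hx
  have hnx : 0 < ‖x‖ := norm_pos_iff.2 hx
  have hny : 0 < ‖y‖ := norm_pos_iff.2 hy
  have b1 : y = ‖y‖ • (‖y‖⁻¹ • y) := by rw [smul_smul, mul_inv_cancel₀ hny.ne', one_smul]
  have b2 : ‖y‖⁻¹ • y ∈ Metric.sphere (0 : F) 1 := by
    rw [mem_sphere_zero_iff_norm, norm_smul, norm_inv, norm_norm, inv_mul_cancel₀ hny.ne']
  have e3 : f (‖x‖⁻¹ • x) (‖y‖⁻¹ • y) ≤ M := hM ⟨(_, _), ⟨a2, b2⟩, rfl⟩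
  have e4 : f x y = ‖x‖ * (‖y‖ * f (‖x‖⁻¹ • x) (‖y‖⁻¹ • y)) := by
    conv_lhs => rw [a1, b1]
    rw [hl _ hnx.le, hr _ hny.le]
  rw [e4]
  calc _ ≤ ‖x‖ * (‖y‖ * max M 1) := mul_le_mul_of_nonneg_left (mul_le_mul_of_nonneg_left
        (e3.trans (le_max_left _ _)) hny.le) hnx.le
    _ = _ := by ring

theorem bi_lower (f : E → F → ℝ) (hf : Continuous fun z : E × F => f z.1 z.2)
    (hl : ∀ (t : ℝ), 0 ≤ t → ∀ x y, f (t • x) y = t * f x y)
    (hr : ∀ (t : ℝ), 0 ≤ t → ∀ x y, f x (t • y) = t * f x y)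
    (hp : ∀ x y, x ≠ 0 → y ≠ 0 → 0 < f x y) :
    ∃ K : ℝ, 1 ≤ K ∧ ∀ x y, ‖x‖ * ‖y‖ ≤ K * f x y := by
  haveI : ProperSpace E := FiniteDimensional.proper_real E
  haveI : ProperSpace F := FiniteDimensional.proper_real F
  have hx0 : ∀ y, f 0 y = 0 := fun y => by
    have h0 := hl 0 le_rfl 0 y
    rwa [zero_smul, zero_mul] at h0
  have hy0 : ∀ x, f x 0 = 0 := fun x => by
    have h0 := hr 0 le_rfl x 0
    rwa [zero_smul, zero_mul] at h0
  rcases (Metric.sphere (0 : E) 1 ×ˢ Metric.sphere (0 : F) 1).eq_empty_or_nonempty with hE | hE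
  · refine ⟨1, le_rfl, fun x y => ?_⟩
    by_cases hx : x = 0
    · rw [hx, hx0, norm_zero, zero_mul, mul_zero]
    by_cases hy : y = 0
    · rw [hy, hy0, norm_zero, mul_zero, mul_zero]
    exfalso
    have hnx : 0 < ‖x‖ := norm_pos_iff.2 hx
    have hny : 0 < ‖y‖ := norm_pos_iff.2 hy
    have : (‖x‖⁻¹ • x, ‖y‖⁻¹ • y) ∈ Metric.sphere (0 : E) 1 ×ˢ Metric.sphere (0 : F) 1 := by
      refine ⟨?_, ?_⟩
      · rw [mem_sphere_zero_iff_norm, norm_smul, norm_inv, norm_norm, inv_mul_cancel₀ hnx.ne']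
      · rw [mem_sphere_zero_iff_norm, norm_smul, norm_inv, norm_norm, inv_mul_cancel₀ hny.ne']
    rw [hE] at this
    exact this
  · obtain ⟨⟨x0, y0⟩, hz0, hmin⟩ := ((isCompact_sphere (0 : E) 1).prod
      (isCompact_sphere (0 : F) 1)).exists_isMinOn hE hf.continuousOn
    have hx0' : x0 ≠ 0 := by
      rintro rfl
      have := hz0.1
      rw [mem_sphere_zero_iff_norm, norm_zero] at this
      exact zero_ne_one this
    have hy0' : y0 ≠ 0 := by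
      rintro rfl
      have := hz0.2
      rw [mem_sphere_zero_iff_norm, norm_zero] at this
      exact zero_ne_one this
    have hm : 0 < f x0 y0 := hp x0 y0 hx0' hy0'
    refine ⟨max (f x0 y0)⁻¹ 1, le_max_right _ _, fun x y => ?_⟩
    by_cases hx : x = 0
    · rw [hx, hx0, norm_zero, zero_mul, mul_zero]
    by_cases hy : y = 0
    · rw [hy, hy0, norm_zero, mul_zero, mul_zero]
    have hnx : 0 < ‖x‖ := norm_pos_iff.2 hx
    have hny : 0 < ‖y‖ := norm_pos_iff.2 hy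
    have a1 : x = ‖x‖ • (‖x‖⁻¹ • x) := by rw [smul_smul, mul_inv_cancel₀ hnx.ne', one_smul]
    have b1 : y = ‖y‖ • (‖y‖⁻¹ • y) := by rw [smul_smul, mul_inv_cancel₀ hny.ne', one_smul]
    have hmem : (‖x‖⁻¹ • x, ‖y‖⁻¹ • y) ∈ Metric.sphere (0 : E) 1 ×ˢ Metric.sphere (0 : F) 1 := by
      refine ⟨?_, ?_⟩
      · rw [mem_sphere_zero_iff_norm, norm_smul, norm_inv, norm_norm, inv_mul_cancel₀ hnx.ne']
      · rw [mem_sphere_zero_iff_norm, norm_smul, norm_inv, norm_norm, inv_mul_cancel₀ hny.ne']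
    have e3 : f x0 y0 ≤ f (‖x‖⁻¹ • x) (‖y‖⁻¹ • y) := hmin hmem
    have e4 : f x y = ‖x‖ * (‖y‖ * f (‖x‖⁻¹ • x) (‖y‖⁻¹ • y)) := by
      conv_lhs => rw [a1, b1]
      rw [hl _ hnx.le, hr _ hny.le]
    have e5 : 1 ≤ (f x0 y0)⁻¹ * f (‖x‖⁻¹ • x) (‖y‖⁻¹ • y) := by
      rw [inv_mul_eq_div, one_le_div hm]
      exact e3
    have e6 : 0 ≤ f (‖x‖⁻¹ • x) (‖y‖⁻¹ • y) := hm.le.trans e3
    calc ‖x‖ * ‖y‖ = ‖x‖ * ‖y‖ * 1 := (mul_one _).symm
      _ ≤ ‖x‖ * ‖y‖ * ((f x0 y0)⁻¹ * f (‖x‖⁻¹ • x) (‖y‖⁻¹ • y)) :=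
        mul_le_mul_of_nonneg_left e5 (by positivity)
      _ ≤ ‖x‖ * ‖y‖ * (max (f x0 y0)⁻¹ 1 * f (‖x‖⁻¹ • x) (‖y‖⁻¹ • y)) :=
        mul_le_mul_of_nonneg_left (mul_le_mul_of_nonneg_right (le_max_left _ _) e6) (by positivity)
      _ = _ := by rw [e4]; ring

end gen

end Pool.Agent.KS6_30.VA
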