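import Pool.Agent.KS6_30.VA.Nrm

/-!
# The constant of the net
-/

set_option autoImplicit false
set_option linter.unusedSectionVars false
set_option linter.style.haveILetI false

namespace Pool.Agent.KS6_30.VA

open Finset Filter Topology
open Tern

variable [Tern]

theorem fa_ne : ((fa : ℤ) : ℝ) ≠ 0 := by exact_mod_cast ha
theorem fb_ne : ((fb : ℤ) : ℝ) ≠ 0 := by exact_mod_cast hb
theorem fc_ne : ((fc : ℤ) : ℝ) ≠ 0 := by exact_mod_cast hc

theorem DD_real : ((DD : ℤ) : ℝ) ≠ 0 := by exact_mod_cast DD_ne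

theorem pf_ne {l : Fin 3 → ℝ} (hl : l ≠ 0) : pf l ≠ 0 := by
  intro h
  obtain ⟨e, he⟩ := pf_unimod (IsUnit.mk0 _ DD_real) (unimod_of_ne hl)
  rw [h] at he
  simp at he

theorem mu_ne {x : Fin 5 → ℝ} (hx : x ≠ 0) : mu x ≠ 0 := by
  intro h
  obtain ⟨e, he⟩ := mu_unimod (unimod_of_ne hx)
  rw [h] at he
  simp at he

theorem LL_ne {l : Fin 3 → ℝ} {z : Fin 5 → ℝ} (hl : l ≠ 0) (hz : z ≠ 0) : LL l z ≠ 0 := by
  intro h
  have a := fa_ne
  have b := fb_ne
  have c := fc_ne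
  have h01 := congrFun h (0, 1)
  have h02 := congrFun h (0, 2)
  have h03 := congrFun h (0, 3)
  have h04 := congrFun h (0, 4)
  have h12 := congrFun h (1, 2)
  have h13 := congrFun h (1, 3)
  have h14 := congrFun h (1, 4)
  have h23 := congrFun h (2, 3)
  have h24 := congrFun h (2, 4)
  have h34 := congrFun h (3, 4)
  simp only [LL, Matrix.cons_val, Matrix.cons_val_zero, Matrix.cons_val_one, Pi.zero_apply] at h01 h02 h03 h04 h12 h13 h14 h23 h24 h34
  have hz' : z 0 = 0 → z 1 = 0 → z 2 = 0 → z 3 = 0 → z 4 = 0 → False := by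
    intro z0 z1 z2 z3 z4
    apply hz
    funext i
    fin_cases i <;> assumption
  by_cases l0 : l 0 = 0
  · by_cases l1 : l 1 = 0
    · have l2 : l 2 ≠ 0 := by
        intro l2
        apply hl
        funext i
        fin_cases i <;> assumption
      simp only [l0, l1] at h01 h02 h03 h04 h12 h13 h14 h23 h24 h34
      have z4 : z 4 = 0 := by
        have : (fc : ℝ) * l 2 * z 4 = 0 := by linear_combination -h01
        exact (mul_eq_zero.1 this).resolve_left (mul_ne_zero c l2)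
      have z1 : z 1 = 0 := by
        have : (fc : ℝ) * l 2 * z 1 = 0 := by linear_combination h04
        exact (mul_eq_zero.1 this).resolve_left (mul_ne_zero c l2)
      have z3 : z 3 = 0 := by
        have : l 2 * z 3 = 0 := by linear_combination -h12
        exact (mul_eq_zero.1 this).resolve_left l2
      have z2 : z 2 = 0 := by
        have : l 2 * z 2 = 0 := by linear_combination h13
        exact (mul_eq_zero.1 this).resolve_left l2
      have z0 : z 0 = 0 := by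
        have : (fc : ℝ) * l 2 * z 0 = 0 := by linear_combination -h14
        exact (mul_eq_zero.1 this).resolve_left (mul_ne_zero c l2)
      exact hz' z0 z1 z2 z3 z4
    · simp only [l0] at h01 h02 h03 h04 h12 h13 h14 h23 h24 h34
      have z4 : z 4 = 0 := by
        have : l 1 * z 4 = 0 := by linear_combination -h02
        exact (mul_eq_zero.1 this).resolve_left l1
      have z1 : z 1 = 0 := by
        have : (fb : ℝ) * l 1 * z 1 = 0 := by linear_combination -h03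
        exact (mul_eq_zero.1 this).resolve_left (mul_ne_zero b l1)
      have z0 : z 0 = 0 := by
        have : l 1 * z 0 = 0 := by linear_combination -h24 + l 1 * z1
        exact (mul_eq_zero.1 this).resolve_left l1
      have z2 : z 2 = 0 := by
        have : l 1 * z 2 = 0 := by linear_combination h04 - (fc : ℝ) * l 2 * z1
        exact (mul_eq_zero.1 this).resolve_left l1
      have z3 : z 3 = 0 := by
        have : (fb : ℝ) * l 1 * z 3 = 0 := by linear_combination h01 + (fc : ℝ) * l 2 * z4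
        exact (mul_eq_zero.1 this).resolve_left (mul_ne_zero b l1)
      exact hz' z0 z1 z2 z3 z4
  · have z0 : z 0 = 0 := (mul_eq_zero.1 h34).resolve_left l0
    have l1z1 : l 1 * z 1 = 0 := by linear_combination h24 + l 1 * z0
    have z4 : z 4 = 0 := by
      have : l 0 * z 4 = 0 := by linear_combination h03 + (fb : ℝ) * l1z1
      exact (mul_eq_zero.1 this).resolve_left l0
    have z1 : z 1 = 0 := by
      have : (fa : ℝ) * l 0 * z 1 = 0 := by linear_combination h02 + l 1 * z4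
      exact (mul_eq_zero.1 this).resolve_left (mul_ne_zero a l0)
    have l1z2 : l 1 * z 2 = 0 := by linear_combination -h14 - (fc : ℝ) * l 2 * z0
    have z3 : z 3 = 0 := by
      have : l 0 * z 3 = 0 := by linear_combination -h04 + (fc : ℝ) * l 2 * z1 + l1z2
      exact (mul_eq_zero.1 this).resolve_left l0
    have z2 : z 2 = 0 := by
      have : (fa : ℝ) * l 0 * z 2 = 0 := by
        linear_combination -h01 + (fb : ℝ) * l 1 * z3 - (fc : ℝ) * l 2 * z4
      exact (mul_eq_zero.1 this).resolve_left (mul_ne_zero a l0)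
    exact hz' z0 z1 z2 z3 z4

theorem pf_cts : Continuous fun l : Fin 3 → ℝ => pf l := by
  refine continuous_pi fun i => ?_
  fin_cases i <;> simp only [pf, Fin.zero_eta, Fin.mk_one, Fin.reduceFinMk, Matrix.cons_val] <;>
    fun_prop

theorem mu_cts : Continuous fun x : Fin 5 → ℝ => mu x := by
  refine continuous_pi fun p => continuous_pi fun i => ?_
  obtain ⟨j, k⟩ := p
  fin_cases j <;> fin_cases k <;> fin_cases i <;>
    simp only [mu, av, cross, Fin.zero_eta, Fin.mk_one, Fin.reduceFinMk, Matrix.cons_val, Matrix.cons_val_zero, Matrix.cons_val_one] <;>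
    fun_prop

theorem LL_cts : Continuous fun z : (Fin 3 → ℝ) × (Fin 5 → ℝ) => LL z.1 z.2 := by
  refine continuous_pi fun p => ?_
  obtain ⟨j, k⟩ := p
  fin_cases j <;> fin_cases k <;>
    simp only [LL, Fin.zero_eta, Fin.mk_one, Fin.reduceFinMk, Matrix.cons_val, Matrix.cons_val_zero, Matrix.cons_val_one] <;>
    fun_prop

theorem mu_smul (t : ℝ) (x : Fin 5 → ℝ) : mu (t • x) = t ^ 2 • mu x := by
  funext p i
  obtain ⟨j, k⟩ := p
  fin_cases j <;> fin_cases k <;> fin_cases i <;> simp [mu, av, cross] <;> ring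

theorem LL_smul_left (t : ℝ) (l : Fin 3 → ℝ) (z : Fin 5 → ℝ) : LL (t • l) z = t • LL l z := by
  funext ⟨i, j⟩
  fin_cases i <;> fin_cases j <;> simp [LL] <;> ring

theorem LL_smul_right (t : ℝ) (l : Fin 3 → ℝ) (z : Fin 5 → ℝ) : LL l (t • z) = t • LL l z := by
  funext ⟨i, j⟩
  fin_cases i <;> fin_cases j <;> simp [LL] <;> ring

/-- the polarization of `pf` -/
noncomputable def pb (l m : Fin 3 → ℝ) : Fin 5 → ℝ :=
  ![fb * (l 1 * m 1) - fa * (l 0 * m 0), fc * (l 2 * m 2) - fb * (l 1 * m 1),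
    (l 1 * m 2 + l 2 * m 1) / 2, -(l 0 * m 2 + l 2 * m 0) / 2, (l 0 * m 1 + l 1 * m 0) / 2]

theorem pb_cts : Continuous fun z : (Fin 3 → ℝ) × (Fin 3 → ℝ) => pb z.1 z.2 := by
  refine continuous_pi fun i => ?_
  fin_cases i <;> simp only [pb, Fin.zero_eta, Fin.mk_one, Fin.reduceFinMk, Matrix.cons_val] <;>
    fun_prop

theorem pf_sub (l l' : Fin 3 → ℝ) : pf l - pf l' = pb (l + l') (l - l') := by
  funext i
  fin_cases i <;> simp [pf, pb] <;> ring

/-- all inequalities -/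
theorem exists_KK : ∃ K : ℝ, 1 ≤ K ∧ (∀ x : Fin 5 → ℝ, ‖mm x‖ ≤ K * ‖x‖ ^ 3) ∧
    (∀ x : Fin 5 → ℝ, ‖mu x‖ ≤ K * ‖x‖ ^ 2) ∧ (∀ x : Fin 5 → ℝ, ‖x‖ ^ 2 ≤ K * ‖mu x‖) ∧
    (∀ l : Fin 3 → ℝ, ‖pf l‖ ≤ K * ‖l‖ ^ 2) ∧ (∀ l : Fin 3 → ℝ, ‖l‖ ^ 2 ≤ K * ‖pf l‖) ∧
    (∀ (l : Fin 3 → ℝ) (z : Fin 5 → ℝ), ‖LL l z‖ ≤ K * ‖l‖ * ‖z‖) ∧
    (∀ (l : Fin 3 → ℝ) (z : Fin 5 → ℝ), ‖l‖ * ‖z‖ ≤ K * ‖LL l z‖) ∧
    (∀ l m : Fin 3 → ℝ, ‖pb l m‖ ≤ K * ‖l‖ * ‖m‖) := by
  obtain ⟨K1, h1, k1⟩ := hom_upper 3 (by norm_num) (fun x : Fin 5 → ℝ => ‖mm x‖) mm_cts.norm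
    (fun t ht x => by rw [mm_smul, norm_smul, norm_pow, Real.norm_eq_abs, abs_of_nonneg ht])
  obtain ⟨K2, h2, k2⟩ := hom_upper 2 (by norm_num) (fun x : Fin 5 → ℝ => ‖mu x‖) mu_cts.norm
    (fun t ht x => by rw [mu_smul, norm_smul, norm_pow, Real.norm_eq_abs, abs_of_nonneg ht])
  obtain ⟨K3, h3, k3⟩ := hom_lower 2 (by norm_num) (fun x : Fin 5 → ℝ => ‖mu x‖) mu_cts.norm
    (fun t ht x => by rw [mu_smul, norm_smul, norm_pow, Real.norm_eq_abs, abs_of_nonneg ht])
    (fun x hx => norm_pos_iff.2 (mu_ne hx))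
  obtain ⟨K4, h4, k4⟩ := hom_upper 2 (by norm_num) (fun x : Fin 3 → ℝ => ‖pf x‖) pf_cts.norm
    (fun t ht x => by rw [pf_smul, norm_smul, norm_pow, Real.norm_eq_abs, abs_of_nonneg ht])
  obtain ⟨K5, h5, k5⟩ := hom_lower 2 (by norm_num) (fun x : Fin 3 → ℝ => ‖pf x‖) pf_cts.norm
    (fun t ht x => by rw [pf_smul, norm_smul, norm_pow, Real.norm_eq_abs, abs_of_nonneg ht])
    (fun x hx => norm_pos_iff.2 (pf_ne hx))
  obtain ⟨K6, h6, k6⟩ := bi_upper (fun (l : Fin 3 → ℝ) (z : Fin 5 → ℝ) => ‖LL l z‖) LL_cts.norm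
    (fun t ht x y => by rw [LL_smul_left, norm_smul, Real.norm_eq_abs, abs_of_nonneg ht])
    (fun t ht x y => by rw [LL_smul_right, norm_smul, Real.norm_eq_abs, abs_of_nonneg ht])
  obtain ⟨K7, h7, k7⟩ := bi_lower (fun (l : Fin 3 → ℝ) (z : Fin 5 → ℝ) => ‖LL l z‖) LL_cts.norm
    (fun t ht x y => by rw [LL_smul_left, norm_smul, Real.norm_eq_abs, abs_of_nonneg ht])
    (fun t ht x y => by rw [LL_smul_right, norm_smul, Real.norm_eq_abs, abs_of_nonneg ht])
    (fun x y hx hy => norm_pos_iff.2 (LL_ne hx hy))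
  obtain ⟨K8, h8, k8⟩ := bi_upper (fun (l m : Fin 3 → ℝ) => ‖pb l m‖) pb_cts.norm
    (fun t ht x y => by
      have : pb (t • x) y = t • pb x y := by
        funext i
        fin_cases i <;> simp [pb] <;> ring
      rw [this, norm_smul, Real.norm_eq_abs, abs_of_nonneg ht])
    (fun t ht x y => by
      have : pb x (t • y) = t • pb x y := by
        funext i
        fin_cases i <;> simp [pb] <;> ring
      rw [this, norm_smul, Real.norm_eq_abs, abs_of_nonneg ht])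
  refine ⟨K1 + K2 + K3 + K4 + K5 + K6 + K7 + K8, by linarith, fun x => ?_, fun x => ?_, fun x => ?_,
    fun l => ?_, fun l => ?_, fun l z => ?_, fun l z => ?_, fun l m => ?_⟩
  · exact (k1 x).trans (mul_le_mul_of_nonneg_right (by linarith) (by positivity))
  · exact (k2 x).trans (mul_le_mul_of_nonneg_right (by linarith) (by positivity))
  · exact (k3 x).trans (mul_le_mul_of_nonneg_right (by linarith) (by positivity))
  · exact (k4 l).trans (mul_le_mul_of_nonneg_right (by linarith) (by positivity))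
  · exact (k5 l).trans (mul_le_mul_of_nonneg_right (by linarith) (by positivity))
  · exact (k6 l z).trans (mul_le_mul_of_nonneg_right (mul_le_mul_of_nonneg_right (by linarith)
      (by positivity)) (by positivity))
  · exact (k7 l z).trans (mul_le_mul_of_nonneg_right (by linarith) (by positivity))
  · exact (k8 l m).trans (mul_le_mul_of_nonneg_right (mul_le_mul_of_nonneg_right (by linarith)
      (by positivity)) (by positivity))

/-- the constant -/
noncomputable def KK : ℝ := exists_KK.choose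

theorem KK_one : 1 ≤ KK := exists_KK.choose_spec.1

theorem KK_pos : 0 < KK := lt_of_lt_of_le one_pos KK_one

theorem norm_mm_le (x : Fin 5 → ℝ) : ‖mm x‖ ≤ KK * ‖x‖ ^ 3 := exists_KK.choose_spec.2.1 x

theorem norm_mu_le (x : Fin 5 → ℝ) (p : Fin 5 × Fin 5) : ‖mu x p‖ ≤ KK * ‖x‖ ^ 2 :=
  (norm_le_pi_norm (mu x) p).trans (exists_KK.choose_spec.2.2.1 x)

theorem exists_mu (x : Fin 5 → ℝ) : ∃ p, ‖x‖ ^ 2 ≤ KK * ‖mu x p‖ := by
  obtain ⟨p, hp⟩ := Finite.exists_max fun p => ‖mu x p‖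
  refine ⟨p, (exists_KK.choose_spec.2.2.2.1 x).trans (mul_le_mul_of_nonneg_left ?_ KK_pos.le)⟩
  rw [pi_norm_le_iff_of_nonneg (norm_nonneg _)]
  exact hp

theorem norm_pf_le (l : Fin 3 → ℝ) : ‖pf l‖ ≤ KK * ‖l‖ ^ 2 := exists_KK.choose_spec.2.2.2.2.1 l

theorem norm_pf_ge (l : Fin 3 → ℝ) : ‖l‖ ^ 2 ≤ KK * ‖pf l‖ := exists_KK.choose_spec.2.2.2.2.2.1 l

theorem norm_LL_le (l : Fin 3 → ℝ) (z : Fin 5 → ℝ) : ‖LL l z‖ ≤ KK * ‖l‖ * ‖z‖ :=
  exists_KK.choose_spec.2.2.2.2.2.2.1 l z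

theorem norm_LL_ge (l : Fin 3 → ℝ) (z : Fin 5 → ℝ) : ‖l‖ * ‖z‖ ≤ KK * ‖LL l z‖ :=
  exists_KK.choose_spec.2.2.2.2.2.2.2.1 l z

theorem pf_lip (l l' : Fin 3 → ℝ) : ‖pf l - pf l'‖ ≤ KK * (‖l‖ + ‖l'‖) * ‖l - l'‖ := by
  rw [pf_sub]
  refine (exists_KK.choose_spec.2.2.2.2.2.2.2.2 _ _).trans ?_
  refine mul_le_mul_of_nonneg_right (mul_le_mul_of_nonneg_left (norm_add_le _ _) KK_pos.le)
    (norm_nonneg _)

end Pool.Agent.KS6_30.VA
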