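import Pool.Agent.KS6_30.VA.Alg2

set_option autoImplicit false
set_option linter.unusedSectionVars false

namespace Pool.Agent.KS6_30.VA

open Finset
open Tern

variable [Tern]

section

variable {R : Type*} [CommRing R]

theorem exists_unit_of_sum [IsLocalRing R] {ι : Type*} (s : Finset ι) (f : ι → R)
    (h : ∑ i ∈ s, f i = 1) : ∃ i ∈ s, IsUnit (f i) := by
  by_contra hc
  push Not at hc
  have : (1 : R) ∈ IsLocalRing.maximalIdeal R := by
    rw [← h]
    exact Ideal.sum_mem _ fun i hi => (IsLocalRing.mem_maximalIdeal _).2 (hc i hi)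
  exact (Ideal.ne_top_iff_one _).1 (IsLocalRing.maximalIdeal.isMaximal R).ne_top this

theorem unimod_unit [IsLocalRing R] {ι : Type*} [Fintype ι] {x : ι → R} (h : Unimod x) :
    ∃ i, IsUnit (x i) := by
  obtain ⟨a, ha⟩ := h
  obtain ⟨i, -, hi⟩ := exists_unit_of_sum _ _ ha
  exact ⟨i, isUnit_of_mul_isUnit_right hi⟩

theorem unimod_of_unit {ι : Type*} [Fintype ι] [DecidableEq ι] {x : ι → R} {i : ι}
    (h : IsUnit (x i)) : Unimod x := by
  obtain ⟨u, hu⟩ := h
  refine ⟨Pi.single i ↑u⁻¹, ?_⟩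
  rw [Finset.sum_eq_single i]
  · simp [← hu]
  · intro j _ hj
    simp [Pi.single_apply, hj]
  · simp

/-- the discriminant -/
def DD : ℤ := fa * fb * fc

theorem DD_ne : DD ≠ 0 := mul_ne_zero (mul_ne_zero ha hb) hc

theorem DD_abs : DD.natAbs = AA := rfl

/-- the ideal of `pf l` -/
def pI (l : Fin 3 → R) : Ideal R := Ideal.span (Set.range (pf l))

theorem pf_mem (l : Fin 3 → R) (i : Fin 3) : ((DD : ℤ) : R) * l i ^ 4 ∈ pI l := by
  have hm : ∀ j, pf l j ∈ pI l := fun j => Ideal.subset_span ⟨j, rfl⟩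
  have h0 := hm 0
  have h1 := hm 1
  have h2 := hm 2
  have h3 := hm 3
  have h4 := hm 4
  fin_cases i
  · have e : ((DD : ℤ) : R) * l 0 ^ 4 = (fb * fc * fb * pf l 4) * pf l 4 + (-(fb * fc * l 0 ^ 2)) * pf l 0 := by
      simp [DD, pf]
      ring
    simp only [Fin.zero_eta]
    rw [e]
    exact Ideal.add_mem _ (Ideal.mul_mem_left _ _ h4) (Ideal.mul_mem_left _ _ h0)
  · have e : ((DD : ℤ) : R) * l 1 ^ 4 = (fa * fc * fa * pf l 4) * pf l 4 + (fa * fc * l 1 ^ 2) * pf l 0 := by
      simp [DD, pf]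
      ring
    simp only [Fin.mk_one]
    rw [e]
    exact Ideal.add_mem _ (Ideal.mul_mem_left _ _ h4) (Ideal.mul_mem_left _ _ h0)
  · have e : ((DD : ℤ) : R) * l 2 ^ 4 = (fa * fb * fb * pf l 2) * pf l 2 + (fa * fb * l 2 ^ 2) * pf l 1 := by
      simp [DD, pf]
      ring
    simp only [Fin.reduceFinMk]
    rw [e]
    exact Ideal.add_mem _ (Ideal.mul_mem_left _ _ h2) (Ideal.mul_mem_left _ _ h1)

/-- if powers of the coordinates, times `d`, are in an ideal then `d` is -/
theorem mem_of_pow {ι : Type*} [Fintype ι] {l : ι → R} (hl : Unimod l) (J : Ideal R) (d : R) (n : ℕ)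
    (h : ∀ i, d * l i ^ n ∈ J) : d ∈ J := by
  set J' : Ideal R := Submodule.comap (LinearMap.mul R R d) J with hJ'
  have hJm : ∀ r, r ∈ J' ↔ d * r ∈ J := fun r => Iff.rfl
  have h1 : ∀ i, l i ∈ J'.radical := fun i => ⟨n, (hJm _).2 (h i)⟩
  obtain ⟨e, he⟩ := hl
  have h2 : (1 : R) ∈ J'.radical := by
    rw [← he]
    exact Ideal.sum_mem _ fun i _ => Ideal.mul_mem_left _ _ (h1 i)
  obtain ⟨k, hk⟩ := h2
  rw [one_pow, hJm, mul_one] at hk
  exact hk

theorem pf_gen {l : Fin 3 → R} (h : Unimod l) : ∃ e : Fin 5 → R, ∑ i, e i * pf l i = ((DD : ℤ) : R) := by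
  have h1 := mem_of_pow h (pI l) _ 4 (pf_mem l)
  exact Ideal.mem_span_range_iff_exists_fun.1 h1

theorem pf_unimod (hD : IsUnit ((DD : ℤ) : R)) {l : Fin 3 → R} (h : Unimod l) : Unimod (pf l) := by
  obtain ⟨u, hu⟩ := hD
  obtain ⟨e, he⟩ := pf_gen h
  refine ⟨fun i => ↑u⁻¹ * e i, ?_⟩
  have : ∑ i, ↑u⁻¹ * e i * pf l i = ↑u⁻¹ * ∑ i, e i * pf l i := by
    rw [Finset.mul_sum]
    exact Finset.sum_congr rfl fun i _ => by ring
  rw [this, he, ← hu, Units.inv_mul]

/-- all points of the cone have a kernel vector -/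
def Ker (R : Type*) [CommRing R] : Prop := ∀ x : Fin 5 → R, Unimod x → mm x = 0 →
  ∃ l : Fin 3 → R, Unimod l ∧ ml l x = 0

theorem ker_of_local [IsLocalRing R] : Ker R := by
  intro x hx hm
  obtain ⟨e, he⟩ := mu_unimod hx
  obtain ⟨p, -, hp⟩ := exists_unit_of_sum _ _ he
  obtain ⟨i, hi⟩ : ∃ i, IsUnit (mu x p i) := by
    by_contra hc
    push Not at hc
    have : (∑ i, e p i * mu x p i) ∈ IsLocalRing.maximalIdeal R :=
      Ideal.sum_mem _ fun i _ => Ideal.mul_mem_left _ _ ((IsLocalRing.mem_maximalIdeal _).2 (hc i))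
    exact (IsLocalRing.mem_maximalIdeal _).1 this hp
  refine ⟨mu x p, unimod_of_unit hi, ?_⟩
  funext j
  rw [ml_mu, hm]
  rfl

theorem map_mm {S : Type*} [CommRing S] (f : R →+* S) (x : Fin 5 → R) (p : Fin 5 × Fin 5) :
    mm (fun i => f (x i)) p = f (mm x p) := by
  obtain ⟨i, j⟩ := p
  fin_cases i <;> fin_cases j <;> simp [mm, wedge, hes]

theorem map_pf {S : Type*} [CommRing S] (f : R →+* S) (l : Fin 3 → R) (i : Fin 5) :
    pf (fun i => f (l i)) i = f (pf l i) := by
  fin_cases i <;> simp [pf]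

theorem map_ml {S : Type*} [CommRing S] (f : R →+* S) (l : Fin 3 → R) (x : Fin 5 → R) (i : Fin 5) :
    ml (fun i => f (l i)) (fun i => f (x i)) i = f (ml l x i) := by
  fin_cases i <;> simp [ml]

theorem map_unimod {S : Type*} [CommRing S] (f : R →+* S) {ι : Type*} [Fintype ι] {x : ι → R}
    (h : Unimod x) : Unimod (fun i => f (x i)) := by
  obtain ⟨a, ha⟩ := h
  refine ⟨fun i => f (a i), ?_⟩
  rw [← map_one f, ← ha, map_sum]
  simp

theorem ker_prod {S : Type*} [CommRing S] (h1 : Ker R) (h2 : Ker S) : Ker (R × S) := by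
  intro x hx hm
  have hm1 : mm (fun i => (x i).1) = 0 := by
    funext p
    have := map_mm (RingHom.fst R S) x p
    rw [hm] at this
    simpa using this
  have hm2 : mm (fun i => (x i).2) = 0 := by
    funext p
    have := map_mm (RingHom.snd R S) x p
    rw [hm] at this
    simpa using this
  obtain ⟨l, ⟨a, ha⟩, he⟩ := h1 _ (map_unimod (RingHom.fst R S) hx) hm1
  obtain ⟨l', ⟨a', ha'⟩, he'⟩ := h2 _ (map_unimod (RingHom.snd R S) hx) hm2
  refine ⟨fun i => (l i, l' i), ⟨fun i => (a i, a' i), ?_⟩, ?_⟩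
  · rw [Fin.sum_univ_three] at ha ha' ⊢
    exact Prod.ext (by simpa using ha) (by simpa using ha')
  · funext i
    have e1 := map_ml (RingHom.fst R S) (fun i => (l i, l' i)) x i
    have e2 := map_ml (RingHom.snd R S) (fun i => (l i, l' i)) x i
    refine Prod.ext ?_ ?_
    · have := congrFun he i
      simp only [RingHom.coe_fst] at e1
      rw [← e1]
      exact this
    · have := congrFun he' i
      simp only [RingHom.coe_snd] at e2
      rw [← e2]
      exact this

theorem ker_of_equiv {S : Type*} [CommRing S] (f : R ≃+* S) (h : Ker S) : Ker R := by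
  intro x hx hm
  obtain ⟨l, hl, he⟩ := h (fun i => f (x i)) (map_unimod (f : R →+* S) hx) (by
    funext p
    have := map_mm (f : R →+* S) x p
    simp only [RingHom.coe_coe] at this
    rw [this, hm]
    simp)
  refine ⟨fun i => f.symm (l i), map_unimod (f.symm : S →+* R) hl, ?_⟩
  funext i
  have h1 := congrFun he i
  have h2 := map_ml (f.symm : S →+* R) l (fun i => f (x i)) i
  simp only [RingHom.coe_coe, RingEquiv.symm_apply_apply] at h2
  rw [h2, h1]
  simp

/-- all points of the cone are of the form `c • pf l` -/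
def Par (R : Type*) [CommRing R] : Prop := ∀ x : Fin 5 → R, Unimod x → mm x = 0 →
  ∃ (c : R) (l : Fin 3 → R), IsUnit c ∧ Unimod l ∧ x = c • pf l

theorem prop_of_wedge {x y : Fin 5 → R} (hx : Unimod x) (hy : Unimod y) (h : wedge x y = 0) :
    ∃ c : R, IsUnit c ∧ y = c • x := by
  obtain ⟨a, ha⟩ := hx
  obtain ⟨b, hb⟩ := hy
  have h1 : ∀ j, y j = (∑ i, a i * y i) * x j := by
    intro j
    calc y j = (∑ i, a i * x i) * y j := by rw [ha, one_mul]
      _ = ∑ i, (a i * y i) * x j := by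
        rw [Finset.sum_mul]
        refine Finset.sum_congr rfl fun i _ => ?_
        have := congrFun h (i, j)
        simp only [wedge, Pi.zero_apply] at this
        linear_combination a i * this
      _ = _ := by rw [← Finset.sum_mul]
  refine ⟨∑ i, a i * y i, ?_, funext h1⟩
  refine IsUnit.of_mul_eq_one (∑ i, b i * x i) ?_
  rw [← hb, Finset.mul_sum]
  refine Finset.sum_congr rfl fun i _ => ?_
  rw [h1 i]
  ring

theorem par_of_ker (hD : IsUnit ((DD : ℤ) : R)) (h : Ker R) : Par R := by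
  intro x hx hm
  obtain ⟨l, hl, h0⟩ := h x hx hm
  have hw : wedge (pf l) x = 0 := by rw [wedge_pf, h0, LL_zero]
  obtain ⟨c, hc, hxe⟩ := prop_of_wedge (pf_unimod hD hl) hx hw
  exact ⟨c, l, hc, hl, hxe⟩

end

end Pool.Agent.KS6_30.VA
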