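import Pool.Agent.KS6_30.VA.NoP
import Pool.Agent.KS6_30.VA.Cnt2

set_option autoImplicit false
set_option linter.unusedSectionVars false
set_option linter.style.haveILetI false

namespace Pool.Agent.KS6_30.VA

open Finset
open Tern

variable [Tern]

section

variable {R : Type*} [CommRing R]

theorem unimod_of_wedge {x y : Fin 5 → R} (h : Unimod (wedge x y)) : Unimod x := by
  obtain ⟨c, hc⟩ := h
  refine ⟨fun i => ∑ j, (c (i, j) - c (j, i)) * y j, ?_⟩
  rw [← hc, Fintype.sum_prod_type]
  simp only [wedge, Fin.sum_univ_five]
  ring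

theorem in_wedge_iff {x y z : Fin 5 → R} (hw : Unimod (wedge x y)) :
    In (wedge x y) z ↔ ∃ a b : R, z = a • x + b • y := by
  constructor
  · intro h
    obtain ⟨c, hc⟩ := hw
    refine ⟨∑ p, c p * wedge z y p, ∑ p, c p * wedge x z p, ?_⟩
    funext k
    have h1 : ∀ p : Fin 5 × Fin 5, wedge x y p * z k = wedge z y p * x k + wedge x z p * y k := by
      rintro ⟨i, j⟩
      have := h i j k
      simp only [wedge] at this ⊢
      linear_combination this
    calc z k = (∑ p, c p * wedge x y p) * z k := by rw [hc, one_mul]
      _ = ∑ p, c p * (wedge x y p * z k) := by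
        rw [Finset.sum_mul]
        exact Finset.sum_congr rfl fun p _ => by ring
      _ = ∑ p, c p * (wedge z y p * x k + wedge x z p * y k) := by simp only [h1]
      _ = _ := by
        simp only [Pi.add_apply, Pi.smul_apply, smul_eq_mul, mul_add, Finset.sum_add_distrib,
          Finset.sum_mul, mul_assoc]
  · rintro ⟨a, b, rfl⟩ i j k
    simp only [wedge, Pi.add_apply, Pi.smul_apply, smul_eq_mul]
    ring

theorem comb_unique {x y : Fin 5 → R} (hw : Unimod (wedge x y)) {a b a' b' : R}
    (h : a • x + b • y = a' • x + b' • y) : a = a' ∧ b = b' := by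
  obtain ⟨c, hc⟩ := hw
  have h1 : ∀ p, (a - a') * wedge x y p = 0 := by
    rintro ⟨i, j⟩
    have e1 := congrFun h i
    have e2 := congrFun h j
    simp only [Pi.add_apply, Pi.smul_apply, smul_eq_mul] at e1 e2
    simp only [wedge]
    linear_combination y j * e1 - y i * e2
  have h2 : ∀ p, (b - b') * wedge x y p = 0 := by
    rintro ⟨i, j⟩
    have e1 := congrFun h i
    have e2 := congrFun h j
    simp only [Pi.add_apply, Pi.smul_apply, smul_eq_mul] at e1 e2
    simp only [wedge]
    linear_combination x i * e2 - x j * e1
  constructor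
  · have : a - a' = 0 := by
      calc a - a' = (a - a') * ∑ p, c p * wedge x y p := by rw [hc, mul_one]
        _ = ∑ p, c p * ((a - a') * wedge x y p) := by
          rw [Finset.mul_sum]
          exact Finset.sum_congr rfl fun p _ => by ring
        _ = 0 := by simp [h1]
    exact sub_eq_zero.1 this
  · have : b - b' = 0 := by
      calc b - b' = (b - b') * ∑ p, c p * wedge x y p := by rw [hc, mul_one]
        _ = ∑ p, c p * ((b - b') * wedge x y p) := by
          rw [Finset.mul_sum]
          exact Finset.sum_congr rfl fun p _ => by ring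
        _ = 0 := by simp [h2]
    exact sub_eq_zero.1 this

theorem unimod_comb {x y : Fin 5 → R} (hw : Unimod (wedge x y)) (a b : R) :
    Unimod (a • x + b • y) ↔ IsCoprime a b := by
  constructor
  · rintro ⟨e, he⟩
    refine ⟨∑ i, e i * x i, ∑ i, e i * y i, ?_⟩
    rw [← he, Finset.sum_mul, Finset.sum_mul, ← Finset.sum_add_distrib]
    refine Finset.sum_congr rfl fun i _ => ?_
    simp only [Pi.add_apply, Pi.smul_apply, smul_eq_mul]
    ring
  · rintro ⟨u, v, huv⟩
    refine unimod_of_wedge (y := (-v) • x + u • y) ?_
    rw [wedge_comb]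
    have : a * u - b * -v = 1 := by linear_combination huv
    rw [this, one_smul]
    exact hw

set_option maxHeartbeats 4000000 in
/-- the isotropic vectors are in the plane `mm x` -/
theorem in_mm {x y : Fin 5 → R} (h : Iso x y) : In (mm x) y := by
  obtain ⟨h0, h1, h2⟩ := h
  have key : ∀ p, ∑ i, mm x (qq p i) * y i = 0 := by
    intro p
    have e1 : ∀ l : Fin 3 → R, ∑ i, ml l x i * y i = l 0 * b0 x y + l 1 * b1 x y + l 2 * b2 x y := by
      intro l
      simp only [ml, b0, b1, b2, Fin.sum_univ_five]
      simp
      ring
    have e2 : ∑ i, mm x (qq p i) * y i = ∑ i, ml (mu x p) x i * y i :=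
      Finset.sum_congr rfl fun i _ => by rw [ml_mu]
    rw [e2, e1, h0, h1, h2]
    ring
  have hanti : ∀ i j, mm x (j, i) = - mm x (i, j) := by
    intro i j
    simp only [mm, wedge]
    ring
  have hdiag : ∀ i, mm x (i, i) = 0 := by
    intro i
    simp only [mm, wedge]
    ring
  have k01 := key (0, 1)
  have k02 := key (0, 2)
  have k03 := key (0, 3)
  have k04 := key (0, 4)
  have k12 := key (1, 2)
  have k13 := key (1, 3)
  have k14 := key (1, 4)
  have k23 := key (2, 3)
  have k24 := key (2, 4)
  have k34 := key (3, 4)
  simp only [Fin.sum_univ_five, qq, Matrix.cons_val] at k01 k02 k03 k04 k12 k13 k14 k23 k24 k34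
  simp only [hdiag] at k01 k02 k03 k04 k12 k13 k14 k23 k24 k34
  have a10 := hanti 0 1
  have a20 := hanti 0 2
  have a30 := hanti 0 3
  have a40 := hanti 0 4
  have a21 := hanti 1 2
  have a31 := hanti 1 3
  have a41 := hanti 1 4
  have a32 := hanti 2 3
  have a42 := hanti 2 4
  have a43 := hanti 3 4
  rw [In]
  intro i j k
  fin_cases i <;> fin_cases j <;> fin_cases k <;>
    simp only [Fin.zero_eta, Fin.mk_one, Fin.reduceFinMk, hdiag, a10, a20, a30, a40, a21, a31, a41,
      a32, a42, a43] at k01 k02 k03 k04 k12 k13 k14 k23 k24 k34 ⊢ <;>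
    first
    | ring1
    | linear_combination k01
    | linear_combination k02
    | linear_combination k03
    | linear_combination k04
    | linear_combination k12
    | linear_combination k13
    | linear_combination k14
    | linear_combination k23
    | linear_combination k24
    | linear_combination k34
    | linear_combination -k01
    | linear_combination -k02
    | linear_combination -k03
    | linear_combination -k04
    | linear_combination -k12
    | linear_combination -k13
    | linear_combination -k14
    | linear_combination -k23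
    | linear_combination -k24
    | linear_combination -k34

theorem hes_in {x y : Fin 5 → R} (hi : Iso x y) (hw : Unimod (wedge x y)) :
    ∃ a b : R, hes x = a • x + b • y := by
  rw [← in_wedge_iff hw]
  intro i j k
  have := in_mm hi i j k
  simp only [mm, wedge] at this ⊢
  linear_combination -this

theorem hh_in {x y : Fin 5 → R} (hi : Iso x y) (hw : Unimod (wedge x y)) :
    ∃ a b : R, hh x y = a • x + b • y := by
  obtain ⟨a1, b1, h1⟩ := hes_in hi hw
  obtain ⟨a2, b2, h2⟩ := hes_in (iso_comm hi) (by
    rw [wedge_comm]
    obtain ⟨c, hc⟩ := hw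
    exact ⟨fun p => -c p, by simpa using hc⟩)
  have hi3 : Iso (x + y) y := by
    have := iso_comb 1 1 0 1 hi
    simpa using this
  have hw3 : wedge (x + y) y = wedge x y := by
    have := wedge_comb 1 1 0 1 x y
    simpa using this
  obtain ⟨a3, b3, h3⟩ := hes_in hi3 (by rw [hw3]; exact hw)
  have h4 := hes_comb 1 1 x y
  simp only [one_smul, one_pow, mul_one] at h4
  refine ⟨a3 - a1 - b2, a3 + b3 - b1 - a2, ?_⟩
  have h5 : hh x y = hes (x + y) - hes x - hes y := by rw [h4]; abel
  rw [h5, h1, h2, h3]
  funext i
  simp only [Pi.add_apply, Pi.sub_apply, Pi.smul_apply, smul_eq_mul]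
  ring

end


end Pool.Agent.KS6_30.VA
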