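import Mathlib

set_option autoImplicit false

namespace Pool.Agent.KS6_30.VA

open Finset

theorem two_pow_omega_le (n : ℕ) (hn : n ≠ 0) : 2 ^ n.primeFactors.card ≤ n.divisors.card := by
  rw [Nat.card_divisors hn, ← Finset.prod_const]
  refine Finset.prod_le_prod' fun p hp => ?_
  have : 0 < n.factorization p :=
    (Nat.prime_of_mem_primeFactors hp).factorization_pos_of_dvd hn (Nat.dvd_of_mem_primeFactors hp)
  omega

theorem le_totient_mul (n : ℕ) (hn : n ≠ 0) : n ≤ n.divisors.card * n.totient := by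
  have h1 := Nat.totient_mul_prod_primeFactors n
  have h2 : ∏ p ∈ n.primeFactors, p ≤ 2 ^ n.primeFactors.card * ∏ p ∈ n.primeFactors, (p - 1) := by
    rw [← Finset.prod_const, ← Finset.prod_mul_distrib]
    refine Finset.prod_le_prod' fun p hp => ?_
    have := (Nat.prime_of_mem_primeFactors hp).two_le
    omega
  have h3 : 0 < ∏ p ∈ n.primeFactors, (p - 1) := Finset.prod_pos fun p hp => by
    have := (Nat.prime_of_mem_primeFactors hp).two_le
    omega
  refine Nat.le_of_mul_le_mul_right ?_ h3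
  calc n * ∏ p ∈ n.primeFactors, (p - 1) = n.totient * ∏ p ∈ n.primeFactors, p := h1.symm
    _ ≤ n.totient * (2 ^ n.primeFactors.card * ∏ p ∈ n.primeFactors, (p - 1)) :=
        Nat.mul_le_mul_left _ h2
    _ ≤ n.totient * (n.divisors.card * ∏ p ∈ n.primeFactors, (p - 1)) :=
        Nat.mul_le_mul_left _ (Nat.mul_le_mul_right _ (two_pow_omega_le n hn))
    _ = _ := by ring

theorem tau_bound : ∃ C : ℝ, 0 < C ∧ ∀ n : ℕ, n ≠ 0 →
    (n.divisors.card : ℝ) ≤ C * (n : ℝ) ^ (1 / 7 : ℝ) := by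
  refine ⟨11 ^ 128, by positivity, fun n hn => ?_⟩
  have h1 : (n : ℝ) ^ (1 / 7 : ℝ) =
      ∏ p ∈ n.primeFactors, ((p : ℝ) ^ (1 / 7 : ℝ)) ^ n.factorization p := by
    conv_lhs => rw [← Nat.prod_factorization_pow_eq_self hn, Finsupp.prod]
    rw [Nat.support_factorization, Nat.cast_prod, ← Real.finsetProd_rpow]
    · refine Finset.prod_congr rfl fun p _ => ?_
      rw [Nat.cast_pow, ← Real.rpow_natCast, ← Real.rpow_natCast, ← Real.rpow_mul (by positivity),
        ← Real.rpow_mul (by positivity), mul_comm]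
    · intro p _
      positivity
  have key : ∀ p ∈ n.primeFactors, ((n.factorization p + 1 : ℕ) : ℝ) ≤
      (if p < 128 then 11 else 1) * ((p : ℝ) ^ (1 / 7 : ℝ)) ^ n.factorization p := by
    intro p hp
    have hp2 := (Nat.prime_of_mem_primeFactors hp).two_le
    set a := n.factorization p
    by_cases hlt : p < 128
    · rw [if_pos hlt]
      have e1 : (2 : ℝ) ^ (1 / 7 : ℝ) ≤ (p : ℝ) ^ (1 / 7 : ℝ) :=
        Real.rpow_le_rpow (by norm_num) (by exact_mod_cast hp2) (by norm_num)
      have e2 : (1 + 1 / 11 : ℝ) ≤ (2 : ℝ) ^ (1 / 7 : ℝ) := by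
        have h7 : (1 + 1 / 11 : ℝ) = ((1 + 1 / 11 : ℝ) ^ (7 : ℝ)) ^ (1 / 7 : ℝ) := by
          rw [← Real.rpow_mul (by norm_num)]
          norm_num
        rw [h7]
        refine Real.rpow_le_rpow (by positivity) ?_ (by norm_num)
        rw [show (7 : ℝ) = ((7 : ℕ) : ℝ) by norm_num, Real.rpow_natCast]
        norm_num
      have e3 : ((a : ℝ) + 1) ≤ 11 * (1 + 1 / 11) ^ a := by
        have := one_add_mul_le_pow (show (-2 : ℝ) ≤ 1 / 11 by norm_num) a
        linarith
      calc ((a + 1 : ℕ) : ℝ) = (a : ℝ) + 1 := by push_cast; ring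
        _ ≤ 11 * (1 + 1 / 11) ^ a := e3
        _ ≤ 11 * ((p : ℝ) ^ (1 / 7 : ℝ)) ^ a := by
          refine mul_le_mul_of_nonneg_left (pow_le_pow_left₀ (by norm_num) (e2.trans e1) a)
            (by norm_num)
    · rw [if_neg hlt, one_mul]
      push Not at hlt
      have e1 : (2 : ℝ) ≤ (p : ℝ) ^ (1 / 7 : ℝ) := by
        have : (2 : ℝ) = (128 : ℝ) ^ (1 / 7 : ℝ) := by
          rw [show (128 : ℝ) = 2 ^ (7 : ℝ) by norm_num, ← Real.rpow_mul (by norm_num)]
          norm_num
        rw [this]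
        exact Real.rpow_le_rpow (by norm_num) (by exact_mod_cast hlt) (by norm_num)
      calc ((a + 1 : ℕ) : ℝ) ≤ (2 : ℝ) ^ a := by exact_mod_cast Nat.lt_two_pow_self (n := a)
        _ ≤ _ := pow_le_pow_left₀ (by norm_num) e1 a
  rw [Nat.card_divisors hn, Nat.cast_prod, h1]
  calc ∏ p ∈ n.primeFactors, ((n.factorization p + 1 : ℕ) : ℝ)
      ≤ ∏ p ∈ n.primeFactors, ((if p < 128 then 11 else 1) *
          ((p : ℝ) ^ (1 / 7 : ℝ)) ^ n.factorization p) :=
        Finset.prod_le_prod (fun _ _ => by positivity) key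
    _ = (∏ p ∈ n.primeFactors, (if p < 128 then (11 : ℝ) else 1)) *
          ∏ p ∈ n.primeFactors, ((p : ℝ) ^ (1 / 7 : ℝ)) ^ n.factorization p :=
        Finset.prod_mul_distrib
    _ ≤ 11 ^ 128 * _ := by
        refine mul_le_mul_of_nonneg_right ?_ (Finset.prod_nonneg fun _ _ => by positivity)
        rw [Finset.prod_ite, Finset.prod_const, Finset.prod_const_one, mul_one]
        refine pow_le_pow_right₀ (by norm_num) ?_
        calc (n.primeFactors.filter fun p => p < 128).card ≤ (Finset.range 128).card :=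
              Finset.card_le_card fun p hp => Finset.mem_range.2 (Finset.mem_filter.1 hp).2
          _ = 128 := Finset.card_range _

end Pool.Agent.KS6_30.VA
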