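import Pool.Agent.KS6_30.VA.Quad2
import Pool.Agent.KS6_30.VA.Tau

set_option autoImplicit false
set_option linter.unusedSectionVars false
set_option linter.style.haveILetI false

namespace Pool.Agent.KS6_30.VA

open Finset
open Tern

variable [Tern]

theorem sum_moebius_divisors (n : ℕ) (hn : n ≠ 0) :
    ∑ d ∈ n.divisors, (ArithmeticFunction.moebius d : ℤ) = if n = 1 then 1 else 0 := by
  have h := congrArg (fun f => f n) ArithmeticFunction.moebius_mul_coe_zeta
  simp only [ArithmeticFunction.coe_mul_zeta_apply, ArithmeticFunction.one_apply] at h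
  exact h

section

variable {q : ℕ} [NeZero q]

theorem geom_char (n : ZMod q) (d m : ℕ) (hdm : d * m = q) :
    ‖∑ k ∈ Finset.range m, ZMod.stdAddChar (((d * k : ℕ) : ZMod q) * n)‖ ≤
      if m ∣ n.val then (m : ℝ) else 0 := by
  have hq : 0 < q := NeZero.pos q
  have hd : 0 < d := Nat.pos_of_ne_zero fun h => by simp [h] at hdm; omega
  have hm : 0 < m := Nat.pos_of_ne_zero fun h => by simp [h] at hdm; omega
  have h1 : ∀ k : ℕ, ZMod.stdAddChar (((d * k : ℕ) : ZMod q) * n) =
      (ZMod.stdAddChar ((d : ZMod q) * n)) ^ k := by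
    intro k
    rw [← AddChar.map_nsmul_eq_pow]
    congr 1
    rw [nsmul_eq_mul]
    push_cast
    ring
  simp only [h1]
  split_ifs with hmn
  · refine (norm_sum_le _ _).trans ?_
    calc ∑ k ∈ Finset.range m, ‖(ZMod.stdAddChar ((d : ZMod q) * n) : ℂ) ^ k‖
        = ∑ k ∈ Finset.range m, (1 : ℝ) := by
          refine Finset.sum_congr rfl fun k _ => ?_
          rw [norm_pow, AddChar.norm_apply, one_pow]
      _ ≤ m := by simp
  · have hz : (ZMod.stdAddChar ((d : ZMod q) * n) : ℂ) ≠ 1 := by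
      intro hz
      apply hmn
      have h2 : (d : ZMod q) * n = 0 := by
        apply ZMod.injective_stdAddChar
        rw [hz, AddChar.map_zero_eq_one]
      have h3 : ((d * n.val : ℕ) : ZMod q) = 0 := by
        rw [Nat.cast_mul, ZMod.natCast_zmod_val, h2]
      rw [ZMod.natCast_eq_zero_iff] at h3
      have h4 : d * m ∣ d * n.val := by
        rw [hdm]
        exact h3
      exact Nat.dvd_of_mul_dvd_mul_left hd h4
    have hpow : (ZMod.stdAddChar ((d : ZMod q) * n) : ℂ) ^ m = 1 := by
      rw [← h1, hdm]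
      simp
    have := geom_sum_eq hz m
    rw [this, hpow, sub_self, zero_div, norm_zero]

/-- bound of the Ramanujan sum -/
theorem ramanujan_le (n : ZMod q) :
    ‖∑ u : (ZMod q)ˣ, (ZMod.stdAddChar ((u : ZMod q) * n) : ℂ)‖ ≤
      ∑ f ∈ q.divisors, if f ∣ n.val then (f : ℝ) else 0 := by
  classical
  have hq : 0 < q := NeZero.pos q
  have h1 : ∑ u : (ZMod q)ˣ, (ZMod.stdAddChar ((u : ZMod q) * n) : ℂ) =
      ∑ v : ZMod q, (if IsUnit v then 1 else 0) * (ZMod.stdAddChar (v * n) : ℂ) := by
    have e1 : ∑ v : ZMod q, (if IsUnit v then 1 else 0) * (ZMod.stdAddChar (v * n) : ℂ) =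
        ∑ v ∈ univ.filter (fun v : ZMod q => IsUnit v), (ZMod.stdAddChar (v * n) : ℂ) := by
      rw [Finset.sum_filter]
      refine Finset.sum_congr rfl fun v _ => ?_
      split_ifs <;> simp
    rw [e1]
    refine Finset.sum_bij (fun u _ => (u : ZMod q)) ?_ ?_ ?_ ?_
    · intro u _
      simp
    · intro u _ u' _ h
      exact Units.ext h
    · intro v hv
      simp only [mem_filter, mem_univ, true_and] at hv
      obtain ⟨u, rfl⟩ := hv
      exact ⟨u, mem_univ _, rfl⟩
    · intro u _
      rfl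
  have h2 : ∀ v : ZMod q, (if IsUnit v then (1 : ℂ) else 0) =
      ∑ d ∈ q.divisors, if d ∣ v.val then ((ArithmeticFunction.moebius d : ℤ) : ℂ) else 0 := by
    intro v
    have e0 : Nat.gcd v.val q ≠ 0 := Nat.gcd_ne_zero_right hq.ne'
    have e1 := sum_moebius_divisors (Nat.gcd v.val q) e0
    have e2 : IsUnit v ↔ Nat.gcd v.val q = 1 := by
      conv_lhs => rw [← ZMod.natCast_zmod_val v]
      exact ZMod.isUnit_iff_coprime _ _
    have e3 : (Nat.gcd v.val q).divisors = q.divisors.filter fun d => d ∣ v.val := by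
      ext d
      simp only [Nat.mem_divisors, Nat.dvd_gcd_iff, mem_filter]
      constructor
      · rintro ⟨⟨h, h'⟩, -⟩
        exact ⟨⟨h', hq.ne'⟩, h⟩
      · rintro ⟨⟨h, -⟩, h'⟩
        exact ⟨⟨h', h⟩, e0⟩
    rw [← Finset.sum_filter, ← e3]
    have e4 := congrArg (fun z : ℤ => (z : ℂ)) e1
    simp only [Int.cast_sum, Int.cast_ite, Int.cast_one, Int.cast_zero] at e4
    rw [e4]
    by_cases h : IsUnit v
    · rw [if_pos h, if_pos (e2.1 h)]
    · rw [if_neg h, if_neg (fun h' => h (e2.2 h'))]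
  rw [h1]
  simp only [h2, Finset.sum_mul]
  rw [Finset.sum_comm]
  refine (norm_sum_le _ _).trans ?_
  rw [← Nat.sum_div_divisors q (fun f => if f ∣ n.val then (f : ℝ) else 0)]
  refine Finset.sum_le_sum fun d hd => ?_
  have hdq := Nat.dvd_of_mem_divisors hd
  have hdm : d * (q / d) = q := Nat.mul_div_cancel' hdq
  have hd0 : 0 < d := Nat.pos_of_mem_divisors hd
  have h3 : ∑ v : ZMod q, (if d ∣ v.val then ((ArithmeticFunction.moebius d : ℤ) : ℂ) else 0) *
      (ZMod.stdAddChar (v * n) : ℂ) = ((ArithmeticFunction.moebius d : ℤ) : ℂ) *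
        ∑ k ∈ Finset.range (q / d), (ZMod.stdAddChar (((d * k : ℕ) : ZMod q) * n) : ℂ) := by
    have e1 : ∑ v : ZMod q, (if d ∣ v.val then ((ArithmeticFunction.moebius d : ℤ) : ℂ) else 0) *
      (ZMod.stdAddChar (v * n) : ℂ) = ∑ v ∈ univ.filter (fun v : ZMod q => d ∣ v.val),
        ((ArithmeticFunction.moebius d : ℤ) : ℂ) * (ZMod.stdAddChar (v * n) : ℂ) := by
      rw [Finset.sum_filter]
      refine Finset.sum_congr rfl fun v _ => ?_
      split_ifs <;> simp
    rw [e1, ← Finset.mul_sum]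
    congr 1
    symm
    refine Finset.sum_bij (fun k _ => ((d * k : ℕ) : ZMod q)) ?_ ?_ ?_ ?_
    · intro k hk
      simp only [mem_filter, mem_univ, true_and]
      have hlt : d * k < q := by
        calc d * k < d * (q / d) := Nat.mul_lt_mul_of_pos_left (Finset.mem_range.1 hk) hd0
          _ = q := hdm
      rw [ZMod.val_natCast_of_lt hlt]
      exact dvd_mul_right _ _
    · intro k hk k' hk' h
      have hlt : d * k < q := by
        calc d * k < d * (q / d) := Nat.mul_lt_mul_of_pos_left (Finset.mem_range.1 hk) hd0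
          _ = q := hdm
      have hlt' : d * k' < q := by
        calc d * k' < d * (q / d) := Nat.mul_lt_mul_of_pos_left (Finset.mem_range.1 hk') hd0
          _ = q := hdm
      have := congrArg ZMod.val h
      rw [ZMod.val_natCast_of_lt hlt, ZMod.val_natCast_of_lt hlt'] at this
      exact Nat.eq_of_mul_eq_mul_left hd0 this
    · intro v hv
      simp only [mem_filter, mem_univ, true_and] at hv
      refine ⟨v.val / d, Finset.mem_range.2 ?_, ?_⟩
      · exact Nat.div_lt_div_of_lt_of_dvd hdq (ZMod.val_lt v)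
      · rw [Nat.mul_div_cancel' hv, ZMod.natCast_zmod_val]
    · intro k _
      rfl
  rw [h3, norm_mul]
  have h4 : ‖((ArithmeticFunction.moebius d : ℤ) : ℂ)‖ ≤ 1 := by
    rw [Complex.norm_intCast]
    exact_mod_cast ArithmeticFunction.abs_moebius_le_one
  calc _ ≤ 1 * ‖∑ k ∈ Finset.range (q / d), (ZMod.stdAddChar (((d * k : ℕ) : ZMod q) * n) : ℂ)‖ :=
        mul_le_mul_of_nonneg_right h4 (norm_nonneg _)
    _ ≤ _ := by
        rw [one_mul]
        exact geom_char n d (q / d) hdm

end

end Pool.Agent.KS6_30.VA
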