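import Pool.Agent.KS6_30.VA.Per

set_option autoImplicit false
set_option linter.unusedSectionVars false

namespace Pool.Agent.KS6_30.VA

open Finset Filter Topology MeasureTheory
open Tern

variable [Tern]

section riem

variable {ι : Type*} [Fintype ι]

/-- the unit cell -/
def cell (m : ι → ℤ) : Set (ι → ℝ) := Set.pi Set.univ fun i => Set.Ico (m i : ℝ) (m i + 1)

omit [Fintype ι] in
theorem mem_cell_iff (m : ι → ℤ) (v : ι → ℝ) : v ∈ cell m ↔ ∀ i, ⌊v i⌋ = m i := by
  simp only [cell, Set.mem_univ_pi, Set.mem_Ico, Int.floor_eq_iff]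

theorem cell_meas (m : ι → ℤ) : MeasurableSet (cell m) :=
  MeasurableSet.univ_pi fun _ => measurableSet_Ico

theorem cell_vol (m : ι → ℤ) : volume (cell m) = 1 := by
  rw [cell, Real.volume_pi_Ico]
  simp

theorem riemann {F : (ι → ℝ) → ℝ} (hc : Continuous F) (hF : HasCompactSupport F) :
    Tendsto (fun r : ℝ => (∑ᶠ x : ι → ℤ, F (fun i => (x i : ℝ) / r)) / r ^ Fintype.card ι)
      atTop (𝓝 (∫ u, F u)) := by
  classical
  obtain ⟨A, hA, hs⟩ := supp_bdd hF
  have huc := hc.uniformContinuous_of_tendsto_cocompact hF.is_zero_at_infty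
  set d := Fintype.card ι with hd
  rw [Metric.tendsto_atTop]
  intro ε hε
  set C : ℝ := (2 * A + 7) ^ d with hC
  have hCpos : 0 < C := by positivity
  obtain ⟨δ, hδ, hδ2⟩ := Metric.uniformContinuous_iff.1 huc (ε / (2 * C)) (by positivity)
  refine ⟨max 1 (2 / δ), fun r hr => ?_⟩
  have hr1 : 1 ≤ r := (le_max_left _ _).trans hr
  have hr0 : 0 < r := by linarith
  have hr2 : 2 / δ ≤ r := (le_max_right _ _).trans hr
  have hrδ : 1 / r < δ := by
    rw [div_lt_iff₀ hr0]
    rw [div_le_iff₀ hδ] at hr2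
    linarith
  -- the grid
  set N : ℤ := ⌈A * r⌉ + 1 with hN
  have hN0 : 0 ≤ N := by
    have : 0 ≤ ⌈A * r⌉ := Int.ceil_nonneg (by positivity)
    omega
  have hNr : (N : ℝ) ≤ A * r + 2 := by
    have := Int.ceil_lt_add_one (A * r)
    push_cast [hN]
    linarith
  set S : Finset (ι → ℤ) := Fintype.piFinset (fun _ : ι => Finset.Icc (-N) N) with hS
  have hScard : (S.card : ℝ) ≤ C * r ^ d := by
    have e1 : S.card = (2 * N + 1).toNat ^ d := by
      rw [hS, Fintype.card_piFinset, Finset.prod_const, Int.card_Icc, Finset.card_univ]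
      congr 2
      ring
    rw [e1, hC, ← mul_pow]
    push_cast
    refine pow_le_pow_left₀ (by positivity) ?_ d
    have e2 : (((2 * N + 1).toNat : ℕ) : ℝ) = ((2 * N + 1 : ℤ) : ℝ) := by
      rw [← Int.cast_natCast, Int.toNat_of_nonneg (by omega)]
    rw [e2]
    push_cast
    nlinarith
  have hSmem : ∀ m : ι → ℤ, m ∉ S → ∃ i, A * r + 1 ≤ |(m i : ℝ)| := by
    intro m hm
    rw [hS, Fintype.mem_piFinset] at hm
    push Not at hm
    obtain ⟨i, hi⟩ := hm
    refine ⟨i, ?_⟩
    rw [Finset.mem_Icc, ← abs_le, not_le] at hi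
    have h1 : N + 1 ≤ |m i| := by omega
    have h2 : ((N + 1 : ℤ) : ℝ) ≤ ((|m i| : ℤ) : ℝ) := by exact_mod_cast h1
    push_cast at h2
    have h3 : A * r ≤ ((⌈A * r⌉ : ℤ) : ℝ) := Int.le_ceil _
    rw [hN] at h2
    push_cast at h2
    linarith
  -- the sum
  have hsum : ∑ᶠ x : ι → ℤ, F (fun i => (x i : ℝ) / r) = ∑ x ∈ S, F (fun i => (x i : ℝ) / r) := by
    refine finsum_eq_sum_of_support_subset _ ?_
    intro x hx
    by_contra hxS
    obtain ⟨i, hi⟩ := hSmem x hxS
    have h1 := hs _ hx i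
    rw [abs_div, abs_of_pos hr0, div_le_iff₀ hr0] at h1
    linarith
  -- the integral
  set G : (ι → ℝ) → ℝ := fun v => F (r⁻¹ • v) with hG
  have hGc : Continuous G := hc.comp (by fun_prop)
  have hGs : HasCompactSupport G := hF.comp_smul (inv_ne_zero hr0.ne')
  have hGi : Integrable G := hGc.integrable_of_hasCompactSupport hGs
  have hint : ∫ v, G v = r ^ d * ∫ u, F u := by
    rw [hG, Measure.integral_comp_inv_smul_of_nonneg _ _ hr0.le, Module.finrank_pi, smul_eq_mul]
  have hU : ⋃ m : ι → ℤ, cell m = Set.univ := by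
    ext v
    simp only [Set.mem_iUnion, Set.mem_univ, iff_true]
    exact ⟨fun i => ⌊v i⌋, (mem_cell_iff _ _).2 fun i => rfl⟩
  have hdis : Pairwise (Function.onFun Disjoint (cell (ι := ι))) := by
    intro m m' hmm'
    rw [Function.onFun, Set.disjoint_left]
    intro v hv hv'
    rw [mem_cell_iff] at hv hv'
    exact hmm' (funext fun i => (hv i).symm.trans (hv' i))
  have hdec : ∫ v, G v = ∑ m ∈ S, ∫ v in cell m, G v := by
    rw [← setIntegral_univ, ← hU, integral_iUnion cell_meas hdis (by rw [hU]; exact hGi.integrableOn)]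
    refine tsum_eq_sum fun m hm => ?_
    obtain ⟨i, hi⟩ := hSmem m hm
    rw [setIntegral_congr_fun (g := fun _ => (0 : ℝ)) (cell_meas m), integral_zero]
    intro v hv
    by_contra hne
    have h1 := hs _ hne i
    rw [cell, Set.mem_univ_pi] at hv
    have h2 := hv i
    rw [Pi.smul_apply, smul_eq_mul, abs_mul, abs_inv, abs_of_pos hr0, inv_mul_le_iff₀ hr0] at h1
    rcases abs_cases (m i : ℝ) with h | h <;> rcases abs_cases (v i : ℝ) with h' | h' <;>
      rw [Set.mem_Ico] at h2
    · have e : |(m i : ℝ)| ≤ |v i| := by rw [h.1, h'.1]; linarith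
      linarith
    · linarith
    · linarith
    · have e : |(m i : ℝ)| - 1 < |v i| := by rw [h.1, h'.1]; linarith
      linarith
  have hcell : ∀ m ∈ S, ‖F (fun i => (m i : ℝ) / r) - ∫ v in cell m, G v‖ ≤ ε / (2 * C) := by
    intro m _
    have h1 : F (fun i => (m i : ℝ) / r) = ∫ _ in cell m, F (fun i => (m i : ℝ) / r) := by
      rw [setIntegral_const, Measure.real, cell_vol]
      simp
    have hfin : volume (cell m) < ⊤ := by rw [cell_vol]; exact ENNReal.one_lt_top
    have hci : IntegrableOn (fun _ : ι → ℝ => F (fun i => (m i : ℝ) / r)) (cell m) volume :=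
      integrableOn_const hfin.ne (by simp)
    rw [h1, ← integral_sub hci hGi.integrableOn]
    refine (norm_setIntegral_le_of_norm_le_const (C := ε / (2 * C)) hfin ?_).trans ?_
    · intro v hv
      rw [← dist_eq_norm]
      refine (hδ2 ?_).le
      rw [dist_pi_lt_iff hδ]
      intro i
      refine lt_of_le_of_lt ?_ hrδ
      rw [cell, Set.mem_univ_pi] at hv
      have h2 := hv i
      rw [Set.mem_Ico] at h2
      rw [Real.dist_eq, Pi.smul_apply, smul_eq_mul, inv_mul_eq_div, ← sub_div, abs_div,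
        abs_of_pos hr0]
      refine div_le_div_of_nonneg_right ?_ hr0.le
      rw [abs_le]
      constructor <;> linarith
    · rw [Measure.real, cell_vol]
      simp
  rw [dist_eq_norm, hsum]
  have hrd : 0 < r ^ d := by positivity
  have e1 : (∑ x ∈ S, F (fun i => (x i : ℝ) / r)) / r ^ d - ∫ u, F u =
      (∑ x ∈ S, (F (fun i => (x i : ℝ) / r) - ∫ v in cell x, G v)) / r ^ d := by
    rw [Finset.sum_sub_distrib, ← hdec, hint]
    field_simp
  rw [e1, norm_div, Real.norm_of_nonneg hrd.le, div_lt_iff₀ hrd]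
  calc ‖∑ x ∈ S, (F (fun i => (x i : ℝ) / r) - ∫ v in cell x, G v)‖
      ≤ S.card • (ε / (2 * C)) := (norm_sum_le_of_le _ hcell).trans (by simp)
    _ ≤ C * r ^ d * (ε / (2 * C)) := by
        rw [nsmul_eq_mul]
        exact mul_le_mul_of_nonneg_right hScard (by positivity)
    _ = ε / 2 * r ^ d := by field_simp
    _ < ε * r ^ d := by nlinarith

end riem

end Pool.Agent.KS6_30.VA
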