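import Pool.Agent.KS6_30.VA.STyp

set_option autoImplicit false
set_option linter.unusedSectionVars false
set_option linter.style.haveILetI false

namespace Pool.Agent.KS6_30.VA

open Finset
open Tern

variable [Tern]

theorem nz_LL_ge (l : Fin 3 → ℤ) (z : Fin 5 → ℤ) : nz l * nz z ≤ KK * nz (LL l z) := by
  have h : rv (LL l z) = LL (rv l) (rv z) := by
    funext ⟨i, j⟩
    fin_cases i <;> fin_cases j <;> simp [rv, LL]
  have := norm_LL_ge (rv l) (rv z)
  rwa [← h] at this

theorem LL_smul {R : Type*} [CommRing R] (a : R) (l : Fin 3 → R) (z : Fin 5 → R) :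
    LL l (a • z) = a • LL l z := by
  funext ⟨i, j⟩
  fin_cases i <;> fin_cases j <;> simp [LL] <;> ring

theorem LL_sub {R : Type*} [CommRing R] (l : Fin 3 → R) (z z' : Fin 5 → R) :
    LL l (z - z') = LL l z - LL l z' := by
  funext ⟨i, j⟩
  fin_cases i <;> fin_cases j <;> simp [LL] <;> ring

theorem LL_inj {l : Fin 3 → ℤ} (hl : Unimod l) {z z' : Fin 5 → ℤ} (h : LL l z = LL l z') :
    z = z' := by
  by_contra hne
  have h1 : z - z' ≠ 0 := sub_ne_zero.2 hne
  have h2 := nz_LL_ge l (z - z')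
  rw [LL_sub, h, sub_self] at h2
  have h3 : nz (0 : Fin 5 × Fin 5 → ℤ) = 0 := by
    have : rv (0 : Fin 5 × Fin 5 → ℤ) = 0 := by funext p; simp [rv]
    rw [nz, this, norm_zero]
  rw [h3, mul_zero] at h2
  have h4 := one_le_nz h1
  have h5 := one_le_nz' hl
  nlinarith

/-- planes through a given point of the cone -/
def PV (v : Fin 3 → ℤ) (T : ℝ) : Set (Fin 5 × Fin 5 → ℤ) := {w | w ∈ VV ∧ nz w ≤ T ∧ In w (pf v)}

theorem dvd_DD_le {g : ℤ} (h : g ∣ DD) : |(g : ℝ)| ≤ |((DD : ℤ) : ℝ)| := by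
  have h1 := Int.le_of_dvd (abs_pos.2 DD_ne) ((abs_dvd_abs g DD).2 h)
  exact_mod_cast h1

theorem PV_card : ∃ C : ℝ, 0 < C ∧ ∀ v : Fin 3 → ℤ, Unimod v → ∀ T : ℝ, 0 < T →
    ((PV v T).ncard : ℝ) ≤ C * (T ^ 2 / nz v ^ 5 + 1) := by
  classical
  obtain ⟨K, hK, hcst⟩ := exists_nz_cst_ge
  have K1 := KK_one
  have K0 := KK_pos
  have hDr := DD_real
  have hK0 : 0 < K := by linarith
  set Δ : ℝ := |((DD : ℤ) : ℝ)| with hΔ
  have hΔ1 : 1 ≤ Δ := by
    rw [hΔ]
    exact_mod_cast Int.one_le_abs DD_ne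
  refine ⟨32 * (KK * Δ) ^ 2 * (Δ ^ 2 * K) + 4, by positivity, fun v hv T hT => ?_⟩
  have hfin : (PV v T).Finite := (nz_fin T).subset fun w hw => hw.2.1
  have hv1 : 1 ≤ nz v := one_le_nz' hv
  have hv0 : 0 < nz v := by linarith
  obtain ⟨g, p, hg, hgD, hp, hgp⟩ := pf_content hv
  obtain ⟨g', c', hg', hgD', hc'u, hgc'⟩ := cst_content hv
  have hex : ∀ w ∈ PV v T, ∃ z : Fin 5 → ℤ, g • w = LL v z ∧ In c' z := by
    rintro w ⟨hw, -, hin⟩
    rw [hgp] at hin
    have hinp : In w p := by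
      intro i j k
      have := hin i j k
      simp only [Pi.smul_apply, smul_eq_mul] at this
      have e : g * (p i * w (j, k) - p j * w (i, k) + p k * w (i, j)) = 0 := by
        linear_combination this
      exact (mul_eq_zero.1 e).resolve_left hg.ne'
    obtain ⟨y, hiso, rfl⟩ := VV_basis hw hp hinp
    refine ⟨ml v y, ?_, ?_⟩
    · rw [← wedge_pf, hgp]
      funext q
      simp only [wedge, Pi.smul_apply, smul_eq_mul]
      ring
    · have hiso' : Iso (pf v) y := by
        rw [hgp]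
        exact iso_smul_left g hiso
      have h1 := in_cst (ml_tg hiso')
      rw [hgc'] at h1
      exact in_smul_left hg'.ne' h1
  choose! f hf1 hf2 using hex
  have hinj : Set.InjOn f (PV v T) := by
    intro w hw w' hw' h
    have h1 : g • w = g • w' := by rw [hf1 w hw, hf1 w' hw', h]
    funext q
    have h2 := congrFun h1 q
    simp only [Pi.smul_apply, smul_eq_mul] at h2
    exact mul_left_cancel₀ hg.ne' h2
  set A : Finset (Fin 5 → ℤ) := hfin.toFinset.image f with hA
  have hAc : A.card = (PV v T).ncard := by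
    rw [hA, Finset.card_image_of_injOn (by simpa using hinj), Set.ncard_eq_toFinset_card _ hfin]
  have hAm : ∀ z ∈ A, (∃ w ∈ PV v T, g • w = LL v z) ∧ In c' z := by
    intro z hz
    rw [hA, Finset.mem_image] at hz
    obtain ⟨w, hw, rfl⟩ := hz
    have hw' : w ∈ PV v T := by simpa using hw
    exact ⟨⟨w, hw', hf1 w hw'⟩, hf2 w hw'⟩
  have hz0' : ∀ z ∈ A, z ≠ 0 := by
    intro z hz
    obtain ⟨⟨w, hw, hwz⟩, -⟩ := hAm z hz
    rintro rfl
    rw [LL_zero] at hwz
    apply unimod_ne hw.1.1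
    funext q
    have h2 := congrFun hwz q
    simp only [Pi.smul_apply, smul_eq_mul, Pi.zero_apply] at h2
    exact (mul_eq_zero.1 h2).resolve_left hg.ne'
  have hcp : 0 < nz c' := lt_of_lt_of_le one_pos (one_le_nz' hc'u)
  have hc : nz v ^ 3 ≤ 4 * Δ ^ 2 * K * nz c' := by
    have h1 := hcst v
    rw [hgc', nz_smul] at h1
    have h2 : |(g' : ℝ)| ≤ 4 * Δ ^ 2 := by
      have h3 := Int.le_of_dvd (by have := DD_ne; positivity : (0 : ℤ) < 4 * DD ^ 2) hgD'
      have h4 : ((g' : ℤ) : ℝ) ≤ 4 * ((DD : ℤ) : ℝ) ^ 2 := by exact_mod_cast h3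
      have h5 : (0 : ℝ) < g' := by exact_mod_cast hg'
      rw [abs_of_pos h5, hΔ, sq_abs]
      exact h4
    calc nz v ^ 3 ≤ K * (|(g' : ℝ)| * nz c') := h1
      _ ≤ K * (4 * Δ ^ 2 * nz c') :=
        mul_le_mul_of_nonneg_left (mul_le_mul_of_nonneg_right h2 hcp.le) hK0.le
      _ = _ := by ring
  have hgΔ : |(g : ℝ)| ≤ Δ := dvd_DD_le hgD
  have key := plane_count' hc'u A (KK * Δ * T / nz v) 1 (by positivity) one_pos 1
    (fun z hz => by
      obtain ⟨⟨w, hw, hwz⟩, h2⟩ := hAm z hz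
      refine ⟨hz0' z hz, h2, ?_⟩
      rw [le_div_iff₀ hv0]
      have h4 := nz_LL_ge v z
      rw [← hwz, nz_smul] at h4
      have h3 := hw.2.1
      have h5 := nz_nonneg w
      calc nz z * nz v = nz v * nz z := mul_comm _ _
        _ ≤ KK * (|(g : ℝ)| * nz w) := h4
        _ ≤ KK * (Δ * T) := mul_le_mul_of_nonneg_left
          (mul_le_mul hgΔ h3 h5 (by positivity)) K0.le
        _ = _ := by ring)
    (fun z hz z' hz' h => by
      obtain ⟨⟨w, hw, hwz⟩, -⟩ := hAm z hz
      obtain ⟨⟨w', hw', hwz'⟩, -⟩ := hAm z' hz'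
      have hpar : ∀ i j, z i * z' j = z j * z' i := fun i j => by
        have := congrFun h (i, j)
        simp only [wedge, Pi.zero_apply] at this
        linarith
      obtain ⟨i, hi⟩ := Function.ne_iff.1 (hz0' z hz)
      have e1 : (z i) • LL v z' = (z' i) • LL v z := by
        rw [← LL_smul, ← LL_smul]
        congr 1
        funext j
        rw [Pi.smul_apply, Pi.smul_apply, smul_eq_mul, smul_eq_mul, hpar i j]
        ring
      have e2 : ∀ p q, w p * w' q = w q * w' p := by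
        intro p q
        rw [← hwz, ← hwz'] at e1
        have a1 := congrFun e1 p
        have a2 := congrFun e1 q
        simp only [Pi.smul_apply, smul_eq_mul] at a1 a2
        have : (g * z i) * (w p * w' q - w q * w' p) = 0 := by
          linear_combination w p * a2 - w q * a1
        exact sub_eq_zero.1 ((mul_eq_zero.1 this).resolve_left (mul_ne_zero hg.ne' hi))
      rcases prim_parallel' hw.1.1 hw'.1.1 e2 with e | e
      · left
        refine LL_inj hv ?_
        rw [← hwz, ← hwz', e]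
      · right
        refine LL_inj hv ?_
        rw [← hwz', e, ← neg_one_smul ℤ z, LL_smul, ← hwz, neg_one_smul, smul_neg])
    (fun B hB h1 h2 => by
      rw [Finset.card_le_one]
      intro a ha b hb
      by_contra hne
      have h3 := h2 a ha b hb
      have h4 := h1 a ha b hb hne
      obtain ⟨t, ht⟩ := wedge_in hc'u (hAm a (hB ha)).2 (hAm b (hB hb)).2
      rw [ht, nz_smul, one_mul] at h3
      have ht0 : t ≠ 0 := by
        rintro rfl
        rw [zero_smul] at ht
        exact h4 ht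
      have : (1 : ℝ) ≤ |(t : ℝ)| := by exact_mod_cast Int.one_le_abs ht0
      nlinarith)
  rw [hAc] at key
  calc ((PV v T).ncard : ℝ) ≤ _ := key
    _ = 8 * (KK * Δ) ^ 2 * (T ^ 2 / (nz v ^ 2 * nz c')) + 4 := by
      push_cast
      field_simp
      ring
    _ ≤ 8 * (KK * Δ) ^ 2 * (T ^ 2 / (nz v ^ 2 * (nz v ^ 3 / (4 * Δ ^ 2 * K)))) + 4 := by
      have : T ^ 2 / (nz v ^ 2 * nz c') ≤ T ^ 2 / (nz v ^ 2 * (nz v ^ 3 / (4 * Δ ^ 2 * K))) := by
        refine div_le_div_of_nonneg_left (by positivity) (by positivity) ?_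
        refine mul_le_mul_of_nonneg_left ?_ (by positivity)
        rw [div_le_iff₀ (by positivity)]
        linarith
      have h8 : 0 ≤ 8 * (KK * Δ) ^ 2 := by positivity
      linarith [mul_le_mul_of_nonneg_left this h8]
    _ = 32 * (KK * Δ) ^ 2 * (Δ ^ 2 * K) * (T ^ 2 / nz v ^ 5) + 4 := by
      field_simp
      ring
    _ ≤ _ := by
      have h9 : 0 ≤ T ^ 2 / nz v ^ 5 := by positivity
      have h10 : 0 ≤ 32 * (KK * Δ) ^ 2 * (Δ ^ 2 * K) := by positivity
      nlinarith

end Pool.Agent.KS6_30.VA
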