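import Pool.Agent.KS6_30.VA.Cov
import Pool.Agent.KS6_30.VA.Pl

set_option autoImplicit false
set_option linter.unusedSectionVars false
set_option linter.style.haveILetI false

namespace Pool.Agent.KS6_30.VA

open Finset
open Tern

variable [Tern]

theorem rv_mm (x : Fin 5 → ℤ) : rv (mm x) = mm (rv x) := by
  have h : rv (hes x) = hes (rv x) := by
    funext i
    fin_cases i <;> simp [rv, hes]
  funext p
  have h1 := fun i => congrFun h i
  simp only [rv] at h1
  simp only [rv, mm, wedge, Int.cast_sub, Int.cast_mul, h1]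

theorem nz_mm_le (x : Fin 5 → ℤ) : nz (mm x) ≤ KK * nz x ^ 3 := by
  rw [nz, rv_mm]
  exact norm_mm_le _

theorem red_mem_CC {x : Fin 5 → ℤ} (hx : Unimod x) {q : ℕ} (h : q ∣ gg x) : red q x ∈ CC q := by
  refine ⟨red_unimod hx, ?_⟩
  have h1 : mm (red q x) = red q (mm x) := by
    have h : hes (red q x) = red q (hes x) := by
      funext i
      fin_cases i <;> simp [red, hes]
    rw [mm, h, mm]
    funext p
    simp [wedge, red]
  rw [h1]
  funext p
  simp only [red, Pi.zero_apply]
  rw [ZMod.intCast_zmod_eq_zero_iff_dvd]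
  exact (Int.natCast_dvd_natCast.2 h).trans (gg_dvd x p)

/-- the vectors of the shell -/
def ES (T X : ℝ) : Set (Fin 5 → ℤ) := {x | Unimod x ∧ mm x ≠ 0 ∧ nz x ≤ X ∧ nz x ^ 2 ≤ 2 * T ∧
  T / 2 * gg x < nz (mm x) ∧ nz (mm x) ≤ T * gg x}

theorem ES_fin (T X : ℝ) : (ES T X).Finite := (nz_fin X).subset fun _ hx => hx.2.2.1

theorem ES_card : ∃ C : ℝ, 0 < C ∧ ∀ T X : ℝ, 0 < T → 0 < X → ((ES T X).ncard : ℝ) ≤ C * X ^ 2 * T := by
  classical
  have K1 := KK_one
  have K0 := KK_pos
  obtain ⟨C, hC, hcov⟩ := cover (16 * KK) (by linarith)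
  obtain ⟨Cb, hCb, hbox⟩ := box
  set D : ℝ := 128 * KK * (C * (Cb * (2 * C + 2) ^ 5)) with hD
  have hD0 : 0 < D := by positivity
  refine ⟨D / (1 - 2 ^ (-(2 : ℝ))), ?_, ?_⟩
  · have : (2 : ℝ) ^ (-(2 : ℝ)) = 1 / 4 := by
      rw [Real.rpow_neg (by norm_num), Real.rpow_two]
      norm_num
    rw [this]
    positivity
  intro T X hT hX
  have key := dyadic (fun X => ((ES T X).ncard : ℝ)) (D * T) 2 X (by positivity) (by norm_num)
    (fun X hX1 => by
      have : ES T X = ∅ := by
        ext x
        simp only [ES, Set.mem_ofPred_eq, Set.mem_empty_iff_false, iff_false]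
        rintro ⟨h1, -, h2, -⟩
        linarith [one_le_nz' h1]
      simp [this])
    (fun X hX1 _ => by
      have hX0 : 0 < X := by linarith
      -- the difference
      have hsub : ES T X ⊆ ES T (X / 2) ∪ (ES T X \ ES T (X / 2)) := by
        intro x hx
        by_cases h : x ∈ ES T (X / 2)
        · exact Or.inl h
        · exact Or.inr ⟨hx, h⟩
      have hfD : (ES T X \ ES T (X / 2)).Finite := (ES_fin T X).subset Set.sdiff_subset
      have h1 : (ES T X).ncard ≤ (ES T (X / 2)).ncard + (ES T X \ ES T (X / 2)).ncard :=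
        (Set.ncard_le_ncard hsub ((ES_fin _ _).union hfD)).trans (Set.ncard_union_le _ _)
      have h2 : ((ES T X \ ES T (X / 2)).ncard : ℝ) ≤ D * T * X ^ 2 := by
        have hmem : ∀ x ∈ ES T X \ ES T (X / 2), X / 2 < nz x := by
          rintro x ⟨⟨a1, a2, a3, a4, a5, a6⟩, hx⟩
          by_contra hc
          exact hx ⟨a1, a2, not_lt.1 hc, a4, a5, a6⟩
        by_cases hXT : 8 * T < X ^ 2
        · have : ES T X \ ES T (X / 2) = ∅ := by
            ext x
            simp only [Set.mem_empty_iff_false, iff_false]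
            intro hx
            have e1 := hmem x hx
            have e2 := hx.1.2.2.2.1
            nlinarith
          rw [this, Set.ncard_empty, Nat.cast_zero]
          positivity
        · push Not at hXT
          set Q : ℕ := ⌊2 * KK * X ^ 3 / T⌋₊ with hQ
          have hQr : (Q : ℝ) ≤ 2 * KK * X ^ 3 / T := Nat.floor_le (by positivity)
          have hBex : ∀ q ∈ Finset.Icc 1 Q, ∃ B : Finset (Fin 5 → ℝ),
              (B.card : ℝ) ≤ C * (X / (8 * q * T / X ^ 2)) ^ 3 ∧
              ∀ u : Fin 5 → ℝ, X / 2 ≤ ‖u‖ → ‖u‖ ≤ X → ‖mm u‖ ≤ 8 * q * T / X ^ 2 * X ^ 2 →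
                ∃ a ∈ B, ‖u - a‖ ≤ C * (8 * q * T / X ^ 2) := by
            intro q hq
            rw [Finset.mem_Icc] at hq
            have hq1 : (1 : ℝ) ≤ q := by exact_mod_cast hq.1
            have hqQ : (q : ℝ) ≤ 2 * KK * X ^ 3 / T := le_trans (by exact_mod_cast hq.2) hQr
            refine hcov X _ hX0 (by positivity) ?_
            rw [le_div_iff₀ hT] at hqQ
            rw [div_le_iff₀ (by positivity)]
            nlinarith
          choose! B hB1 hB2 using hBex
          let F : ℕ → Set (Fin 5 → ℤ) := fun q => {x | q ∈ Finset.Icc 1 Q ∧ ∃ a ∈ B q,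
            (∀ i, |(x i : ℝ) - a i| ≤ C * (8 * q * T / X ^ 2)) ∧ red q x ∈ CC q}
          let G : ℕ → (Fin 5 → ℝ) → Set (Fin 5 → ℤ) := fun q a =>
            {x | (∀ i, |(x i : ℝ) - a i| ≤ C * (8 * q * T / X ^ 2)) ∧ red q x ∈ CC q}
          have hGfin : ∀ q ∈ Finset.Icc 1 Q, ∀ a, (G q a).Finite ∧ ((G q a).ncard : ℝ) ≤
              Cb * (2 * C + 2) ^ 5 * (8 * q * T / X ^ 2) ^ 5 / q ^ 2 := by
            intro q hq a
            rw [Finset.mem_Icc] at hq
            have hq1 : (1 : ℝ) ≤ q := by exact_mod_cast hq.1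
            have hq0 : (0 : ℝ) < q := by linarith
            obtain ⟨b1, b2⟩ := hbox q hq.1 a (C * (8 * q * T / X ^ 2)) (by positivity)
            refine ⟨b1, b2.trans ?_⟩
            have hR : (q : ℝ) ≤ 8 * q * T / X ^ 2 := by
              rw [le_div_iff₀ (by positivity)]
              nlinarith
            have e1 : 2 * (C * (8 * q * T / X ^ 2)) / q + 2 ≤
                (2 * C + 2) * (8 * q * T / X ^ 2) / q := by
              rw [div_add' _ _ _ hq0.ne', div_le_div_iff_of_pos_right hq0]
              nlinarith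
            calc Cb * ((2 * (C * (8 * q * T / X ^ 2)) / q + 2) ^ 5 * (q : ℝ) ^ 3)
                ≤ Cb * (((2 * C + 2) * (8 * q * T / X ^ 2) / q) ^ 5 * (q : ℝ) ^ 3) :=
                  mul_le_mul_of_nonneg_left (mul_le_mul_of_nonneg_right
                    (pow_le_pow_left₀ (by positivity) e1 5) (by positivity)) hCb.le
              _ = _ := by
                  field_simp
          have hcover : (hfD.toFinset : Set (Fin 5 → ℤ)) ⊆
              ⋃ q ∈ Finset.Icc 1 Q, ⋃ a ∈ B q, G q a := by
            intro x hx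
            rw [Set.Finite.coe_toFinset] at hx
            have e1 := hmem x hx
            obtain ⟨⟨a1, a2, a3, a4, a5, a6⟩, -⟩ := hx
            have hg := gg_pos a2
            have hg1 : (1 : ℝ) ≤ gg x := by exact_mod_cast hg
            have hle := nz_mm_le x
            have hnz : 0 ≤ nz x := nz_nonneg x
            have h3 : nz x ^ 3 ≤ X ^ 3 := pow_le_pow_left₀ hnz a3 3
            have hgQ : gg x ≤ Q := by
              apply Nat.le_floor
              rw [le_div_iff₀ hT]
              nlinarith [mul_le_mul_of_nonneg_left h3 K0.le]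
            have hgI : gg x ∈ Finset.Icc 1 Q := Finset.mem_Icc.2 ⟨hg, hgQ⟩
            obtain ⟨a, ha, hua⟩ := hB2 (gg x) hgI (rv x) e1.le a3 (by
              rw [← rv_mm]
              have e2 : ‖rv (mm x)‖ = nz (mm x) := rfl
              rw [e2, div_mul_cancel₀ _ (by positivity)]
              nlinarith)
            simp only [Set.mem_iUnion]
            refine ⟨gg x, hgI, a, ha, fun i => ?_, red_mem_CC a1 dvd_rfl⟩
            exact (abs_le_norm (rv x - a) i).trans hua
          have hbi : hfD.toFinset ⊆ (Finset.Icc 1 Q).attach.biUnion fun q =>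
              (B q.1).biUnion fun a => ((hGfin q.1 q.2 a).1).toFinset := by
            intro x hx
            have := hcover hx
            simp only [Set.mem_iUnion] at this
            obtain ⟨q, hq, a, ha, hxa⟩ := this
            simp only [Finset.mem_biUnion, Finset.mem_attach, true_and, Subtype.exists]
            exact ⟨q, hq, a, ha, by simpa using hxa⟩
          rw [Set.ncard_eq_toFinset_card _ hfD]
          have hc1 := Finset.card_le_card hbi
          have hc2 : (((Finset.Icc 1 Q).attach.biUnion fun q =>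
              (B q.1).biUnion fun a => ((hGfin q.1 q.2 a).1).toFinset).card : ℝ) ≤
              ∑ q ∈ (Finset.Icc 1 Q).attach, 64 * (C * (Cb * (2 * C + 2) ^ 5)) * (T ^ 2 / X) := by
            refine le_trans (b := ((∑ q ∈ (Finset.Icc 1 Q).attach, ((B q.1).biUnion fun a =>
              ((hGfin q.1 q.2 a).1).toFinset).card : ℕ) : ℝ))
              (by exact_mod_cast Finset.card_biUnion_le) ?_
            push_cast
            refine Finset.sum_le_sum fun q _ => ?_
            have hq := Finset.mem_Icc.1 q.2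
            have hq1 : (1 : ℝ) ≤ (q.1 : ℕ) := by exact_mod_cast hq.1
            have hq0 : (0 : ℝ) < (q.1 : ℕ) := by linarith
            refine le_trans (b := ((∑ a ∈ B q.1, (((hGfin q.1 q.2 a).1).toFinset).card : ℕ) : ℝ))
              (by exact_mod_cast Finset.card_biUnion_le) ?_
            push_cast
            calc ∑ a ∈ B q.1, ((((hGfin q.1 q.2 a).1).toFinset).card : ℝ)
                ≤ ∑ a ∈ B q.1, Cb * (2 * C + 2) ^ 5 * (8 * (q.1 : ℕ) * T / X ^ 2) ^ 5 / (q.1 : ℕ) ^ 2 := by
                  refine Finset.sum_le_sum fun a _ => ?_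
                  rw [← Set.ncard_eq_toFinset_card _ (hGfin q.1 q.2 a).1]
                  exact (hGfin q.1 q.2 a).2
              _ = (B q.1).card * (Cb * (2 * C + 2) ^ 5 * (8 * (q.1 : ℕ) * T / X ^ 2) ^ 5 /
                    (q.1 : ℕ) ^ 2) := by
                  rw [Finset.sum_const, nsmul_eq_mul]
              _ ≤ C * (X / (8 * (q.1 : ℕ) * T / X ^ 2)) ^ 3 *
                    (Cb * (2 * C + 2) ^ 5 * (8 * (q.1 : ℕ) * T / X ^ 2) ^ 5 / (q.1 : ℕ) ^ 2) :=
                  mul_le_mul_of_nonneg_right (hB1 q.1 q.2) (by positivity)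
              _ = 64 * (C * (Cb * (2 * C + 2) ^ 5)) * (T ^ 2 / X) := by
                  field_simp
                  ring
          rw [Finset.sum_const, Finset.card_attach, Nat.card_Icc, Nat.add_sub_cancel,
            nsmul_eq_mul] at hc2
          calc ((hfD.toFinset.card : ℕ) : ℝ) ≤ _ := by exact_mod_cast hc1
            _ ≤ _ := hc2
            _ ≤ 2 * KK * X ^ 3 / T * (64 * (C * (Cb * (2 * C + 2) ^ 5)) * (T ^ 2 / X)) :=
                mul_le_mul_of_nonneg_right hQr (by positivity)
            _ = D * T * X ^ 2 := by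
                rw [hD]
                field_simp
                ring
      have h3 : ((ES T X).ncard : ℝ) ≤ (ES T (X / 2)).ncard + (ES T X \ ES T (X / 2)).ncard := by
        exact_mod_cast h1
      rw [Real.rpow_two]
      linarith) X hX le_rfl
  rw [Real.rpow_two] at key
  calc _ ≤ _ := key
    _ = _ := by ring

/-- the planes of the shell with a short vector off the cone -/
def AS (T X : ℝ) : Set (Fin 5 × Fin 5 → ℤ) := {w | w ∈ VV ∧ T / 2 < nz w ∧ nz w ≤ T ∧
  ∃ x, Unimod x ∧ In w x ∧ mm x ≠ 0 ∧ nz x ≤ X ∧ nz x ^ 2 ≤ 2 * T}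

theorem AS_card : ∃ C : ℝ, 0 < C ∧ ∀ T X : ℝ, 0 < T → 0 < X → ((AS T X).ncard : ℝ) ≤ C * X ^ 2 * T := by
  classical
  obtain ⟨C, hC, h⟩ := ES_card
  refine ⟨2 * C, by positivity, fun T X hT hX => ?_⟩
  let f : (Fin 5 → ℤ) → (Fin 5 × Fin 5 → ℤ) := fun x p => mm x p / gg x
  have hsub : AS T X ⊆ f '' (ES T X) ∪ (fun x => -f x) '' (ES T X) := by
    rintro w ⟨hw, h1, h2, x, hx, hin, hm, h3, h4⟩
    obtain ⟨c, hc, hg⟩ := mm_of_in hw hin
    have hc0 : c ≠ 0 := by
      rintro rfl
      rw [zero_smul] at hc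
      exact hm hc
    have hg0 := gg_pos hm
    have hg1 : (0 : ℝ) < gg x := by exact_mod_cast hg0
    have hmem : x ∈ ES T X := by
      have e := nz_mm hw hin
      refine ⟨hx, hm, h3, h4, ?_, ?_⟩
      · rw [e, mul_comm]
        exact mul_lt_mul_of_pos_left h1 hg1
      · rw [e, mul_comm]
        exact mul_le_mul_of_nonneg_right h2 hg1.le
    rcases Int.natAbs_eq c with h5 | h5
    · left
      refine ⟨x, hmem, ?_⟩
      funext p
      simp only [f]
      rw [hc, hg, ← h5, Pi.smul_apply, smul_eq_mul, Int.mul_ediv_cancel_left _ hc0]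
    · right
      refine ⟨x, hmem, ?_⟩
      funext p
      simp only [f, Pi.neg_apply]
      have h6 : (c.natAbs : ℤ) = -c := by omega
      rw [hc, hg, h6, Pi.smul_apply, smul_eq_mul, Int.ediv_neg, Int.mul_ediv_cancel_left _ hc0,
        neg_neg]
  have h1 : (AS T X).ncard ≤ (ES T X).ncard + (ES T X).ncard := by
    refine (Set.ncard_le_ncard hsub (((ES_fin T X).image _).union ((ES_fin T X).image _))).trans ?_
    refine (Set.ncard_union_le _ _).trans ?_
    exact add_le_add (Set.ncard_image_le (ES_fin T X)) (Set.ncard_image_le (ES_fin T X))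
  have h2 := h T X hT hX
  have h3 : ((AS T X).ncard : ℝ) ≤ (ES T X).ncard + (ES T X).ncard := by exact_mod_cast h1
  linarith

end Pool.Agent.KS6_30.VA
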