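import Pool.Agent.KS6_30.VA.Ln2

set_option autoImplicit false
set_option linter.unusedSectionVars false
set_option linter.style.haveILetI false

namespace Pool.Agent.KS6_30.VA

open Finset
open Tern

variable [Tern]

theorem sum_rpow (M : ℕ) : ∑ m ∈ Finset.Icc 1 M, (m : ℝ) ^ (-(1 / 6) : ℝ) ≤
    6 / 5 * (M : ℝ) ^ (5 / 6 : ℝ) := by
  induction M with
  | zero => simp
  | succ M ih =>
    rw [Finset.sum_Icc_succ_top (by omega)]
    set N : ℝ := ((M + 1 : ℕ) : ℝ) with hN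
    have hN0 : 0 < N := by rw [hN]; positivity
    have hN1 : 1 ≤ N := by
      rw [hN]
      push_cast
      linarith [(Nat.cast_nonneg M : (0 : ℝ) ≤ M)]
    have hM : (M : ℝ) = N * (1 + -(1 / N)) := by
      rw [hN]
      push_cast
      field_simp
      ring
    have hinv : 1 / N ≤ 1 := (div_le_one hN0).2 hN1
    have h1 : (M : ℝ) ^ (5 / 6 : ℝ) ≤ N ^ (5 / 6 : ℝ) * (1 + 5 / 6 * -(1 / N)) := by
      rw [hM, Real.mul_rpow hN0.le (by linarith)]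
      refine mul_le_mul_of_nonneg_left ?_ (by positivity)
      exact rpow_one_add_le_one_add_mul_self (by linarith) (by norm_num) (by norm_num)
    have h2 : N ^ (5 / 6 : ℝ) * (1 / N) = N ^ (-(1 / 6) : ℝ) := by
      rw [one_div, ← Real.rpow_neg_one, ← Real.rpow_add hN0]
      norm_num
    nlinarith

theorem tl : S_TL := by
  classical
  obtain ⟨C1, hC1, h1⟩ := fp
  obtain ⟨C2, hC2, h2⟩ := sum_planes
  have K1 := KK_one
  have K0 := KK_pos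
  refine ⟨C1 * C2 * (2 * KK ^ 2), by positivity, fun X G n hX hG hn => ?_⟩
  have hn' : (1 : ℝ) ≤ n := by exact_mod_cast hn
  have hn0 : (0 : ℝ) < n := by linarith
  set Z := {z : ℕ × (Fin 5 → ℤ) | G ≤ z.1 ∧ Unimod z.2 ∧ mm z.2 ≠ 0 ∧ nz z.2 ≤ X ∧
    z.1 * n ∣ gg z.2} with hZ
  have hZpos : ∀ z ∈ Z, 1 ≤ z.1 := by
    rintro z ⟨a, -⟩
    by_contra hc
    have : z.1 = 0 := by omega
    rw [this] at a
    simp at a
    linarith
  have hggX : ∀ z ∈ Z, (gg z.2 : ℝ) ≤ KK * X ^ 3 := by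
    rintro z ⟨a, b, c, d, e⟩
    have g0 := gg_pos c
    obtain ⟨w, hw, hmw, -⟩ := exists_plane b c
    have e1 := nz_mm_le z.2
    rw [hmw, nz_smul] at e1
    have e2 : 1 ≤ nz w := one_le_nz' hw.1
    have e3 : nz z.2 ^ 3 ≤ X ^ 3 := pow_le_pow_left₀ (nz_nonneg _) d 3
    have e4 : |((gg z.2 : ℤ) : ℝ)| = gg z.2 := by
      rw [Int.cast_natCast, abs_of_nonneg (by positivity)]
    rw [e4] at e1
    have e5 : (0 : ℝ) ≤ gg z.2 := by positivity
    have e6 := mul_le_mul_of_nonneg_left e3 K0.le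
    nlinarith
  have hZfin : Z.Finite := by
    refine ((Set.finite_Iic ⌊KK * X ^ 3⌋₊).prod (nz_fin X)).subset ?_
    intro z hz
    refine ⟨?_, hz.2.2.2.1⟩
    rw [Set.mem_Iic]
    apply Nat.le_floor
    refine le_trans ?_ (hggX z hz)
    have := Nat.le_of_dvd (gg_pos hz.2.2.1) hz.2.2.2.2
    have h3 : z.1 ≤ z.1 * n := Nat.le_mul_of_pos_right _ hn
    exact_mod_cast h3.trans this
  refine ⟨hZfin, ?_⟩
  set τ : ℝ := KK * X ^ 3 / (G * n) with hτ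
  have hτ0 : 0 < τ := by positivity
  have hWfin : {w ∈ VV | nz w ≤ τ}.Finite := (nz_fin τ).subset fun w hw => hw.2
  have hSfin : ∀ (w : Fin 5 × Fin 5 → ℤ) (m : ℕ),
      {x | Unimod x ∧ In w x ∧ nz x ≤ X ∧ mm x ≠ 0 ∧ n * m ∣ gg x}.Finite := fun w m =>
    (nz_fin X).subset fun x hx => hx.2.2.1
  -- the map
  let f : ℕ × (Fin 5 → ℤ) → ℕ × (Fin 5 → ℤ) := fun z => (gg z.2 / (z.1 * n), z.2)
  have hfinj : Set.InjOn f Z := by
    intro z hz z' hz' h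
    have e1 := (Prod.ext_iff.1 h).1
    have e2 : z.2 = z'.2 := (Prod.ext_iff.1 h).2
    simp only [f] at e1
    have d1 := Nat.div_mul_cancel hz.2.2.2.2
    have d2 := Nat.div_mul_cancel hz'.2.2.2.2
    rw [e1, e2] at d1
    have d1 := d1.trans d2.symm
    have p1 := gg_pos hz'.2.2.1
    have p2 : 0 < gg z'.2 / (z'.1 * n) := by
      rcases Nat.eq_zero_or_pos (gg z'.2 / (z'.1 * n)) with h0 | h0
      · rw [h0, zero_mul] at d2
        omega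
      · exact h0
    have d3 := Nat.eq_of_mul_eq_mul_left p2 d1
    have d4 := Nat.eq_of_mul_eq_mul_right (show 0 < n by omega) d3
    exact Prod.ext d4 e2
  have hmap : hZfin.toFinset.image f ⊆ hWfin.toFinset.biUnion fun w =>
      (Finset.Icc 1 ⌊τ / nz w⌋₊).biUnion fun m => ((hSfin w m).toFinset.image fun x => (m, x)) := by
    intro y hy
    rw [Finset.mem_image] at hy
    obtain ⟨z, hz, rfl⟩ := hy
    rw [Set.Finite.mem_toFinset] at hz
    have hz1 := hZpos z hz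
    obtain ⟨a, b, c, d, e⟩ := id hz
    obtain ⟨w, hw, hmw, hin⟩ := exists_plane b c
    have hwpos : 0 < nz w := lt_of_lt_of_le one_pos (one_le_nz' hw.1)
    have g0 := gg_pos c
    set m := gg z.2 / (z.1 * n) with hm
    have hmul : m * (z.1 * n) = gg z.2 := Nat.div_mul_cancel e
    have hm1 : 1 ≤ m := by
      rcases Nat.eq_zero_or_pos m with h0 | h0
      · rw [h0, zero_mul] at hmul
        omega
      · exact h0
    have hle : (m : ℝ) * nz w ≤ τ := by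
      have e1 := nz_mm_le z.2
      rw [nz_mm hw hin, ← hmul] at e1
      have e3 : nz z.2 ^ 3 ≤ X ^ 3 := pow_le_pow_left₀ (nz_nonneg _) d 3
      rw [hτ, le_div_iff₀ (by positivity)]
      push_cast at e1
      have e4 : (m : ℝ) * nz w * (G * n) ≤ (m : ℝ) * nz w * (z.1 * n) := by
        refine mul_le_mul_of_nonneg_left (mul_le_mul_of_nonneg_right a hn0.le) (by positivity)
      calc (m : ℝ) * nz w * (G * n) ≤ (m : ℝ) * nz w * (z.1 * n) := e4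
        _ = m * (z.1 * n) * nz w := by ring
        _ ≤ KK * nz z.2 ^ 3 := e1
        _ ≤ KK * X ^ 3 := mul_le_mul_of_nonneg_left e3 K0.le
    simp only [Finset.mem_biUnion, Set.Finite.mem_toFinset, Finset.mem_Icc, Finset.mem_image]
    refine ⟨w, ⟨hw, ?_⟩, m, ⟨hm1, ?_⟩, z.2, ⟨b, hin, d, c, ?_⟩, rfl⟩
    · have : (1 : ℝ) ≤ m := by exact_mod_cast hm1
      nlinarith
    · apply Nat.le_floor
      rw [le_div_iff₀ hwpos]
      exact hle
    · refine ⟨z.1, ?_⟩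
      rw [← hmul]
      ring
  have hc1 : Z.ncard ≤ ∑ w ∈ hWfin.toFinset, ∑ m ∈ Finset.Icc 1 ⌊τ / nz w⌋₊,
      {x | Unimod x ∧ In w x ∧ nz x ≤ X ∧ mm x ≠ 0 ∧ n * m ∣ gg x}.ncard := by
    rw [Set.ncard_eq_toFinset_card _ hZfin, ← Finset.card_image_of_injOn (f := f)
      (by simpa using hfinj)]
    refine (Finset.card_le_card hmap).trans (Finset.card_biUnion_le.trans ?_)
    refine Finset.sum_le_sum fun w _ => Finset.card_biUnion_le.trans ?_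
    refine Finset.sum_le_sum fun m _ => Finset.card_image_le.trans ?_
    rw [Set.ncard_eq_toFinset_card _ (hSfin w m)]
  set E : ℝ := 2 * X ^ 2 / (τ * (n : ℝ) ^ (1 / 6 : ℝ)) + 1 with hE
  have hE0 : 0 < E := by positivity
  have hc2 : ∀ w ∈ hWfin.toFinset, (∑ m ∈ Finset.Icc 1 ⌊τ / nz w⌋₊,
      ({x | Unimod x ∧ In w x ∧ nz x ≤ X ∧ mm x ≠ 0 ∧ n * m ∣ gg x}.ncard : ℝ)) ≤
      C1 * E * (τ / nz w) ^ (11 / 6 : ℝ) := by
    intro w hw
    rw [Set.Finite.mem_toFinset] at hw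
    have hwpos : 0 < nz w := lt_of_lt_of_le one_pos (one_le_nz' hw.1.1)
    set r := τ / nz w with hr
    have hr1 : 1 ≤ r := (one_le_div hwpos).2 hw.2
    have hr0 : 0 < r := by linarith
    have e1 : ∀ m ∈ Finset.Icc 1 ⌊r⌋₊,
        ({x | Unimod x ∧ In w x ∧ nz x ≤ X ∧ mm x ≠ 0 ∧ n * m ∣ gg x}.ncard : ℝ) ≤
        C1 * (X ^ 2 / (nz w * (n : ℝ) ^ (1 / 6 : ℝ)) * (m : ℝ) ^ (-(1 / 6) : ℝ) + 1) := by
      intro m hm
      rw [Finset.mem_Icc] at hm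
      have hm0 : (0 : ℝ) < m := by exact_mod_cast hm.1
      refine (h1 w hw.1 (n * m) X (Nat.mul_pos hn hm.1) hX.le).trans ?_
      refine le_of_eq ?_
      push_cast
      rw [Real.mul_rpow hn0.le hm0.le, Real.rpow_neg hm0.le]
      field_simp
    refine (Finset.sum_le_sum e1).trans ?_
    rw [← Finset.mul_sum, Finset.sum_add_distrib, ← Finset.mul_sum, Finset.sum_const,
      Nat.card_Icc, Nat.add_sub_cancel, nsmul_eq_mul, mul_one, mul_assoc]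
    refine mul_le_mul_of_nonneg_left ?_ hC1.le
    have hfl : ((⌊r⌋₊ : ℕ) : ℝ) ≤ r := Nat.floor_le hr0.le
    have e2 : ∑ m ∈ Finset.Icc 1 ⌊r⌋₊, (m : ℝ) ^ (-(1 / 6) : ℝ) ≤ 2 * r ^ (5 / 6 : ℝ) := by
      refine (sum_rpow _).trans ?_
      have := Real.rpow_le_rpow (by positivity) hfl (by norm_num : (0 : ℝ) ≤ 5 / 6)
      have h0 : 0 ≤ r ^ (5 / 6 : ℝ) := by positivity
      linarith
    have e3 : r ≤ r ^ (11 / 6 : ℝ) := by
      conv_lhs => rw [← Real.rpow_one r]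
      exact Real.rpow_le_rpow_of_exponent_le hr1 (by norm_num)
    have e4 : nz w = τ / r := by
      rw [hr]
      field_simp
    have e5 : r * r ^ (5 / 6 : ℝ) = r ^ (11 / 6 : ℝ) := by
      conv_lhs => rw [← Real.rpow_one r]
      rw [← Real.rpow_mul hr0.le, one_mul, ← Real.rpow_add hr0]
      norm_num
    calc X ^ 2 / (nz w * (n : ℝ) ^ (1 / 6 : ℝ)) * ∑ m ∈ Finset.Icc 1 ⌊r⌋₊, (m : ℝ) ^ (-(1 / 6) : ℝ) +
          ((⌊r⌋₊ : ℕ) : ℝ)
        ≤ X ^ 2 / (nz w * (n : ℝ) ^ (1 / 6 : ℝ)) * (2 * r ^ (5 / 6 : ℝ)) + r ^ (11 / 6 : ℝ) := by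
          refine add_le_add (mul_le_mul_of_nonneg_left e2 (by positivity)) (by linarith)
      _ = 2 * X ^ 2 / (τ * (n : ℝ) ^ (1 / 6 : ℝ)) * (r * r ^ (5 / 6 : ℝ)) + r ^ (11 / 6 : ℝ) := by
          rw [e4]
          field_simp
      _ = E * r ^ (11 / 6 : ℝ) := by
          rw [e5, hE]
          ring
  have hc3 : (Z.ncard : ℝ) ≤ C1 * E * (C2 * τ ^ 2) := by
    have e1 : (Z.ncard : ℝ) ≤ ∑ w ∈ hWfin.toFinset, ∑ m ∈ Finset.Icc 1 ⌊τ / nz w⌋₊,
        ({x | Unimod x ∧ In w x ∧ nz x ≤ X ∧ mm x ≠ 0 ∧ n * m ∣ gg x}.ncard : ℝ) := by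
      exact_mod_cast hc1
    refine e1.trans ((Finset.sum_le_sum hc2).trans ?_)
    rw [← Finset.mul_sum]
    refine mul_le_mul_of_nonneg_left ?_ (by positivity)
    have := h2 τ hτ0
    rwa [finsum_mem_eq_finite_toFinset_sum _ hWfin] at this
  refine hc3.trans (le_of_eq_of_le (b := C1 * C2 * (2 * X ^ 2 * τ / (n : ℝ) ^ (1 / 6 : ℝ) + τ ^ 2))
    ?_ ?_)
  · rw [hE]
    field_simp
  · have e1 : 2 * X ^ 2 * τ / (n : ℝ) ^ (1 / 6 : ℝ) = 2 * KK * (X ^ 5 / (G * (n : ℝ) ^ (7 / 6 : ℝ))) := by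
      have : (n : ℝ) ^ (7 / 6 : ℝ) = n * (n : ℝ) ^ (1 / 6 : ℝ) := by
        conv_rhs => rw [← Real.rpow_one (n : ℝ)]
        rw [← Real.rpow_mul hn0.le, one_mul, ← Real.rpow_add hn0]
        norm_num
      rw [this, hτ]
      field_simp
    have e2 : τ ^ 2 = KK ^ 2 * (X ^ 6 / (G ^ 2 * (n : ℝ) ^ 2)) := by
      rw [hτ]
      field_simp
    rw [e1, e2]
    have p1 : 0 ≤ X ^ 5 / (G * (n : ℝ) ^ (7 / 6 : ℝ)) := by positivity
    have p2 : 0 ≤ X ^ 6 / (G ^ 2 * (n : ℝ) ^ 2) := by positivity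
    have p3 : KK ≤ KK ^ 2 := by nlinarith
    have p4 : 2 * KK * (X ^ 5 / (G * (n : ℝ) ^ (7 / 6 : ℝ))) ≤
        2 * KK ^ 2 * (X ^ 5 / (G * (n : ℝ) ^ (7 / 6 : ℝ))) :=
      mul_le_mul_of_nonneg_right (by linarith) p1
    have p5 : KK ^ 2 * (X ^ 6 / (G ^ 2 * (n : ℝ) ^ 2)) ≤ 2 * KK ^ 2 * (X ^ 6 / (G ^ 2 * (n : ℝ) ^ 2)) :=
      mul_le_mul_of_nonneg_right (by nlinarith) p2
    calc C1 * C2 * (2 * KK * (X ^ 5 / (G * (n : ℝ) ^ (7 / 6 : ℝ))) + KK ^ 2 * (X ^ 6 / (G ^ 2 * (n : ℝ) ^ 2)))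
        ≤ C1 * C2 * (2 * KK ^ 2 * (X ^ 5 / (G * (n : ℝ) ^ (7 / 6 : ℝ)) + X ^ 6 / (G ^ 2 * (n : ℝ) ^ 2))) := by
          refine mul_le_mul_of_nonneg_left ?_ (by positivity)
          linarith
      _ = _ := by ring

end Pool.Agent.KS6_30.VA
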