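import Pool.Agent.KS6_30.VA.STyp2

set_option autoImplicit false
set_option linter.unusedSectionVars false
set_option linter.style.haveILetI false

namespace Pool.Agent.KS6_30.VA

open Finset
open Tern

variable [Tern]

theorem in_smul_iff {w : Fin 5 × Fin 5 → ℤ} {x : Fin 5 → ℤ} {g : ℤ} (hg : g ≠ 0) :
    In w (g • x) ↔ In w x := by
  constructor
  · intro h i j k
    have := h i j k
    simp only [Pi.smul_apply, smul_eq_mul] at this
    have e : g * (x i * w (j, k) - x j * w (i, k) + x k * w (i, j)) = 0 := by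
      linear_combination this
    exact (mul_eq_zero.1 e).resolve_left hg
  · intro h i j k
    have := h i j k
    simp only [Pi.smul_apply, smul_eq_mul]
    linear_combination g * this

/-- reduced bases -/
theorem exists_reduced {w : Fin 5 × Fin 5 → ℤ} (hw : w ∈ VV) : ∃ x y : Fin 5 → ℤ, Unimod x ∧
    In w x ∧ In w y ∧ Iso x y ∧ w = wedge x y ∧ nz x ≤ nz y ∧ nz x * nz y ≤ 2 * nz w ∧
    ∀ z, z ≠ 0 → In w z → nz x ≤ nz z := by
  obtain ⟨hu, x0, y0, hiso, hwe⟩ := id hw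
  have hx0 : Unimod x0 := unimod_of_wedge (y := y0) (hwe ▸ hu)
  have hin0 : In w x0 := by
    rw [hwe]
    intro i j k
    simp only [wedge]
    ring
  -- a shortest vector
  obtain ⟨x1, ⟨h1, h2, -⟩, hmin⟩ := Set.exists_min_image {z | z ≠ 0 ∧ In w z ∧ nz z ≤ nz x0} nz
    ((nz_fin (nz x0)).subset fun z hz => hz.2.2) ⟨x0, unimod_ne hx0, hin0, le_rfl⟩
  have hmin' : ∀ z, z ≠ 0 → In w z → nz x1 ≤ nz z := by
    intro z hz hin
    by_cases hle : nz z ≤ nz x0
    · exact hmin z ⟨hz, hin, hle⟩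
    · exact (hmin x0 ⟨unimod_ne hx0, hin0, le_rfl⟩).trans (not_le.1 hle).le
  obtain ⟨g, x, hg, hx, hgx⟩ := exists_prim h1
  have hinx : In w x := (in_smul_iff hg.ne').1 (hgx ▸ h2)
  have hminx : ∀ z, z ≠ 0 → In w z → nz x ≤ nz z := by
    intro z hz hin
    refine le_trans ?_ (hmin' z hz hin)
    rw [hgx, nz_smul]
    have : (1 : ℝ) ≤ |(g : ℝ)| := by exact_mod_cast Int.one_le_abs hg.ne'
    nlinarith [nz_nonneg x]
  obtain ⟨y1, hiso1, hw1⟩ := VV_basis hw hx hinx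
  obtain ⟨i, hi⟩ := exists_nz x
  have hxpos : 0 < nz x := lt_of_lt_of_le one_pos (one_le_nz' hx)
  have hxi : (x i : ℝ) ≠ 0 := by
    intro h
    rw [h, abs_zero] at hi
    linarith
  set k : ℤ := round ((y1 i : ℝ) / x i) with hk
  set y : Fin 5 → ℤ := (-k) • x + (1 : ℤ) • y1 with hy
  have hwy : w = wedge x y := by
    have := wedge_comb 1 0 (-k) 1 x y1
    simp only [one_smul, zero_smul, add_zero, mul_one, zero_mul, sub_zero] at this
    rw [hy, one_smul, this, hw1]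
  have hisoy : Iso x y := by
    have := iso_comb 1 0 (-k) 1 hiso1
    simp only [one_smul, zero_smul, add_zero] at this
    rw [hy, one_smul]
    exact this
  have hiny : In w y := by
    rw [hwy]
    intro i j k
    simp only [wedge]
    ring
  have hy0 : y ≠ 0 := by
    intro h
    have : w = 0 := by
      rw [hwy, h]
      funext p
      simp [wedge]
    exact unimod_ne hu this
  have hxy := hminx y hy0 hiny
  have hyi : |(y i : ℝ)| ≤ nz x / 2 := by
    have e1 : (y i : ℝ) = ((y1 i : ℝ) / x i - k) * x i := by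
      rw [hy]
      simp only [Pi.add_apply, Pi.smul_apply, smul_eq_mul, one_mul]
      push_cast
      field_simp
      ring
    rw [e1, abs_mul, ← hi]
    have := abs_sub_round ((y1 i : ℝ) / x i)
    rw [← hk] at this
    nlinarith
  obtain ⟨j, hj⟩ := exists_nz y
  refine ⟨x, y, hx, hinx, hiny, hisoy, hwy, hxy, ?_, hminx⟩
  have e2 := le_nz w (i, j)
  have e3 : ((w (i, j) : ℤ) : ℝ) = (x i : ℝ) * y j - x j * y i := by
    rw [hwy]
    simp [wedge]
  rw [e3] at e2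
  have e4 : |(x i : ℝ) * y j| = nz x * nz y := by rw [abs_mul, ← hi, ← hj]
  have e5 : |(x j : ℝ) * y i| ≤ nz x * (nz x / 2) := abs_mul_le (le_nz x j) hyi
  have e6 : |(x i : ℝ) * y j| ≤ |(x i : ℝ) * y j - x j * y i| + |(x j : ℝ) * y i| := by
    have := abs_add_le ((x i : ℝ) * y j - x j * y i) ((x j : ℝ) * y i)
    simpa using this
  rw [e4] at e6
  nlinarith

/-- the planes with a short vector off the cone -/
theorem short_card : ∃ C : ℝ, 0 < C ∧ ∀ T : ℝ, 0 < T →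
    ({w | w ∈ VV ∧ nz w ≤ T ∧ ∃ x, Unimod x ∧ In w x ∧ mm x ≠ 0 ∧ nz x ^ 2 ≤ 2 * nz w}.ncard : ℝ) ≤
      C * T ^ 2 := by
  obtain ⟨C, hC, h⟩ := AS_card
  refine ⟨2 * C / (1 - 2 ^ (-(2 : ℝ))), ?_, fun T hT => ?_⟩
  · have : (2 : ℝ) ^ (-(2 : ℝ)) = 1 / 4 := by
      rw [Real.rpow_neg (by norm_num), Real.rpow_two]
      norm_num
    rw [this]
    positivity
  set S : ℝ → Set (Fin 5 × Fin 5 → ℤ) := fun T => {w | w ∈ VV ∧ nz w ≤ T ∧
    ∃ x, Unimod x ∧ In w x ∧ mm x ≠ 0 ∧ nz x ^ 2 ≤ 2 * nz w} with hS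
  have hfin : ∀ T, (S T).Finite := fun T => (nz_fin T).subset fun w hw => hw.2.1
  have key := dyadic (fun T => ((S T).ncard : ℝ)) (2 * C) 2 T (by positivity) (by norm_num)
    (fun X hX1 => by
      have : S X = ∅ := by
        ext x
        simp only [hS, Set.mem_ofPred_eq, Set.mem_empty_iff_false, iff_false]
        rintro ⟨h1, h2, -⟩
        linarith [one_le_nz' h1.1]
      simp [this])
    (fun X hX1 _ => by
      have hX0 : 0 < X := by linarith
      have hsub : S X ⊆ S (X / 2) ∪ AS X (Real.sqrt (2 * X)) := by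
        rintro w ⟨h1, h2, x, hx, h3, h4, h5⟩
        by_cases hle : nz w ≤ X / 2
        · exact Or.inl ⟨h1, hle, x, hx, h3, h4, h5⟩
        · refine Or.inr ⟨h1, not_le.1 hle, h2, x, hx, h3, h4, ?_, by linarith⟩
          rw [Real.le_sqrt (nz_nonneg x) (by positivity)]
          linarith
      have hf2 : (AS X (Real.sqrt (2 * X))).Finite := (nz_fin X).subset fun w hw => hw.2.2.1
      have h1 : (S X).ncard ≤ (S (X / 2)).ncard + (AS X (Real.sqrt (2 * X))).ncard :=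
        (Set.ncard_le_ncard hsub ((hfin _).union hf2)).trans (Set.ncard_union_le _ _)
      have h2 := h X (Real.sqrt (2 * X)) hX0 (by positivity)
      rw [Real.sq_sqrt (by positivity)] at h2
      have h3 : ((S X).ncard : ℝ) ≤ (S (X / 2)).ncard + (AS X (Real.sqrt (2 * X))).ncard := by
        exact_mod_cast h1
      rw [Real.rpow_two]
      nlinarith) T hT le_rfl
  rw [Real.rpow_two] at key
  exact key

theorem UU_mm {w : Fin 5 × Fin 5 → ℤ} (h : UU w) {x : Fin 5 → ℤ} (hx : Unimod x) (hin : In w x) :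
    mm x ≠ 0 := h x hx hin

theorem sk : S_SK := by
  obtain ⟨C, hC, h⟩ := AS_card
  refine ⟨C / (1 - 2 ^ (-(1 : ℝ))), ?_, fun T ξ hT hξ => ?_⟩
  · have : (2 : ℝ) ^ (-(1 : ℝ)) = 1 / 2 := by
      rw [Real.rpow_neg (by norm_num), Real.rpow_one]
      norm_num
    rw [this]
    positivity
  have hT0 : 0 < T := by linarith
  set S : ℝ → Set (Fin 5 × Fin 5 → ℤ) := fun X => {w ∈ VV | nz w ≤ X ∧ UU w ∧
    ∃ x, Unimod x ∧ In w x ∧ nz x ≤ ξ * √T} with hS
  have hfin : ∀ X, (S X).Finite := fun X => (nz_fin X).subset fun w hw => hw.2.1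
  have key := dyadic (fun X => ((S X).ncard : ℝ)) (C * (ξ ^ 2 * T)) 1 T (by positivity) (by norm_num)
    (fun X hX1 => by
      have : S X = ∅ := by
        ext x
        simp only [hS, Set.mem_ofPred_eq, Set.mem_empty_iff_false, iff_false]
        rintro ⟨h1, h2, -⟩
        linarith [one_le_nz' h1.1]
      simp [this])
    (fun X hX1 _ => by
      have hX0 : 0 < X := by linarith
      have hsub : S X ⊆ S (X / 2) ∪ AS X (ξ * √T) := by
        rintro w ⟨h1, h2, h3, x, hx, h4, h5⟩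
        by_cases hle : nz w ≤ X / 2
        · exact Or.inl ⟨h1, hle, h3, x, hx, h4, h5⟩
        · obtain ⟨x', y', hx', hin', -, -, -, a1, a2, a3⟩ := exists_reduced h1
          refine Or.inr ⟨h1, not_le.1 hle, h2, x', hx', hin', h3 x' hx' hin', ?_, ?_⟩
          · exact (a3 x (unimod_ne hx) h4).trans h5
          · have := nz_nonneg x'
            nlinarith
      have hf2 : (AS X (ξ * √T)).Finite := (nz_fin X).subset fun w hw => hw.2.2.1
      have h1 : (S X).ncard ≤ (S (X / 2)).ncard + (AS X (ξ * √T)).ncard :=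
        (Set.ncard_le_ncard hsub ((hfin _).union hf2)).trans (Set.ncard_union_le _ _)
      have h2 := h X (ξ * √T) hX0 (by positivity)
      rw [mul_pow, Real.sq_sqrt hT0.le] at h2
      have h3 : ((S X).ncard : ℝ) ≤ (S (X / 2)).ncard + (AS X (ξ * √T)).ncard := by
        exact_mod_cast h1
      rw [Real.rpow_one]
      nlinarith) T hT0 le_rfl
  rw [Real.rpow_one] at key
  calc _ ≤ _ := key
    _ = _ := by ring

/-- spheres -/
theorem sphere_card (n : ℕ) (hn : 1 ≤ n) : {v : Fin 3 → ℤ | nz v = n}.Finite ∧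
    ({v : Fin 3 → ℤ | nz v = n}.ncard : ℝ) ≤ 26 * (n : ℝ) ^ 2 := by
  classical
  have hfin : {v : Fin 3 → ℤ | nz v = n}.Finite := (nz_fin (n : ℝ)).subset fun v hv => by
    rw [Set.mem_ofPred_eq] at hv ⊢
    exact hv.le
  refine ⟨hfin, ?_⟩
  let B : ℕ → Finset (Fin 3 → ℤ) := fun m => Fintype.piFinset fun _ => Finset.Icc (-(m : ℤ)) m
  have hB : ∀ m v, v ∈ B m ↔ nz v ≤ m := by
    intro m v
    rw [nz_le_iff (by positivity), Fintype.mem_piFinset]
    refine forall_congr' fun i => ?_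
    rw [Finset.mem_Icc, ← abs_le]
    exact_mod_cast Iff.rfl
  have hBc : ∀ m, (B m).card = (2 * m + 1) ^ 3 := by
    intro m
    rw [Fintype.card_piFinset, Finset.prod_const, Int.card_Icc, Finset.card_univ, Fintype.card_fin]
    congr 1
    omega
  obtain ⟨m, rfl⟩ : ∃ m, n = m + 1 := ⟨n - 1, by omega⟩
  have hsub : B m ⊆ B (m + 1) := by
    intro v hv
    rw [hB] at hv ⊢
    push_cast
    linarith
  have hset : {v : Fin 3 → ℤ | nz v = (m + 1 : ℕ)} ⊆ ((B (m + 1) \ B m : Finset (Fin 3 → ℤ)) :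
      Set (Fin 3 → ℤ)) := by
    intro v hv
    rw [Set.mem_ofPred_eq] at hv
    rw [Finset.mem_coe, Finset.mem_sdiff, hB, hB, hv]
    refine ⟨le_rfl, ?_⟩
    push_cast
    linarith
  have h1 := Set.ncard_le_ncard hset (Finset.finite_toSet _)
  rw [Set.ncard_coe_finset, Finset.card_sdiff_of_subset hsub, hBc, hBc] at h1
  have h2 : (2 * (m + 1) + 1) ^ 3 - (2 * m + 1) ^ 3 ≤ 26 * (m + 1) ^ 2 := by
    rw [Nat.sub_le_iff_le_add]
    nlinarith [sq_nonneg m]
  exact_mod_cast h1.trans h2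

theorem exists_nat_nz {ι : Type*} [Fintype ι] [Nonempty ι] (v : ι → ℤ) : ∃ n : ℕ, nz v = n := by
  obtain ⟨i, hi⟩ := exists_nz v
  refine ⟨(v i).natAbs, ?_⟩
  rw [hi, Nat.cast_natAbs, Int.cast_abs]

theorem sum_inv_sq (N : ℕ) : ∑ n ∈ Finset.Icc 1 N, 1 / (n : ℝ) ^ 2 ≤ 2 := by
  rcases Nat.eq_zero_or_pos N with rfl | hN
  · simp
  · have key : ∑ n ∈ Finset.Icc 1 N, 1 / (n : ℝ) ^ 2 ≤ 2 - 1 / (N : ℝ) := by
      induction N, hN using Nat.le_induction with
      | base => norm_num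
      | succ N hN ih =>
        rw [Finset.sum_Icc_succ_top (by omega)]
        have hN' : (1 : ℝ) ≤ N := by exact_mod_cast hN
        have h : 1 / ((N + 1 : ℕ) : ℝ) ^ 2 ≤ 1 / (N : ℝ) - 1 / ((N + 1 : ℕ) : ℝ) := by
          push_cast
          rw [div_sub_div _ _ (by positivity) (by positivity), div_le_div_iff₀ (by positivity)
            (by positivity)]
          nlinarith
        linarith
    have : (0 : ℝ) ≤ 1 / (N : ℝ) := by positivity
    linarith

/-- the planes through the points of the cone -/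
def PS (N0 N1 : ℕ) (T : ℝ) : Set (Fin 5 × Fin 5 → ℤ) := {w | w ∈ VV ∧ nz w ≤ T ∧
  ∃ v : Fin 3 → ℤ, Unimod v ∧ In w (pf v) ∧ N0 ≤ nz v ∧ nz v ≤ N1}

theorem PS_card : ∃ C : ℝ, 0 < C ∧ ∀ (N0 N1 : ℕ) (T : ℝ), 1 ≤ N0 → 0 < T →
    ((PS N0 N1 T).ncard : ℝ) ≤ C * (T ^ 2 / N0 + N1 ^ 3) := by
  classical
  obtain ⟨C, hC, h⟩ := PV_card
  refine ⟨52 * C, by positivity, fun N0 N1 T hN0 hT => ?_⟩
  have hN0' : (1 : ℝ) ≤ N0 := by exact_mod_cast hN0
  have hfin : (PS N0 N1 T).Finite := (nz_fin T).subset fun w hw => hw.2.1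
  have hPVf : ∀ v, (PV v T).Finite := fun v => (nz_fin T).subset fun w hw => hw.2.1
  have hsf : ∀ n : ℕ, {v : Fin 3 → ℤ | Unimod v ∧ nz v = n}.Finite := fun n =>
    (nz_fin (n : ℝ)).subset fun v hv => by
      rw [Set.mem_ofPred_eq] at hv ⊢
      exact hv.2.le
  have hsub : hfin.toFinset ⊆ (Finset.Icc N0 N1).biUnion fun n =>
      (hsf n).toFinset.biUnion fun v => (hPVf v).toFinset := by
    intro w hw
    rw [Set.Finite.mem_toFinset] at hw
    obtain ⟨h1, h2, v, hv, h3, h4, h5⟩ := hw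
    obtain ⟨n, hn⟩ := exists_nat_nz v
    rw [hn] at h4 h5
    simp only [Finset.mem_biUnion, Set.Finite.mem_toFinset, Finset.mem_Icc, Set.mem_ofPred_eq]
    exact ⟨n, ⟨by exact_mod_cast h4, by exact_mod_cast h5⟩, v, ⟨hv, hn⟩, h1, h2, h3⟩
  rw [Set.ncard_eq_toFinset_card _ hfin]
  have hc1 := (Finset.card_le_card hsub).trans Finset.card_biUnion_le
  have hc2 : ∀ n ∈ Finset.Icc N0 N1, ((((hsf n).toFinset.biUnion fun v => (hPVf v).toFinset).card : ℕ)
      : ℝ) ≤ 26 * C * (T ^ 2 / N0 * (1 / (n : ℝ) ^ 2) + (n : ℝ) ^ 2) := by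
    intro n hn
    rw [Finset.mem_Icc] at hn
    have hn1 : 1 ≤ n := hN0.trans hn.1
    have hn1' : (1 : ℝ) ≤ n := by exact_mod_cast hn1
    have hn0' : (N0 : ℝ) ≤ n := by exact_mod_cast hn.1
    have e1 : ((((hsf n).toFinset.biUnion fun v => (hPVf v).toFinset).card : ℕ) : ℝ) ≤
        ∑ v ∈ (hsf n).toFinset, C * (T ^ 2 / (n : ℝ) ^ 5 + 1) := by
      refine le_trans (b := ((∑ v ∈ (hsf n).toFinset, ((hPVf v).toFinset).card : ℕ) : ℝ))
        (by exact_mod_cast Finset.card_biUnion_le) ?_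
      push_cast
      refine Finset.sum_le_sum fun v hv => ?_
      rw [Set.Finite.mem_toFinset] at hv
      rw [← Set.ncard_eq_toFinset_card _ (hPVf v)]
      have := h v hv.1 T hT
      rwa [hv.2] at this
    refine e1.trans ?_
    rw [Finset.sum_const, nsmul_eq_mul]
    obtain ⟨s1, s2⟩ := sphere_card n hn1
    have e2 : (((hsf n).toFinset.card : ℕ) : ℝ) ≤ 26 * (n : ℝ) ^ 2 := by
      refine le_trans ?_ s2
      rw [← Set.ncard_eq_toFinset_card _ (hsf n)]
      have : {v : Fin 3 → ℤ | Unimod v ∧ nz v = n} ⊆ {v : Fin 3 → ℤ | nz v = n} := fun v hv => hv.2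
      exact_mod_cast Set.ncard_le_ncard this s1
    have e3 : T ^ 2 / (n : ℝ) ^ 5 ≤ T ^ 2 / N0 * (1 / (n : ℝ) ^ 4) := by
      rw [div_mul_div_comm, mul_one]
      refine div_le_div_of_nonneg_left (by positivity) (by positivity) ?_
      calc (N0 : ℝ) * (n : ℝ) ^ 4 ≤ n * (n : ℝ) ^ 4 := mul_le_mul_of_nonneg_right hn0' (by positivity)
        _ = (n : ℝ) ^ 5 := by ring
    calc (((hsf n).toFinset.card : ℕ) : ℝ) * (C * (T ^ 2 / (n : ℝ) ^ 5 + 1))
        ≤ 26 * (n : ℝ) ^ 2 * (C * (T ^ 2 / N0 * (1 / (n : ℝ) ^ 4) + 1)) := by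
          refine mul_le_mul e2 (mul_le_mul_of_nonneg_left (by linarith) hC.le) (by positivity)
            (by positivity)
      _ = _ := by
          field_simp
  have hc3 : (hfin.toFinset.card : ℝ) ≤ ∑ n ∈ Finset.Icc N0 N1,
      26 * C * (T ^ 2 / N0 * (1 / (n : ℝ) ^ 2) + (n : ℝ) ^ 2) := by
    refine le_trans (b := ((∑ n ∈ Finset.Icc N0 N1, (((hsf n).toFinset.biUnion fun v =>
      (hPVf v).toFinset).card) : ℕ) : ℝ)) (by exact_mod_cast hc1) ?_
    push_cast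
    exact Finset.sum_le_sum hc2
  have hc4 : ∑ n ∈ Finset.Icc N0 N1, 1 / (n : ℝ) ^ 2 ≤ 2 := by
    refine le_trans (Finset.sum_le_sum_of_subset_of_nonneg ?_ fun _ _ _ => by positivity)
      (sum_inv_sq N1)
    exact Finset.Icc_subset_Icc_left hN0
  have hc5 : ∑ n ∈ Finset.Icc N0 N1, (n : ℝ) ^ 2 ≤ (N1 : ℝ) ^ 3 := by
    calc ∑ n ∈ Finset.Icc N0 N1, (n : ℝ) ^ 2 ≤ ∑ n ∈ Finset.Icc 1 N1, (n : ℝ) ^ 2 :=
          Finset.sum_le_sum_of_subset_of_nonneg (Finset.Icc_subset_Icc_left hN0)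
            fun _ _ _ => by positivity
      _ ≤ ∑ n ∈ Finset.Icc 1 N1, (N1 : ℝ) ^ 2 := by
          refine Finset.sum_le_sum fun n hn => ?_
          rw [Finset.mem_Icc] at hn
          exact pow_le_pow_left₀ (by positivity) (by exact_mod_cast hn.2) 2
      _ = (N1 : ℝ) ^ 3 := by
          rw [Finset.sum_const, Nat.card_Icc, Nat.add_sub_cancel, nsmul_eq_mul]
          ring
  rw [← Finset.mul_sum, Finset.sum_add_distrib, ← Finset.mul_sum] at hc3
  have hTN : 0 ≤ T ^ 2 / (N0 : ℝ) := by positivity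
  calc _ ≤ _ := hc3
    _ ≤ 26 * C * (T ^ 2 / N0 * 2 + (N1 : ℝ) ^ 3) := by
      refine mul_le_mul_of_nonneg_left (add_le_add (mul_le_mul_of_nonneg_left hc4 hTN) hc5)
        (by positivity)
    _ ≤ _ := by
      have : (0 : ℝ) ≤ (N1 : ℝ) ^ 3 := by positivity
      nlinarith

theorem rv_pf (v : Fin 3 → ℤ) : rv (pf v) = pf (rv v) := by
  funext i
  fin_cases i <;> simp [rv, pf]

theorem nz_pf_ge (v : Fin 3 → ℤ) : nz v ^ 2 ≤ KK * nz (pf v) := by
  have := norm_pf_ge (rv v)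
  rwa [← rv_pf] at this

theorem nz_pf_le (v : Fin 3 → ℤ) : nz (pf v) ≤ KK * nz v ^ 2 := by
  have := norm_pf_le (rv v)
  rwa [← rv_pf] at this

theorem DD_abs_one : 1 ≤ |((DD : ℤ) : ℝ)| := by exact_mod_cast Int.one_le_abs DD_ne

theorem nz_cone {x : Fin 5 → ℤ} {v : Fin 3 → ℤ} {k : ℤ} (hk : k ∣ DD) (h : pf v = k • x) :
    nz v ^ 2 ≤ KK * |((DD : ℤ) : ℝ)| * nz x := by
  have h1 := nz_pf_ge v
  rw [h, nz_smul] at h1
  calc nz v ^ 2 ≤ KK * (|(k : ℝ)| * nz x) := h1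
    _ ≤ KK * (|((DD : ℤ) : ℝ)| * nz x) := mul_le_mul_of_nonneg_left
      (mul_le_mul_of_nonneg_right (dvd_DD_le hk) (nz_nonneg x)) KK_pos.le
    _ = _ := by ring

theorem nz_neg {ι : Type*} [Fintype ι] (x : ι → ℤ) : nz (-x) = nz x := by
  have := nz_smul (-1) x
  simpa using this

theorem in_neg {w : Fin 5 × Fin 5 → ℤ} {x : Fin 5 → ℤ} (h : In w (-x)) : In w x := by
  have e : -x = (-1 : ℤ) • x := by simp
  rw [e] at h
  exact (in_smul_iff (by norm_num)).1 h

theorem ub : S_UB := by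
  obtain ⟨C1, hC1, h1⟩ := short_card
  obtain ⟨C2, hC2, h2⟩ := PS_card
  have K1 := KK_one
  have K0 := KK_pos
  have D1 := DD_abs_one
  set Δ : ℝ := |((DD : ℤ) : ℝ)| with hΔ
  set M : ℝ := 2 * (KK * Δ) ^ 2 with hM
  have hM0 : 0 < M := by positivity
  refine ⟨C1 + C2 * (1 + M), by positivity, fun T hT => ?_⟩
  have hT0 : 0 < T := by linarith
  have hfin : {w ∈ VV | nz w ≤ T}.Finite := (nz_fin T).subset fun w hw => hw.2
  refine ⟨hfin, ?_⟩
  set S := {w | w ∈ VV ∧ nz w ≤ T ∧ ∃ x, Unimod x ∧ In w x ∧ mm x ≠ 0 ∧ nz x ^ 2 ≤ 2 * nz w}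
  set N : ℕ := ⌊(M * T) ^ (1 / 4 : ℝ)⌋₊ with hN
  have hN4 : (N : ℝ) ^ 4 ≤ M * T := by
    have e1 : (N : ℝ) ≤ (M * T) ^ (1 / 4 : ℝ) := Nat.floor_le (by positivity)
    calc (N : ℝ) ^ 4 ≤ ((M * T) ^ (1 / 4 : ℝ)) ^ 4 := pow_le_pow_left₀ (by positivity) e1 4
      _ = M * T := by
        rw [← Real.rpow_natCast, ← Real.rpow_mul (by positivity)]
        norm_num
  have hN3 : (N : ℝ) ^ 3 ≤ M * T ^ 2 := by
    have e1 : (N : ℝ) ^ 3 ≤ (N : ℝ) ^ 4 ∨ N = 0 := by
      rcases Nat.eq_zero_or_pos N with h | h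
      · exact Or.inr h
      · left
        exact pow_le_pow_right₀ (by exact_mod_cast h) (by norm_num)
    have hTT : T ≤ T ^ 2 := by nlinarith
    rcases e1 with e1 | e1
    · exact (e1.trans hN4).trans (mul_le_mul_of_nonneg_left hTT hM0.le)
    · rw [e1]
      simp
      positivity
  have hsub : {w ∈ VV | nz w ≤ T} ⊆ S ∪ PS 1 N T := by
    rintro w ⟨hw, hwT⟩
    obtain ⟨x, y, hx, hin, -, -, -, a1, a2, -⟩ := exists_reduced hw
    have hx2 : nz x ^ 2 ≤ 2 * nz w := by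
      have := nz_nonneg x
      nlinarith
    by_cases hm : mm x = 0
    · right
      obtain ⟨v, hv, k, hk, hkD, hxv⟩ := cone_pf hx hm
      have hinv : In w (pf v) := by
        rw [hxv]
        exact (in_smul_iff hk).2 hin
      have hv2 := nz_cone hkD hxv
      refine ⟨hw, hwT, v, hv, hinv, by exact_mod_cast one_le_nz' hv, ?_⟩
      obtain ⟨n, hn⟩ := exists_nat_nz v
      rw [hn]
      have : n ≤ N := by
        apply Nat.le_floor
        rw [← hn]
        have e1 : nz v ^ 4 ≤ M * T := by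
          calc nz v ^ 4 = (nz v ^ 2) ^ 2 := by ring
            _ ≤ (KK * Δ * nz x) ^ 2 := pow_le_pow_left₀ (by positivity) hv2 2
            _ = (KK * Δ) ^ 2 * nz x ^ 2 := by ring
            _ ≤ (KK * Δ) ^ 2 * (2 * T) := mul_le_mul_of_nonneg_left (by linarith) (by positivity)
            _ = M * T := by rw [hM]; ring
        calc nz v = (nz v ^ 4) ^ (1 / 4 : ℝ) := by
              rw [← Real.rpow_natCast, ← Real.rpow_mul (nz_nonneg v)]
              norm_num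
          _ ≤ _ := Real.rpow_le_rpow (by positivity) e1 (by norm_num)
      exact_mod_cast this
    · exact Or.inl ⟨hw, hwT, x, hx, hin, hm, hx2⟩
  have hSf : S.Finite := (nz_fin T).subset fun w hw => hw.2.1
  have hPf : (PS 1 N T).Finite := (nz_fin T).subset fun w hw => hw.2.1
  have e1 : {w ∈ VV | nz w ≤ T}.ncard ≤ S.ncard + (PS 1 N T).ncard :=
    (Set.ncard_le_ncard hsub (hSf.union hPf)).trans (Set.ncard_union_le _ _)
  have e2 : ({w ∈ VV | nz w ≤ T}.ncard : ℝ) ≤ S.ncard + (PS 1 N T).ncard := by exact_mod_cast e1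
  have e3 := h1 T hT0
  have e4 := h2 1 N T le_rfl hT0
  calc _ ≤ _ := e2
    _ ≤ C1 * T ^ 2 + C2 * (T ^ 2 / (1 : ℕ) + N ^ 3) := add_le_add e3 e4
    _ ≤ C1 * T ^ 2 + C2 * (T ^ 2 / (1 : ℕ) + M * T ^ 2) := by
      have := mul_le_mul_of_nonneg_left (add_le_add_right hN3 (T ^ 2 / (1 : ℕ))) hC2.le
      linarith
    _ = _ := by
      push_cast
      ring

end Pool.Agent.KS6_30.VA
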